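import Pool.Agent.Work.MP_a5655b_lc.AlgDefs

/-!
# Module PTAlg

The algorithm runs in polynomial time.

Proof. Step by step for `adjL`, `nb`, `el`, `gE`, `gad`, `req`, `usable`, `useE`, `growL`, `reachL`,
`decide0`, with the rules for `PTime` in `Pool.Agent.Work.PolyTime` (`Basic`, `Lists`, `More`,
`Pairs`; most are tagged `fun_prop`): `PTime.filter`, `PTime.map`, `PTime.flatMap`, `PTime.all`,
`PTime.any` (for the functions with an argument: the pair `(x, b)`), `PTime.memB`, `PTime.range`,
`PTime.natLt`, `PTime.natAdd`, `PTime.natMul`, `PTime.eq`, `PTime.append`, `ptime_pairsOf`,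
`ptime_coverB`. For the fold in `reachL` use the rule `PTime.foldlGrow` or the rule for folds with
bounded states (`Pool.Agent.Work.PolyTime.Fold`; the state is a sublist of `List.range n`, so its
size is bounded; see `ptime_search` or the other folds in `Pool.Agent.Work.PolyTime.Blossom.PT`
for examples of folds over `List.range`).
-/

set_option autoImplicit false

namespace Pool.Agent.Work.MP_a5655b_lc

open Pool.Agent.Work.PolyTime
open Pool.Agent.Work.PolyTime.Blossom (Gr pairsOf coverB)

section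

variable {α : Type} [Code α]

@[fun_prop]
theorem ptime_adjL {L : α → List (ℕ × ℕ)} {v a : α → ℕ} (hL : PTime L) (hv : PTime v)
    (ha : PTime a) : PTime (fun x => adjL (L x) (v x) (a x)) := by
  unfold adjL
  have h1 : PTime (fun x => memB (v x, a x) (L x)) := PTime.memB (by fun_prop) hL
  have h2 : PTime (fun x => memB (a x, v x) (L x)) := PTime.memB (by fun_prop) hL
  fun_prop

@[fun_prop]
theorem ptime_nb {n : α → ℕ} {L : α → List (ℕ × ℕ)} {v : α → ℕ} (hn : PTime n) (hL : PTime L)
    (hv : PTime v) : PTime (fun x => nb (n x) (L x) (v x)) := by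
  unfold nb
  refine PTime.filter (p := fun x a => adjL (L x) (v x) a) (PTime.range hn) ?_
  exact ptime_adjL (hL.comp PTime.fst) (hv.comp PTime.fst) PTime.snd

@[fun_prop]
theorem ptime_el {n : α → ℕ} {L : α → List (ℕ × ℕ)} (hn : PTime n) (hL : PTime L) :
    PTime (fun x => el (n x) (L x)) := by
  unfold el
  refine PTime.filter (p := fun x (p : ℕ × ℕ) => decide (p.1 < p.2) && adjL (L x) p.1 p.2)
    (by fun_prop) ?_
  have h1 : PTime (fun y : α × (ℕ × ℕ) => adjL (L y.1) y.2.1 y.2.2) :=
    ptime_adjL (hL.comp PTime.fst) (by fun_prop) (by fun_prop)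
  fun_prop

@[fun_prop]
theorem ptime_gE {x : α → Inp} {q : α → ℕ × ℕ} (hx : PTime x) (hq : PTime q) :
    PTime (fun a => gE (x a) (q a)) := by
  unfold gE
  have hn : PTime (fun a => (x a).1) := by fun_prop
  have hR : PTime (fun a => (x a).2.1) := by fun_prop
  have hB : PTime (fun a => (x a).2.2) := by fun_prop
  refine PTime.append ?_ (PTime.append ?_ (PTime.append ?_ ?_))
  · refine PTime.map (f := fun a (p : ℕ × ℕ) => (p.1 * (x a).1 + p.2, p.2 * (x a).1 + p.1))
      (PTime.filter (p := fun a (p : ℕ × ℕ) => !decide (p = q a)) (by fun_prop) ?_) ?_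
    · have h1 : PTime (fun y : α × (ℕ × ℕ) => decide (y.2 = q y.1)) :=
        PTime.eq PTime.snd (hq.comp PTime.fst)
      fun_prop
    · have h1 : PTime (fun y : α × (ℕ × ℕ) => (x y.1).1) := hn.comp PTime.fst
      fun_prop
  · refine PTime.flatMap (f := fun a v => (nb (x a).1 (x a).2.1 v).flatMap fun c =>
      (nb (x a).1 (x a).2.2 v).map fun b => (v * (x a).1 + c, v * (x a).1 + b))
      (PTime.range hn) ?_
    refine PTime.flatMap (l := fun y : α × ℕ => nb (x y.1).1 (x y.1).2.1 y.2)
      (f := fun (y : α × ℕ) c => (nb (x y.1).1 (x y.1).2.2 y.2).map fun b =>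
        (y.2 * (x y.1).1 + c, y.2 * (x y.1).1 + b)) ?_ ?_
    · exact ptime_nb (hn.comp PTime.fst) (hR.comp PTime.fst) PTime.snd
    · refine PTime.map (l := fun z : (α × ℕ) × ℕ => nb (x z.1.1).1 (x z.1.1).2.2 z.1.2)
        (f := fun (z : (α × ℕ) × ℕ) b => (z.1.2 * (x z.1.1).1 + z.2, z.1.2 * (x z.1.1).1 + b))
        ?_ ?_
      · exact ptime_nb (hn.comp (PTime.fst.comp PTime.fst)) (hB.comp (PTime.fst.comp PTime.fst))
          (by fun_prop)
      · have h1 : PTime (fun y : ((α × ℕ) × ℕ) × ℕ => (x y.1.1.1).1) :=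
          hn.comp (PTime.fst.comp (PTime.fst.comp PTime.fst))
        fun_prop
  · refine PTime.flatMap (f := fun a v => (nb (x a).1 (x a).2.1 v).map fun c =>
      ((x a).1 * (x a).1 + v, v * (x a).1 + c)) (PTime.range hn) ?_
    refine PTime.map (l := fun y : α × ℕ => nb (x y.1).1 (x y.1).2.1 y.2)
      (f := fun (y : α × ℕ) c => ((x y.1).1 * (x y.1).1 + y.2, y.2 * (x y.1).1 + c)) ?_ ?_
    · exact ptime_nb (hn.comp PTime.fst) (hR.comp PTime.fst) PTime.snd
    · have h1 : PTime (fun z : (α × ℕ) × ℕ => (x z.1.1).1) := hn.comp (PTime.fst.comp PTime.fst)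
      fun_prop
  · refine PTime.flatMap (f := fun a v => (nb (x a).1 (x a).2.2 v).map fun c =>
      ((x a).1 * (x a).1 + (x a).1 + v, v * (x a).1 + c)) (PTime.range hn) ?_
    refine PTime.map (l := fun y : α × ℕ => nb (x y.1).1 (x y.1).2.2 y.2)
      (f := fun (y : α × ℕ) c => ((x y.1).1 * (x y.1).1 + (x y.1).1 + y.2,
        y.2 * (x y.1).1 + c)) ?_ ?_
    · exact ptime_nb (hn.comp PTime.fst) (hB.comp PTime.fst) PTime.snd
    · have h1 : PTime (fun z : (α × ℕ) × ℕ => (x z.1.1).1) := hn.comp (PTime.fst.comp PTime.fst)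
      fun_prop

@[fun_prop]
theorem ptime_gad {x : α → Inp} {q : α → ℕ × ℕ} (hx : PTime x) (hq : PTime q) :
    PTime (fun a => gad (x a) (q a)) := by
  unfold gad
  fun_prop

@[fun_prop]
theorem ptime_req {x : α → Inp} (hx : PTime x) : PTime (fun a => req (x a)) := by
  unfold req
  have hn : PTime (fun a => (x a).1) := by fun_prop
  have hR : PTime (fun a => (x a).2.1) := by fun_prop
  have hB : PTime (fun a => (x a).2.2) := by fun_prop
  refine PTime.append (PTime.append ?_ ?_) ?_
  · refine PTime.flatMap (f := fun a v => (nb (x a).1 (x a).2.1 v ++ nb (x a).1 (x a).2.2 v).map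
      fun c => v * (x a).1 + c) (PTime.range hn) ?_
    refine PTime.map (l := fun y : α × ℕ => nb (x y.1).1 (x y.1).2.1 y.2 ++
      nb (x y.1).1 (x y.1).2.2 y.2) (f := fun (y : α × ℕ) c => y.2 * (x y.1).1 + c) ?_ ?_
    · exact PTime.append (ptime_nb (hn.comp PTime.fst) (hR.comp PTime.fst) PTime.snd)
        (ptime_nb (hn.comp PTime.fst) (hB.comp PTime.fst) PTime.snd)
    · have h1 : PTime (fun z : (α × ℕ) × ℕ => (x z.1.1).1) := hn.comp (PTime.fst.comp PTime.fst)
      fun_prop
  · refine PTime.map (f := fun a v => (x a).1 * (x a).1 + v) (PTime.range hn) ?_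
    have h1 : PTime (fun z : α × ℕ => (x z.1).1) := hn.comp PTime.fst
    fun_prop
  · refine PTime.map (f := fun a v => (x a).1 * (x a).1 + (x a).1 + v) (PTime.range hn) ?_
    have h1 : PTime (fun z : α × ℕ => (x z.1).1) := hn.comp PTime.fst
    fun_prop

end

theorem ptime_usable {α : Type} [Code α] {x : α → Inp} {q : α → ℕ × ℕ} (hx : PTime x)
    (hq : PTime q) : PTime (fun a => usable (x a) (q a)) := by
  unfold usable
  exact Blossom.ptime_coverB (ptime_gad hx hq) (ptime_req hx)

theorem ptime_growL {α : Type} [Code α] {n : α → ℕ} {E : α → List (ℕ × ℕ)} {S : α → List ℕ}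
    (hn : PTime n) (hE : PTime E) (hS : PTime S) :
    PTime (fun a => growL (n a) (E a) (S a)) := by
  unfold growL
  refine PTime.filter (p := fun a v => memB v (S a) || (E a).any fun e =>
    (decide (e.1 = v) && memB e.2 (S a)) || (decide (e.2 = v) && memB e.1 (S a)))
    (PTime.range hn) ?_
  have h1 : PTime (fun y : α × ℕ => memB y.2 (S y.1)) :=
    PTime.memB PTime.snd (hS.comp PTime.fst)
  have h2 : PTime (fun y : α × ℕ => (E y.1).any fun e =>
      (decide (e.1 = y.2) && memB e.2 (S y.1)) || (decide (e.2 = y.2) && memB e.1 (S y.1))) := by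
    refine PTime.any (l := fun y : α × ℕ => E y.1) (p := fun (y : α × ℕ) (e : ℕ × ℕ) =>
      (decide (e.1 = y.2) && memB e.2 (S y.1)) || (decide (e.2 = y.2) && memB e.1 (S y.1)))
      (hE.comp PTime.fst) ?_
    have h3 : PTime (fun z : (α × ℕ) × (ℕ × ℕ) => memB z.2.2 (S z.1.1)) :=
      PTime.memB (by fun_prop) (hS.comp (PTime.fst.comp PTime.fst))
    have h4 : PTime (fun z : (α × ℕ) × (ℕ × ℕ) => memB z.2.1 (S z.1.1)) :=
      PTime.memB (by fun_prop) (hS.comp (PTime.fst.comp PTime.fst))
    fun_prop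
  fun_prop

theorem sz_growL_le (n : ℕ) (E : List (ℕ × ℕ)) (S : List ℕ) :
    sz (growL n E S) ≤ 4 + n * (2 + 2 * n) := by
  have h1 : ∀ a ∈ growL n E S, sz a ≤ 1 + 2 * n := by
    intro a ha
    unfold growL at ha
    have h2 := List.mem_range.1 (List.mem_filter.1 ha).1
    rw [sz_nat]
    omega
  refine (sz_list_le _ _ h1).trans ?_
  have h2 : (growL n E S).length ≤ n := by
    unfold growL
    exact (List.length_filter_le _ _).trans (by simp)
  have h3 := Nat.mul_le_mul_right (1 + (1 + 2 * n)) h2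
  have h4 : n * (1 + (1 + 2 * n)) = n * (2 + 2 * n) := by ring
  omega

theorem ptime_reachL {α : Type} [Code α] {n : α → ℕ} {E : α → List (ℕ × ℕ)} (hn : PTime n)
    (hE : PTime E) : PTime (fun a => reachL (n a) (E a)) := by
  unfold reachL
  have hpb : PB n := Blossom.pb_nat hn
  refine PTime.foldl (l := fun a => List.range (n a)) (s := fun _ => [0])
    (f := fun y : α × List ℕ × ℕ => growL (n y.1) (E y.1) y.2.1) (PTime.range hn)
    (by fun_prop) ?_ (B := fun a => 4 + n a * (2 + 2 * n a)) ?_ ?_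
  · exact ptime_growL (hn.comp PTime.fst) (hE.comp PTime.fst) (by fun_prop)
  · exact (PB.const 4).add (hpb.mul ((PB.const 2).add ((PB.const 2).mul hpb)))
  · intro a l' _
    have key : ∀ (l' : List ℕ) (S : List ℕ), sz S ≤ 4 + n a * (2 + 2 * n a) →
        sz (l'.foldl (fun s _ => growL (n a) (E a) s) S) ≤ 4 + n a * (2 + 2 * n a) := by
      intro l'
      induction l' with
      | nil => intro S h; exact h
      | cons b l' ih => intro S h; rw [List.foldl_cons]; exact ih _ (sz_growL_le _ _ _)
    refine key l' _ ?_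
    have h0 : sz ([0] : List ℕ) ≤ 4 := by
      rw [sz_cons, sz_nat]
      have : sz ([] : List ℕ) ≤ 1 := by simp
      omega
    omega

theorem ptime_decide0 : PTime decide0 := by
  unfold decide0
  have hn : PTime (fun x : Inp => x.1) := by fun_prop
  have h1 : PTime (fun x : Inp => usable x (x.1, x.1)) := ptime_usable PTime.id (by fun_prop)
  have hE : PTime (fun x : Inp => useE x) := by
    unfold useE
    refine PTime.filter (p := fun (x : Inp) (p : ℕ × ℕ) => usable x p) (by fun_prop) ?_
    exact ptime_usable PTime.fst PTime.snd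
  have h2 : PTime (fun x : Inp => (List.range x.1).all fun v =>
      memB v (reachL x.1 (useE x))) := by
    refine PTime.all (p := fun (x : Inp) v => memB v (reachL x.1 (useE x))) (PTime.range hn) ?_
    exact PTime.memB PTime.snd (ptime_reachL (hn.comp PTime.fst) (hE.comp PTime.fst))
  fun_prop

end Pool.Agent.Work.MP_a5655b_lc
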