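import Pool.Agent.Work.MP_a5655b_lc.Defs

/-!
# Closed alternating trails: definitions

`R` and `B` are the graphs of the red and of the blue edges.
-/

set_option autoImplicit false
set_option linter.unusedSectionVars false

namespace Pool.Agent.Work.MP_a5655b_lc

variable {V : Type}

/-- `f 0, f 1, ..., f m = f 0` are the vertices of a closed alternating trail with `m` edges: no
edge is repeated, and consecutive edges, including the last and the first, have different
colours. -/
structure IsClosedAltTrail (R B : SimpleGraph V) (m : ℕ) (f : ℕ → V) : Prop where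
  pos : 0 < m
  closed : f m = f 0
  adj : ∀ i < m, R.Adj (f i) (f (i + 1)) ∨ B.Adj (f i) (f (i + 1))
  alt : ∀ i, i + 1 < m → (R.Adj (f i) (f (i + 1)) ↔ B.Adj (f (i + 1)) (f (i + 2)))
  last : R.Adj (f (m - 1)) (f m) ↔ B.Adj (f 0) (f 1)
  trail : ∀ i j, i < m → j < m → s(f i, f (i + 1)) = s(f j, f (j + 1)) → i = j

/-- There is a closed alternating trail passing through every vertex. -/
def Supereulerian (R B : SimpleGraph V) : Prop :=
  ∃ (m : ℕ) (f : ℕ → V), IsClosedAltTrail R B m f ∧ ∀ v, ∃ i < m, f i = v

/-- `F` is the set of the edges of a collection of vertex-disjoint closed alternating trails that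
cover all vertices. -/
def EulerianFactor (R B : SimpleGraph V) (F : Set (Sym2 V)) : Prop :=
  ∃ (ι : Type) (m : ι → ℕ) (f : ι → ℕ → V), (∀ i, IsClosedAltTrail R B (m i) (f i)) ∧
    (∀ v, ∃! i, ∃ j < m i, f i j = v) ∧
    F = {e | ∃ i j, j < m i ∧ e = s(f i j, f i (j + 1))}

/-- The vertices can be partitioned into independent parts, all vertices of different parts are
adjacent, no edge is red and blue, and at most one part has more than one vertex. -/
def OneBigPart (R B : SimpleGraph V) : Prop :=
  (∀ u v, R.Adj u v → ¬ B.Adj u v) ∧ ∃ part : V → ℕ,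
    (∀ u v, (R.Adj u v ∨ B.Adj u v) ↔ part u ≠ part v) ∧
    ∀ u v x y, u ≠ v → part u = part v → x ≠ y → part x = part y → part u = part x

open Classical in
/-- The colouring as a function. -/
noncomputable def chi (R B : SimpleGraph V) (e : Sym2 V) : ℤ :=
  if e ∈ R.edgeSet then 1 else if e ∈ B.edgeSet then -1 else 0

/-- A closed alternating trail in `F` with `2k` edges whose first edge is red. -/
def CT (χ : Sym2 V → ℤ) (F : Finset (Sym2 V)) (k : ℕ) (f : ℕ → V) : Prop :=
  0 < k ∧ f (2 * k) = f 0 ∧
    (∀ i < 2 * k, s(f i, f (i + 1)) ∈ F ∧ χ s(f i, f (i + 1)) = (-1) ^ i) ∧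
    ∀ i j, i < 2 * k → j < 2 * k → s(f i, f (i + 1)) = s(f j, f (j + 1)) → i = j

end Pool.Agent.Work.MP_a5655b_lc
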