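import Pool.Agent.Work.PolyTime.Blossom.PT
import Pool.Agent.Work.MP_a5655b_lc.TrailDefs

/-!
# The algorithm: definitions

An input is `(n, R, B)`: the number of vertices and the lists of the red and of the blue edges.
The vertices of the auxiliary graph are the half-edges `(v, a)` with number `v * n + a`, and for
every `v < n` the two vertices `n * n + v` and `n * n + n + v`.
-/

set_option autoImplicit false

namespace Pool.Agent.Work.MP_a5655b_lc

open Pool.Agent.Work.PolyTime
open Pool.Agent.Work.PolyTime.Blossom (Gr pairsOf coverB)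

/-- Inputs: number of vertices, red edges, blue edges. -/
abbrev Inp : Type := ℕ × (List (ℕ × ℕ) × List (ℕ × ℕ))

/-- The graph on `0, ..., n-1` with the edges of a list (loops and pairs out of range are
ignored). -/
def gr (n : ℕ) (L : List (ℕ × ℕ)) : SimpleGraph (Fin n) where
  Adj u v := u ≠ v ∧ (((u : ℕ), (v : ℕ)) ∈ L ∨ ((v : ℕ), (u : ℕ)) ∈ L)
  symm := ⟨fun _ _ h => ⟨h.1.symm, h.2.symm⟩⟩
  loopless := ⟨fun _ h => h.1 rfl⟩

/-- Is `va` an edge? -/
def adjL (L : List (ℕ × ℕ)) (v a : ℕ) : Bool :=
  !decide (v = a) && (memB (v, a) L || memB (a, v) L)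

/-- The neighbours of `v`. -/
def nb (n : ℕ) (L : List (ℕ × ℕ)) (v : ℕ) : List ℕ := (List.range n).filter fun a => adjL L v a

/-- The edges `(u, v)` with `u < v`. -/
def el (n : ℕ) (L : List (ℕ × ℕ)) : List (ℕ × ℕ) :=
  (pairsOf n).filter fun p => decide (p.1 < p.2) && adjL L p.1 p.2

/-- The edges of the auxiliary graph; the two halves of the edge `q` are not joined. -/
def gE (x : Inp) (q : ℕ × ℕ) : List (ℕ × ℕ) :=
  (((el x.1 x.2.1 ++ el x.1 x.2.2).filter fun p => !decide (p = q)).map fun p =>
    (p.1 * x.1 + p.2, p.2 * x.1 + p.1)) ++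
  (((List.range x.1).flatMap fun v => (nb x.1 x.2.1 v).flatMap fun a =>
    (nb x.1 x.2.2 v).map fun b => (v * x.1 + a, v * x.1 + b)) ++
  (((List.range x.1).flatMap fun v => (nb x.1 x.2.1 v).map fun a =>
    (x.1 * x.1 + v, v * x.1 + a)) ++
  ((List.range x.1).flatMap fun v => (nb x.1 x.2.2 v).map fun b =>
    (x.1 * x.1 + x.1 + v, v * x.1 + b))))

/-- The auxiliary graph. -/
def gad (x : Inp) (q : ℕ × ℕ) : Gr := (x.1 * x.1 + x.1 + x.1, gE x q)

/-- The vertices of the auxiliary graph that have to be matched. -/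
def req (x : Inp) : List ℕ :=
  ((List.range x.1).flatMap fun v => (nb x.1 x.2.1 v ++ nb x.1 x.2.2 v).map fun a =>
    v * x.1 + a) ++
  ((List.range x.1).map fun v => x.1 * x.1 + v) ++
  ((List.range x.1).map fun v => x.1 * x.1 + x.1 + v)

/-- Is there a factor that contains the edge `q`? (If `q` is no edge: is there a factor?) -/
def usable (x : Inp) (q : ℕ × ℕ) : Bool := coverB (gad x q) (req x)

/-- The edges that are in some factor. -/
def useE (x : Inp) : List (ℕ × ℕ) := (el x.1 x.2.1 ++ el x.1 x.2.2).filter fun p => usable x p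

/-- One step of the search. -/
def growL (n : ℕ) (E : List (ℕ × ℕ)) (S : List ℕ) : List ℕ :=
  (List.range n).filter fun v => memB v S || E.any fun e =>
    (decide (e.1 = v) && memB e.2 S) || (decide (e.2 = v) && memB e.1 S)

/-- The vertices that can be reached from the vertex `0`. -/
def reachL (n : ℕ) (E : List (ℕ × ℕ)) : List ℕ :=
  (List.range n).foldl (fun S _ => growL n E S) [0]

/-- The algorithm. -/
def decide0 (x : Inp) : Bool :=
  decide (0 < x.1) && (usable x (x.1, x.1) &&
    (List.range x.1).all fun v => memB v (reachL x.1 (useE x)))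

end Pool.Agent.Work.MP_a5655b_lc
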