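import Pool.Agent.Work.MP_a5655b_lc.StarSum

/-!
# Module Flow

The counting lemma for closed sets of states.

Proof. Let `r v` be the number of red edges of `H` at `v`; by `red_eq_blue` it is also the number of
blue edges at `v`. For sets `A, B` of vertices let `R(A,B)` be the number of ordered pairs `(u,v)`
with `u ∈ A`, `v ∈ B`, `s(u,v) ∈ H` red, and `B(A,B)` the same for blue. By `h1`,
`∑_{u ∈ Sm} r u = R(Sm, V) = R(Sm, Sp) ≤ R(V, Sp) = ∑_{v ∈ Sp} r v`, and by `h2`,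
`∑_{u ∈ Sp} r u = B(Sp, V) = B(Sp, Sm) ≤ B(V, Sm) = ∑_{v ∈ Sm} r v`. So all are equalities:
`R(V, Sp) = R(Sm, Sp)` says that every red edge `uv` of `H` with `v ∈ Sp` has `u ∈ Sm`, and
`B(V, Sm) = B(Sp, Sm)` that every blue edge `uv` with `v ∈ Sm` has `u ∈ Sp`.

(Use `classical`, finsets of pairs `Finset.univ.filter (fun p : V × V => ...)`, cards by
`Finset.card_filter`/`Fintype.sum_prod_type` or `Finset.card_eq_sum_card_fiberwise`, symmetry
`Sym2.eq_swap`, and `Finset.eq_of_subset_of_card_le`.)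
-/

set_option autoImplicit false
set_option linter.unusedSectionVars false

namespace Pool.Agent.Work.MP_a5655b_lc

variable {V : Type} [Fintype V] [DecidableEq V]

private theorem flow_aux (ρ β : V → V → ℕ) (sρ : ∀ u v, ρ u v = ρ v u)
    (sβ : ∀ u v, β u v = β v u) (hr : ∀ v, ∑ z, ρ v z = ∑ z, β v z) (A B : Finset V)
    (h1 : ∀ u ∈ A, ∀ v, v ∉ B → ρ u v = 0) (h2 : ∀ u ∈ B, ∀ v, v ∉ A → β u v = 0) :
    (∀ v ∈ A, ∀ u, u ∉ B → β u v = 0) ∧ ∀ v ∈ B, ∀ u, u ∉ A → ρ u v = 0 := by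
  have S1 : ∑ u ∈ A, ∑ v, ρ u v = ∑ u ∈ A, ∑ v ∈ B, ρ u v := by
    refine Finset.sum_congr rfl fun u hu => ?_
    exact (Finset.sum_subset (Finset.subset_univ B) (fun v _ hv => h1 u hu v hv)).symm
  have S3 : ∑ u ∈ B, ∑ v, β u v = ∑ u ∈ B, ∑ v ∈ A, β u v := by
    refine Finset.sum_congr rfl fun u hu => ?_
    exact (Finset.sum_subset (Finset.subset_univ A) (fun v _ hv => h2 u hu v hv)).symm
  have S2 : ∑ v ∈ B, ∑ u, ρ v u =
      ∑ u ∈ A, ∑ v ∈ B, ρ u v + ∑ u ∈ Aᶜ, ∑ v ∈ B, ρ u v := by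
    rw [Finset.sum_add_sum_compl, Finset.sum_comm]
    exact Finset.sum_congr rfl fun u _ => Finset.sum_congr rfl fun v _ => sρ _ _
  have S4 : ∑ v ∈ A, ∑ u, β v u =
      ∑ u ∈ B, ∑ v ∈ A, β u v + ∑ u ∈ Bᶜ, ∑ v ∈ A, β u v := by
    rw [Finset.sum_add_sum_compl, Finset.sum_comm]
    exact Finset.sum_congr rfl fun u _ => Finset.sum_congr rfl fun v _ => sβ _ _
  have e1 : ∑ u ∈ A, ∑ v, ρ u v = ∑ u ∈ A, ∑ v, β u v :=
    Finset.sum_congr rfl fun u _ => hr u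
  have e2 : ∑ u ∈ B, ∑ v, ρ u v = ∑ u ∈ B, ∑ v, β u v :=
    Finset.sum_congr rfl fun u _ => hr u
  have z1 : ∑ u ∈ Aᶜ, ∑ v ∈ B, ρ u v = 0 := by omega
  have z2 : ∑ u ∈ Bᶜ, ∑ v ∈ A, β u v = 0 := by omega
  constructor
  · intro v hv u hu
    have h3 := Finset.sum_eq_zero_iff.1 z2 u (Finset.mem_compl.2 hu)
    exact Finset.sum_eq_zero_iff.1 h3 v hv
  · intro v hv u hu
    have h3 := Finset.sum_eq_zero_iff.1 z1 u (Finset.mem_compl.2 hu)
    exact Finset.sum_eq_zero_iff.1 h3 v hv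

/-- If all red edges of `H` that start in `Sm` end in `Sp`, and all blue edges that start in `Sp`
end in `Sm`, then the blue edges that end in `Sm` start in `Sp`, and the red edges that end in `Sp`
start in `Sm`. -/
theorem flow {χ : Sym2 V → ℤ} {P : Set V} {H : Finset (Sym2 V)} (hS : Split χ P)
    (hH : Factor χ H) {Sp Sm : Set V}
    (h1 : ∀ u ∈ Sm, ∀ v, s(u, v) ∈ H → χ s(u, v) = 1 → v ∈ Sp)
    (h2 : ∀ u ∈ Sp, ∀ v, s(u, v) ∈ H → χ s(u, v) = -1 → v ∈ Sm) :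
    (∀ v ∈ Sm, ∀ u, s(u, v) ∈ H → χ s(u, v) = -1 → u ∈ Sp) ∧
      ∀ v ∈ Sp, ∀ u, s(u, v) ∈ H → χ s(u, v) = 1 → u ∈ Sm := by
  classical
  have hl : ∀ v, s(v, v) ∉ H := fun v hv => hH.edge _ hv (hS.diag v)
  have hv : ∀ e ∈ H, χ e = 1 ∨ χ e = -1 := by
    intro e he
    rcases hS.val e with h | h | h
    · exact Or.inl h
    · exact Or.inr h
    · exact absurd h (hH.edge e he)
  have key := flow_aux (V := V) (fun u v => if s(u, v) ∈ H ∧ χ s(u, v) = 1 then 1 else 0)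
    (fun u v => if s(u, v) ∈ H ∧ χ s(u, v) = -1 then 1 else 0)
    (fun u v => by simp only [Sym2.eq_swap]) (fun u v => by simp only [Sym2.eq_swap])
    (fun v => by
      rw [← Finset.card_filter, ← Finset.card_filter]
      exact red_eq_blue hl hv (hH.bal v))
    (Finset.univ.filter (· ∈ Sm)) (Finset.univ.filter (· ∈ Sp))
    (fun u hu v hv => by
      rw [if_neg]
      rintro ⟨h3, h4⟩
      exact hv (Finset.mem_filter.2 ⟨Finset.mem_univ _, h1 u (Finset.mem_filter.1 hu).2 v h3 h4⟩))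
    (fun u hu v hv => by
      rw [if_neg]
      rintro ⟨h3, h4⟩
      exact hv (Finset.mem_filter.2 ⟨Finset.mem_univ _, h2 u (Finset.mem_filter.1 hu).2 v h3 h4⟩))
  constructor
  · intro v hv u h3 h4
    by_contra hu
    have h5 := key.1 v (Finset.mem_filter.2 ⟨Finset.mem_univ _, hv⟩) u
      (fun h => hu (Finset.mem_filter.1 h).2)
    rw [if_pos ⟨h3, h4⟩] at h5
    exact one_ne_zero h5
  · intro v hv u h3 h4
    by_contra hu
    have h5 := key.2 v (Finset.mem_filter.2 ⟨Finset.mem_univ _, hv⟩) u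
      (fun h => hu (Finset.mem_filter.1 h).2)
    rw [if_pos ⟨h3, h4⟩] at h5
    exact one_ne_zero h5

end Pool.Agent.Work.MP_a5655b_lc
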