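import Pool.Agent.Work.MP_a5655b_lc.Per
import Pool.Agent.Work.MP_a5655b_lc.Flow

/-!
# Module Kill

A vertex of a walk of length `N ≥ 6` which is alone in its component (next to `v 1, v (-1), v 2,
v 4`, none of which is in `P`) gives a shorter closed walk.

Notation: `v j := (y (i + 1 + j)).1` for `j = -1, 0, 1, 2, ...` (so `v (-1) = (y i).1`,
`v 0 = (y (i+1)).1`, `v 1 = (y (i+2)).1`, `v 2 = (y (i+3)).1`, `v 4 = (y (i+5)).1`,
`v (N-1) = (y (i+N)).1 = v (-1)`), `σ := (y (i+1)).2.1` (`= 1` or `-1`). By `walk_cross`: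
`χ s(v(-1), v 0) = σ`, `χ s(v 0, v 1) = -σ`. The signs: `(y (i+2)).2.1 = -σ`, `(y (i+3)).2.1 = σ`,
`(y (i+5)).2.1 = σ`, `(y (i+N)).2.1 = (y i).2.1 = -σ`.

Let `Sm = {u | Conn H (v 0) u ∧ χ s(u, v(-1)) = σ}` and `Sp = {u | Conn H (v 0) u ∧
χ s(u, v 2) = -σ}`. Vertices `u` with `Conn H (v 0) u` are not joined to `v(±1), v 2, v 4`.

(i) If `u ∈ Sm`, `s(u,u') ∈ H`, `χ s(u,u') = σ`, then `u' ∈ Sp`. Otherwise, as `v 2 ∉ P`,
`χ s(u', v 2) = σ` (`Split.cross`). As `v 4 ∉ P`, `χ s(u', v 4)` is `-σ` or `σ`.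
* `-σ`: the steps `(u', -σ, false) → (v 2, σ, false) → y (i+4) → y (i+5)` form a path with 3 steps
  (first step over the edge `u' v2`, not in `H`, then the steps of the walk, `path_unused`), and
  `close` with the edge `u' v4` of colour `-σ` gives `CW χ H 3`: contradiction.
* `σ`: the path `(u, σ, false) → (u', -σ, true) → (v 4, σ, false) → ... → y (i+N)` (the edge `uu'` is
  in `H` with `rho = -σ`; the edge `u' v4` is not in `H`, colour `σ`; then the walk from `y (i+5)`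
  to `y (i+N)`, with `N - 5 ≥ 1` steps) has `N - 3` steps and ends at `v(-1)` with sign `-σ`.
  `close` with the edge `u v(-1)`, colour `σ`, gives `CW χ H (N-3)`: contradiction.
(ii) If `u ∈ Sp`, `s(u,u') ∈ H`, `χ s(u,u') = -σ`, then `u' ∈ Sm`. Otherwise, as `v(-1) ∉ P`,
`χ s(u', v(-1)) = -σ`. As `v 1 ∉ P`, `χ s(u', v 1)` is `-σ` or `σ`.
* `-σ`: the path `(v 1, -σ, false) → y (i+3) = (v 2, σ, _) → (u, -σ, false) → (u', σ, true)` (first
  the step of the walk by `path_unused`; then the edge `v2 u`, not in `H`, colour `-σ`; then the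
  edge `uu' ∈ H`, `rho = σ`) and `close` with the edge `v1 u'`, colour `-σ`: `CW χ H 3`.
* `σ`: the path `(v 1, σ, false) → (v 0, -σ, false) → (v(-1), σ, false) → (u', -σ, false)`, over the
  edges `v1 v0` (colour `-σ`), `v0 v(-1)` (`σ`), `v(-1) u'` (`-σ`), none in `H`; `close` with the
  edge `v1 u'`, colour `σ`: `CW χ H 3`.
So the hypotheses of `flow` hold (for `σ = 1` directly; for `σ = -1` apply `flow` to `-χ`, with
`Split.neg`, `Factor.neg`). `v 0 ∈ Sm`. Let `b` be a neighbour of `v 0` in `H` with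
`χ s(v 0, b) = -σ` (`exists_red`). By `flow`, `b ∈ Sp`: `χ s(b, v 2) = -σ`. The path
`(v 1, -σ, false) → y (i+3) = (v 2, σ, _) → (b, -σ, false) → (v 0, σ, true)` and `close` with the
edge `v1 v0`, colour `-σ`, give `CW χ H 3`: contradiction.
-/

set_option autoImplicit false
set_option linter.unusedSectionVars false

namespace Pool.Agent.Work.MP_a5655b_lc

variable {V : Type} [Fintype V] [DecidableEq V] {χ : Sym2 V → ℤ} {H : Finset (Sym2 V)}
  {P : Set V}

private theorem killOut {a b : V} {τ s : ℤ} (hc : ¬ Conn H a b) (h : χ s(a, b) = τ) (hτ : τ ≠ 0)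
    (hs : s = -τ) (f : Bool) : Step χ H (a, s, f) (b, τ, false) := by
  have hm : s(a, b) ∉ H := fun h => hc (Conn.of_mem h)
  refine ⟨?_, ?_, ?_, ?_, ?_⟩
  · change χ s(a, b) ≠ 0
    rw [h]; exact hτ
  · change τ = -s
    rw [hs, neg_neg]
  · change rho χ H s(a, b) = τ
    rw [rho, if_neg hm, h]
  · change false = true ↔ s(a, b) ∈ H
    constructor
    · intro hf; exact absurd hf (by decide)
    · intro hf; exact absurd hf hm
  · intro _ hf
    exact absurd (show false = true from hf) (by decide)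

private theorem killIn {a b : V} {τ s : ℤ} (hm : s(a, b) ∈ H) (h : χ s(a, b) = τ) (hτ : τ ≠ 0)
    (hs : s = -τ) : Step χ H (a, τ, false) (b, s, true) := by
  refine ⟨?_, ?_, ?_, ?_, ?_⟩
  · change χ s(a, b) ≠ 0
    rw [h]; exact hτ
  · exact hs
  · change rho χ H s(a, b) = s
    rw [rho, if_pos hm, h, hs]
  · change true = true ↔ s(a, b) ∈ H
    exact ⟨fun _ => hm, fun _ => rfl⟩
  · intro hf
    exact absurd (show false = true from hf) (by decide)

private theorem killMain (hS : Split χ P) (hH : Factor χ H) {vm v0 v1 v2 v4 : V} {σ : ℤ}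
    (hσ : σ = 1 ∨ σ = -1) {N : ℕ} (hN : 6 ≤ N) (hev : Even N) (h4 : ¬ CW χ H 3)
    (hN2 : ¬ CW χ H (N - 3)) (c0 : ¬ Conn H v0 vm) (c1 : ¬ Conn H v0 v1) (c2 : ¬ Conn H v0 v2)
    (c4 : ¬ Conn H v0 v4) (p0 : vm ∉ P) (p1 : v1 ∉ P) (p2 : v2 ∉ P) (p4 : v4 ∉ P)
    (e0 : χ s(vm, v0) = σ) (e1 : χ s(v0, v1) = -σ)
    (P1 : ∃ g, Path χ H 1 (v1, -σ, false) (v2, σ, g))
    (P2 : ∃ g, Path χ H 2 (v2, σ, false) (v4, σ, g))
    (P3 : ∃ g, Path χ H (N - 5) (v4, σ, false) (vm, -σ, g)) : False := by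
  have hσ0 : σ ≠ 0 := by rcases hσ with h | h <;> rw [h] <;> decide
  have hσ0' : -σ ≠ 0 := neg_ne_zero.2 hσ0
  have odd3 : Odd 3 := by decide
  have sw : ∀ a b : V, χ s(a, b) = χ s(b, a) := fun a b => by rw [Sym2.eq_swap]
  have pm : ∀ {a b : V}, ¬ Conn H a b → b ∉ P → χ s(a, b) = σ ∨ χ s(a, b) = -σ := by
    intro a b hc hb
    rcases hS.cross hc (Or.inr hb) with h | h <;> rcases hσ with h' | h' <;> rw [h, h'] <;> decide
  have nc : ∀ {u w : V}, Conn H v0 u → ¬ Conn H v0 w → ¬ Conn H u w := fun hu hw h =>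
    hw (hu.trans h)
  have nc' : ∀ {u w : V}, Conn H v0 u → ¬ Conn H v0 w → ¬ Conn H w u := fun hu hw h =>
    hw (hu.trans h.symm)
  obtain ⟨g1, P1⟩ := P1
  obtain ⟨g2, P2⟩ := P2
  obtain ⟨g3, P3⟩ := P3
  -- the configuration used twice
  have key : ∀ u u' : V, Conn H v0 u → χ s(u, v2) = -σ → s(u, u') ∈ H → χ s(u, u') = -σ →
      χ s(u', v1) = -σ → False := by
    intro u u' hu hu2 hm hc h1
    have hu' : Conn H v0 u' := hu.trans (Conn.of_mem hm)
    refine h4 (close (a := v1) (b := u') (s := -σ) (s' := σ) (f := false) (g := true) odd3 ?_ hσ0'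
      (nc' hu' c1) (by rw [sw]; exact h1))
    refine path_append (m := 1) (n := 2) P1 ?_
    refine ⟨(u, -σ, false), killOut (nc' hu c2) (by rw [sw]; exact hu2) hσ0' (by rw [neg_neg]) _, ?_⟩
    exact ⟨(u', σ, true), killIn hm hc hσ0' (by rw [neg_neg]), rfl⟩
  have hi : ∀ u u' : V, Conn H v0 u → χ s(u, vm) = σ → s(u, u') ∈ H → χ s(u, u') = σ →
      χ s(u', v2) = -σ := by
    intro u u' hu hum hm hc
    have hu' : Conn H v0 u' := hu.trans (Conn.of_mem hm)
    rcases pm (nc hu' c2) p2 with h2 | h2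
    · exfalso
      rcases pm (nc hu' c4) p4 with h5 | h5
      · refine hN2 (close (k := N - 3) (a := u) (b := vm) (s := σ) (s' := -σ) (f := false) (g := g3)
          ?_ ?_ hσ0 (nc hu c0) hum)
        · obtain ⟨k, hk⟩ := hev
          exact ⟨k - 2, by omega⟩
        · have hlen : N - 3 = 2 + (N - 5) := by omega
          rw [hlen]
          refine path_append (y := (v4, σ, false)) ?_ P3
          refine ⟨(u', -σ, true), killIn hm hc hσ0 rfl, ?_⟩
          exact ⟨(v4, σ, false), killOut (nc hu' c4) h5 hσ0 rfl _, rfl⟩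
      · refine h4 (close (a := u') (b := v4) (s := -σ) (s' := σ) (f := false) (g := g2) odd3 ?_ hσ0'
          (nc hu' c4) h5)
        exact ⟨(v2, σ, false), killOut (nc hu' c2) h2 hσ0 rfl _, P2⟩
    · exact h2
  have hii : ∀ u u' : V, Conn H v0 u → χ s(u, v2) = -σ → s(u, u') ∈ H → χ s(u, u') = -σ →
      χ s(u', vm) = σ := by
    intro u u' hu hu2 hm hc
    have hu' : Conn H v0 u' := hu.trans (Conn.of_mem hm)
    rcases pm (nc hu' c0) p0 with h2 | h2
    · exact h2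
    · exfalso
      rcases pm (nc hu' c1) p1 with h5 | h5
      · refine h4 (close (a := v1) (b := u') (s := σ) (s' := -σ) (f := false) (g := false) odd3 ?_
          hσ0 (nc' hu' c1) (by rw [sw]; exact h5))
        refine ⟨(v0, -σ, false), killOut (nc' (Conn.refl v0) c1) (by rw [sw]; exact e1) hσ0'
          (by rw [neg_neg]) _, ?_⟩
        refine ⟨(vm, σ, false), killOut c0 (by rw [sw]; exact e0) hσ0 rfl _, ?_⟩
        exact ⟨(u', -σ, false), killOut (nc' hu' c0) (by rw [sw]; exact h2) hσ0'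
          (by rw [neg_neg]) _, rfl⟩
      · exact key u u' hu hu2 hm hc h5
  obtain ⟨b, hb, hbc⟩ : ∃ b, s(v0, b) ∈ H ∧ χ s(v0, b) = -σ := by
    obtain ⟨⟨z, hz, hz'⟩, ⟨w, hw, hw'⟩⟩ := exists_red hS hH v0
    rcases hσ with h | h
    · exact ⟨w, hw, by rw [h]; exact hw'⟩
    · exact ⟨z, hz, by rw [h, neg_neg]; exact hz'⟩
  have hb' : s(b, v0) ∈ H := by rw [Sym2.eq_swap]; exact hb
  have hbc' : χ s(b, v0) = -σ := by rw [sw]; exact hbc
  have hcb : Conn H v0 b := Conn.of_mem hb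
  have h0m : v0 ∈ {u | Conn H v0 u ∧ χ s(u, vm) = σ} := ⟨Conn.refl v0, by rw [sw]; exact e0⟩
  have hbSp : χ s(b, v2) = -σ := by
    rcases hσ with h | h
    · have := (flow hS hH (Sp := {u | Conn H v0 u ∧ χ s(u, v2) = -σ})
        (Sm := {u | Conn H v0 u ∧ χ s(u, vm) = σ})
        (fun u hu v hm hc => ⟨hu.1.trans (Conn.of_mem hm), hi u v hu.1 hu.2 hm (by rw [h]; exact hc)⟩)
        (fun u hu v hm hc => ⟨hu.1.trans (Conn.of_mem hm), hii u v hu.1 hu.2 hm (by rw [h]; exact hc)⟩)).1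
        v0 h0m b hb' (by rw [hbc', h])
      exact this.2
    · have := (flow hS.neg hH.neg (Sp := {u | Conn H v0 u ∧ χ s(u, v2) = -σ})
        (Sm := {u | Conn H v0 u ∧ χ s(u, vm) = σ})
        (fun u hu v hm hc => ⟨hu.1.trans (Conn.of_mem hm), hi u v hu.1 hu.2 hm (by
          rw [h]; exact neg_eq_iff_eq_neg.1 hc)⟩)
        (fun u hu v hm hc => ⟨hu.1.trans (Conn.of_mem hm), hii u v hu.1 hu.2 hm (by
          rw [h, neg_neg]; exact neg_inj.1 hc)⟩)).1
        v0 h0m b hb' (by rw [hbc', h, neg_neg])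
      exact this.2
  exact key b v0 hcb hbSp hb' hbc' e1

theorem kill (hS : Split χ P) (hH : Factor χ H) {N : ℕ} {y : ℕ → St V} (hy : Walk χ H N y)
    (hN : 6 ≤ N) (hev : Even N) (h4 : ¬ CW χ H 3) (hN2 : ¬ CW χ H (N - 3)) (i : ℕ)
    (hc0 : ¬ Conn H (y (i + 1)).1 (y i).1) (hc1 : ¬ Conn H (y (i + 1)).1 (y (i + 2)).1)
    (hc2 : ¬ Conn H (y (i + 1)).1 (y (i + 3)).1) (hc4 : ¬ Conn H (y (i + 1)).1 (y (i + 5)).1)
    (hp0 : (y i).1 ∉ P) (hp1 : (y (i + 2)).1 ∉ P) (hp2 : (y (i + 3)).1 ∉ P)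
    (hp4 : (y (i + 5)).1 ∉ P) : False := by
  have s1 : (y (i + 1)).2.1 = -(y i).2.1 := (hy.step i).2.1
  have s2 : (y (i + 2)).2.1 = -(y (i + 1)).2.1 := (hy.step (i + 1)).2.1
  have s3 : (y (i + 3)).2.1 = -(y (i + 2)).2.1 := (hy.step (i + 2)).2.1
  have s4 : (y (i + 4)).2.1 = -(y (i + 3)).2.1 := (hy.step (i + 3)).2.1
  have s5 : (y (i + 5)).2.1 = -(y (i + 4)).2.1 := (hy.step (i + 4)).2.1
  have t3 : (y (i + 3)).2.1 = (y (i + 1)).2.1 := by rw [s3, s2, neg_neg]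
  have t5 : (y (i + 5)).2.1 = (y (i + 1)).2.1 := by rw [s5, s4, neg_neg, t3]
  have t0 : (y i).2.1 = -(y (i + 1)).2.1 := by rw [s1, neg_neg]
  have q : ∀ (j : ℕ) (s : ℤ), (y j).2.1 = s → y j = ((y j).1, s, (y j).2.2) := by
    intro j s h
    exact Prod.ext rfl (Prod.ext h rfl)
  have e0 := (walk_cross hy (i := i) fun h => hc0 h.symm).1
  have e1 := (walk_cross hy (i := i + 1) hc1).1
  rw [show (y (i + 1 + 1)).2.1 = -(y (i + 1)).2.1 from s2] at e1
  refine killMain hS hH (walk_sign hS hy (i + 1)) hN hev h4 hN2 hc0 hc1 hc2 hc4 hp0 hp1 hp2 hp4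
    e0 e1 ⟨(y (i + 3)).2.2, ?_⟩ ⟨(y (i + 5)).2.2, ?_⟩ ⟨(y i).2.2, ?_⟩
  · have h := walk_path hy (i + 2) 1
    have e : i + 2 + 1 = i + 3 := by omega
    rw [e, q (i + 2) _ s2, q (i + 3) _ t3] at h
    exact path_unused h
  · have h := walk_path hy (i + 3) 2
    have e : i + 3 + 2 = i + 5 := by omega
    rw [e, q (i + 3) _ t3, q (i + 5) _ t5] at h
    exact path_unused h
  · have h := walk_path hy (i + 5) (N - 5)
    have e : i + 5 + (N - 5) = i + N := by omega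
    obtain ⟨k, hk⟩ : ∃ k, N - 5 = k + 1 := ⟨N - 6, by omega⟩
    rw [e, hy.per i, q (i + 5) _ t5, q i _ t0, hk] at h
    rw [hk]
    exact path_unused h

end Pool.Agent.Work.MP_a5655b_lc
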