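import Pool.Agent.Work.MP_a5655b_lc.ClaimA
import Pool.Agent.Work.MP_a5655b_lc.Kill

/-!
# Module Big

A shortest closed residual walk through an edge joining two components has fewer than 8 edges.

Proof. `N ≥ 8` is even (`walk_even`). Write `v j = (y (N + j)).1` for `j = -1, 0, 1, ..., 7` (by
periodicity `(y (N + j)).1 = (y j).1` for `j ≥ 0`; `v (-1) = (y (N-1)).1`), `C j` for the component of
`v j` (equality of components = `Conn`), `P j` for `v j ∈ P`. `claimA` (with `i = N + j`,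
`k = j' - j`) says: if `j' - j` is odd, `3 ≤ j' - j ≤ N - 3` and not both `P j`, `P j'`, then
`C j = C j'`. `not_both`: not both `P j` and `P (j+1)`. For `-1` and `4` use `k = 5`; for `-1` and
`2`, `k = 3`. All differences used are `3` or `5` and `N ≥ 8`. `C 0 ≠ C 1` (`hy.cross`). Cases:

(A) `¬P 0` and `¬P 1`. Then `C 3 = C 0`, `C 5 = C 0`, `C 4 = C 1`, `C 6 = C 1`. `C 3 ≠ C 6`, so `P 3`
and `P 6`; hence `¬P 2`, `¬P 4`, `¬P 5`. `C(-1) = C 4 = C 1` (`¬P 4`, difference 5),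
`C 2 = C(-1)` (`¬P 2`, difference 3), `C 5 = C 2` (`¬P 2`): so `C 0 = C 5 = C 1`, contradiction.

(B) `P 0` (so `¬P 1`, `¬P(-1)`). `C 4 = C 1` and `C 6 = C 1` (`¬P 1`). `C(-1) = C 4` (`¬P(-1)`),
`C 2 = C(-1)` (`¬P(-1)`). `P 3`: otherwise `C 3 = C 0` and `C 3 = C 6 = C 1`, contradiction. So
`¬P 2`, `¬P 4`. Now `kill` at `v 0` (that is `i = N - 1`: `y i = v(-1)`, `y (i+1) = v 0`,
`y (i+2) = v 1`, `y (i+3) = v 2`, `y (i+5) = v 4`) gives the contradiction.

(C) `P 1` and `¬P 0` (so `¬P 2`). `C 3 = C 0`, `C 5 = C 0` (`¬P 0`), `C 2 = C 5` (`¬P 2`),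
`C 2 = C(-1)` (`¬P 2`). `P 4`: otherwise `C 4 = C 1` and `C(-1) = C 4` (difference 5), so
`C 1 = C(-1) = C 2 = C 5 = C 0`, contradiction. So `¬P 3`, `¬P 5`. Now `kill` at `v 1` (`i = N`:
`y i = v 0`, `y (i+1) = v 1`, `y (i+2) = v 2`, `y (i+3) = v 3`, `y (i+5) = v 5`).

`h4`, `hN2` of `kill` are `hmin 3`, `hmin (N-3)`.
-/

set_option autoImplicit false
set_option linter.unusedSectionVars false

namespace Pool.Agent.Work.MP_a5655b_lc

variable {V : Type} [Fintype V] [DecidableEq V] {χ : Sym2 V → ℤ} {H : Finset (Sym2 V)}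
  {P : Set V}

theorem big (hS : Split χ P) (hH : Factor χ H) {N : ℕ} {y : ℕ → St V} (hy : Walk χ H N y)
    (hN : 8 ≤ N) (hmin : ∀ m, m + 1 < N → ¬ CW χ H m) : False := by
  have hev := walk_even hy
  obtain ⟨b, rfl⟩ : ∃ b, N = b + 1 := ⟨N - 1, by omega⟩
  have h3 : ¬ CW χ H 3 := hmin 3 (by omega)
  have hN3 : ¬ CW χ H (b + 1 - 3) := hmin _ (by omega)
  -- the vertices
  obtain ⟨w, hw⟩ : ∃ w : ℕ → V, ∀ j, (y (b + j)).1 = w j := ⟨fun j => (y (b + j)).1, fun _ => rfl⟩
  have d3 : ∀ j, w j ∉ P ∨ w (j + 3) ∉ P → Conn H (w j) (w (j + 3)) := by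
    intro j hj
    by_contra hc
    have := claimA hS hy hmin (i := b + j) (k := 3) (by decide) (by omega) (by omega)
      (by rw [show b + j + 3 = b + (j + 3) from rfl, hw, hw]; exact hc)
    rw [show b + j + 3 = b + (j + 3) from rfl, hw, hw] at this
    rcases hj with hj | hj
    · exact hj this.1
    · exact hj this.2
  have d5 : ∀ j, w j ∉ P ∨ w (j + 5) ∉ P → Conn H (w j) (w (j + 5)) := by
    intro j hj
    by_contra hc
    have := claimA hS hy hmin (i := b + j) (k := 5) (by decide) (by omega) (by omega)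
      (by rw [show b + j + 5 = b + (j + 5) from rfl, hw, hw]; exact hc)
    rw [show b + j + 5 = b + (j + 5) from rfl, hw, hw] at this
    rcases hj with hj | hj
    · exact hj this.1
    · exact hj this.2
  have nb : ∀ j, ¬ (w j ∈ P ∧ w (j + 1) ∈ P) := by
    intro j
    have := not_both hS hy (b + j)
    rwa [show b + j + 1 = b + (j + 1) from rfl, hw, hw] at this
  have cr : ¬ Conn H (w 1) (w 2) := by
    have e1 : y (b + 1) = y 0 := by
      have := hy.per 0
      rwa [Nat.zero_add] at this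
    have e2 : y (b + 2) = y 1 := by
      have := hy.per 1
      rwa [show 1 + (b + 1) = b + 2 by omega] at this
    rw [← hw, ← hw, e1, e2]
    exact hy.cross
  have key : ∀ j, ¬ Conn H (w (j + 1)) (w j) → ¬ Conn H (w (j + 1)) (w (j + 2)) →
      ¬ Conn H (w (j + 1)) (w (j + 3)) → ¬ Conn H (w (j + 1)) (w (j + 5)) →
      w j ∉ P → w (j + 2) ∉ P → w (j + 3) ∉ P → w (j + 5) ∉ P → False := by
    intro j c0 c1 c2 c4 p0 p1 p2 p4
    refine kill hS hH hy (by omega) hev h3 hN3 (b + j) ?_ ?_ ?_ ?_ ?_ ?_ ?_ ?_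
    · rw [show b + j + 1 = b + (j + 1) from rfl, hw, hw]; exact c0
    · rw [show b + j + 1 = b + (j + 1) from rfl, show b + j + 2 = b + (j + 2) from rfl, hw, hw]
      exact c1
    · rw [show b + j + 1 = b + (j + 1) from rfl, show b + j + 3 = b + (j + 3) from rfl, hw, hw]
      exact c2
    · rw [show b + j + 1 = b + (j + 1) from rfl, show b + j + 5 = b + (j + 5) from rfl, hw, hw]
      exact c4
    · rw [hw]; exact p0
    · rw [show b + j + 2 = b + (j + 2) from rfl, hw]; exact p1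
    · rw [show b + j + 3 = b + (j + 3) from rfl, hw]; exact p2
    · rw [show b + j + 5 = b + (j + 5) from rfl, hw]; exact p4
  by_cases p1 : w 1 ∈ P
  · have p2 : w 2 ∉ P := fun h => nb 1 ⟨p1, h⟩
    have p0 : w 0 ∉ P := fun h => nb 0 ⟨h, p1⟩
    have c25 : Conn H (w 2) (w 5) := d3 2 (Or.inl p2)
    have c27 : Conn H (w 2) (w 7) := d5 2 (Or.inl p2)
    have c05 : Conn H (w 0) (w 5) := d5 0 (Or.inl p0)
    have c03 : Conn H (w 0) (w 3) := d3 0 (Or.inl p0)
    have c02 : Conn H (w 0) (w 2) := c05.trans c25.symm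
    have p4 : w 4 ∈ P := by
      by_contra p4
      have c14 : Conn H (w 1) (w 4) := d3 1 (Or.inr p4)
      have c47 : Conn H (w 4) (w 7) := d3 4 (Or.inl p4)
      exact cr ((c14.trans c47).trans c27.symm)
    have p3 : w 3 ∉ P := fun h => nb 3 ⟨h, p4⟩
    have p5 : w 5 ∉ P := fun h => nb 4 ⟨p4, h⟩
    refine key 0 ?_ cr ?_ ?_ p0 p2 p3 p5
    · exact fun h => cr (h.trans c02)
    · exact fun h => cr ((h.trans c03.symm).trans c02)
    · exact fun h => cr (h.trans c25.symm)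
  · by_cases p2 : w 2 ∈ P
    · have p3 : w 3 ∉ P := fun h => nb 2 ⟨p2, h⟩
      have c14 : Conn H (w 1) (w 4) := d3 1 (Or.inl p1)
      have c16 : Conn H (w 1) (w 6) := d5 1 (Or.inl p1)
      have c36 : Conn H (w 3) (w 6) := d3 3 (Or.inl p3)
      have c03 : Conn H (w 0) (w 3) := d3 0 (Or.inr p3)
      have c31 : Conn H (w 3) (w 1) := c36.trans c16.symm
      have p5 : w 5 ∈ P := by
        by_contra p5
        have c25 : Conn H (w 2) (w 5) := d3 2 (Or.inr p5)
        have c05 : Conn H (w 0) (w 5) := d5 0 (Or.inr p5)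
        exact cr ((c31.symm.trans c03.symm).trans (c05.trans c25.symm))
      have p4 : w 4 ∉ P := fun h => nb 4 ⟨h, p5⟩
      have p6 : w 6 ∉ P := fun h => nb 5 ⟨p5, h⟩
      refine key 1 ?_ ?_ ?_ ?_ p1 p3 p4 p6
      · exact fun h => cr h.symm
      · exact fun h => cr (h.trans c31).symm
      · exact fun h => cr (h.trans c14.symm).symm
      · exact fun h => cr (h.trans c16.symm).symm
    · have c14 : Conn H (w 1) (w 4) := d3 1 (Or.inl p1)
      have c16 : Conn H (w 1) (w 6) := d5 1 (Or.inl p1)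
      have c25 : Conn H (w 2) (w 5) := d3 2 (Or.inl p2)
      have c27 : Conn H (w 2) (w 7) := d5 2 (Or.inl p2)
      have p47 : w 4 ∈ P ∧ w 7 ∈ P := by
        by_contra h
        rw [not_and_or] at h
        have c47 : Conn H (w 4) (w 7) := d3 4 h
        exact cr ((c14.trans c47).trans c27.symm)
      have p3 : w 3 ∉ P := fun h => nb 3 ⟨h, p47.1⟩
      have p5 : w 5 ∉ P := fun h => nb 4 ⟨p47.1, h⟩
      have c05 : Conn H (w 0) (w 5) := d5 0 (Or.inr p5)
      have c03 : Conn H (w 0) (w 3) := d3 0 (Or.inr p3)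
      have c36 : Conn H (w 3) (w 6) := d3 3 (Or.inl p3)
      exact cr (((c16.trans c36.symm).trans c03.symm).trans (c05.trans c25.symm))

end Pool.Agent.Work.MP_a5655b_lc
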