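import Pool.Agent.Work.MP_a5655b_lc.StarSum

/-!
# Module Cut

If another factor `H'` has an edge that joins two components of `H`, there is a closed residual
walk through this edge.

Proof (a flow argument in the double cover). Let `s = χ s(u,v)`, `s = 1` or `-1`; `s(u,v) ∉ H`. Let
`S` be the set of the states `y` with `∃ n, Path χ H n (v, s, false) y`. Suppose there is no `f` with
`(u, -s, f) ∈ S`; we derive a contradiction (otherwise we have `CW χ H n`).

For a vertex `y` and `t = 1, -1` let `F t y` be: `(y, t, false) ∈ S`, or (`(y, t, true) ∈ S` and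
`Deg2 χ H y`); and `G t y`: `∃ f, (y, t, f) ∈ S`. Then `F t y → G t y`. Facts:
 (a) `G (-t) y`, `s(y,z) ∉ H`, `χ s(y,z) = t ≠ 0` imply `F t z` (step to `(z, t, false)`).
 (b) `F t z`, `s(z,y) ∈ H`, `χ s(z,y) = t` imply `G (-t) y` (step to `(y, -t, true)`, `rho = -t`; it is
     allowed from `(z,t,false)`, and from `(z,t,true)` because of `Deg2`).
 (c) `G t y` and `Deg2 χ H y` imply `F t y`.
Let `h, h' : V → V → ℤ` be the indicators of `s(y,z) ∈ H`, `s(y,z) ∈ H'`, `g = h' - h`, `d y`, `d' y`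
the numbers of red edges of `H`, `H'` at `y`, which are also the numbers of blue edges
(`red_eq_blue`), both `≥ 1` (`exists_red`). Write `[A]` for the indicator `0/1` of a statement. For
`K = H` and `K = H'`, with `k`, `δ` the corresponding indicators and degrees,
 `∑_{y,z : χ s(y,z) = 1} k(y,z) ([F 1 z] - [G (-1) y]) + ∑_{y,z : χ s(y,z) = -1} k(y,z) ([F (-1) z] -
 [G 1 y]) + ∑_y δ y ([G 1 y] - [F 1 y]) + ∑_y δ y ([G (-1) y] - [F (-1) y]) = 0`,
because `∑_{y} k(y,z) [χ = 1] = δ z` for every `z`, etc.: all terms cancel. Subtract the identity for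
`H` from the identity for `H'`: the same with `g` and `d' - d`. Every summand is `≥ 0`:
 * `χ s(y,z) = 1`, `g = 1` (edge of `H'` not in `H`): `[F 1 z] ≥ [G (-1) y]` by (a).
 * `χ s(y,z) = 1`, `g = -1` (edge of `H`): `[G (-1) y] ≥ [F 1 z]` by (b).
 * `χ s(y,z) = -1`: the same with `t = -1`.
 * `(d' - d) y ([G t y] - [F t y])`: `[G] ≥ [F]`; if `d' y < d y`, then `d y ≥ 2` as `d' y ≥ 1`, so
   `Deg2 χ H y` and `[G] = [F]` by (c).
So every summand is `0`. But the summand of the ordered pair `(u, v)` (in the sum for `χ = s`) is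
`g = 1` times `[F s v] - [G (-s) u] = 1 - 0`: contradiction.
-/

set_option autoImplicit false
set_option linter.unusedSectionVars false

namespace Pool.Agent.Work.MP_a5655b_lc

variable {V : Type} [Fintype V] [DecidableEq V] {χ : Sym2 V → ℤ} {H H' : Finset (Sym2 V)}
  {P : Set V}

private theorem path_snoc {n : ℕ} {x y z : St V} (h : Path χ H n x y) (hs : Step χ H y z) :
    Path χ H (n + 1) x z := by
  induction n generalizing x with
  | zero =>
    have h' : x = y := h
    subst h'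
    exact ⟨z, hs, rfl⟩
  | succ n ih =>
    obtain ⟨w, h1, h2⟩ := h
    exact ⟨w, h1, ih h2⟩

private theorem flow_id (a b : V → V → ℤ) (ha : ∀ y z, a y z = a z y)
    (hb : ∀ y z, b y z = b z y) (hd : ∀ y, ∑ z, a y z = ∑ z, b y z)
    (F1 Fm G1 Gm : V → ℤ) :
    (∑ y, ∑ z, (a y z * (F1 z - Gm y) + b y z * (Fm z - G1 y))) +
      ∑ y, (∑ z, a y z) * ((G1 y - F1 y) + (Gm y - Fm y)) = 0 := by
  have e1 : ∑ y, ∑ z, a y z * F1 z = ∑ y, (∑ z, a y z) * F1 y := by
    rw [Finset.sum_comm]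
    refine Finset.sum_congr rfl fun z _ => ?_
    rw [Finset.sum_mul]
    exact Finset.sum_congr rfl fun y _ => by rw [ha]
  have e2 : ∑ y, ∑ z, b y z * Fm z = ∑ y, (∑ z, a y z) * Fm y := by
    rw [Finset.sum_comm]
    refine Finset.sum_congr rfl fun z _ => ?_
    rw [hd, Finset.sum_mul]
    exact Finset.sum_congr rfl fun y _ => by rw [hb]
  have e3 : ∑ y, ∑ z, a y z * Gm y = ∑ y, (∑ z, a y z) * Gm y :=
    Finset.sum_congr rfl fun y _ => by rw [Finset.sum_mul]
  have e4 : ∑ y, ∑ z, b y z * G1 y = ∑ y, (∑ z, a y z) * G1 y :=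
    Finset.sum_congr rfl fun y _ => by rw [hd, Finset.sum_mul]
  simp only [mul_sub, mul_add, Finset.sum_add_distrib, Finset.sum_sub_distrib]
  rw [e1, e2, e3, e4]
  ring

/-- indicator of the edges of colour `t` -/
private def ei (χ : Sym2 V → ℤ) (H : Finset (Sym2 V)) (t : ℤ) (y z : V) : ℤ :=
  if s(y, z) ∈ H ∧ χ s(y, z) = t then 1 else 0

private theorem ei_symm (χ : Sym2 V → ℤ) (H : Finset (Sym2 V)) (t : ℤ) (y z : V) :
    ei χ H t y z = ei χ H t z y := by
  unfold ei
  rw [Sym2.eq_swap]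

private theorem ei_sum (χ : Sym2 V → ℤ) (H : Finset (Sym2 V)) (t : ℤ) (y : V) :
    ∑ z, ei χ H t y z =
      ((Finset.univ.filter fun z => s(y, z) ∈ H ∧ χ s(y, z) = t).card : ℤ) := by
  unfold ei
  rw [Finset.sum_boole]

open Classical in
private theorem term_nonneg (K : Finset (Sym2 V)) (t : ℤ) (y z : V) (A B : Prop)
    (h1 : s(y, z) ∉ H → χ s(y, z) = t → B → A) (h2 : s(y, z) ∈ H → χ s(y, z) = t → A → B) :
    0 ≤ (ei χ K t y z - ei χ H t y z) * ((if A then 1 else 0) - (if B then 1 else 0)) := by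
  unfold ei
  by_cases c : χ s(y, z) = t
  · by_cases k1 : s(y, z) ∈ H
    · have h3 := h2 k1 c
      by_cases k2 : s(y, z) ∈ K
      · simp [c, k1, k2]
      · by_cases hA : A
        · simp [c, k1, k2, hA, h3 hA]
        · by_cases hB : B <;> simp [c, k1, k2, hA, hB]
    · have h3 := h1 k1 c
      by_cases k2 : s(y, z) ∈ K
      · by_cases hB : B
        · simp [c, k1, k2, hB, h3 hB]
        · by_cases hA : A <;> simp [c, k1, k2, hA, hB]
      · simp [c, k1, k2]
  · simp [c]

theorem exists_cw (hS : Split χ P) (hH : Factor χ H) (hH' : Factor χ H') {u v : V}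
    (he : s(u, v) ∈ H') (hc : ¬ Conn H u v) : ∃ n, CW χ H n := by
  classical
  have hl : ∀ {K : Finset (Sym2 V)}, Factor χ K → ∀ v, s(v, v) ∉ K := fun hK v hv =>
    hK.edge _ hv (hS.diag v)
  have hval : ∀ {K : Finset (Sym2 V)}, Factor χ K → ∀ e ∈ K, χ e = 1 ∨ χ e = -1 := by
    intro K hK e he
    rcases hS.val e with h | h | h
    · exact Or.inl h
    · exact Or.inr h
    · exact absurd h (hK.edge e he)
  have hrb : ∀ {K : Finset (Sym2 V)}, Factor χ K → ∀ y,
      ∑ z, ei χ K 1 y z = ∑ z, ei χ K (-1) y z := by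
    intro K hK y
    rw [ei_sum, ei_sum, red_eq_blue (hl hK) (hval hK) (hK.bal y)]
  have huv0 : χ s(u, v) ≠ 0 := hH'.edge _ he
  have huvH : s(u, v) ∉ H := fun h => hc (Conn.of_mem h)
  obtain ⟨S, hSd⟩ : ∃ S : St V → Prop, ∀ y, S y ↔ ∃ n, Path χ H n (v, χ s(u, v), false) y :=
    ⟨_, fun _ => Iff.rfl⟩
  have hStep : ∀ x y, S x → Step χ H x y → S y := by
    intro x y hx hxy
    obtain ⟨n, hn⟩ := (hSd x).1 hx
    exact (hSd y).2 ⟨n + 1, path_snoc hn hxy⟩
  have hS0 : S (v, χ s(u, v), false) := (hSd _).2 ⟨0, rfl⟩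
  by_contra hcon
  have hno : ∀ f, ¬ S (u, -χ s(u, v), f) := by
    intro f hf
    obtain ⟨n, hn⟩ := (hSd _).1 hf
    exact hcon ⟨n, u, v, f, hc, huv0, hn⟩
  obtain ⟨F, hF⟩ : ∃ F : ℤ → V → Prop, ∀ t y, F t y ↔
      (S (y, t, false) ∨ (S (y, t, true) ∧ Deg2 χ H y)) := ⟨_, fun _ _ => Iff.rfl⟩
  obtain ⟨G, hG⟩ : ∃ G : ℤ → V → Prop, ∀ t y, G t y ↔ ∃ f, S (y, t, f) :=
    ⟨_, fun _ _ => Iff.rfl⟩
  have hFG : ∀ t y, F t y → G t y := by
    intro t y h
    rcases (hF t y).1 h with h | h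
    · exact (hG t y).2 ⟨_, h⟩
    · exact (hG t y).2 ⟨_, h.1⟩
  have hGF : ∀ t y, Deg2 χ H y → G t y → F t y := by
    intro t y hd h
    obtain ⟨f, hf⟩ := (hG t y).1 h
    cases f with
    | false => exact (hF t y).2 (Or.inl hf)
    | true => exact (hF t y).2 (Or.inr ⟨hf, hd⟩)
  have ha : ∀ t t' y z, t ≠ 0 → t' = -t → s(y, z) ∉ H → χ s(y, z) = t → G t' y → F t z := by
    intro t t' y z ht htt h1 h2 h3
    obtain ⟨f, hf⟩ := (hG t' y).1 h3
    refine (hF t z).2 (Or.inl (hStep _ _ hf ⟨?_, ?_, ?_, ?_, ?_⟩))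
    · show χ s(y, z) ≠ 0
      rw [h2]
      exact ht
    · show t = -t'
      rw [htt, neg_neg]
    · show rho χ H s(y, z) = t
      unfold rho
      rw [if_neg h1, h2]
    · show (false = true ↔ s(y, z) ∈ H)
      exact ⟨fun h => absurd h (by decide), fun h => absurd h h1⟩
    · intro _ h
      exact absurd h Bool.false_ne_true
  have hb : ∀ t t' y z, t ≠ 0 → t' = -t → s(y, z) ∈ H → χ s(y, z) = t → F t z → G t' y := by
    intro t t' y z ht htt h1 h2 h3
    rw [Sym2.eq_swap] at h1 h2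
    have hs : ∀ f, (f = true → Deg2 χ H z) → Step χ H (z, t, f) (y, t', true) := by
      intro f hf
      refine ⟨?_, ?_, ?_, ?_, ?_⟩
      · show χ s(z, y) ≠ 0
        rw [h2]
        exact ht
      · exact htt
      · show rho χ H s(z, y) = t'
        unfold rho
        rw [if_pos h1, h2, htt]
      · exact ⟨fun _ => h1, fun _ => rfl⟩
      · intro h _
        exact hf h
    rcases (hF t z).1 h3 with h | h
    · exact (hG t' y).2 ⟨true, hStep _ _ h (hs false (fun h => absurd h (by decide)))⟩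
    · exact (hG t' y).2 ⟨true, hStep _ _ h.1 (hs true (fun _ => h.2))⟩
  have hid := flow_id (fun y z => ei χ H' 1 y z - ei χ H 1 y z)
    (fun y z => ei χ H' (-1) y z - ei χ H (-1) y z)
    (fun y z => by rw [ei_symm χ H', ei_symm χ H])
    (fun y z => by rw [ei_symm χ H', ei_symm χ H])
    (fun y => by
      rw [Finset.sum_sub_distrib, Finset.sum_sub_distrib, hrb hH' y, hrb hH y])
    (fun z => if F 1 z then 1 else 0) (fun z => if F (-1) z then 1 else 0)
    (fun y => if G 1 y then 1 else 0) (fun y => if G (-1) y then 1 else 0)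
  have t1 : ∀ y z, 0 ≤ (ei χ H' 1 y z - ei χ H 1 y z) *
      ((if F 1 z then 1 else 0) - (if G (-1) y then 1 else 0)) := fun y z =>
    term_nonneg H' 1 y z (F 1 z) (G (-1) y) (fun h1 h2 h3 => ha 1 (-1) y z one_ne_zero rfl h1 h2 h3)
      (fun h1 h2 h3 => hb 1 (-1) y z one_ne_zero rfl h1 h2 h3)
  have t2 : ∀ y z, 0 ≤ (ei χ H' (-1) y z - ei χ H (-1) y z) *
      ((if F (-1) z then 1 else 0) - (if G 1 y then 1 else 0)) := fun y z =>
    term_nonneg H' (-1) y z (F (-1) z) (G 1 y)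
      (fun h1 h2 h3 => ha (-1) 1 y z (by decide) (by decide) h1 h2 h3)
      (fun h1 h2 h3 => hb (-1) 1 y z (by decide) (by decide) h1 h2 h3)
  have t3 : ∀ y, 0 ≤ (∑ z, (ei χ H' 1 y z - ei χ H 1 y z)) *
      (((if G 1 y then (1 : ℤ) else 0) - (if F 1 y then 1 else 0)) +
        ((if G (-1) y then 1 else 0) - (if F (-1) y then 1 else 0))) := by
    intro y
    have k1 : ∀ t, (0 : ℤ) ≤ (if G t y then (1 : ℤ) else 0) - (if F t y then 1 else 0) := by
      intro t
      by_cases h1 : F t y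
      · simp [h1, hFG t y h1]
      · by_cases h2 : G t y <;> simp [h1, h2]
    by_cases hd : Deg2 χ H y
    · have k2 : ∀ t, (if G t y then (1 : ℤ) else 0) - (if F t y then 1 else 0) = 0 := by
        intro t
        by_cases h1 : G t y
        · simp [h1, hGF t y hd h1]
        · have h2 : ¬ F t y := fun h => h1 (hFG t y h)
          simp [h1, h2]
      rw [k2, k2, add_zero, mul_zero]
    · refine mul_nonneg ?_ (add_nonneg (k1 1) (k1 (-1)))
      rw [Finset.sum_sub_distrib, ei_sum, ei_sum]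
      have h1 : (Finset.univ.filter fun z => s(y, z) ∈ H ∧ χ s(y, z) = 1).card < 2 := by
        by_contra h
        exact hd (not_lt.1 h)
      have h2 : 0 < (Finset.univ.filter fun z => s(y, z) ∈ H' ∧ χ s(y, z) = 1).card := by
        obtain ⟨⟨z, hz⟩, -⟩ := exists_red hS hH' y
        exact Finset.card_pos.2 ⟨z, Finset.mem_filter.2 ⟨Finset.mem_univ _, hz⟩⟩
      omega
  have s1 : 0 < ∑ y, ∑ z, ((ei χ H' 1 y z - ei χ H 1 y z) *
      ((if F 1 z then 1 else 0) - (if G (-1) y then 1 else 0)) +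
      (ei χ H' (-1) y z - ei χ H (-1) y z) *
      ((if F (-1) z then 1 else 0) - (if G 1 y then 1 else 0))) := by
    refine Finset.sum_pos' (fun y _ => Finset.sum_nonneg fun z _ => add_nonneg (t1 y z) (t2 y z))
      ⟨u, Finset.mem_univ _, ?_⟩
    refine Finset.sum_pos' (fun z _ => add_nonneg (t1 u z) (t2 u z))
      ⟨v, Finset.mem_univ _, ?_⟩
    rcases hval hH' _ he with h1 | h1
    · have h2 : F 1 v := (hF 1 v).2 (Or.inl (by rw [← h1]; exact hS0))
      have h3 : ¬ G (-1) u := by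
        intro h
        obtain ⟨f, hf⟩ := (hG _ _).1 h
        refine hno f ?_
        rw [h1]
        exact hf
      have e1 : ei χ H' 1 u v = 1 := if_pos ⟨he, h1⟩
      have e2 : ei χ H 1 u v = 0 := if_neg fun h => huvH h.1
      have k := t2 u v
      rw [e1, e2, if_pos h2, if_neg h3]
      linarith
    · have h2 : F (-1) v := (hF _ v).2 (Or.inl (by rw [← h1]; exact hS0))
      have h3 : ¬ G 1 u := by
        intro h
        obtain ⟨f, hf⟩ := (hG _ _).1 h
        refine hno f ?_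
        rw [h1, neg_neg]
        exact hf
      have e1 : ei χ H' (-1) u v = 1 := if_pos ⟨he, h1⟩
      have e2 : ei χ H (-1) u v = 0 := if_neg fun h => huvH h.1
      have k := t1 u v
      rw [e1, e2, if_pos h2, if_neg h3]
      linarith
  have s2 : 0 ≤ ∑ y, (∑ z, (ei χ H' 1 y z - ei χ H 1 y z)) *
      (((if G 1 y then (1 : ℤ) else 0) - (if F 1 y then 1 else 0)) +
        ((if G (-1) y then 1 else 0) - (if F (-1) y then 1 else 0))) :=
    Finset.sum_nonneg fun y _ => t3 y
  linarith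

end Pool.Agent.Work.MP_a5655b_lc
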