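import Pool.Agent.Work.MP_a5655b_lc.Per

/-!
# Module ClaimA

In a shortest closed residual walk through an edge that joins two components, two vertices at odd
distance `≥ 3` (in both directions) in different components are both in `P`.

Proof. Let `v = (y i).1`, `w = (y (i+k)).1`, `s = (y i).2.1`, so `(y (i+k)).2.1 = (-1)^k s = -s`
(`walk_path`, `path_sign`). Suppose not both are in `P`. By `Split.cross`, `χ s(v,w) = 1` or `-1`,
and `s = 1` or `-1` (`walk_sign`), so `χ s(v,w) = s` or `χ s(v,w) = -s`.
* `χ s(v,w) = s`: `close` with the path of length `k` from `y i` to `y (i+k)` gives `CW χ H k`, and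
  `k + 1 < N`: contradiction to `hmin`.
* `χ s(v,w) = -s`: the path of length `N - k` from `y (i+k)` to `y (i+N) = y i` gives, by `close`
  (with `a = w`, `b = v`, `χ s(w,v) = χ s(v,w) = -s = (y (i+k)).2.1`), `CW χ H (N-k)`; `N - k` is odd
  because `N` is even and `k` is odd, and `N - k + 1 < N` because `3 ≤ k`: contradiction.

`N` is even because the sign of `y N = y 0` is `(-1)^N` times the sign of `y 0`, which is not `0`.
`not_both`: the edge of the walk between `y i` and `y (i+1)` has `χ ≠ 0`, use `Split.ind`.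
-/

set_option autoImplicit false
set_option linter.unusedSectionVars false

namespace Pool.Agent.Work.MP_a5655b_lc

variable {V : Type} [Fintype V] [DecidableEq V] {χ : Sym2 V → ℤ} {H : Finset (Sym2 V)}
  {P : Set V}

theorem walk_even {N : ℕ} {y : ℕ → St V} (hy : Walk χ H N y) : Even N := by
  rcases Nat.even_or_odd N with h | h
  · exact h
  · exfalso
    have h1 := path_sign (walk_path hy 0 N)
    rw [hy.per 0, h.neg_one_pow] at h1
    exact walk_sign_ne hy 0 (by omega)

theorem not_both (hS : Split χ P) {N : ℕ} {y : ℕ → St V} (hy : Walk χ H N y) (i : ℕ) :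
    ¬ ((y i).1 ∈ P ∧ (y (i + 1)).1 ∈ P) := by
  rintro ⟨h1, h2⟩
  exact (hy.step i).1 (hS.ind _ h1 _ h2)

theorem claimA (hS : Split χ P) {N : ℕ} {y : ℕ → St V} (hy : Walk χ H N y)
    (hmin : ∀ m, m + 1 < N → ¬ CW χ H m) {i k : ℕ} (hk : Odd k) (h3 : 3 ≤ k) (hkN : k + 3 ≤ N)
    (hc : ¬ Conn H (y i).1 (y (i + k)).1) : (y i).1 ∈ P ∧ (y (i + k)).1 ∈ P := by
  by_contra hcon
  have hP : (y i).1 ∉ P ∨ (y (i + k)).1 ∉ P := by
    by_contra h
    push Not at h
    exact hcon h
  have hs0 := walk_sign_ne hy i
  have hpk := walk_path hy i k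
  have hsk : (y (i + k)).2.1 = -(y i).2.1 := by
    have h1 := path_sign hpk
    rw [hk.neg_one_pow] at h1
    omega
  have hor : χ s((y i).1, (y (i + k)).1) = (y i).2.1 ∨
      χ s((y i).1, (y (i + k)).1) = -(y i).2.1 := by
    rcases walk_sign hS hy i with h1 | h1 <;> rcases hS.cross hc hP with h2 | h2 <;>
      rw [h1, h2] <;> simp
  rcases hor with h | h
  · exact hmin k (by omega) (close hk hpk hs0 hc h)
  · have hN := walk_even hy
    have hpk' := walk_path hy (i + k) (N - k)
    rw [show i + k + (N - k) = i + N by omega, hy.per] at hpk'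
    have hodd : Odd (N - k) := Nat.Even.sub_odd (by omega) hN hk
    refine hmin (N - k) (by omega) (close hodd hpk' (by rw [hsk]; exact neg_ne_zero.2 hs0)
      (fun h => hc h.symm) ?_)
    rw [hsk, Sym2.eq_swap]
    exact h

end Pool.Agent.Work.MP_a5655b_lc
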