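import Pool.Agent.Work.MP_a5655b_lc.Defs

/-!
# Module NoBridge

A component all of whose vertices are balanced has no bridge.

Proof. Let `e = s(a,b)`, `H1 = H.erase e` and `Z` the finset of the vertices `w` with
`Conn H1 a w` (classical decidability). Suppose `b ∉ Z`. All `w ∈ Z` satisfy `Conn H a w`
(`Conn.sub`, `Finset.erase_subset`), so `∑ w ∈ Z, bal χ H w = 0`. On the other hand
`bal χ H w = bal χ H1 w + (if w ∈ e then χ e else 0)` (`Finset.add_sum_erase`), and
`∑ w ∈ Z, (if w ∈ e then χ e else 0) = χ e`, because `a ∈ Z`, `b ∉ Z`, `a ≠ b`. Exchanging the sums,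
`∑ w ∈ Z, bal χ H1 w = ∑ f ∈ H1, χ f * #{w ∈ Z | w ∈ f}`, and for every `f = s(p,q) ∈ H1` (`p ≠ q`
because there are no loops) either both `p, q ∈ Z` or none (`Conn H1 p q`), so that number is `2` or
`0`: the sum is even. Hence `0 = even + χ e` with `χ e = 1` or `-1`, a contradiction. So `b ∈ Z`.
-/

set_option autoImplicit false
set_option linter.unusedSectionVars false

namespace Pool.Agent.Work.MP_a5655b_lc

variable {V : Type} [Fintype V] [DecidableEq V]

private theorem mem_split {p q : V} (hpq : p ≠ q) (v : V) (r : ℤ) :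
    (if v ∈ s(p, q) then r else 0) = (if v = p then r else 0) + (if v = q then r else 0) := by
  by_cases h1 : v = p
  · have h2 : v ≠ q := fun h => hpq (h1.symm.trans h)
    rw [if_pos h1, if_neg h2, if_pos (by rw [h1]; simp), add_zero]
  · by_cases h2 : v = q
    · rw [if_neg h1, if_pos h2, if_pos (by rw [h2]; simp), zero_add]
    · rw [if_neg h1, if_neg h2, if_neg, add_zero]
      rw [Sym2.mem_iff]
      rintro (h | h)
      · exact h1 h
      · exact h2 h

/-- A component all of whose vertices are balanced has no bridge. -/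
theorem no_bridge {χ : Sym2 V → ℤ} {H : Finset (Sym2 V)} (hl : ∀ v, s(v, v) ∉ H)
    (hv : ∀ e ∈ H, χ e = 1 ∨ χ e = -1) {a b : V} (hab : s(a, b) ∈ H)
    (hb : ∀ w, Conn H a w → bal χ H w = 0) : Conn (H.erase s(a, b)) a b := by
  classical
  by_contra hcon
  set H1 : Finset (Sym2 V) := H.erase s(a, b) with hH1
  set Z : Finset V := Finset.univ.filter (fun w => Conn H1 a w) with hZ
  have mZ : ∀ w, w ∈ Z ↔ Conn H1 a w := fun w => by
    rw [hZ, Finset.mem_filter]
    exact ⟨fun h => h.2, fun h => ⟨Finset.mem_univ _, h⟩⟩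
  have haZ : a ∈ Z := (mZ a).2 (Conn.refl _)
  have hbZ : b ∉ Z := fun h => hcon ((mZ b).1 h)
  have e0 : ∑ w ∈ Z, bal χ H w = 0 :=
    Finset.sum_eq_zero fun w hw => hb w (Conn.sub (Finset.erase_subset _ _) ((mZ w).1 hw))
  have e1 : ∀ w, bal χ H w = (if w ∈ s(a, b) then χ s(a, b) else 0) + bal χ H1 w := by
    intro w
    unfold bal
    rw [Finset.add_sum_erase H (fun e => if w ∈ e then χ e else 0) hab]
  have e2 : ∑ w ∈ Z, (if w ∈ s(a, b) then χ s(a, b) else 0) = χ s(a, b) := by
    rw [Finset.sum_eq_single a]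
    · rw [if_pos (by simp)]
    · intro w hw hwa
      rw [if_neg]
      rw [Sym2.mem_iff]
      rintro (h | h)
      · exact hwa h
      · exact hbZ (h ▸ hw)
    · intro h
      exact absurd haZ h
  have e3 : (2 : ℤ) ∣ ∑ w ∈ Z, bal χ H1 w := by
    unfold bal
    rw [Finset.sum_comm]
    refine Finset.dvd_sum fun f hf => ?_
    have hfH : f ∈ H := Finset.mem_of_mem_erase hf
    induction f using Sym2.ind with
    | _ p q =>
      have hpq : p ≠ q := by
        rintro rfl
        exact hl p hfH
      have h1 : ∀ w, (if w ∈ s(p, q) then χ s(p, q) else 0) =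
          (if w = p then χ s(p, q) else 0) + (if w = q then χ s(p, q) else 0) :=
        fun w => mem_split hpq w _
      rw [Finset.sum_congr rfl (fun w _ => h1 w), Finset.sum_add_distrib, Finset.sum_ite_eq',
        Finset.sum_ite_eq']
      have h2 : p ∈ Z ↔ q ∈ Z := by
        rw [mZ, mZ]
        exact ⟨fun h => h.trans (Conn.of_mem hf), fun h => h.trans (Conn.of_mem' hf)⟩
      by_cases hp : p ∈ Z
      · rw [if_pos hp, if_pos (h2.1 hp)]
        exact ⟨χ s(p, q), by ring⟩
      · rw [if_neg hp, if_neg (fun h => hp (h2.2 h))]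
        exact ⟨0, by ring⟩
  rw [Finset.sum_congr rfl (fun w _ => e1 w), Finset.sum_add_distrib, e2] at e0
  obtain ⟨k, hk⟩ := e3
  rw [hk] at e0
  rcases hv _ hab with h | h
  · rw [h] at e0
    omega
  · rw [h] at e0
    omega

end Pool.Agent.Work.MP_a5655b_lc
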