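import Pool.Agent.Work.MP_a5655b_lc.SixM
import Pool.Agent.Work.MP_a5655b_lc.ClaimA
import Pool.Agent.Work.MP_a5655b_lc.Kill
import Pool.Agent.Work.MP_a5655b_lc.NoBridge

/-!
# Module Six

A shortest closed residual walk with six edges gives a better factor.

Proof. `v j = (y j).1`, indices mod 6 (`y (j+6) = y j`), `j ~ j'` for `Conn H (v j) (v j')`,
`P j` for `v j ∈ P`. The flag `(y (j+1)).2.2` is `true` iff `e_j = s(v j, v (j+1)) ∈ H`, and then
`j ~ j+1`. `0 ≁ 1`. If we replace `y` by a shift whose first edge still joins two components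
(`walk_shift`), all hypotheses remain.

Case 1: `j ~ j+3` for `j = 0, 1, 2`.
 * `1 ~ 2`: the classes are `{0,3}` and `{1,2,4,5}`; only `e_1` and `e_4` can be in `H`. `six_merge`:
   `hnc` is clear. `hconn` for `i = 1`: in `H' = symmDiff H (six y)`: `v 1 - v 0` by `e_0` (not in `H`,
   so in `H'`), `v 0 ~ v 3` in `H'` by `conn_exch_local` (no removed edge in this component: a
   removed edge is `e_1` or `e_4`), `v 3 - v 2` by `e_2`. For `i = 4`: `v 4 - v 3`, `v 3 ~ v 0`,
   `v 0 - v 5`.
 * `0 ~ 2` (so `1 ≁ 2`): the classes are `{0,2,3,5}` and `{1,4}`; only `e_2`, `e_5` can be in `H`.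
   `hconn` for `i = 2`: `v 2 - v 1` (`e_1`), `v 1 ~ v 4` (`conn_exch_local`), `v 4 - v 3` (`e_3`). For
   `i = 5`: `v 5 - v 4` (`e_4`), `v 4 ~ v 1`, `v 1 - v 0` (`e_0`).
 * neither: the components of `v 0, v 1, v 2` are different, no edge of the walk is in `H`.
Case 2: `j ≁ j+3` for some `j`. By `claimA` (`k = 3`, `N = 6`), `P j` and `P (j+3)`, so by `not_both`
 `¬P (j+1)`, `¬P (j+2)`, `¬P (j+4)`, `¬P (j+5)`, and by `claimA` again `j+1 ~ j+4`, `j+2 ~ j+5`.
 * `j ≁ j+1` and `j ≁ j+2`: then also `j ≁ j+4`, `j ≁ j+5`. `kill` at `v j` (with `i = j + 5`: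
   `y i = v (j+5)`, `y (i+1) = v j`, `y (i+2) = v (j+1)`, `y (i+3) = v (j+2)`, `y (i+5) = v (j+4)`).
 * `j+3 ≁ j+1` and `j+3 ≁ j+2`: `kill` at `v (j+3)` (`i = j + 2`: `v (j+2)`, `v (j+3)`, `v (j+4)`,
   `v (j+5)`, `y (i+5) = v (j+7) = v (j+1)`).
 * otherwise, as `j ≁ j+3`: either (a) `j ~ j+1`, `j+3 ~ j+2`, `j+1 ≁ j+2`, or (b) `j ~ j+2`,
   `j+3 ~ j+1`, `j+1 ≁ j+2`. In (a) the classes are `{j, j+1, j+4}` and `{j+2, j+3, j+5}`: only `e_j`
   and `e_(j+2)` can be in `H`, they are in different components. In (b) the classes are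
   `{j, j+2, j+5}`, `{j+1, j+3, j+4}`: only `e_(j+3)` and `e_(j+5)` can be in `H`, in different
   components. In both cases `hconn` follows from `conn_exch_one` with `no_bridge` (the only removed
   edge in the component of `v i` is `e_i`; the factor `H` is balanced at all vertices, has no
   loops and has `χ = ±1` on its edges by `Split.val`), and `hnc` is clear. (`six_merge` is used for
   the walk `y` itself, `0 ≁ 1`.)

It is convenient to do Case 2 for the shifted sequence `y' = fun m => y (j + m)` only through its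
indices, or to prove first that one may assume `j ∈ {0, 1, 2}` and treat the three values by the
same argument with indices mod 6 (all statements are invariant under `j → j + 6`, and `six y` is
invariant under shifts: as a set it is the set of all `s(v m, v (m+1))`).
-/

set_option autoImplicit false
set_option linter.unusedSectionVars false

namespace Pool.Agent.Work.MP_a5655b_lc

variable {V : Type} [Fintype V] [DecidableEq V] {χ : Sym2 V → ℤ} {H : Finset (Sym2 V)}
  {P : Set V}

private theorem per6 {Q : ℕ → Prop} (hQ : ∀ i, Q (i + 6) ↔ Q i) (j : ℕ)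
    (k0 : Q j) (k1 : Q (j + 1)) (k2 : Q (j + 2)) (k3 : Q (j + 3)) (k4 : Q (j + 4))
    (k5 : Q (j + 5)) (i : ℕ) : Q i := by
  have h : ∀ r < 6, Q (j + r) := by
    intro r hr
    have hr' : r = 0 ∨ r = 1 ∨ r = 2 ∨ r = 3 ∨ r = 4 ∨ r = 5 := by omega
    rcases hr' with rfl | rfl | rfl | rfl | rfl | rfl
    · exact k0
    · exact k1
    · exact k2
    · exact k3
    · exact k4
    · exact k5
  have h1 : ∀ n, Q (j + n) := by
    intro n
    induction n using Nat.strong_induction_on with
    | _ n ih =>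
      by_cases hn : n < 6
      · exact h n hn
      · obtain ⟨m, rfl⟩ : ∃ m, n = m + 6 := ⟨n - 6, by omega⟩
        rw [← add_assoc, hQ]
        exact ih m (by omega)
  have h2 : ∀ n, Q (i + 6 * n) → Q i := by
    intro n
    induction n with
    | zero => exact fun h => h
    | succ n ih =>
      intro h
      refine ih ?_
      rw [show i + 6 * (n + 1) = (i + 6 * n) + 6 by ring, hQ] at h
      exact h
  refine h2 j ?_
  rw [show i + 6 * j = j + (i + 5 * j) by ring]
  exact h1 _

theorem six_better (hS : Split χ P) (hH : Factor χ H) {y : ℕ → St V} (hy : Walk χ H 6 y)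
    (hmin : ∀ m, m + 1 < 6 → ¬ CW χ H m) : Better χ H := by
  obtain ⟨v, hv⟩ : ∃ v : ℕ → V, ∀ j, v j = (y j).1 := ⟨_, fun _ => rfl⟩
  obtain ⟨fl, hfl⟩ : ∃ fl : ℕ → Prop, ∀ j, fl j ↔ (y (j + 1)).2.2 = true :=
    ⟨_, fun _ => Iff.rfl⟩
  have hvp : ∀ i, v (i + 6) = v i := fun i => by rw [hv, hv, hy.per]
  have hvp1 : ∀ i, v (i + 6 + 1) = v (i + 1) := fun i => hvp (i + 1)
  have hflp : ∀ i, fl (i + 6) ↔ fl i := fun i => by
    rw [hfl, hfl, show i + 6 + 1 = i + 1 + 6 by ring, hy.per]
  have hflp1 : ∀ i, fl (i + 6 + 1) ↔ fl (i + 1) := fun i => hflp (i + 1)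
  have hflH : ∀ i, fl i ↔ s(v i, v (i + 1)) ∈ H := fun i => by
    rw [hfl, hv, hv]
    exact (hy.step i).2.2.2.1
  have hT : ∀ i, s(v i, v (i + 1)) ∈ six y := by
    refine per6 (fun i => by rw [hvp, hvp1]) 0 ?_ ?_ ?_ ?_ ?_ ?_
    · rw [hv, hv]; simp [six]
    · rw [hv, hv]; simp [six]
    · rw [hv, hv]; simp [six]
    · rw [hv, hv]; simp [six]
    · rw [hv, hv]; simp [six]
    · have e : v (0 + 5 + 1) = (y 0).1 := by rw [← hv]; exact hvp 0
      rw [e, hv]
      simp [six]
  have hT' : ∀ g ∈ six y, ∃ i, g = s(v i, v (i + 1)) := by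
    intro g hg
    simp only [six, Finset.mem_insert, Finset.mem_singleton] at hg
    rcases hg with hg | hg | hg | hg | hg | hg
    · exact ⟨0, by rw [hv, hv]; exact hg⟩
    · exact ⟨1, by rw [hv, hv]; exact hg⟩
    · exact ⟨2, by rw [hv, hv]; exact hg⟩
    · exact ⟨3, by rw [hv, hv]; exact hg⟩
    · exact ⟨4, by rw [hv, hv]; exact hg⟩
    · refine ⟨5, ?_⟩
      have e : v (5 + 1) = (y 0).1 := by rw [← hv]; exact hvp 0
      rw [e, hv]
      exact hg
  have hmerge : (∀ i, ¬ (fl i ∧ fl (i + 1))) →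
      (∀ i, fl i → Conn (symmDiff H (six y)) (v i) (v (i + 1))) → Better χ H := by
    intro h1 h2
    refine six_merge hS hH hy ?_ ?_
    · rintro i ⟨k1, k2⟩
      exact h1 i ⟨(hfl i).2 k1, (hfl (i + 1)).2 k2⟩
    · intro i _ h
      have h3 := h2 i ((hfl i).2 h)
      rw [hv, hv] at h3
      exact h3
  have hnew : ∀ i, ¬ fl i → Conn (symmDiff H (six y)) (v i) (v (i + 1)) := by
    intro i hi
    refine Conn.of_mem (Finset.mem_symmDiff.2 (Or.inr ⟨hT i, fun h => hi ((hflH i).2 h)⟩))
  have hrem : ∀ x z, s(x, z) ∈ H → s(x, z) ∈ six y →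
      ∃ i, fl i ∧ s(x, z) = s(v i, v (i + 1)) ∧ Conn H (v i) x := by
    intro x z h1 h2
    obtain ⟨i, hi⟩ := hT' _ h2
    have h3 : fl i := (hflH i).2 (by rw [← hi]; exact h1)
    refine ⟨i, h3, hi, ?_⟩
    have hx : x ∈ s(v i, v (i + 1)) := by
      rw [← hi]
      exact Sym2.mem_mk_left x z
    rcases Sym2.mem_iff.1 hx with hx | hx
    · rw [hx]
      exact Conn.refl _
    · rw [hx]
      exact Conn.of_mem ((hflH i).1 h3)
  have hloc : ∀ u w, Conn H u w → (∀ i, fl i → ¬ Conn H u (v i)) →
      Conn (symmDiff H (six y)) u w := by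
    intro u w huw h
    refine conn_exch_local huw fun x z h1 h2 h3 => ?_
    obtain ⟨i, hi, -, hix⟩ := hrem x z h1 h2
    exact h i hi (h3.trans hix.symm)
  have hone : ∀ i0, fl i0 → (∀ i, fl i → Conn H (v i0) (v i) →
      s(v i, v (i + 1)) = s(v i0, v (i0 + 1))) →
      Conn (symmDiff H (six y)) (v i0) (v (i0 + 1)) := by
    intro i0 h0 h
    have hmem := (hflH i0).1 h0
    refine conn_exch_one (a := v i0) (b := v (i0 + 1)) (Conn.of_mem hmem)
      (no_bridge (χ := χ) (fun w hw => hH.edge _ hw (hS.diag w)) ?_ hmem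
        (fun w _ => hH.bal w)) ?_
    · intro e he
      rcases hS.val e with k | k | k
      · exact Or.inl k
      · exact Or.inr k
      · exact absurd k (hH.edge e he)
    · intro x z h1 h2 h3
      obtain ⟨i, hi, hxz, hix⟩ := hrem x z h1 h2
      rw [hxz]
      exact h i hi (h3.trans hix.symm)
  have hnfl : ∀ i, ¬ Conn H (v i) (v (i + 1)) → ¬ fl i := fun i hc hf =>
    hc (Conn.of_mem ((hflH i).1 hf))
  have hQn : ∀ i, ¬ (fl (i + 6) ∧ fl (i + 6 + 1)) ↔ ¬ (fl i ∧ fl (i + 1)) := fun i => by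
    rw [hflp, hflp1]
  have hQc : ∀ i, (fl (i + 6) → Conn (symmDiff H (six y)) (v (i + 6)) (v (i + 6 + 1))) ↔
      (fl i → Conn (symmDiff H (six y)) (v i) (v (i + 1))) := fun i => by
    rw [hflp, hvp, hvp1]
  -- first case
  have case1 : ∀ j, Conn H (v j) (v (j + 3)) → Conn H (v (j + 1)) (v (j + 4)) →
      Conn H (v (j + 2)) (v (j + 5)) → ¬ Conn H (v j) (v (j + 1)) →
      Conn H (v (j + 1)) (v (j + 2)) → Better χ H := by
    intro j h03 h14 h25 n01 h12
    have e6 : v (j + 5 + 1) = v j := hvp j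
    have f0 : ¬ fl j := hnfl j n01
    have f2 : ¬ fl (j + 2) := hnfl (j + 2) fun h => n01 (h03.trans (h12.trans h).symm)
    have f3 : ¬ fl (j + 3) := hnfl (j + 3) fun h => n01 ((h03.trans h).trans h14.symm)
    have f5 : ¬ fl (j + 5) := hnfl (j + 5) fun h => by
      rw [e6] at h
      exact n01 (h.symm.trans (h25.symm.trans h12.symm))
    have hn : ∀ i, ¬ (fl i ∧ fl (i + 1)) :=
      per6 hQn j (fun h => f0 h.1) (fun h => f2 h.2) (fun h => f2 h.1) (fun h => f3 h.1)
        (fun h => f5 h.2) (fun h => f5 h.1)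
    have hno0 : ∀ i, fl i → ¬ Conn H (v j) (v i) :=
      per6 (fun i => by rw [hflp, hvp]) j (fun h => absurd h f0) (fun _ h => n01 h)
        (fun h => absurd h f2) (fun h => absurd h f3) (fun _ h => n01 (h.trans h14.symm))
        (fun h => absurd h f5)
    have h03' := hloc _ _ h03 hno0
    refine hmerge hn (per6 hQc j (fun h => absurd h f0) (fun _ => ?_) (fun h => absurd h f2)
      (fun h => absurd h f3) (fun _ => ?_) (fun h => absurd h f5))
    · exact (hnew j f0).symm.trans (h03'.trans (hnew (j + 2) f2).symm)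
    · have h5 := hnew (j + 5) f5
      rw [e6] at h5
      exact (hnew (j + 3) f3).symm.trans (h03'.symm.trans h5.symm)
  -- second case
  have case2 : ∀ j, ¬ Conn H (v j) (v (j + 3)) → Better χ H := by
    intro j n03
    have e6 : v (j + 5 + 1) = v j := hvp j
    have hA : ∀ i, ¬ Conn H (v i) (v (i + 3)) → v i ∈ P ∧ v (i + 3) ∈ P := by
      intro i hi
      rw [hv, hv] at hi ⊢
      exact claimA hS hy hmin (by decide) le_rfl le_rfl hi
    have hB : ∀ i, ¬ (v i ∈ P ∧ v (i + 1) ∈ P) := by
      intro i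
      rw [hv, hv]
      exact not_both hS hy i
    obtain ⟨p0, p3⟩ := hA j n03
    have p1 : v (j + 1) ∉ P := fun h => hB j ⟨p0, h⟩
    have p2 : v (j + 2) ∉ P := fun h => hB (j + 2) ⟨h, p3⟩
    have p4 : v (j + 4) ∉ P := fun h => hB (j + 3) ⟨p3, h⟩
    have p5 : v (j + 5) ∉ P := fun h => hB (j + 5) ⟨h, by rw [e6]; exact p0⟩
    have h14 : Conn H (v (j + 1)) (v (j + 4)) := by
      by_contra h
      exact p1 (hA (j + 1) h).1
    have h25 : Conn H (v (j + 2)) (v (j + 5)) := by
      by_contra h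
      exact p2 (hA (j + 2) h).1
    have hkill : ∀ i, ¬ Conn H (v (i + 1)) (v i) → ¬ Conn H (v (i + 1)) (v (i + 2)) →
        ¬ Conn H (v (i + 1)) (v (i + 3)) → ¬ Conn H (v (i + 1)) (v (i + 5)) →
        v i ∉ P → v (i + 2) ∉ P → v (i + 3) ∉ P → v (i + 5) ∉ P → False := by
      intro i k1 k2 k3 k4 k5 k6 k7 k8
      simp only [hv] at k1 k2 k3 k4 k5 k6 k7 k8
      exact kill hS hH hy le_rfl (by decide) (hmin 3 (by norm_num)) (hmin 3 (by norm_num)) i
        k1 k2 k3 k4 k5 k6 k7 k8
    have e7 : v (j + 5 + 2) = v (j + 1) := hvp (j + 1)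
    have e8 : v (j + 5 + 3) = v (j + 2) := hvp (j + 2)
    have e10 : v (j + 5 + 5) = v (j + 4) := hvp (j + 4)
    have e7' : v (j + 2 + 5) = v (j + 1) := hvp (j + 1)
    have d0 : Conn H (v j) (v (j + 1)) ∨ Conn H (v j) (v (j + 2)) := by
      by_contra h
      rw [not_or] at h
      obtain ⟨n01, n02⟩ := h
      refine hkill (j + 5) ?_ ?_ ?_ ?_ p5 ?_ ?_ ?_
      · rw [e6]
        exact fun h => n02 (h.trans h25.symm)
      · rw [e6, e7]
        exact n01
      · rw [e6, e8]
        exact n02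
      · rw [e6, e10]
        exact fun h => n01 (h.trans h14.symm)
      · rw [e7]
        exact p1
      · rw [e8]
        exact p2
      · rw [e10]
        exact p4
    have d3 : Conn H (v (j + 3)) (v (j + 1)) ∨ Conn H (v (j + 3)) (v (j + 2)) := by
      by_contra h
      rw [not_or] at h
      obtain ⟨n31, n32⟩ := h
      refine hkill (j + 2) n32 ?_ ?_ ?_ p2 p4 p5 ?_
      · exact fun h => n31 (h.trans h14.symm)
      · exact fun h => n32 (h.trans h25.symm)
      · rw [e7']
        exact n31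
      · rw [e7']
        exact p1
    rcases d0 with h01 | h02
    · have h32 : Conn H (v (j + 3)) (v (j + 2)) := by
        rcases d3 with h | h
        · exact absurd (h01.trans h.symm) n03
        · exact h
      have n12 : ¬ Conn H (v (j + 1)) (v (j + 2)) := fun h =>
        n03 ((h01.trans h).trans h32.symm)
      have n02 : ¬ Conn H (v j) (v (j + 2)) := fun h => n03 (h.trans h32.symm)
      have f1 : ¬ fl (j + 1) := hnfl (j + 1) n12
      have f3 : ¬ fl (j + 3) := hnfl (j + 3) fun h =>
        n12 (h14.trans (h.symm.trans h32))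
      have f4 : ¬ fl (j + 4) := hnfl (j + 4) fun h =>
        n12 (h14.trans (h.trans h25.symm))
      have f5 : ¬ fl (j + 5) := hnfl (j + 5) fun h => by
        rw [e6] at h
        exact n02 (h.symm.trans h25.symm)
      have hn : ∀ i, ¬ (fl i ∧ fl (i + 1)) :=
        per6 hQn j (fun h => f1 h.2) (fun h => f1 h.1) (fun h => f3 h.2) (fun h => f3 h.1)
          (fun h => f4 h.1) (fun h => f5 h.1)
      refine hmerge hn (per6 hQc j (fun h0 => ?_) (fun h => absurd h f1) (fun h0 => ?_)
        (fun h => absurd h f3) (fun h => absurd h f4) (fun h => absurd h f5))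
      · refine hone j h0 (per6 (fun i => by rw [hflp, hvp, hvp1]) j (fun _ _ => rfl)
          (fun h => absurd h f1) (fun _ h => absurd h n02) (fun h => absurd h f3)
          (fun h => absurd h f4) (fun h => absurd h f5))
      · refine hone (j + 2) h0 (per6 (fun i => by rw [hflp, hvp, hvp1]) j
          (fun _ h => absurd h.symm n02)
          (fun h => absurd h f1) (fun _ _ => rfl) (fun h => absurd h f3)
          (fun h => absurd h f4) (fun h => absurd h f5))
    · have h31 : Conn H (v (j + 3)) (v (j + 1)) := by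
        rcases d3 with h | h
        · exact h
        · exact absurd (h02.trans h.symm) n03
      have n12 : ¬ Conn H (v (j + 1)) (v (j + 2)) := fun h =>
        n03 (h02.trans (h31.trans h).symm)
      have n01 : ¬ Conn H (v j) (v (j + 1)) := fun h => n03 (h.trans h31.symm)
      have n35 : ¬ Conn H (v (j + 3)) (v (j + 5)) := fun h =>
        n12 (h31.symm.trans (h.trans h25.symm))
      have f0 : ¬ fl j := hnfl j n01
      have f1 : ¬ fl (j + 1) := hnfl (j + 1) n12
      have f2 : ¬ fl (j + 2) := hnfl (j + 2) fun h => n12 (h.trans h31).symm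
      have f4 : ¬ fl (j + 4) := hnfl (j + 4) fun h =>
        n12 (h14.trans (h.trans h25.symm))
      have hn : ∀ i, ¬ (fl i ∧ fl (i + 1)) :=
        per6 hQn j (fun h => f0 h.1) (fun h => f1 h.1) (fun h => f2 h.1) (fun h => f4 h.2)
          (fun h => f4 h.1) (fun h => f0 ((hflp j).1 h.2))
      refine hmerge hn (per6 hQc j (fun h => absurd h f0) (fun h => absurd h f1)
        (fun h => absurd h f2) (fun h0 => ?_) (fun h => absurd h f4) (fun h0 => ?_))
      · refine hone (j + 3) h0 (per6 (fun i => by rw [hflp, hvp, hvp1]) j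
          (fun h => absurd h f0) (fun h => absurd h f1) (fun h => absurd h f2)
          (fun _ _ => rfl) (fun h => absurd h f4) (fun _ h => absurd h n35))
      · refine hone (j + 5) h0 (per6 (fun i => by rw [hflp, hvp, hvp1]) j
          (fun h => absurd h f0) (fun h => absurd h f1) (fun h => absurd h f2)
          (fun _ h => absurd h.symm n35) (fun h => absurd h f4) (fun _ _ => rfl))
  -- conclusion
  by_cases hall : ∀ j, Conn H (v j) (v (j + 3))
  · have n01 : ¬ Conn H (v 0) (v 1) := by
      rw [hv, hv]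
      exact hy.cross
    have h03 : Conn H (v 0) (v 3) := hall 0
    have h14 : Conn H (v 1) (v 4) := hall 1
    have h25 : Conn H (v 2) (v 5) := hall 2
    by_cases h12 : Conn H (v 1) (v 2)
    · exact case1 0 h03 h14 h25 n01 h12
    · by_cases h02 : Conn H (v 0) (v 2)
      · exact case1 1 h14 h25 (hall 3) h12 (h02.symm.trans h03)
      · have e6 : v (0 + 5 + 1) = v 0 := hvp 0
        have hno : ∀ i, ¬ fl i := by
          refine per6 (fun i => by rw [hflp]) 0 ?_ ?_ ?_ ?_ ?_ ?_
          · exact hnfl 0 n01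
          · exact hnfl 1 h12
          · exact hnfl 2 fun h => h02 (h03.trans h.symm)
          · exact hnfl 3 fun h => n01 (h03.trans (h.trans h14.symm))
          · exact hnfl 4 fun h => h12 (h14.trans (h.trans h25.symm))
          · refine hnfl 5 fun h => ?_
            have h' : Conn H (v 5) (v 0) := by
              rw [← e6]
              exact h
            exact h02 (h'.symm.trans h25.symm)
        exact hmerge (fun i h => hno i h.1) (fun i h => absurd h (hno i))
  · rw [not_forall] at hall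
    obtain ⟨j, hj⟩ := hall
    exact case2 j hj

end Pool.Agent.Work.MP_a5655b_lc
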