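import Pool.Agent.Work.MP_a5655b_lc.Four
import Pool.Agent.Work.MP_a5655b_lc.Six
import Pool.Agent.Work.MP_a5655b_lc.Big
import Pool.Agent.Work.MP_a5655b_lc.Cut

/-!
# Module Core

If another factor has an edge joining two components of `H`, there is a better factor; hence: if the
union of all factors is connected, there is a connected factor.

Proof of `core`. By `exists_cw` there is `n` with `CW χ H n`; take the least one (`Nat.find`). It is
odd and `≥ 3` (`cw_odd`). `n = 3`: `four_better`. Otherwise `n ≥ 5`; let `y` be the walk of period
`n + 1` of `cw_walk`. For `m + 1 < n + 1`: `¬ CW χ H m` by minimality. `n = 5`: `six_better`. `n ≥ 7`: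
`big`.

Proof of `exists_connected`. Among the factors choose `H` with the largest number of pairs
`(p, q)` with `Conn H p q` (finitely many finsets; or `Finset.exists_max_image`, or strong induction on
the number of pairs that are not joined). If `¬ Conn H u v` for some `u, v`, then on the path of `hU`
from `u` to `v` there is a step `x, y` with `¬ Conn H x y`, and `s(x,y) ∈ H'` for a factor `H'`. `core`
gives `Better χ H`, i.e. a factor that joins all pairs that `H` joins, and one more:
contradiction.
-/

set_option autoImplicit false
set_option linter.unusedSectionVars false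

namespace Pool.Agent.Work.MP_a5655b_lc

variable {V : Type} [Fintype V] [DecidableEq V] {χ : Sym2 V → ℤ} {P : Set V}

theorem core (hS : Split χ P) {H H' : Finset (Sym2 V)} (hH : Factor χ H) (hH' : Factor χ H')
    {u v : V} (he : s(u, v) ∈ H') (hc : ¬ Conn H u v) : Better χ H := by
  classical
  have hex := exists_cw hS hH hH' he hc
  let n := Nat.find hex
  have hn : CW χ H n := Nat.find_spec hex
  have hmin : ∀ m, m < n → ¬ CW χ H m := fun m hm => Nat.find_min hex hm
  obtain ⟨ho, h3⟩ := cw_odd hn
  by_cases e3 : n = 3
  · rw [e3] at hn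
    exact four_better hS hH hn
  · obtain ⟨y, hy⟩ := cw_walk hn
    by_cases e5 : n = 5
    · rw [e5] at hy
      exact six_better hS hH hy fun m hm => hmin m (by omega)
    · have := Nat.odd_iff.1 ho
      exact absurd (big hS hH hy (by omega) fun m hm => hmin m (by omega)) id

theorem exists_connected (hS : Split χ P) (h0 : ∃ H, Factor χ H)
    (hU : ∀ u v, Relation.ReflTransGen (fun x y => ∃ H, Factor χ H ∧ s(x, y) ∈ H) u v) :
    ∃ H, Factor χ H ∧ ∀ u v, Conn H u v := by
  classical
  -- the number of the pairs that are joined
  let c : Finset (Sym2 V) → ℕ := fun H =>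
    (Finset.univ.filter fun p : V × V => Conn H p.1 p.2).card
  let S : Finset (Finset (Sym2 V)) := Finset.univ.filter fun H => Factor χ H
  have hne : S.Nonempty := by
    obtain ⟨H, hH⟩ := h0
    exact ⟨H, Finset.mem_filter.2 ⟨Finset.mem_univ _, hH⟩⟩
  obtain ⟨H, hHS, hmax⟩ := Finset.exists_max_image S c hne
  have hH : Factor χ H := (Finset.mem_filter.1 hHS).2
  refine ⟨H, hH, ?_⟩
  have hno : ¬ Better χ H := by
    rintro ⟨u, v, huv, H', h1, h2, h3⟩
    have h4 := hmax H' (Finset.mem_filter.2 ⟨Finset.mem_univ _, h1⟩)
    have h5 : (Finset.univ.filter fun p : V × V => Conn H p.1 p.2) ⊂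
        (Finset.univ.filter fun p : V × V => Conn H' p.1 p.2) := by
      rw [Finset.ssubset_iff_of_subset]
      · refine ⟨(u, v), ?_, ?_⟩
        · rw [Finset.mem_filter]
          exact ⟨Finset.mem_univ _, h3⟩
        · rw [Finset.mem_filter]
          exact fun h => huv h.2
      · intro p hp
        rw [Finset.mem_filter] at hp ⊢
        exact ⟨hp.1, h2 _ _ hp.2⟩
    have h6 := Finset.card_lt_card h5
    have h7 : c H < c H' := h6
    omega
  intro u v
  have h := hU u v
  induction h with
  | refl => exact Conn.refl _
  | @tail b c' _ hbc ih =>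
    obtain ⟨H', hH', he⟩ := hbc
    refine ih.trans ?_
    by_contra hc
    exact hno (core hS hH hH' he hc)

end Pool.Agent.Work.MP_a5655b_lc
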