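import Pool.Agent.Work.MP_a5655b_lc.Euler
import Pool.Agent.Work.MP_a5655b_lc.Core

/-!
# Module Char

The characterisation of the supereulerian 2-edge-coloured complete split graphs.

Proof of `supereulerian_iff_union`. (⟹) Let `m, f` be the trail. By `supereulerian_factor` its edges
form an eulerian factor `F`. Every vertex `u` is `f i` with `i < m`, and consecutive vertices
`f i, f (i+1)` are joined by an edge of `F`, so `u` and `v` are joined by a path of such edges (the
relation is symmetric). (⟸) Let `P` be from `split_chi`. By `factor_of_eulerian` there is a factor, and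
whenever `u, v` are joined by an edge of an eulerian factor, they are joined by an edge of a
factor; so `exists_connected` applies (`Relation.ReflTransGen.mono`), and `trail_of_factor` gives the
trail.

Proof of `supereulerian_iff_conn`: the same with factors `Factor (chi R B) H`: (⟹) by
`factor_of_eulerian` applied to the eulerian factor of the trail; (⟸) `exists_connected` and
`trail_of_factor`.
-/

set_option autoImplicit false
set_option linter.unusedSectionVars false

namespace Pool.Agent.Work.MP_a5655b_lc

variable {V : Type} [Fintype V] [DecidableEq V] {R B : SimpleGraph V}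

private theorem walk45 {m : ℕ} {f : ℕ → V} {r : V → V → Prop} (hsymm : ∀ x y, r x y → r y x)
    (hr : ∀ i < m, r (f i) (f (i + 1))) (hv : ∀ v, ∃ i < m, f i = v) (u v : V) :
    Relation.ReflTransGen r u v := by
  have h1 : ∀ i, i ≤ m → Relation.ReflTransGen r (f 0) (f i) := by
    intro i
    induction i with
    | zero => exact fun _ => Relation.ReflTransGen.refl
    | succ i ih => exact fun hi => (ih (by omega)).tail (hr i (by omega))
  have h2 : ∀ i, i ≤ m → Relation.ReflTransGen r (f i) (f 0) := by
    intro i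
    induction i with
    | zero => exact fun _ => Relation.ReflTransGen.refl
    | succ i ih => exact fun hi => (ih (by omega)).head (hsymm _ _ (hr i (by omega)))
  obtain ⟨i, hi, rfl⟩ := hv u
  obtain ⟨j, hj, rfl⟩ := hv v
  exact (h2 i hi.le).trans (h1 j hj.le)

theorem supereulerian_iff_union [Nonempty V] (h : OneBigPart R B) : Supereulerian R B ↔
    (∃ F, EulerianFactor R B F) ∧ ∀ u v, Relation.ReflTransGen
      (fun x y => ∃ F, EulerianFactor R B F ∧ s(x, y) ∈ F) u v := by
  have hRB := h.1
  obtain ⟨P, hS⟩ := split_chi h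
  constructor
  · rintro ⟨m, f, hf, hv⟩
    have hF := supereulerian_factor hf hv
    refine ⟨⟨_, hF⟩, walk45 (f := f) (m := m) ?_ ?_ hv⟩
    · rintro x y ⟨F, h1, h2⟩
      refine ⟨F, h1, ?_⟩
      rwa [Sym2.eq_swap]
    · intro i hi
      exact ⟨_, hF, ⟨i, hi, rfl⟩⟩
  · rintro ⟨⟨F, hF⟩, hU⟩
    obtain ⟨H0, hH0, -⟩ := factor_of_eulerian hRB hF
    obtain ⟨H, hH, hc⟩ := exists_connected hS ⟨H0, hH0⟩ (fun u v => Relation.ReflTransGen.mono (by
      rintro x y ⟨F', h1, h2⟩
      obtain ⟨H', h3, h4⟩ := factor_of_eulerian hRB h1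
      exact ⟨H', h3, (h4 _).2 h2⟩) _ _ (hU u v))
    exact trail_of_factor hRB hH hc

theorem supereulerian_iff_conn [Nonempty V] (h : OneBigPart R B) : Supereulerian R B ↔
    (∃ H, Factor (chi R B) H) ∧ ∀ u v, Relation.ReflTransGen
      (fun x y => ∃ H, Factor (chi R B) H ∧ s(x, y) ∈ H) u v := by
  have hRB := h.1
  obtain ⟨P, hS⟩ := split_chi h
  constructor
  · rintro ⟨m, f, hf, hv⟩
    obtain ⟨H, hH, hHF⟩ := factor_of_eulerian hRB (supereulerian_factor hf hv)
    refine ⟨⟨H, hH⟩, walk45 (f := f) (m := m) ?_ ?_ hv⟩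
    · rintro x y ⟨H', h1, h2⟩
      refine ⟨H', h1, ?_⟩
      rwa [Sym2.eq_swap]
    · intro i hi
      exact ⟨H, hH, (hHF _).2 ⟨i, hi, rfl⟩⟩
  · rintro ⟨h0, hU⟩
    obtain ⟨H, hH, hc⟩ := exists_connected hS h0 hU
    exact trail_of_factor hRB hH hc

end Pool.Agent.Work.MP_a5655b_lc
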