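import Pool.Agent.Work.MP_a5655b_lc.Defs

/-!
# Module StarSum

Sums over the edges at a vertex.

Proof of `star_sum`. The map `z ↦ s(v, z)` is injective; for a set `H` without loops the edges
`e ∈ H` with `v ∈ e` are the values `s(v, z)` with `s(v, z) ∈ H`. So both sides are the sum of `φ`
over `H.filter (v ∈ ·)` (use `Finset.sum_filter` and `Finset.sum_nbij'` or
`Finset.sum_bij`; `v ∈ e` gives `e = s(v, z)` by `Sym2.mem_iff_exists`).

Proof of `red_eq_blue`. With `φ = χ` and `star_sum`, `bal χ H v = ∑ z, if s(v,z) ∈ H then χ s(v,z)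
else 0`, and each summand is `[red] - [blue]` because `χ = ±1` on `H`. So the balance is the number
of red minus the number of blue edges at `v`.

Proof of `exists_red`: some edge of `H` contains `v`, so one of the two numbers of `red_eq_blue` is
positive, hence both.
-/

set_option autoImplicit false
set_option linter.unusedSectionVars false

namespace Pool.Agent.Work.MP_a5655b_lc

variable {V : Type} [Fintype V] [DecidableEq V]

/-- Sums over the edges at a vertex. -/
theorem star_sum (H : Finset (Sym2 V)) (hH : ∀ v, s(v, v) ∉ H) (φ : Sym2 V → ℤ) (v : V) :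
    (∑ e ∈ H, if v ∈ e then φ e else 0) = ∑ z, if s(v, z) ∈ H then φ s(v, z) else 0 := by
  rw [← Finset.sum_filter, ← Finset.sum_filter]
  have e1 : H.filter (fun e => v ∈ e) =
      (Finset.univ.filter (fun z => s(v, z) ∈ H)).image (fun z => s(v, z)) := by
    ext e
    simp only [Finset.mem_filter, Finset.mem_image, Finset.mem_univ, true_and]
    constructor
    · rintro ⟨he, hv⟩
      obtain ⟨z, rfl⟩ := Sym2.mem_iff_exists.1 hv
      exact ⟨z, he, rfl⟩
    · rintro ⟨z, hz, rfl⟩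
      exact ⟨hz, by simp⟩
  rw [e1, Finset.sum_image]
  intro x _ y _ hxy
  exact Sym2.congr_right.1 hxy

/-- In a balanced set the number of red edges at a vertex is the number of blue edges. -/
theorem red_eq_blue {χ : Sym2 V → ℤ} {H : Finset (Sym2 V)} (hl : ∀ v, s(v, v) ∉ H)
    (hv : ∀ e ∈ H, χ e = 1 ∨ χ e = -1) {v : V} (hb : bal χ H v = 0) :
    (Finset.univ.filter fun z => s(v, z) ∈ H ∧ χ s(v, z) = 1).card =
      (Finset.univ.filter fun z => s(v, z) ∈ H ∧ χ s(v, z) = -1).card := by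
  unfold bal at hb
  rw [star_sum H hl χ v] at hb
  have e1 : ∀ z, (if s(v, z) ∈ H then χ s(v, z) else 0) =
      (if s(v, z) ∈ H ∧ χ s(v, z) = 1 then (1 : ℤ) else 0) -
        (if s(v, z) ∈ H ∧ χ s(v, z) = -1 then (1 : ℤ) else 0) := by
    intro z
    by_cases h : s(v, z) ∈ H
    · rcases hv _ h with h1 | h1
      · rw [if_pos h, if_pos ⟨h, h1⟩, if_neg, h1]
        · rfl
        · rintro ⟨-, h2⟩
          rw [h1] at h2
          exact absurd h2 (by decide)
      · rw [if_pos h, if_neg, if_pos ⟨h, h1⟩, h1]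
        · rfl
        · rintro ⟨-, h2⟩
          rw [h1] at h2
          exact absurd h2 (by decide)
    · rw [if_neg h, if_neg (fun hh => h hh.1), if_neg (fun hh => h hh.1)]
      rfl
  rw [Finset.sum_congr rfl (fun z _ => e1 z), Finset.sum_sub_distrib] at hb
  have c1 : ((Finset.univ.filter fun z => s(v, z) ∈ H ∧ χ s(v, z) = 1).card : ℤ) =
      ∑ z, if s(v, z) ∈ H ∧ χ s(v, z) = 1 then (1 : ℤ) else 0 := by
    rw [Finset.card_filter]
    push_cast
    rfl
  have c2 : ((Finset.univ.filter fun z => s(v, z) ∈ H ∧ χ s(v, z) = -1).card : ℤ) =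
      ∑ z, if s(v, z) ∈ H ∧ χ s(v, z) = -1 then (1 : ℤ) else 0 := by
    rw [Finset.card_filter]
    push_cast
    rfl
  rw [← c1, ← c2] at hb
  omega

/-- A factor has an edge of each colour at every vertex. -/
theorem exists_red {χ : Sym2 V → ℤ} {P : Set V} {H : Finset (Sym2 V)} (hS : Split χ P)
    (hH : Factor χ H) (v : V) :
    (∃ z, s(v, z) ∈ H ∧ χ s(v, z) = 1) ∧ ∃ z, s(v, z) ∈ H ∧ χ s(v, z) = -1 := by
  have hl : ∀ v, s(v, v) ∉ H := fun v hv => hH.edge _ hv (hS.diag v)
  have hv : ∀ e ∈ H, χ e = 1 ∨ χ e = -1 := by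
    intro e he
    rcases hS.val e with h | h | h
    · exact Or.inl h
    · exact Or.inr h
    · exact absurd h (hH.edge e he)
  have hc := red_eq_blue hl hv (hH.bal v)
  have key : ∀ t : ℤ, (∃ z, s(v, z) ∈ H ∧ χ s(v, z) = t) ↔
      0 < (Finset.univ.filter fun z => s(v, z) ∈ H ∧ χ s(v, z) = t).card := by
    intro t
    rw [Finset.card_pos]
    constructor
    · rintro ⟨z, hz⟩
      exact ⟨z, Finset.mem_filter.2 ⟨Finset.mem_univ _, hz⟩⟩
    · rintro ⟨z, hz⟩
      exact ⟨z, (Finset.mem_filter.1 hz).2⟩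
  obtain ⟨e, he, hve⟩ := hH.cov v
  obtain ⟨z, rfl⟩ := Sym2.mem_iff_exists.1 hve
  rcases hv _ he with h | h
  · have h1 := (key 1).1 ⟨z, he, h⟩
    exact ⟨⟨z, he, h⟩, (key (-1)).2 (hc ▸ h1)⟩
  · have h1 := (key (-1)).1 ⟨z, he, h⟩
    exact ⟨(key 1).2 (hc.symm ▸ h1), ⟨z, he, h⟩⟩

end Pool.Agent.Work.MP_a5655b_lc
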