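import Pool.Agent.Work.MP_a5655b_lc.GadM
import Pool.Agent.Work.MP_a5655b_lc.StarSum

/-!
# Module GadC

A factor gives a matching of the auxiliary graph that covers the required vertices.

Proof. For a vertex `v` let `A v` be the set of the `a` with `s(v, a) ∈ H` red and `C v` the same for
blue. By `red_eq_blue` and `exists_red` (StarSum) they have the same positive size, and they are
disjoint by `hd`. Let `s v, a₀ v, b₀ v` be from `exists_swap`. With `exists_fun` let `m` have the values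
* `m (v * n + a) = a * n + v` if `va` is an edge (of either colour) not in `H`;
* `m (v * n + a) = n * n + v` if `a = a₀ v`; `= n * n + n + v` if `a = b₀ v`;
* `m (v * n + a) = v * n + s v a` if `a ∈ A v ∪ C v`, `a ≠ a₀ v`, `a ≠ b₀ v`;
* `m (v * n + a) = v * n + a` otherwise (no edge);
* `m (n * n + v) = v * n + a₀ v` and `m (n * n + n + v) = v * n + b₀ v`.
By the cases of `cases_num`, `m` is an involution, and `m x ≠ x` implies that `x` and `m x` are
adjacent by `ad_half`, `ad_al`, `ad_be`; for the first kind of pairs note that `va ∉ H` is not the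
edge `q` by `hq`. All required vertices (`mem_req`) have `m x ≠ x`, by `half_inj` and the fact that
edges are no loops. Conclude with `Blossom.coverB_iff`.
-/

set_option autoImplicit false

namespace Pool.Agent.Work.MP_a5655b_lc

open Pool.Agent.Work.PolyTime
open Pool.Agent.Work.PolyTime.Blossom (Gr pairsOf coverB Ad)

private theorem chi_mk {n : ℕ} (R B : SimpleGraph (Fin n)) (u v : Fin n) :
    (R.Adj u v ∧ chi R B s(u, v) = 1) ∨ (¬ R.Adj u v ∧ B.Adj u v ∧ chi R B s(u, v) = -1) ∨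
      (¬ R.Adj u v ∧ ¬ B.Adj u v ∧ chi R B s(u, v) = 0) := by
  classical
  unfold chi
  simp only [SimpleGraph.mem_edgeSet]
  by_cases h1 : R.Adj u v
  · left
    exact ⟨h1, if_pos h1⟩
  · by_cases h2 : B.Adj u v
    · right; left
      refine ⟨h1, h2, ?_⟩
      rw [if_neg h1, if_pos h2]
    · right; right
      refine ⟨h1, h2, ?_⟩
      rw [if_neg h1, if_neg h2]

/-- The exchange at a vertex. -/
private theorem exch {n : ℕ} {R B : List (ℕ × ℕ)}
    (hd : ∀ u v : Fin n, (gr n R).Adj u v → ¬ (gr n B).Adj u v)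
    {H : Finset (Sym2 (Fin n))} (hH : Factor (chi (gr n R) (gr n B)) H) (v : Fin n) :
    ∃ (s : Fin n → Fin n) (a₀ b₀ : Fin n), s(v, a₀) ∈ H ∧ (gr n R).Adj v a₀ ∧ s(v, b₀) ∈ H ∧
      (gr n B).Adj v b₀ ∧ s a₀ = b₀ ∧ s b₀ = a₀ ∧
      (∀ a, s(v, a) ∈ H → s(v, s a) ∈ H ∧ s (s a) = a ∧
        (((gr n R).Adj v a ∧ (gr n B).Adj v (s a)) ∨ ((gr n B).Adj v a ∧ (gr n R).Adj v (s a)))) := by
  set χ := chi (gr n R) (gr n B) with hχ
  have hl : ∀ v, s(v, v) ∉ H := by
    intro v hv
    have h0 := hH.edge _ hv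
    rcases chi_mk (gr n R) (gr n B) v v with ⟨h, -⟩ | ⟨-, h, -⟩ | ⟨-, -, h⟩
    · exact h.ne rfl
    · exact h.ne rfl
    · exact h0 h
  have hv : ∀ e ∈ H, χ e = 1 ∨ χ e = -1 := by
    intro e he
    induction e using Sym2.inductionOn with
    | hf a b =>
      rcases chi_mk (gr n R) (gr n B) a b with ⟨-, h⟩ | ⟨-, -, h⟩ | ⟨-, -, h⟩
      · exact Or.inl h
      · exact Or.inr h
      · exact absurd h (hH.edge _ he)
  have hc := red_eq_blue hl hv (hH.bal v)
  have mA : ∀ z, z ∈ (Finset.univ.filter fun z => s(v, z) ∈ H ∧ χ s(v, z) = 1) ↔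
      s(v, z) ∈ H ∧ (gr n R).Adj v z := by
    intro z
    rw [Finset.mem_filter]
    rcases chi_mk (gr n R) (gr n B) v z with ⟨h1, h⟩ | ⟨h1, h2, h⟩ | ⟨h1, h2, h⟩
    · constructor
      · rintro ⟨-, h3, h4⟩; exact ⟨h3, h1⟩
      · rintro ⟨h3, h4⟩; exact ⟨Finset.mem_univ _, h3, h⟩
    · constructor
      · rintro ⟨-, h3, h4⟩
        rw [← hχ, h4] at h
        exact absurd h (by decide)
      · rintro ⟨h3, h4⟩; exact absurd h4 h1
    · constructor
      · rintro ⟨-, h3, h4⟩
        rw [← hχ, h4] at h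
        exact absurd h (by decide)
      · rintro ⟨h3, h4⟩; exact absurd h4 h1
  have mC : ∀ z, z ∈ (Finset.univ.filter fun z => s(v, z) ∈ H ∧ χ s(v, z) = -1) ↔
      s(v, z) ∈ H ∧ (gr n B).Adj v z := by
    intro z
    rw [Finset.mem_filter]
    rcases chi_mk (gr n R) (gr n B) v z with ⟨h1, h⟩ | ⟨h1, h2, h⟩ | ⟨h1, h2, h⟩
    · constructor
      · rintro ⟨-, h3, h4⟩
        rw [← hχ, h4] at h
        exact absurd h (by decide)
      · rintro ⟨h3, h4⟩; exact absurd h4 (hd _ _ h1)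
    · constructor
      · rintro ⟨-, h3, h4⟩; exact ⟨h3, h2⟩
      · rintro ⟨h3, h4⟩; exact ⟨Finset.mem_univ _, h3, h⟩
    · constructor
      · rintro ⟨-, h3, h4⟩
        rw [← hχ, h4] at h
        exact absurd h (by decide)
      · rintro ⟨h3, h4⟩; exact absurd h4 h2
  have hdis : Disjoint (Finset.univ.filter fun z => s(v, z) ∈ H ∧ χ s(v, z) = 1)
      (Finset.univ.filter fun z => s(v, z) ∈ H ∧ χ s(v, z) = -1) := by
    rw [Finset.disjoint_left]
    intro z hz hz'
    exact hd _ _ ((mA z).1 hz).2 ((mC z).1 hz').2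
  have hadj : ∀ z, s(v, z) ∈ H → (gr n R).Adj v z ∨ (gr n B).Adj v z := by
    intro z hz
    rcases chi_mk (gr n R) (gr n B) v z with ⟨h1, h⟩ | ⟨h1, h2, h⟩ | ⟨h1, h2, h⟩
    · exact Or.inl h1
    · exact Or.inr h2
    · exact absurd h (hH.edge _ hz)
  have hne : (Finset.univ.filter fun z => s(v, z) ∈ H ∧ χ s(v, z) = 1).Nonempty := by
    obtain ⟨e, he, hve⟩ := hH.cov v
    obtain ⟨z, rfl⟩ := Sym2.mem_iff_exists.1 hve
    rcases hadj z he with h | h
    · exact ⟨z, (mA z).2 ⟨he, h⟩⟩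
    · have h1 : (Finset.univ.filter fun z => s(v, z) ∈ H ∧ χ s(v, z) = -1).Nonempty :=
        ⟨z, (mC z).2 ⟨he, h⟩⟩
      rw [← Finset.card_pos, hc, Finset.card_pos]
      exact h1
  obtain ⟨s, a₀, b₀, h1, h2, h3, h4, h5, h6⟩ := exists_swap hdis hc hne
  refine ⟨s, a₀, b₀, ((mA _).1 h1).1, ((mA _).1 h1).2, ((mC _).1 h2).1, ((mC _).1 h2).2, h3, h4, ?_⟩
  intro a ha
  rcases hadj a ha with h | h
  · obtain ⟨h7, h8⟩ := h5 a ((mA a).2 ⟨ha, h⟩)
    exact ⟨((mC _).1 h7).1, h8, Or.inl ⟨h, ((mC _).1 h7).2⟩⟩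
  · obtain ⟨h7, h8⟩ := h6 a ((mC a).2 ⟨ha, h⟩)
    exact ⟨((mA _).1 h7).1, h8, Or.inr ⟨h, ((mA _).1 h7).2⟩⟩

theorem gad_complete {n : ℕ} {R B : List (ℕ × ℕ)}
    (hd : ∀ u v : Fin n, (gr n R).Adj u v → ¬ (gr n B).Adj u v) {q : ℕ × ℕ}
    {H : Finset (Sym2 (Fin n))} (hH : Factor (chi (gr n R) (gr n B)) H)
    (hq : ∀ u v : Fin n, u < v → q = ((u : ℕ), (v : ℕ)) →
      ((gr n R).Adj u v ∨ (gr n B).Adj u v) → s(u, v) ∈ H) : usable (n, R, B) q = true := by
  classical
  choose s a₀ b₀ hHa hRa hHb hBb hsa hsb hs using fun v => exch hd hH v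
  obtain ⟨m, mf, mg, mh, mbig⟩ := exists_fun (n := n) (fun v a =>
    if s(v, a) ∈ H then (if a = a₀ v then n * n + v else if a = b₀ v then n * n + n + v else
      (v : ℕ) * n + s v a)
    else if (gr n R).Adj v a ∨ (gr n B).Adj v a then (a : ℕ) * n + v else (v : ℕ) * n + a)
    (fun v => (v : ℕ) * n + a₀ v) (fun v => (v : ℕ) * n + b₀ v)
  have hab : ∀ v, b₀ v ≠ a₀ v := by
    intro v h
    have h1 := hRa v
    rw [← h] at h1
    exact hd _ _ h1 (hBb v)
  have m1 : ∀ v : Fin n, m ((v : ℕ) * n + a₀ v) = n * n + v := by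
    intro v
    rw [mf, if_pos (hHa v), if_pos rfl]
  have m2 : ∀ v : Fin n, m ((v : ℕ) * n + b₀ v) = n * n + n + v := by
    intro v
    rw [mf, if_pos (hHb v), if_neg (hab v), if_pos rfl]
  have m3 : ∀ v a : Fin n, s(v, a) ∈ H → a ≠ a₀ v → a ≠ b₀ v → m ((v : ℕ) * n + a) = (v : ℕ) * n + s v a := by
    intro v a h1 h2 h3
    rw [mf, if_pos h1, if_neg h2, if_neg h3]
  have m4 : ∀ v a : Fin n, s(v, a) ∉ H → ((gr n R).Adj v a ∨ (gr n B).Adj v a) →
      m ((v : ℕ) * n + a) = (a : ℕ) * n + v := by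
    intro v a h1 h2
    rw [mf, if_neg h1, if_pos h2]
  have m5 : ∀ v a : Fin n, s(v, a) ∉ H → ¬ ((gr n R).Adj v a ∨ (gr n B).Adj v a) →
      m ((v : ℕ) * n + a) = (v : ℕ) * n + a := by
    intro v a h1 h2
    rw [mf, if_neg h1, if_neg h2]
  have hsne : ∀ v a : Fin n, s(v, a) ∈ H → s v a ≠ a := by
    intro v a h1 h2
    obtain ⟨-, -, h3⟩ := hs v a h1
    rw [h2] at h3
    rcases h3 with ⟨h3, h4⟩ | ⟨h3, h4⟩
    · exact hd _ _ h3 h4
    · exact hd _ _ h4 h3
  unfold usable
  rw [Blossom.coverB_iff]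
  refine ⟨m, ⟨?_, ?_⟩, ?_⟩
  · intro x
    rcases cases_num n x with ⟨v, a, rfl⟩ | ⟨v, rfl⟩ | ⟨v, rfl⟩ | hx
    · by_cases h1 : s(v, a) ∈ H
      · by_cases h2 : a = a₀ v
        · subst h2
          rw [m1, mg]
        · by_cases h3 : a = b₀ v
          · subst h3
            rw [m2, mh]
          · obtain ⟨h4, h5, -⟩ := hs v a h1
            rw [m3 v a h1 h2 h3, m3 v (s v a) h4, h5]
            · intro h6
              apply h3
              rw [← h5, h6, hsa]
            · intro h6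
              apply h2
              rw [← h5, h6, hsb]
      · by_cases h2 : (gr n R).Adj v a ∨ (gr n B).Adj v a
        · rw [m4 v a h1 h2, m4 a v]
          · rw [Sym2.eq_swap]; exact h1
          · rcases h2 with h2 | h2
            · exact Or.inl h2.symm
            · exact Or.inr h2.symm
        · rw [m5 v a h1 h2, m5 v a h1 h2]
    · rw [mg, m1]
    · rw [mh, m2]
    · rw [mbig x hx, mbig x hx]
  · intro x hx
    rcases cases_num n x with ⟨v, a, rfl⟩ | ⟨v, rfl⟩ | ⟨v, rfl⟩ | hx'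
    · rw [ad_half hd]
      by_cases h1 : s(v, a) ∈ H
      · by_cases h2 : a = a₀ v
        · subst h2
          rw [m1]
          right; right; left
          exact ⟨rfl, hRa v⟩
        · by_cases h3 : a = b₀ v
          · subst h3
            rw [m2]
            right; right; right
            exact ⟨rfl, hBb v⟩
          · obtain ⟨h4, h5, h6⟩ := hs v a h1
            rw [m3 v a h1 h2 h3]
            right; left
            exact ⟨s v a, rfl, h6⟩
      · by_cases h2 : (gr n R).Adj v a ∨ (gr n B).Adj v a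
        · rw [m4 v a h1 h2]
          left
          refine ⟨rfl, h2, ?_, ?_⟩
          · rintro ⟨h3, h4⟩
            exact h1 (hq v a h3 h4 h2)
          · rintro ⟨h3, h4⟩
            apply h1
            rw [Sym2.eq_swap]
            refine hq a v h3 h4 ?_
            rcases h2 with h2 | h2
            · exact Or.inl h2.symm
            · exact Or.inr h2.symm
        · exact absurd (m5 v a h1 h2) hx
    · rw [mg, ad_al]
      exact ⟨a₀ v, rfl, hRa v⟩
    · rw [mh, ad_be]
      exact ⟨b₀ v, rfl, hBb v⟩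
    · exact absurd (mbig x hx') hx
  · intro x hx _
    rw [mem_req] at hx
    rcases hx with ⟨v, a, rfl, h⟩ | ⟨v, rfl⟩ | ⟨v, rfl⟩
    · have hlt := half_lt v a
      by_cases h1 : s(v, a) ∈ H
      · by_cases h2 : a = a₀ v
        · subst h2
          rw [m1]
          omega
        · by_cases h3 : a = b₀ v
          · subst h3
            rw [m2]
            omega
          · rw [m3 v a h1 h2 h3]
            intro h4
            exact hsne v a h1 (half_inj h4).2
      · rw [m4 v a h1 h]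
        intro h4
        obtain ⟨rfl, -⟩ := half_inj h4
        rcases h with h | h
        · exact h.ne rfl
        · exact h.ne rfl
    · rw [mg]
      have := half_lt v (a₀ v)
      omega
    · rw [mh]
      have := half_lt v (b₀ v)
      omega

end Pool.Agent.Work.MP_a5655b_lc
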