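import Pool.Agent.Work.MP_a5655b_lc.AlgDefs

/-!
# Module ReachOk

The search finds what can be reached from the vertex `0`.

Proof. Write `S i` for the list after `i` steps of the fold (`S 0 = [0]`, `S (i+1) = growL n E (S i)`;
`List.range_succ` and `List.foldl_append`, or induction on the number of steps for the fold over
`List.range k`). All elements of `S i` are `< n` (as `0 < n`), and `v ∈ S i` implies `v ∈ S (i+1)`. By
induction all elements of `S i` can be reached. Conversely: for every `i`, either `S i` is closed
(`(x, y) ∈ E` or `(y, x) ∈ E` and `x ∈ S i` imply `y ∈ S i`; note `x, y < n`) or the finset of the elements of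
`S (i+1)` has more elements than that of `S i`. If `S i` is closed, `S (i+1)` has the same elements and
is closed. So the finset of the elements of `S i` has at least `i + 1` elements or `S i` is closed.
For `i = n` the first is impossible, so `S n` is closed and contains `0`.
-/

set_option autoImplicit false

namespace Pool.Agent.Work.MP_a5655b_lc

open Pool.Agent.Work.PolyTime

/-- The lists of the search. -/
def reachS (n : ℕ) (E : List (ℕ × ℕ)) : ℕ → List ℕ
  | 0 => [0]
  | k + 1 => growL n E (reachS n E k)

theorem reachL_eq (n : ℕ) (E : List (ℕ × ℕ)) : reachL n E = reachS n E n := by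
  have key : ∀ k, (List.range k).foldl (fun S _ => growL n E S) [0] = reachS n E k := by
    intro k
    induction k with
    | zero => rfl
    | succ k ih => rw [List.range_succ, List.foldl_append, ih]; rfl
  exact key n

theorem mem_growL {n : ℕ} {E : List (ℕ × ℕ)} {S : List ℕ} {v : ℕ} : v ∈ growL n E S ↔
    v < n ∧ (v ∈ S ∨ ∃ w ∈ S, (w, v) ∈ E ∨ (v, w) ∈ E) := by
  unfold growL
  rw [List.mem_filter, List.mem_range]
  refine and_congr_right fun _ => ?_
  simp only [Bool.or_eq_true, memB_iff, List.any_eq_true, Bool.and_eq_true, decide_eq_true_eq]
  refine or_congr_right ?_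
  constructor
  · rintro ⟨⟨a, b⟩, he, (⟨rfl, h2⟩ | ⟨rfl, h2⟩)⟩
    · exact ⟨b, h2, Or.inr he⟩
    · exact ⟨a, h2, Or.inl he⟩
  · rintro ⟨w, hw, (he | he)⟩
    · exact ⟨(w, v), he, Or.inr ⟨rfl, hw⟩⟩
    · exact ⟨(v, w), he, Or.inl ⟨rfl, hw⟩⟩

theorem mem_reachL {n : ℕ} (hn : 0 < n) {E : List (ℕ × ℕ)} (hE : ∀ e ∈ E, e.1 < n ∧ e.2 < n)
    (v : ℕ) : v ∈ reachL n E ↔
      Relation.ReflTransGen (fun x y => (x, y) ∈ E ∨ (y, x) ∈ E) 0 v := by
  rw [reachL_eq]
  have hlt : ∀ k, ∀ v ∈ reachS n E k, v < n := by
    intro k
    induction k with
    | zero => intro v hv; rw [reachS, List.mem_singleton] at hv; omega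
    | succ k ih => intro v hv; rw [reachS, mem_growL] at hv; exact hv.1
  have hmono : ∀ k, ∀ v ∈ reachS n E k, v ∈ reachS n E (k + 1) := by
    intro k v hv
    rw [reachS, mem_growL]
    exact ⟨hlt k v hv, Or.inl hv⟩
  constructor
  · have : ∀ k, ∀ v ∈ reachS n E k,
        Relation.ReflTransGen (fun x y => (x, y) ∈ E ∨ (y, x) ∈ E) 0 v := by
      intro k
      induction k with
      | zero => intro v hv; rw [reachS, List.mem_singleton] at hv; rw [hv]
      | succ k ih =>
        intro v hv
        rw [reachS, mem_growL] at hv
        rcases hv.2 with h | ⟨w, hw, h⟩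
        · exact ih v h
        · exact (ih w hw).tail h
    exact this n v
  · intro hv
    -- either closed or large
    have key : ∀ k, (∀ x ∈ reachS n E k, ∀ y, ((x, y) ∈ E ∨ (y, x) ∈ E) → y ∈ reachS n E k) ∨
        k + 1 ≤ (reachS n E k).toFinset.card := by
      intro k
      induction k with
      | zero => right; simp [reachS]
      | succ k ih =>
        have hsub : (reachS n E k).toFinset ⊆ (reachS n E (k + 1)).toFinset := by
          intro v hv
          rw [List.mem_toFinset] at hv ⊢
          exact hmono k v hv
        by_cases hc : ∀ x ∈ reachS n E k, ∀ y, ((x, y) ∈ E ∨ (y, x) ∈ E) → y ∈ reachS n E k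
        · left
          have heq : ∀ v, v ∈ reachS n E (k + 1) → v ∈ reachS n E k := by
            intro v hv
            rw [reachS, mem_growL] at hv
            rcases hv.2 with h | ⟨w, hw, h⟩
            · exact h
            · exact hc w hw v h
          intro x hx y hy
          exact hmono k y (hc x (heq x hx) y hy)
        · right
          push Not at hc
          obtain ⟨x, hx, y, hxy, hy⟩ := hc
          have h1 : k + 1 ≤ (reachS n E k).toFinset.card := by
            rcases ih with ih | ih
            · exact absurd (ih x hx y hxy) hy
            · exact ih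
          have hyn : y < n := by
            rcases hxy with hxy | hxy
            · exact (hE _ hxy).2
            · exact (hE _ hxy).1
          have h2 : y ∈ reachS n E (k + 1) := by
            rw [reachS, mem_growL]
            exact ⟨hyn, Or.inr ⟨x, hx, hxy⟩⟩
          have h3 : (reachS n E k).toFinset ⊂ (reachS n E (k + 1)).toFinset := by
            rw [Finset.ssubset_iff_of_subset hsub]
            exact ⟨y, List.mem_toFinset.2 h2, fun h => hy (List.mem_toFinset.1 h)⟩
          have := Finset.card_lt_card h3
          omega
    have hcl : ∀ x ∈ reachS n E n, ∀ y, ((x, y) ∈ E ∨ (y, x) ∈ E) → y ∈ reachS n E n := by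
      rcases key n with h | h
      · exact h
      · exfalso
        have h1 : (reachS n E n).toFinset ⊆ Finset.range n := by
          intro v hv
          rw [List.mem_toFinset] at hv
          exact Finset.mem_range.2 (hlt n v hv)
        have := Finset.card_le_card h1
        rw [Finset.card_range] at this
        omega
    have h0 : 0 ∈ reachS n E n := by
      have : ∀ k, 0 ∈ reachS n E k := by
        intro k
        induction k with
        | zero => simp [reachS]
        | succ k ih => exact hmono k 0 ih
      exact this n
    induction hv with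
    | refl => exact h0
    | tail _ hbc ih => exact hcl _ ih _ hbc

end Pool.Agent.Work.MP_a5655b_lc
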