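import Pool.Agent.Work.MP_a5655b_lc.GadS
import Pool.Agent.Work.MP_a5655b_lc.GadC
import Pool.Agent.Work.MP_a5655b_lc.ReachOk
import Pool.Agent.Work.MP_a5655b_lc.Char

/-!
# Module AlgOk

The algorithm is correct.

Proof. `OneBigPart` gives that no pair is red and blue (`hd`). `n = 0`: `decide0` is `false`, and
there is no trail, because a trail has a vertex `f 0`. Let `n > 0`; use `supereulerian_iff_conn`.
`usable x (n, n) = true` iff there is a factor (`gad_sound`, `gad_complete`: `(n, n)` is no pair `(u, v)`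
with `u < v`). The elements of `useE` are the pairs `(u, v)` with `u < v < n` an edge that lies in some
factor (`gad_sound`, `gad_complete` with `q = (u, v)`), so for `x y : Fin n`: `(x, y) ∈ useE ∨
(y, x) ∈ useE` iff `s(x, y) ∈ H` for some factor `H` (the edges of a factor are edges because
`chi ≠ 0` on them). By `mem_reachL`, all `v < n` are in `reachL` iff all vertices are joined to the
vertex `0` by paths of such edges (`Relation.ReflTransGen.lift` in both directions; all vertices on
a path from `0` are `< n`), iff any two vertices are joined (the relation is symmetric).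
-/

set_option autoImplicit false

namespace Pool.Agent.Work.MP_a5655b_lc

open Pool.Agent.Work.PolyTime
open Pool.Agent.Work.PolyTime.Blossom (Gr pairsOf coverB)

theorem chi_red {V : Type} {R B : SimpleGraph V} {u v : V} (h : R.Adj u v) : chi R B s(u, v) = 1 := by
  unfold chi
  rw [if_pos ((SimpleGraph.mem_edgeSet R).2 h)]

theorem chi_ne {V : Type} {R B : SimpleGraph V} {u v : V} (h : chi R B s(u, v) ≠ 0) :
    R.Adj u v ∨ B.Adj u v := by
  unfold chi at h
  split_ifs at h with h1 h2
  · exact Or.inl h1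
  · exact Or.inr h2
  · exact absurd rfl h

/-- The edges found by the algorithm. -/
theorem mem_useE {n : ℕ} {R B : List (ℕ × ℕ)} {a b : ℕ} : (a, b) ∈ useE (n, R, B) ↔
    (a < n ∧ b < n) ∧ a < b ∧ (adjL R a b = true ∨ adjL B a b = true) ∧
      usable (n, R, B) (a, b) = true := by
  simp only [useE, el, List.mem_filter, List.mem_append, Blossom.mem_pairsOf, Bool.and_eq_true,
    decide_eq_true_eq]
  tauto

theorem useE_iff {n : ℕ} {R B : List (ℕ × ℕ)}
    (hd : ∀ u v : Fin n, (gr n R).Adj u v → ¬ (gr n B).Adj u v) (x y : Fin n) (hxy : x < y) :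
    ((x : ℕ), (y : ℕ)) ∈ useE (n, R, B) ↔
      ∃ H, Factor (chi (gr n R) (gr n B)) H ∧ s(x, y) ∈ H := by
  rw [mem_useE]
  constructor
  · rintro ⟨-, -, h1, h2⟩
    obtain ⟨H, hH, h3⟩ := gad_sound hd h2
    refine ⟨H, hH, h3 x y hxy rfl ?_⟩
    rw [← adjL_iff, ← adjL_iff]
    exact h1
  · rintro ⟨H, hH, h1⟩
    refine ⟨⟨x.2, y.2⟩, hxy, ?_, ?_⟩
    · rw [adjL_iff, adjL_iff]
      exact chi_ne (hH.edge _ h1)
    · refine gad_complete hd hH fun u v _ h2 _ => ?_
      rw [Prod.mk.injEq] at h2
      rw [← Fin.ext h2.1, ← Fin.ext h2.2]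
      exact h1

theorem useE_or {n : ℕ} {R B : List (ℕ × ℕ)}
    (hd : ∀ u v : Fin n, (gr n R).Adj u v → ¬ (gr n B).Adj u v) (x y : Fin n) :
    (((x : ℕ), (y : ℕ)) ∈ useE (n, R, B) ∨ ((y : ℕ), (x : ℕ)) ∈ useE (n, R, B)) ↔
      ∃ H, Factor (chi (gr n R) (gr n B)) H ∧ s(x, y) ∈ H := by
  have hlt : ∀ a b : Fin n, ((a : ℕ), (b : ℕ)) ∈ useE (n, R, B) → a < b := by
    intro a b h
    exact (mem_useE.1 h).2.1
  rcases lt_trichotomy x y with h | h | h
  · rw [← useE_iff hd x y h]
    refine or_iff_left fun h1 => ?_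
    exact absurd (hlt _ _ h1) (not_lt.2 h.le)
  · subst h
    constructor
    · rintro (h1 | h1)
      · exact absurd (hlt _ _ h1) (lt_irrefl _)
      · exact absurd (hlt _ _ h1) (lt_irrefl _)
    · rintro ⟨H, hH, h1⟩
      rcases chi_ne (hH.edge _ h1) with h2 | h2
      · exact absurd rfl h2.ne
      · exact absurd rfl h2.ne
  · rw [Sym2.eq_swap, ← useE_iff hd y x h]
    refine or_iff_right fun h1 => ?_
    exact absurd (hlt _ _ h1) (not_lt.2 h.le)

theorem decide0_iff {n : ℕ} {R B : List (ℕ × ℕ)} (h : OneBigPart (gr n R) (gr n B)) :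
    decide0 (n, R, B) = true ↔ Supereulerian (gr n R) (gr n B) := by
  have hd := h.1
  rcases Nat.eq_zero_or_pos n with hn | hn
  · subst hn
    constructor
    · intro h1
      simp [decide0] at h1
    · rintro ⟨m, f, -, -⟩
      exact (f 0).elim0
  have : Nonempty (Fin n) := ⟨⟨0, hn⟩⟩
  have hE : ∀ e ∈ useE (n, R, B), e.1 < n ∧ e.2 < n := by
    rintro ⟨a, b⟩ he
    exact (mem_useE.1 he).1
  rw [supereulerian_iff_conn h]
  unfold decide0
  simp only [hn, decide_true, Bool.true_and, Bool.and_eq_true, List.all_eq_true, List.mem_range,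
    memB_iff]
  refine and_congr ?_ ?_
  · constructor
    · intro h1
      obtain ⟨H, hH, -⟩ := gad_sound hd h1
      exact ⟨H, hH⟩
    · rintro ⟨H, hH⟩
      refine gad_complete hd hH fun u v _ h2 _ => ?_
      rw [Prod.mk.injEq] at h2
      exact absurd h2.1 (by have := u.2; omega)
  · constructor
    · intro h1
      have key : ∀ v : ℕ, Relation.ReflTransGen (fun x y => (x, y) ∈ useE (n, R, B) ∨
          (y, x) ∈ useE (n, R, B)) 0 v → ∀ hv : v < n, Relation.ReflTransGen
          (fun x y => ∃ H, Factor (chi (gr n R) (gr n B)) H ∧ s(x, y) ∈ H)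
          (⟨0, hn⟩ : Fin n) ⟨v, hv⟩ := by
        intro v hv
        induction hv with
        | refl => intro _; exact Relation.ReflTransGen.refl
        | @tail b c hb hbc ih =>
          intro hc
          have hb' : b < n := by
            rcases hbc with hbc | hbc
            · exact (hE _ hbc).1
            · exact (hE _ hbc).2
          exact (ih hb').tail ((useE_or hd ⟨b, hb'⟩ ⟨c, hc⟩).1 hbc)
      have hs : ∀ a b : Fin n, Relation.ReflTransGen
          (fun x y => ∃ H, Factor (chi (gr n R) (gr n B)) H ∧ s(x, y) ∈ H) a b →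
          Relation.ReflTransGen
          (fun x y => ∃ H, Factor (chi (gr n R) (gr n B)) H ∧ s(x, y) ∈ H) b a := by
        intro a b hab
        induction hab with
        | refl => exact Relation.ReflTransGen.refl
        | @tail c d _ hcd ih =>
          obtain ⟨H, hH, hcd⟩ := hcd
          exact Relation.ReflTransGen.head ⟨H, hH, by rwa [Sym2.eq_swap]⟩ ih
      intro u v
      exact Relation.ReflTransGen.trans (hs _ _ (key u ((mem_reachL hn hE _).1 (h1 u u.2)) u.2))
        (key v ((mem_reachL hn hE _).1 (h1 v v.2)) v.2)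
    · intro h1 v hv
      rw [mem_reachL hn hE]
      have h2 : ∀ w : Fin n, Relation.ReflTransGen
          (fun x y => ∃ H, Factor (chi (gr n R) (gr n B)) H ∧ s(x, y) ∈ H) (⟨0, hn⟩ : Fin n) w →
          Relation.ReflTransGen (fun x y => (x, y) ∈ useE (n, R, B) ∨
            (y, x) ∈ useE (n, R, B)) 0 (w : ℕ) := by
        intro w hw
        induction hw with
        | refl => exact Relation.ReflTransGen.refl
        | @tail c d _ hcd ih => exact ih.tail ((useE_or hd c d).2 hcd)
      exact h2 ⟨v, hv⟩ (h1 ⟨0, hn⟩ ⟨v, hv⟩)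

end Pool.Agent.Work.MP_a5655b_lc
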