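import Pool.Agent.Work.MP_a5655b_lc.Exch

/-!
# Module Ex6

The exchange along a closed residual walk with six edges.

Proof. As in module Ex4: all six edges have `χ e ≠ 0` (their `rho` is `t` or `-t`), so consecutive
vertices are distinct. The edges `e1 = ab, e2 = bc, e3 = cd, e4 = de, e5 = ef, e6 = fa` are pairwise
distinct: edges with indices of different parity have different `rho` (`t ≠ -t`); for `e_i` and
`e_(i+2)` (cyclically), say `ab = cd`: either `a = c`, then `ab = bc` although `rho` differs, or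
`b = c`, impossible (for `e1` and `e5`: `ab = ef` gives `a = e`, then `fa = ef` although `rho`
differs, or `a = f`, impossible; and so on). So the sum over the finset is the sum of the six
summands, and with `[v ∈ s(p,q)] = [v = p] + [v = q]` for `p ≠ q` it telescopes to `0`. Apply
`factor_exch`.
-/

set_option autoImplicit false
set_option linter.unusedSectionVars false

namespace Pool.Agent.Work.MP_a5655b_lc

variable {V : Type} [Fintype V] [DecidableEq V]

private theorem mem_split {p q : V} (hpq : p ≠ q) (v : V) (r : ℤ) :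
    (if v ∈ s(p, q) then r else 0) =
      r * ((if v = p then 1 else 0) + (if v = q then 1 else 0)) := by
  by_cases h1 : v = p
  · have h2 : v ≠ q := fun h => hpq (h1.symm.trans h)
    rw [if_pos h1, if_neg h2, if_pos (by rw [h1]; simp)]
    ring
  · by_cases h2 : v = q
    · rw [if_neg h1, if_pos h2, if_pos (by rw [h2]; simp)]
      ring
    · rw [if_neg h1, if_neg h2, if_neg]
      · ring
      · rw [Sym2.mem_iff]
        rintro (h | h)
        · exact h1 h
        · exact h2 h

private theorem chi_ne {χ : Sym2 V → ℤ} {H : Finset (Sym2 V)} {e : Sym2 V} {r : ℤ}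
    (h : rho χ H e = r) (hr : r ≠ 0) : χ e ≠ 0 := by
  intro h0
  unfold rho at h
  rw [h0, neg_zero, ite_self] at h
  exact hr h.symm

private theorem ne_of_chi {χ : Sym2 V → ℤ} (hd : ∀ v, χ s(v, v) = 0) {p q : V}
    (h : χ s(p, q) ≠ 0) : p ≠ q := by
  rintro rfl
  exact h (hd _)

private theorem rho_ne {χ : Sym2 V → ℤ} {H : Finset (Sym2 V)} {e f : Sym2 V} {r s : ℤ}
    (he : rho χ H e = r) (hf : rho χ H f = s) (hrs : r ≠ s) : e ≠ f := by
  rintro rfl
  exact hrs (he.symm.trans hf)

private theorem dist2 {χ : Sym2 V → ℤ} {H : Finset (Sym2 V)} {p q r z : V} {t : ℤ}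
    {t' : ℤ} (h1 : rho χ H s(p, q) = t) (h2 : rho χ H s(q, r) = t') (htt : t ≠ t')
    (hqr : q ≠ r) : s(p, q) ≠ s(r, z) := by
  intro h
  rw [Sym2.eq_iff] at h
  rcases h with ⟨rfl, -⟩ | ⟨-, h⟩
  · rw [Sym2.eq_swap, h1] at h2
    exact htt h2
  · exact hqr h

/-- The exchange along a closed residual walk with six edges. -/
theorem factor_ex6 {χ : Sym2 V → ℤ} {H : Finset (Sym2 V)} (hd : ∀ v, χ s(v, v) = 0)
    (hH : Factor χ H) {a b c d e f : V} {t : ℤ} (ht : t ≠ 0) (h1 : rho χ H s(a, b) = t)
    (h2 : rho χ H s(b, c) = -t) (h3 : rho χ H s(c, d) = t) (h4 : rho χ H s(d, e) = -t)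
    (h5 : rho χ H s(e, f) = t) (h6 : rho χ H s(f, a) = -t)
    (hc : ∀ g ∈ ({s(a, b), s(b, c), s(c, d), s(d, e), s(e, f), s(f, a)} : Finset (Sym2 V)),
      g ∈ H → ∀ v ∈ g,
      ∃ k ∈ symmDiff H {s(a, b), s(b, c), s(c, d), s(d, e), s(e, f), s(f, a)}, v ∈ k) :
    Factor χ (symmDiff H {s(a, b), s(b, c), s(c, d), s(d, e), s(e, f), s(f, a)}) := by
  have ht' : -t ≠ 0 := neg_ne_zero.2 ht
  have htt : t ≠ -t := fun h => ht (by omega)
  have c1 := chi_ne h1 ht
  have c2 := chi_ne h2 ht'
  have c3 := chi_ne h3 ht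
  have c4 := chi_ne h4 ht'
  have c5 := chi_ne h5 ht
  have c6 := chi_ne h6 ht'
  have ab := ne_of_chi hd c1
  have bc := ne_of_chi hd c2
  have cd := ne_of_chi hd c3
  have de := ne_of_chi hd c4
  have ef := ne_of_chi hd c5
  have fa := ne_of_chi hd c6
  have n12 := rho_ne h1 h2 htt
  have n13 : s(a, b) ≠ s(c, d) := dist2 h1 h2 htt bc
  have n14 := rho_ne h1 h4 htt
  have n15 : s(a, b) ≠ s(e, f) := (dist2 h5 h6 htt fa).symm
  have n16 := rho_ne h1 h6 htt
  have n23 := rho_ne h2 h3 htt.symm
  have n24 : s(b, c) ≠ s(d, e) := dist2 h2 h3 htt.symm cd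
  have n25 := rho_ne h2 h5 htt.symm
  have n26 : s(b, c) ≠ s(f, a) := (dist2 h6 h1 htt.symm ab).symm
  have n34 := rho_ne h3 h4 htt
  have n35 : s(c, d) ≠ s(e, f) := dist2 h3 h4 htt de
  have n36 := rho_ne h3 h6 htt
  have n45 := rho_ne h4 h5 htt.symm
  have n46 : s(d, e) ≠ s(f, a) := dist2 h4 h5 htt.symm ef
  have n56 := rho_ne h5 h6 htt
  refine factor_exch hH ?_ ?_ hc
  · intro g hg
    simp only [Finset.mem_insert, Finset.mem_singleton] at hg
    rcases hg with rfl | rfl | rfl | rfl | rfl | rfl
    · exact c1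
    · exact c2
    · exact c3
    · exact c4
    · exact c5
    · exact c6
  · intro v
    rw [Finset.sum_insert (by
        simp only [Finset.mem_insert, Finset.mem_singleton, not_or]
        exact ⟨n12, n13, n14, n15, n16⟩),
      Finset.sum_insert (by
        simp only [Finset.mem_insert, Finset.mem_singleton, not_or]
        exact ⟨n23, n24, n25, n26⟩),
      Finset.sum_insert (by
        simp only [Finset.mem_insert, Finset.mem_singleton, not_or]
        exact ⟨n34, n35, n36⟩),
      Finset.sum_insert (by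
        simp only [Finset.mem_insert, Finset.mem_singleton, not_or]
        exact ⟨n45, n46⟩),
      Finset.sum_insert (by
        simp only [Finset.mem_singleton]
        exact n56), Finset.sum_singleton, mem_split ab, mem_split bc, mem_split cd,
      mem_split de, mem_split ef, mem_split fa, h1, h2, h3, h4, h5, h6]
    ring

end Pool.Agent.Work.MP_a5655b_lc
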