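import Pool.Agent.Work.MP_a5655b_lc.Swap
import Pool.Agent.Work.MP_a5655b_lc.Ex6
import Pool.Agent.Work.MP_a5655b_lc.Flow

/-!
# Module Bad0

The bad configuration with `x ∉ P` and `a ∉ P`.

Proof. Suppose `Merge χ H w x` fails. Let `Sm = {u | Conn H w u ∧ χ s(u,a) = 1}` and
`Sp = {u | Conn H w u ∧ χ s(u,x) = -1}`. The vertices of the component of `w` are not joined to
`x, a, c` (which are joined to each other by edges of `H`).
(i) `u ∈ Sm`, `s(u,u') ∈ H` red ⟹ `u' ∈ Sp`: else (`x ∉ P`, `Split.cross`) `χ s(u',x) = 1`, and `swap`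
 with `(u, u', x, a)`, `t = 1` gives `Merge χ H u x`, so `Merge χ H w x` (`Merge.trans'`).
(ii) `u ∈ Sp`, `s(u,u') ∈ H` blue ⟹ `u' ∈ Sm`. Else `χ s(u',a) = -1` (`a ∉ P`). In particular
 `u' ≠ w`, because `χ s(w,a) = 1`. Consider `χ s(u',c)` (`Split.val`).
 * `-1`: `swap` with edges `s(u',u)` and `s(x,c)` of `H`, colour `t = -1` (`swap` for `u := u'`,
   `u' := u`, `x := x`, `a := c`: `χ s(u',c) = -1`, `χ s(u,x) = -1`): `Merge χ H u' x`.
 * `1`: `add4` with `a := u'`, `b := c`, `c := w`, `d := a`, `t = 1`: colours of `u'c, cw, wa, au'` are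
   `1, -1, 1, -1`, all join two components, so they are not in `H`: `Merge χ H u' c`.
 * `0`: the exchange with the six edges `u'a, aw, wc, cx, xu, uu'`: the residual colours are
   `-1, 1, -1, +1` (`cx ∈ H` blue), `-1, +1` (`uu' ∈ H` blue); so `factor_ex6` with `t = -1`. Covering:
   the removed edges are `cx` and `uu'`; `c, x, u, u'` are covered by the new edges `wc, xu, u'a`.
   `H' = symmDiff H D` joins everything that `H` joins (`conn_exch_mono`, `conn_exch_one`,
   `no_bridge`: the two removed edges are in different components), and `w - a` is a new edge, so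
   `Conn H' w a`, hence `Merge χ H w a` and `Merge χ H w x`.
`flow` with `Sm, Sp`: `w ∈ Sm` (`Conn.refl`, `cwa`). Let `b` be a blue neighbour of `w` in `H`
(`exists_red`). Then `b ∈ Sp`, `χ s(b,x) = -1`, and `swap` with the edges `s(w,b)`, `s(x,c)`, colour
`-1` (`χ s(w,c) = -1`, `χ s(b,x) = -1`) gives `Merge χ H w x`.
-/

set_option autoImplicit false
set_option linter.unusedSectionVars false

namespace Pool.Agent.Work.MP_a5655b_lc

variable {V : Type} [Fintype V] [DecidableEq V] {χ : Sym2 V → ℤ} {H : Finset (Sym2 V)}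
  {P : Set V}

private theorem conn_eq {K : Finset (Sym2 V)} {p q r z : V} (h : s(p, q) = s(r, z))
    (hc : Conn K r z) : Conn K p q := by
  rw [Sym2.eq_iff] at h
  rcases h with ⟨rfl, rfl⟩ | ⟨rfl, rfl⟩
  · exact hc
  · exact hc.symm

private theorem rho_in {e : Sym2 V} {r : ℤ} (h : e ∈ H) (hr : χ e = r) : rho χ H e = -r := by
  unfold rho
  rw [if_pos h, hr]

private theorem rho_out {e : Sym2 V} {r : ℤ} (h : e ∉ H) (hr : χ e = r) : rho χ H e = r := by
  unfold rho
  rw [if_neg h, hr]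

/-- The exchange with six edges. -/
private theorem bad0_six (hS : Split χ P) (hH : Factor χ H) {w x a c : V}
    (hb : Bad χ H w x a c) {u u' : V} (hu : Conn H w u) (hux : χ s(u, x) = -1)
    (huu : s(u, u') ∈ H) (cuu : χ s(u, u') = -1) (hu'a : χ s(u', a) = -1) : Merge χ H w a := by
  have hl : ∀ v, s(v, v) ∉ H := fun v hv => hH.edge _ hv (hS.diag v)
  have hv : ∀ e ∈ H, χ e = 1 ∨ χ e = -1 := by
    intro e he
    rcases hS.val e with h | h | h
    · exact Or.inl h
    · exact Or.inr h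
    · exact absurd h (hH.edge e he)
  have hu' : Conn H w u' := hu.trans (Conn.of_mem huu)
  have cax : Conn H a x := Conn.of_mem' hb.xa
  have ccx : Conn H c x := Conn.of_mem' hb.xc
  have n1 : s(u', a) ∉ H := fun h => hb.sep ((hu'.trans (Conn.of_mem h)).trans cax)
  have n2 : s(a, w) ∉ H := fun h => hb.sep ((Conn.of_mem' h).trans cax)
  have n3 : s(w, c) ∉ H := fun h => hb.sep ((Conn.of_mem h).trans ccx)
  have n5 : s(x, u) ∉ H := fun h => hb.sep (hu.trans (Conn.of_mem' h))
  have hcx : s(c, x) ∈ H := by rw [Sym2.eq_swap]; exact hb.xc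
  have ccx' : χ s(c, x) = -1 := by rw [Sym2.eq_swap]; exact hb.cxc
  have caw : χ s(a, w) = 1 := by rw [Sym2.eq_swap]; exact hb.cwa
  have cxu : χ s(x, u) = -1 := by rw [Sym2.eq_swap]; exact hux
  set D : Finset (Sym2 V) := {s(u', a), s(a, w), s(w, c), s(c, x), s(x, u), s(u, u')} with hD
  have q1 : s(u', a) ∈ D := by rw [hD]; simp
  have q2 : s(a, w) ∈ D := by rw [hD]; simp
  have q3 : s(w, c) ∈ D := by rw [hD]; simp
  have q5 : s(x, u) ∈ D := by rw [hD]; simp
  have hnew : ∀ {e : Sym2 V}, e ∈ D → e ∉ H → e ∈ symmDiff H D := fun he h =>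
    Finset.mem_symmDiff.2 (Or.inr ⟨he, h⟩)
  have hDH : ∀ e ∈ D, e ∈ H → e = s(c, x) ∨ e = s(u, u') := by
    intro e he heH
    rw [hD] at he
    simp only [Finset.mem_insert, Finset.mem_singleton] at he
    rcases he with h | h | h | h | h | h
    · exact absurd (h ▸ heH) n1
    · exact absurd (h ▸ heH) n2
    · exact absurd (h ▸ heH) n3
    · exact Or.inl h
    · exact absurd (h ▸ heH) n5
    · exact Or.inr h
  have hF : Factor χ (symmDiff H D) := by
    refine factor_ex6 hS.diag hH (t := -1) (by decide) (rho_out n1 hu'a) ?_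
      (rho_out n3 hb.cwc) (rho_in hcx ccx') (rho_out n5 cxu) (rho_in huu cuu) ?_
    · rw [neg_neg]
      exact rho_out n2 caw
    · intro e he heH y hve
      rcases hDH e he heH with h | h
      · rw [h, Sym2.mem_iff] at hve
        rcases hve with rfl | rfl
        · exact ⟨_, hnew q3 n3, by simp⟩
        · exact ⟨_, hnew q5 n5, by simp⟩
      · rw [h, Sym2.mem_iff] at hve
        rcases hve with rfl | rfl
        · exact ⟨_, hnew q5 n5, by simp⟩
        · exact ⟨_, hnew q1 n1, by simp⟩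
  have side1 : ∀ p q, s(p, q) = s(c, x) → Conn H x p := by
    intro p q e
    rw [Sym2.eq_iff] at e
    rcases e with ⟨rfl, rfl⟩ | ⟨rfl, rfl⟩
    · exact ccx.symm
    · exact Conn.refl _
  have side2 : ∀ p q, s(p, q) = s(u, u') → Conn H w p := by
    intro p q e
    rw [Sym2.eq_iff] at e
    rcases e with ⟨rfl, rfl⟩ | ⟨rfl, rfl⟩
    · exact hu
    · exact hu'
  have hmono : ∀ y z, Conn H y z → Conn (symmDiff H D) y z := by
    intro y z hyz
    refine conn_exch_mono ?_ hyz
    intro p q hpH hpD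
    refine conn_exch_one (a := p) (b := q) (Conn.of_mem hpH)
      (no_bridge hl hv hpH (fun w _ => hH.bal w)) ?_
    intro r z' hrH hrD hpr
    rcases hDH _ hpD hpH with e1 | e1 <;> rcases hDH _ hrD hrH with e2 | e2
    · rw [e1, e2]
    · exact absurd (((side2 r z' e2).trans hpr.symm).trans (side1 p q e1).symm) hb.sep
    · exact absurd (((side2 p q e1).trans hpr).trans (side1 r z' e2).symm) hb.sep
    · rw [e1, e2]
  exact ⟨symmDiff H D, hF, hmono, Conn.of_mem' (hnew q2 n2)⟩

theorem bad0 (hS : Split χ P) (hH : Factor χ H) {w x a c : V} (hb : Bad χ H w x a c)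
    (hx : x ∉ P) (ha : a ∉ P) : Merge χ H w x := by
  by_contra hM
  have cax : Conn H a x := Conn.of_mem' hb.xa
  have ccx : Conn H c x := Conn.of_mem' hb.xc
  have sx : ∀ u, Conn H w u → ¬ Conn H u x := fun u hu h => hb.sep (hu.trans h)
  have sa : ∀ u, Conn H w u → ¬ Conn H u a := fun u hu h => hb.sep ((hu.trans h).trans cax)
  have sc : ∀ u, Conn H w u → ¬ Conn H u c := fun u hu h => hb.sep ((hu.trans h).trans ccx)
  have h1 : ∀ u ∈ {u | Conn H w u ∧ χ s(u, a) = 1}, ∀ v, s(u, v) ∈ H → χ s(u, v) = 1 →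
      v ∈ {u | Conn H w u ∧ χ s(u, x) = -1} := by
    rintro u ⟨hu, hua⟩ v huv cuv
    have hwv : Conn H w v := hu.trans (Conn.of_mem huv)
    refine ⟨hwv, ?_⟩
    rcases hS.cross (sx v hwv) (Or.inr hx) with h | h
    · exact absurd ((swap hS hH (t := 1) (Or.inl rfl) huv cuv hb.xa hb.cxa hua h
        (sx u hu)).trans' hu (Conn.refl _)) hM
    · exact h
  have h2 : ∀ u ∈ {u | Conn H w u ∧ χ s(u, x) = -1}, ∀ v, s(u, v) ∈ H → χ s(u, v) = -1 →
      v ∈ {u | Conn H w u ∧ χ s(u, a) = 1} := by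
    rintro u ⟨hu, hux⟩ v huv cuv
    have hwv : Conn H w v := hu.trans (Conn.of_mem huv)
    refine ⟨hwv, ?_⟩
    rcases hS.cross (sa v hwv) (Or.inr ha) with h | h
    · exact h
    · exfalso
      rcases hS.val s(v, c) with hc | hc | hc
      · have m : Merge χ H v c := by
          refine add4 hS hH (a := v) (b := c) (c := w) (d := a) (t := 1) (Or.inl rfl) hc
            ?_ hb.cwa ?_ ?_ ?_ ?_ ?_
          · rw [Sym2.eq_swap]
            exact hb.cwc
          · rw [Sym2.eq_swap]
            exact h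
          · exact fun hh => sc v hwv (Conn.of_mem hh)
          · exact fun hh => sc w (Conn.refl _) (Conn.of_mem' hh)
          · exact fun hh => sa w (Conn.refl _) (Conn.of_mem hh)
          · exact fun hh => sa v hwv (Conn.of_mem' hh)
        exact hM (m.trans' hwv ccx)
      · have hvu : s(v, u) ∈ H := by rw [Sym2.eq_swap]; exact huv
        have cvu : χ s(v, u) = -1 := by rw [Sym2.eq_swap]; exact cuv
        have m := swap hS hH (t := -1) (Or.inr rfl) hvu cvu hb.xc hb.cxc hc hux (sx v hwv)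
        exact hM (m.trans' hwv (Conn.refl _))
      · exact hM ((bad0_six hS hH hb hu hux huv cuv h).trans' (Conn.refl _) cax)
  have hfl := flow hS hH h1 h2
  obtain ⟨-, b, hb1, hb2⟩ := exists_red hS hH w
  have hbw : s(b, w) ∈ H := by rw [Sym2.eq_swap]; exact hb1
  have cbw : χ s(b, w) = -1 := by rw [Sym2.eq_swap]; exact hb2
  have hbS := hfl.1 w ⟨Conn.refl _, hb.cwa⟩ b hbw cbw
  exact hM (swap hS hH (t := -1) (Or.inr rfl) hb1 hb2 hb.xc hb.cxc hb.cwc hbS.2 hb.sep)

end Pool.Agent.Work.MP_a5655b_lc
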