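import Pool.Agent.Work.MP_a5655b_lc.ConnX
import Pool.Agent.Work.MP_a5655b_lc.NoBridge

/-!
# Module CutL

Facts on `K = cut2 H x a c` in the configuration `BadX`.

`cutL_bal`: let `Conn K x p`. `bal χ H p = 0`. `K` arises from `H` by removing `s(x,a)` (colour `1`) and
`s(x,c)` (colour `-1`), so `bal χ K p = bal χ H p - [p ∈ s(x,a)] + [p ∈ s(x,c)]`. `p ≠ a`, `p ≠ c`
by `na`, `nc`; so both indicators are `[p = x]`.
`cutL_bridge`: `no_bridge` for `K` and the edge `s(p,q)`: vertices joined in `K` to `p` are joined to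
`x`, so they are balanced.
`cutL_new`: if `Conn K x p`, `p ≠ x`, `z = a` or `z = c`, then `s(p,z) ∉ H`: it is not in `K` (else
`Conn K x z`), so it would be `s(x,a)` or `s(x,c)`; `p ≠ x`, so `z = x` and `p ∈ {a,c}`,
contradiction to `a ≠ x`, `c ≠ x` (`Split.ne`).
`cutL_sub`: `K ⊆ H`. `cutL_conn`: `Conn K x p → Conn H x p`. `cutL_sep`: a vertex `u` with `Conn H w u`
is not joined to `p` in `H` if `Conn K x p`.
-/

set_option autoImplicit false
set_option linter.unusedSectionVars false

namespace Pool.Agent.Work.MP_a5655b_lc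

variable {V : Type} [Fintype V] [DecidableEq V] {χ : Sym2 V → ℤ} {H : Finset (Sym2 V)}
  {P : Set V} {w x a c : V}

theorem cutL_sub : cut2 H x a c ⊆ H :=
  (Finset.erase_subset _ _).trans (Finset.erase_subset _ _)

theorem cutL_conn {p q : V} (h : Conn (cut2 H x a c) p q) : Conn H p q :=
  h.sub cutL_sub

theorem cutL_sep (hb : BadX χ H w x a c) {u p : V} (hu : Conn H w u)
    (hp : Conn (cut2 H x a c) x p) : ¬ Conn H u p := fun h =>
  hb.sep ((hu.trans h).trans (cutL_conn hp).symm)

theorem cutL_bal (hS : Split χ P) (hH : Factor χ H) (hb : BadX χ H w x a c) {p : V}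
    (hp : Conn (cut2 H x a c) x p) : bal χ (cut2 H x a c) p = 0 := by
  have hpa : p ≠ a := by
    rintro rfl
    exact hb.na hp
  have hpc : p ≠ c := by
    rintro rfl
    exact hb.nc hp
  have hne : s(x, c) ≠ s(x, a) := by
    intro h
    have h1 := hb.cxc
    rw [h, hb.cxa] at h1
    exact absurd h1 (by decide)
  have m1 : s(x, c) ∈ H.erase s(x, a) := Finset.mem_erase.2 ⟨hne, hb.xc⟩
  have h0 := hH.bal p
  unfold bal at h0 ⊢
  rw [← Finset.add_sum_erase _ _ hb.xa, ← Finset.add_sum_erase _ _ m1] at h0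
  have e1 : (if p ∈ s(x, a) then χ s(x, a) else 0) = if p = x then 1 else 0 := by
    rw [hb.cxa]
    by_cases h : p = x
    · rw [if_pos h, if_pos (by rw [h]; simp)]
    · rw [if_neg h, if_neg]
      rw [Sym2.mem_iff]
      rintro (h' | h')
      · exact h h'
      · exact hpa h'
  have e2 : (if p ∈ s(x, c) then χ s(x, c) else 0) = if p = x then -1 else 0 := by
    rw [hb.cxc]
    by_cases h : p = x
    · rw [if_pos h, if_pos (by rw [h]; simp)]
    · rw [if_neg h, if_neg]
      rw [Sym2.mem_iff]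
      rintro (h' | h')
      · exact h h'
      · exact hpc h'
  rw [e1, e2] at h0
  unfold cut2
  by_cases h : p = x
  · rw [if_pos h, if_pos h] at h0
    linarith
  · rw [if_neg h, if_neg h] at h0
    linarith

theorem cutL_bridge (hS : Split χ P) (hH : Factor χ H) (hb : BadX χ H w x a c) {p q : V}
    (hp : Conn (cut2 H x a c) x p) (hpq : s(p, q) ∈ cut2 H x a c) :
    Conn ((cut2 H x a c).erase s(p, q)) p q := by
  refine no_bridge (χ := χ) ?_ ?_ hpq (fun w hw => cutL_bal hS hH hb (hp.trans hw))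
  · intro v hv
    exact hH.edge _ (cutL_sub hv) (hS.diag v)
  · intro e he
    rcases hS.val e with h | h | h
    · exact Or.inl h
    · exact Or.inr h
    · exact absurd h (hH.edge e (cutL_sub he))

theorem cutL_new (hS : Split χ P) (hb : BadX χ H w x a c) {p z : V}
    (hp : Conn (cut2 H x a c) x p) (hpx : p ≠ x) (hz : z = a ∨ z = c) : s(p, z) ∉ H := by
  intro hm
  have hpa : p ≠ a := by
    rintro rfl
    exact hb.na hp
  have hpc : p ≠ c := by
    rintro rfl
    exact hb.nc hp
  have e1 : s(p, z) ≠ s(x, a) := by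
    intro h
    rw [Sym2.eq_iff] at h
    rcases h with h | h
    · exact hpx h.1
    · exact hpa h.1
  have e2 : s(p, z) ≠ s(x, c) := by
    intro h
    rw [Sym2.eq_iff] at h
    rcases h with h | h
    · exact hpx h.1
    · exact hpc h.1
  have hK : s(p, z) ∈ cut2 H x a c :=
    Finset.mem_erase.2 ⟨e2, Finset.mem_erase.2 ⟨e1, hm⟩⟩
  have h1 := hp.trans (Conn.of_mem hK)
  rcases hz with rfl | rfl
  · exact hb.na h1
  · exact hb.nc h1

end Pool.Agent.Work.MP_a5655b_lc
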