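import Pool.Agent.Work.MP_a5655b_lc.Ex6
import Pool.Agent.Work.MP_a5655b_lc.CutL

/-!
# Module Ea

A six-edge exchange in the configuration `BadX` (case I, first kind).

Proof. `K = cut2 H x a c`. `D = {up, pq, qa, ax, xc, cu}` (`factor_ex6`, `t = 1`). Residual colours:
* `up` joins two components (`cutL_sep`), so it is not in `H`: `rho = χ = 1`.
* `pq ∈ K ⊆ H`, red: `rho = -1`.
* `qa ∉ H` by `cutL_new` (`Conn K x q`, `q ≠ x`): `rho = 1`.
* `ax ∈ H` red: `-1`. `xc ∈ H` blue: `1`.
* `cu` joins two components (`Conn H w u`; `w` is not joined to `c` as `xc ∈ H`): `rho = χ = -1`.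
Covering: the removed edges are `pq, ax, xc`. `p`, `q`, `a`, `c` are covered by the new edges
`up, qa, qa, cu`. `x`: if `p = x`, by `up`. If `p ≠ x`: by the edge `s(x,z) ∈ K` of `hb.more`, which
is in `H` and not in `D`: it is not `pq` (`x ≠ p`, `x ≠ q`), not `ax`, `xc` (it is in `K`), and the
others are not in `H`.
So `H' = symmDiff H D` is a factor. Connections in `H'`: `K.erase s(p,q) ⊆ H'` (an edge of
`K.erase s(p,q)` is in `H` and not in `D`). By `cutL_bridge` and `conn_erase`, `x`, `p`, `q` are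
joined in `K.erase s(p,q)`, so in `H'`; `q - a` is new, so `x ~ a` in `H'`; `p - u - c` are new edges, so
`x ~ c` in `H'`. So by `conn_exch_mono` `H'` joins what `H` joins (`pq, ax, xc`). Finally `x ~ p - u`
in `H'` and `u ~ w` (as `Conn H w u`), so `Conn H' w x`.
-/

set_option autoImplicit false
set_option linter.unusedSectionVars false

namespace Pool.Agent.Work.MP_a5655b_lc

variable {V : Type} [Fintype V] [DecidableEq V] {χ : Sym2 V → ℤ} {H : Finset (Sym2 V)}
  {P : Set V} {w x a c : V}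

private theorem conn_eq {K : Finset (Sym2 V)} {p q r z : V} (h : s(p, q) = s(r, z))
    (hc : Conn K r z) : Conn K p q := by
  rw [Sym2.eq_iff] at h
  rcases h with ⟨rfl, rfl⟩ | ⟨rfl, rfl⟩
  · exact hc
  · exact hc.symm

private theorem rho_in {e : Sym2 V} {r : ℤ} (h : e ∈ H) (hr : χ e = r) : rho χ H e = -r := by
  unfold rho
  rw [if_pos h, hr]

private theorem rho_out {e : Sym2 V} {r : ℤ} (h : e ∉ H) (hr : χ e = r) : rho χ H e = r := by
  unfold rho
  rw [if_neg h, hr]

private theorem in_cut {e : Sym2 V} (h : e ∈ cut2 H x a c) :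
    e ≠ s(x, c) ∧ e ≠ s(x, a) ∧ e ∈ H := by
  obtain ⟨h1, h2⟩ := Finset.mem_erase.1 h
  obtain ⟨h3, h4⟩ := Finset.mem_erase.1 h2
  exact ⟨h1, h3, h4⟩

theorem ex_a (hS : Split χ P) (hH : Factor χ H) (hb : BadX χ H w x a c) {u p q : V}
    (hu : Conn H w u) (huc : χ s(u, c) = -1) (hp : Conn (cut2 H x a c) x p)
    (hup : χ s(u, p) = 1) (hpq : s(p, q) ∈ cut2 H x a c) (hpq1 : χ s(p, q) = 1) (hqx : q ≠ x)
    (hqa : χ s(q, a) = 1) : Merge χ H w x := by
  have hq : Conn (cut2 H x a c) x q := hp.trans (Conn.of_mem hpq)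
  have n1 : s(u, p) ∉ H := fun h => cutL_sep hb hu hp (Conn.of_mem h)
  have hpqH : s(p, q) ∈ H := cutL_sub hpq
  have n3 : s(q, a) ∉ H := cutL_new hS hb hq hqx (Or.inl rfl)
  have hax : s(a, x) ∈ H := by rw [Sym2.eq_swap]; exact hb.xa
  have cax : χ s(a, x) = 1 := by rw [Sym2.eq_swap]; exact hb.cxa
  have ccu : χ s(c, u) = -1 := by rw [Sym2.eq_swap]; exact huc
  have n6 : s(c, u) ∉ H := fun h =>
    hb.sep ((hu.trans (Conn.of_mem' h)).trans (Conn.of_mem' hb.xc))
  set D : Finset (Sym2 V) := {s(u, p), s(p, q), s(q, a), s(a, x), s(x, c), s(c, u)} with hD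
  have q1 : s(u, p) ∈ D := by rw [hD]; simp
  have q3 : s(q, a) ∈ D := by rw [hD]; simp
  have q6 : s(c, u) ∈ D := by rw [hD]; simp
  have hnew : ∀ {e : Sym2 V}, e ∈ D → e ∉ H → e ∈ symmDiff H D := fun he h =>
    Finset.mem_symmDiff.2 (Or.inr ⟨he, h⟩)
  have hDH : ∀ e ∈ D, e ∈ H → e = s(p, q) ∨ e = s(a, x) ∨ e = s(x, c) := by
    intro e he heH
    rw [hD] at he
    simp only [Finset.mem_insert, Finset.mem_singleton] at he
    rcases he with h | h | h | h | h | h
    · exact absurd (h ▸ heH) n1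
    · exact Or.inl h
    · exact absurd (h ▸ heH) n3
    · exact Or.inr (Or.inl h)
    · exact Or.inr (Or.inr h)
    · exact absurd (h ▸ heH) n6
  have hK : ∀ e ∈ cut2 H x a c, e ≠ s(p, q) → e ∈ symmDiff H D := by
    intro e he hne
    obtain ⟨h1, h2, h3⟩ := in_cut he
    refine Finset.mem_symmDiff.2 (Or.inl ⟨h3, fun h => ?_⟩)
    rcases hDH e h h3 with h | h | h
    · exact hne h
    · exact h2 (h.trans Sym2.eq_swap)
    · exact h1 h
  have hx : ∃ f ∈ symmDiff H D, x ∈ f := by
    by_cases hpx : p = x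
    · exact ⟨s(u, p), hnew q1 n1, by rw [hpx]; simp⟩
    · obtain ⟨z, hz⟩ := hb.more
      refine ⟨s(x, z), hK _ hz ?_, by simp⟩
      intro h
      rw [Sym2.eq_iff] at h
      rcases h with h | h
      · exact hpx h.1.symm
      · exact hqx h.1.symm
  have hF : Factor χ (symmDiff H D) := by
    refine factor_ex6 hS.diag hH (t := 1) one_ne_zero (rho_out n1 hup) (rho_in hpqH hpq1)
      (rho_out n3 hqa) (rho_in hax cax) ?_ (rho_out n6 ccu) ?_
    · have := rho_in hb.xc hb.cxc
      rwa [neg_neg] at this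
    · intro e he heH v hve
      rcases hDH e he heH with h | h | h
      · rw [h, Sym2.mem_iff] at hve
        rcases hve with rfl | rfl
        · exact ⟨_, hnew q1 n1, by simp⟩
        · exact ⟨_, hnew q3 n3, by simp⟩
      · rw [h, Sym2.mem_iff] at hve
        rcases hve with rfl | rfl
        · exact ⟨_, hnew q3 n3, by simp⟩
        · exact hx
      · rw [h, Sym2.mem_iff] at hve
        rcases hve with rfl | rfl
        · exact hx
        · exact ⟨_, hnew q6 n6, by simp⟩
  have hbr := cutL_bridge hS hH hb hp hpq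
  have hsub : (cut2 H x a c).erase s(p, q) ⊆ symmDiff H D := fun e he =>
    hK e (Finset.mem_of_mem_erase he) (Finset.ne_of_mem_erase he)
  have cpq : Conn (symmDiff H D) p q := hbr.sub hsub
  have cxp : Conn (symmDiff H D) x p := (conn_erase hbr hp).sub hsub
  have cqa : Conn (symmDiff H D) q a := Conn.of_mem (hnew q3 n3)
  have cup : Conn (symmDiff H D) u p := Conn.of_mem (hnew q1 n1)
  have ccu' : Conn (symmDiff H D) c u := Conn.of_mem (hnew q6 n6)
  have cxa : Conn (symmDiff H D) x a := (cxp.trans cpq).trans cqa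
  have cxc : Conn (symmDiff H D) x c := (cxp.trans cup.symm).trans ccu'.symm
  have hmono : ∀ y z, Conn H y z → Conn (symmDiff H D) y z := by
    intro y z hyz
    refine conn_exch_mono ?_ hyz
    intro r t hrH hrD
    rcases hDH _ hrD hrH with h | h | h
    · exact conn_eq h cpq
    · exact conn_eq h cxa.symm
    · exact conn_eq h cxc
  exact ⟨symmDiff H D, hF, hmono, ((hmono _ _ hu).trans cup).trans cxp.symm⟩

end Pool.Agent.Work.MP_a5655b_lc
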