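import Pool.Agent.Work.MP_a5655b_lc.Ex6
import Pool.Agent.Work.MP_a5655b_lc.CutL

/-!
# Module Eb

A six-edge exchange in the configuration `BadX` (case I, second kind).

Proof. `K = cut2 H x a c`. `D = {tp, pq, qa, ax, xc, ct}` (`factor_ex6`, `t = 1`). Residual colours:
* `tp` joins two components (`cutL_sep`): `rho = χ = 1`.
* `pq ∈ H` red: `-1`.
* `qa` joins two components (`Conn H w q`, `a` in the component of `x`): `1`.
* `ax ∈ H` red: `-1`. `xc ∈ H` blue: `1`.
* `ct ∉ H` by `cutL_new` (`t ≠ x`): `rho = χ = -1`.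
Covering: removed edges `pq, ax, xc`; `p, q, a, c` are covered by the new edges `tp, qa, qa, ct`; `x`
by the edge `s(x,z)` of `hb.more`: it is in `H`, and not in `D`, because it is not `pq` (other
component), not `ax`, `xc`, and the other edges of `D` are not in `H`.
`H' = symmDiff H D`: `K ⊆ H'` except for the edge `pq`, which lies in the component of `w`; so a path of
`K` from `x` to `t` is in `H'` (all its vertices are joined to `x` in `H`): `x ~ t`. `c - t` is new: `x ~ c`.
`p ~ q` in `H'` (`conn_exch_one` with `no_bridge` for `H` and `pq`: `ax, xc` are in another component).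
`t - p` and `q - a` are new: `x ~ t - p ~ q - a`: `x ~ a`. So `conn_exch_mono` applies, and
`x ~ t - p ~ w` (`Conn H w p`): `Conn H' w x`.
-/

set_option autoImplicit false
set_option linter.unusedSectionVars false

namespace Pool.Agent.Work.MP_a5655b_lc

variable {V : Type} [Fintype V] [DecidableEq V] {χ : Sym2 V → ℤ} {H : Finset (Sym2 V)}
  {P : Set V} {w x a c : V}

private theorem conn_eq {K : Finset (Sym2 V)} {p q r z : V} (h : s(p, q) = s(r, z))
    (hc : Conn K r z) : Conn K p q := by
  rw [Sym2.eq_iff] at h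
  rcases h with ⟨rfl, rfl⟩ | ⟨rfl, rfl⟩
  · exact hc
  · exact hc.symm

private theorem rho_in {e : Sym2 V} {r : ℤ} (h : e ∈ H) (hr : χ e = r) : rho χ H e = -r := by
  unfold rho
  rw [if_pos h, hr]

private theorem rho_out {e : Sym2 V} {r : ℤ} (h : e ∉ H) (hr : χ e = r) : rho χ H e = r := by
  unfold rho
  rw [if_neg h, hr]

private theorem in_cut {e : Sym2 V} (h : e ∈ cut2 H x a c) :
    e ≠ s(x, c) ∧ e ≠ s(x, a) ∧ e ∈ H := by
  obtain ⟨h1, h2⟩ := Finset.mem_erase.1 h
  obtain ⟨h3, h4⟩ := Finset.mem_erase.1 h2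
  exact ⟨h1, h3, h4⟩

theorem ex_b (hS : Split χ P) (hH : Factor χ H) (hb : BadX χ H w x a c) {t p q : V}
    (ht : Conn (cut2 H x a c) x t) (htx : t ≠ x) (htc : χ s(t, c) = -1) (hp : Conn H w p)
    (htp : χ s(t, p) = 1) (hpq : s(p, q) ∈ H) (hpq1 : χ s(p, q) = 1) (hqa : χ s(q, a) = 1) :
    Merge χ H w x := by
  have hl : ∀ v, s(v, v) ∉ H := fun v hv => hH.edge _ hv (hS.diag v)
  have hv : ∀ e ∈ H, χ e = 1 ∨ χ e = -1 := by
    intro e he
    rcases hS.val e with h | h | h
    · exact Or.inl h
    · exact Or.inr h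
    · exact absurd h (hH.edge e he)
  have hsep := cutL_sep hb hp ht
  have hq : Conn H w q := hp.trans (Conn.of_mem hpq)
  have n1 : s(t, p) ∉ H := fun h => hsep (Conn.of_mem' h)
  have n3 : s(q, a) ∉ H := fun h => hb.sep ((hq.trans (Conn.of_mem h)).trans (Conn.of_mem' hb.xa))
  have hax : s(a, x) ∈ H := by rw [Sym2.eq_swap]; exact hb.xa
  have cax : χ s(a, x) = 1 := by rw [Sym2.eq_swap]; exact hb.cxa
  have cct : χ s(c, t) = -1 := by rw [Sym2.eq_swap]; exact htc
  have n6 : s(c, t) ∉ H := by
    rw [Sym2.eq_swap]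
    exact cutL_new hS hb ht htx (Or.inr rfl)
  set D : Finset (Sym2 V) := {s(t, p), s(p, q), s(q, a), s(a, x), s(x, c), s(c, t)} with hD
  have q1 : s(t, p) ∈ D := by rw [hD]; simp
  have q3 : s(q, a) ∈ D := by rw [hD]; simp
  have q6 : s(c, t) ∈ D := by rw [hD]; simp
  have hnew : ∀ {e : Sym2 V}, e ∈ D → e ∉ H → e ∈ symmDiff H D := fun he h =>
    Finset.mem_symmDiff.2 (Or.inr ⟨he, h⟩)
  have hDH : ∀ e ∈ D, e ∈ H → e = s(p, q) ∨ e = s(a, x) ∨ e = s(x, c) := by
    intro e he heH
    rw [hD] at he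
    simp only [Finset.mem_insert, Finset.mem_singleton] at he
    rcases he with h | h | h | h | h | h
    · exact absurd (h ▸ heH) n1
    · exact Or.inl h
    · exact absurd (h ▸ heH) n3
    · exact Or.inr (Or.inl h)
    · exact Or.inr (Or.inr h)
    · exact absurd (h ▸ heH) n6
  have npq : ∀ y z, Conn H x y → s(y, z) ≠ s(p, q) := by
    intro y z hy h
    rw [Sym2.eq_iff] at h
    rcases h with h | h
    · exact hb.sep (hp.trans (h.1 ▸ hy).symm)
    · exact hb.sep (hq.trans (h.1 ▸ hy).symm)
  have hK : ∀ y z, Conn H x y → s(y, z) ∈ cut2 H x a c → s(y, z) ∈ symmDiff H D := by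
    intro y z hy he
    obtain ⟨h1, h2, h3⟩ := in_cut he
    refine Finset.mem_symmDiff.2 (Or.inl ⟨h3, fun h => ?_⟩)
    rcases hDH _ h h3 with h | h | h
    · exact npq y z hy h
    · exact h2 (h.trans Sym2.eq_swap)
    · exact h1 h
  have hx : ∃ f ∈ symmDiff H D, x ∈ f := by
    obtain ⟨z, hz⟩ := hb.more
    exact ⟨s(x, z), hK _ _ (Conn.refl _) hz, by simp⟩
  have hF : Factor χ (symmDiff H D) := by
    refine factor_ex6 hS.diag hH (t := 1) one_ne_zero (rho_out n1 htp) (rho_in hpq hpq1)
      (rho_out n3 hqa) (rho_in hax cax) ?_ (rho_out n6 cct) ?_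
    · have := rho_in hb.xc hb.cxc
      rwa [neg_neg] at this
    · intro e he heH v hve
      rcases hDH e he heH with h | h | h
      · rw [h, Sym2.mem_iff] at hve
        rcases hve with rfl | rfl
        · exact ⟨_, hnew q1 n1, by simp⟩
        · exact ⟨_, hnew q3 n3, by simp⟩
      · rw [h, Sym2.mem_iff] at hve
        rcases hve with rfl | rfl
        · exact ⟨_, hnew q3 n3, by simp⟩
        · exact hx
      · rw [h, Sym2.mem_iff] at hve
        rcases hve with rfl | rfl
        · exact hx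
        · exact ⟨_, hnew q6 n6, by simp⟩
  have cxt : Conn (symmDiff H D) x t := by
    clear htx htc htp
    have key : ∀ y, Conn (cut2 H x a c) x y → Conn (symmDiff H D) x y := by
      intro y hy
      induction hy with
      | refl => exact Conn.refl _
      | tail h1 h2 ih => exact ih.trans (Conn.of_mem (hK _ _ (cutL_conn h1) h2))
    exact key t ht
  have cpq : Conn (symmDiff H D) p q := by
    refine conn_exch_one (a := p) (b := q) (Conn.of_mem hpq)
      (no_bridge hl hv hpq (fun w _ => hH.bal w)) ?_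
    intro y z hyH hyD hpy
    rcases hDH _ hyD hyH with h | h | h
    · exact h
    · exfalso
      rw [Sym2.eq_iff] at h
      rcases h with h | h
      · exact hb.sep ((hp.trans (h.1 ▸ hpy)).trans (Conn.of_mem hax))
      · exact hb.sep (hp.trans (h.1 ▸ hpy))
    · exfalso
      rw [Sym2.eq_iff] at h
      rcases h with h | h
      · exact hb.sep (hp.trans (h.1 ▸ hpy))
      · exact hb.sep ((hp.trans (h.1 ▸ hpy)).trans (Conn.of_mem' hb.xc))
  have cqa : Conn (symmDiff H D) q a := Conn.of_mem (hnew q3 n3)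
  have ctp : Conn (symmDiff H D) t p := Conn.of_mem (hnew q1 n1)
  have cct' : Conn (symmDiff H D) c t := Conn.of_mem (hnew q6 n6)
  have cxa : Conn (symmDiff H D) x a := ((cxt.trans ctp).trans cpq).trans cqa
  have cxc : Conn (symmDiff H D) x c := cxt.trans cct'.symm
  have hmono : ∀ y z, Conn H y z → Conn (symmDiff H D) y z := by
    intro y z hyz
    refine conn_exch_mono ?_ hyz
    intro r s' hrH hrD
    rcases hDH _ hrD hrH with h | h | h
    · exact conn_eq h cpq
    · exact conn_eq h cxa.symm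
    · exact conn_eq h cxc
  exact ⟨symmDiff H D, hF, hmono, ((hmono _ _ hp).trans ctp.symm).trans cxt.symm⟩

end Pool.Agent.Work.MP_a5655b_lc
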