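import Pool.Agent.Work.MP_a5655b_lc.Ex6
import Pool.Agent.Work.MP_a5655b_lc.CutL

/-!
# Module Ec

A six-edge exchange in the configuration `BadX` (case II, first kind).

Proof. `K = cut2 H x a c`. `D = {vp, pq, qw, wa, ax, xv}` (`factor_ex6`, `t = -1`). Residual colours:
* `vp` joins two components (`cutL_sep`): `rho = χ = -1`.
* `pq ∈ K ⊆ H` blue: `1`.
* `qw` joins two components (`Conn K x q`): `-1`.
* `wa` joins two components: `1` (`cwa`).
* `ax ∈ H` red: `-1`.
* `xv` joins two components (`Conn H w v`): `1`.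
Covering: the removed edges are `pq`, `ax`; `p, q, a, x` are covered by the new edges
`vp, qw, wa, xv`.
`H' = symmDiff H D`: `K.erase s(p,q) ⊆ H'`, so by `cutL_bridge` and `conn_erase` `x, p, q` are joined in
`H'`; `q - w - a` are new edges: `x ~ a` in `H'`. So `conn_exch_mono` applies (removed edges `pq`,
`ax`), and `x ~ q - w`: `Conn H' w x`.
-/

set_option autoImplicit false
set_option linter.unusedSectionVars false

namespace Pool.Agent.Work.MP_a5655b_lc

variable {V : Type} [Fintype V] [DecidableEq V] {χ : Sym2 V → ℤ} {H : Finset (Sym2 V)}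
  {P : Set V} {w x a c : V}

private theorem conn_eq {K : Finset (Sym2 V)} {p q r z : V} (h : s(p, q) = s(r, z))
    (hc : Conn K r z) : Conn K p q := by
  rw [Sym2.eq_iff] at h
  rcases h with ⟨rfl, rfl⟩ | ⟨rfl, rfl⟩
  · exact hc
  · exact hc.symm

private theorem rho_in {e : Sym2 V} {r : ℤ} (h : e ∈ H) (hr : χ e = r) : rho χ H e = -r := by
  unfold rho
  rw [if_pos h, hr]

private theorem rho_out {e : Sym2 V} {r : ℤ} (h : e ∉ H) (hr : χ e = r) : rho χ H e = r := by
  unfold rho
  rw [if_neg h, hr]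

private theorem in_cut {e : Sym2 V} (h : e ∈ cut2 H x a c) :
    e ≠ s(x, c) ∧ e ≠ s(x, a) ∧ e ∈ H := by
  obtain ⟨h1, h2⟩ := Finset.mem_erase.1 h
  obtain ⟨h3, h4⟩ := Finset.mem_erase.1 h2
  exact ⟨h1, h3, h4⟩

theorem ex_c (hS : Split χ P) (hH : Factor χ H) (hb : BadX χ H w x a c) {v p q : V}
    (hv : Conn H w v) (hvx : χ s(v, x) = 1) (hp : Conn (cut2 H x a c) x p)
    (hvp : χ s(v, p) = -1) (hpq : s(p, q) ∈ cut2 H x a c) (hpq1 : χ s(p, q) = -1)
    (hqw : χ s(q, w) = -1) : Merge χ H w x := by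
  have hq : Conn (cut2 H x a c) x q := hp.trans (Conn.of_mem hpq)
  have n1 : s(v, p) ∉ H := fun h => cutL_sep hb hv hp (Conn.of_mem h)
  have hpqH : s(p, q) ∈ H := cutL_sub hpq
  have n3 : s(q, w) ∉ H := fun h => hb.sep ((cutL_conn hq).trans (Conn.of_mem h)).symm
  have n4 : s(w, a) ∉ H := fun h => hb.sep ((Conn.of_mem h).trans (Conn.of_mem' hb.xa))
  have hax : s(a, x) ∈ H := by rw [Sym2.eq_swap]; exact hb.xa
  have cax : χ s(a, x) = 1 := by rw [Sym2.eq_swap]; exact hb.cxa
  have cxv : χ s(x, v) = 1 := by rw [Sym2.eq_swap]; exact hvx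
  have n6 : s(x, v) ∉ H := fun h => hb.sep (hv.trans (Conn.of_mem' h))
  set D : Finset (Sym2 V) := {s(v, p), s(p, q), s(q, w), s(w, a), s(a, x), s(x, v)} with hD
  have q1 : s(v, p) ∈ D := by rw [hD]; simp
  have q3 : s(q, w) ∈ D := by rw [hD]; simp
  have q4 : s(w, a) ∈ D := by rw [hD]; simp
  have q6 : s(x, v) ∈ D := by rw [hD]; simp
  have hnew : ∀ {e : Sym2 V}, e ∈ D → e ∉ H → e ∈ symmDiff H D := fun he h =>
    Finset.mem_symmDiff.2 (Or.inr ⟨he, h⟩)
  have hDH : ∀ e ∈ D, e ∈ H → e = s(p, q) ∨ e = s(a, x) := by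
    intro e he heH
    rw [hD] at he
    simp only [Finset.mem_insert, Finset.mem_singleton] at he
    rcases he with h | h | h | h | h | h
    · exact absurd (h ▸ heH) n1
    · exact Or.inl h
    · exact absurd (h ▸ heH) n3
    · exact absurd (h ▸ heH) n4
    · exact Or.inr h
    · exact absurd (h ▸ heH) n6
  have hK : ∀ e ∈ cut2 H x a c, e ≠ s(p, q) → e ∈ symmDiff H D := by
    intro e he hne
    obtain ⟨h1, h2, h3⟩ := in_cut he
    refine Finset.mem_symmDiff.2 (Or.inl ⟨h3, fun h => ?_⟩)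
    rcases hDH e h h3 with h | h
    · exact hne h
    · exact h2 (h.trans Sym2.eq_swap)
  have hF : Factor χ (symmDiff H D) := by
    refine factor_ex6 hS.diag hH (t := -1) (by decide) (rho_out n1 hvp) (rho_in hpqH hpq1)
      (rho_out n3 hqw) ?_ (rho_in hax cax) ?_ ?_
    · rw [neg_neg]
      exact rho_out n4 hb.cwa
    · rw [neg_neg]
      exact rho_out n6 cxv
    · intro e he heH y hve
      rcases hDH e he heH with h | h
      · rw [h, Sym2.mem_iff] at hve
        rcases hve with rfl | rfl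
        · exact ⟨_, hnew q1 n1, by simp⟩
        · exact ⟨_, hnew q3 n3, by simp⟩
      · rw [h, Sym2.mem_iff] at hve
        rcases hve with rfl | rfl
        · exact ⟨_, hnew q4 n4, by simp⟩
        · exact ⟨_, hnew q6 n6, by simp⟩
  have hbr := cutL_bridge hS hH hb hp hpq
  have hsub : (cut2 H x a c).erase s(p, q) ⊆ symmDiff H D := fun e he =>
    hK e (Finset.mem_of_mem_erase he) (Finset.ne_of_mem_erase he)
  have cpq : Conn (symmDiff H D) p q := hbr.sub hsub
  have cxp : Conn (symmDiff H D) x p := (conn_erase hbr hp).sub hsub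
  have cqw : Conn (symmDiff H D) q w := Conn.of_mem (hnew q3 n3)
  have cwa : Conn (symmDiff H D) w a := Conn.of_mem (hnew q4 n4)
  have cxw : Conn (symmDiff H D) x w := (cxp.trans cpq).trans cqw
  have cxa : Conn (symmDiff H D) x a := cxw.trans cwa
  have hmono : ∀ y z, Conn H y z → Conn (symmDiff H D) y z := by
    intro y z hyz
    refine conn_exch_mono ?_ hyz
    intro r t hrH hrD
    rcases hDH _ hrD hrH with h | h
    · exact conn_eq h cpq
    · exact conn_eq h cxa.symm
  exact ⟨symmDiff H D, hF, hmono, cxw.symm⟩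

end Pool.Agent.Work.MP_a5655b_lc
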