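import Pool.Agent.Work.MP_a5655b_lc.Ex6
import Pool.Agent.Work.MP_a5655b_lc.CutL

/-!
# Module Ed

A six-edge exchange in the configuration `BadX` (case II, second kind).

Proof. `K = cut2 H x a c`. `D = {tp, pq, qx, xc, cw, wt}` (`factor_ex6`, `t = -1`). Residual colours:
* `tp` joins two components (`cutL_sep`): `rho = χ = -1`.
* `pq ∈ H` blue: `1`.
* `qx` joins two components (`Conn H w q`): `-1`.
* `xc ∈ H` blue: `1`.
* `cw` joins two components: `-1` (`cwc`).
* `wt` joins two components (`Conn K x t`): `1`.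
Covering: the removed edges are `pq`, `xc`; `p, q, x, c` are covered by the new edges
`tp, qx, qx, cw`.
`H' = symmDiff H D`: the component of `w` in `H` contains only the removed edge `pq`, so it stays
connected (`conn_exch_one` with `no_bridge`): `w ~ p ~ q` in `H'`. `q - x` and `w - c` are new:
`x ~ c` in `H'`. So `conn_exch_mono` applies, and `w ~ q - x`: `Conn H' w x`.
-/

set_option autoImplicit false
set_option linter.unusedSectionVars false

namespace Pool.Agent.Work.MP_a5655b_lc

variable {V : Type} [Fintype V] [DecidableEq V] {χ : Sym2 V → ℤ} {H : Finset (Sym2 V)}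
  {P : Set V} {w x a c : V}

private theorem conn_eq {K : Finset (Sym2 V)} {p q r z : V} (h : s(p, q) = s(r, z))
    (hc : Conn K r z) : Conn K p q := by
  rw [Sym2.eq_iff] at h
  rcases h with ⟨rfl, rfl⟩ | ⟨rfl, rfl⟩
  · exact hc
  · exact hc.symm

private theorem rho_in {e : Sym2 V} {r : ℤ} (h : e ∈ H) (hr : χ e = r) : rho χ H e = -r := by
  unfold rho
  rw [if_pos h, hr]

private theorem rho_out {e : Sym2 V} {r : ℤ} (h : e ∉ H) (hr : χ e = r) : rho χ H e = r := by
  unfold rho
  rw [if_neg h, hr]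

theorem ex_d (hS : Split χ P) (hH : Factor χ H) (hb : BadX χ H w x a c) {t p q : V}
    (ht : Conn (cut2 H x a c) x t) (htw : χ s(t, w) = 1) (hp : Conn H w p)
    (htp : χ s(t, p) = -1) (hpq : s(p, q) ∈ H) (hpq1 : χ s(p, q) = -1)
    (hqx : χ s(q, x) = -1) : Merge χ H w x := by
  have hl : ∀ v, s(v, v) ∉ H := fun v hv => hH.edge _ hv (hS.diag v)
  have hv : ∀ e ∈ H, χ e = 1 ∨ χ e = -1 := by
    intro e he
    rcases hS.val e with h | h | h
    · exact Or.inl h
    · exact Or.inr h
    · exact absurd h (hH.edge e he)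
  have hsep := cutL_sep hb hp ht
  have hq : Conn H w q := hp.trans (Conn.of_mem hpq)
  have n1 : s(t, p) ∉ H := fun h => hsep (Conn.of_mem' h)
  have n3 : s(q, x) ∉ H := fun h => hb.sep (hq.trans (Conn.of_mem h))
  have ccw : χ s(c, w) = -1 := by rw [Sym2.eq_swap]; exact hb.cwc
  have n5 : s(c, w) ∉ H := fun h => hb.sep ((Conn.of_mem' h).trans (Conn.of_mem' hb.xc))
  have cwt : χ s(w, t) = 1 := by rw [Sym2.eq_swap]; exact htw
  have n6 : s(w, t) ∉ H := fun h => hb.sep ((Conn.of_mem h).trans (cutL_conn ht).symm)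
  set D : Finset (Sym2 V) := {s(t, p), s(p, q), s(q, x), s(x, c), s(c, w), s(w, t)} with hD
  have q1 : s(t, p) ∈ D := by rw [hD]; simp
  have q3 : s(q, x) ∈ D := by rw [hD]; simp
  have q5 : s(c, w) ∈ D := by rw [hD]; simp
  have hnew : ∀ {e : Sym2 V}, e ∈ D → e ∉ H → e ∈ symmDiff H D := fun he h =>
    Finset.mem_symmDiff.2 (Or.inr ⟨he, h⟩)
  have hDH : ∀ e ∈ D, e ∈ H → e = s(p, q) ∨ e = s(x, c) := by
    intro e he heH
    rw [hD] at he
    simp only [Finset.mem_insert, Finset.mem_singleton] at he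
    rcases he with h | h | h | h | h | h
    · exact absurd (h ▸ heH) n1
    · exact Or.inl h
    · exact absurd (h ▸ heH) n3
    · exact Or.inr h
    · exact absurd (h ▸ heH) n5
    · exact absurd (h ▸ heH) n6
  have hF : Factor χ (symmDiff H D) := by
    refine factor_ex6 hS.diag hH (t := -1) (by decide) (rho_out n1 htp) (rho_in hpq hpq1)
      (rho_out n3 hqx) (rho_in hb.xc hb.cxc) (rho_out n5 ccw) ?_ ?_
    · rw [neg_neg]
      exact rho_out n6 cwt
    · intro e he heH y hve
      rcases hDH e he heH with h | h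
      · rw [h, Sym2.mem_iff] at hve
        rcases hve with rfl | rfl
        · exact ⟨_, hnew q1 n1, by simp⟩
        · exact ⟨_, hnew q3 n3, by simp⟩
      · rw [h, Sym2.mem_iff] at hve
        rcases hve with rfl | rfl
        · exact ⟨_, hnew q3 n3, by simp⟩
        · exact ⟨_, hnew q5 n5, by simp⟩
  have hcomp : ∀ y, Conn H w y → Conn (symmDiff H D) w y := by
    intro y hy
    refine conn_exch_one (a := p) (b := q) hy
      (no_bridge hl hv hpq (fun w _ => hH.bal w)) ?_
    intro r z hrH hrD hwr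
    rcases hDH _ hrD hrH with h | h
    · exact h
    · exfalso
      rw [Sym2.eq_iff] at h
      rcases h with h | h
      · exact hb.sep (h.1 ▸ hwr)
      · exact hb.sep ((h.1 ▸ hwr : Conn H w c).trans (Conn.of_mem' hb.xc))
  have cwp := hcomp p hp
  have cwq := hcomp q hq
  have cqx : Conn (symmDiff H D) q x := Conn.of_mem (hnew q3 n3)
  have ccw' : Conn (symmDiff H D) c w := Conn.of_mem (hnew q5 n5)
  have cwx : Conn (symmDiff H D) w x := cwq.trans cqx
  have hmono : ∀ y z, Conn H y z → Conn (symmDiff H D) y z := by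
    intro y z hyz
    refine conn_exch_mono ?_ hyz
    intro r s' hrH hrD
    rcases hDH _ hrD hrH with h | h
    · exact conn_eq h (cwp.symm.trans cwq)
    · exact conn_eq h (ccw'.trans cwx).symm
  exact ⟨symmDiff H D, hF, hmono, cwx⟩

end Pool.Agent.Work.MP_a5655b_lc
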