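import Pool.Agent.Work.MP_a5655b_lc.Swap
import Pool.Agent.Work.MP_a5655b_lc.Flow

/-!
# Module FindI

The bad configuration with `x, w ∈ P`: there is a vertex `p ∈ P` in the component of `w` with a blue
neighbour `u` such that `uc` is blue, and a red neighbour `u'` such that `u'a` is red.

Proof. `a, c ∉ P` by `Split.notP`. Suppose `Merge χ H w x` fails and there is no such `p`. Let
`Sp = {v | Conn H w v ∧ χ s(v,c) = -1}`,
`Sm = {v | Conn H w v ∧ ((v ∉ P ∧ χ s(v,x) = 1) ∨ (v ∈ P ∧ ∃ z, s(v,z) ∈ H ∧ χ s(v,z) = -1 ∧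
χ s(z,c) = -1))}`. The vertices of the component of `w` are not joined to `x, a, c`. For `v` in the
component of `w`: (F) `χ s(v,c) = 1` implies `χ s(v,a) = 1`: otherwise `χ s(v,a) = -1`
(`Split.cross`, `a ∉ P`), and `add4` with `v, c, w, a`, `t = 1` (colours `1, -1, 1, -1`; all these
edges join two components) gives `Merge χ H v c`, so `Merge χ H w x`.
(1) `v ∈ Sp`, `s(v,v') ∈ H` blue ⟹ `v' ∈ Sm`. If `v' ∈ P`: take `z = v`. If `v' ∉ P`: `χ s(v',x)` is `1`
 or `-1`; if it is `-1`, `swap` with the edges `s(v,v')`, `s(x,c)`, `t = -1` (`χ s(v,c) = -1`,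
 `χ s(v',x) = -1`) gives `Merge χ H v x`, contradiction.
(2) `v ∈ Sm`, `s(v,v') ∈ H` red ⟹ `v' ∈ Sp`. First case `v ∉ P`, `χ s(v,x) = 1`. If `χ s(v',a) = 1`,
 `swap` with the edges `s(v',v)`, `s(x,a)`, `t = 1` (`χ s(v',a) = 1`, `χ s(v,x) = 1`) gives
 `Merge χ H v' x`, contradiction; so `χ s(v',a) = -1` (`a ∉ P`), so `χ s(v',c) ≠ 1` by (F), so
 `χ s(v',c) = -1` (`c ∉ P`): `v' ∈ Sp`. Second case `v ∈ P` with `z`: if `χ s(v',c) = 1`, then
 `χ s(v',a) = 1` by (F), and `p = v`, `u = z`, `u' = v'` is a triple as required, contradiction. So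
 `χ s(v',c) = -1`.
By `flow` (red edges from `Sm` to `Sp`, blue edges from `Sp` to `Sm`): `w ∈ Sp` because of `cwc`; let
`r` be a red neighbour of `w` (`exists_red`); then `r ∈ Sm`. `r ∉ P` (`w ∈ P`), so `χ s(r,x) = 1`,
and `swap` with the edges `s(w,r)`, `s(x,a)`, `t = 1` (`χ s(w,a) = 1`, `χ s(r,x) = 1`) gives
`Merge χ H w x`, contradiction.
-/

set_option autoImplicit false
set_option linter.unusedSectionVars false

namespace Pool.Agent.Work.MP_a5655b_lc

variable {V : Type} [Fintype V] [DecidableEq V] {χ : Sym2 V → ℤ} {H : Finset (Sym2 V)}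
  {P : Set V}

theorem findI (hS : Split χ P) (hH : Factor χ H) {w x a c : V} (hb : Bad χ H w x a c)
    (hx : x ∈ P) (hw : w ∈ P) : Merge χ H w x ∨ ∃ p u u', p ∈ P ∧ Conn H w p ∧
      s(p, u) ∈ H ∧ χ s(p, u) = -1 ∧ s(p, u') ∈ H ∧ χ s(p, u') = 1 ∧
      χ s(u, c) = -1 ∧ χ s(u', a) = 1 := by
  by_contra hcon
  rw [not_or] at hcon
  obtain ⟨hM, hp⟩ := hcon
  have haP : a ∉ P := hS.notP (by rw [hb.cxa]; decide) hx
  have hcP : c ∉ P := hS.notP (by rw [hb.cxc]; decide) hx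
  have hxa : Conn H x a := Conn.of_mem hb.xa
  have hxc : Conn H x c := Conn.of_mem hb.xc
  have sx : ∀ v, Conn H w v → ¬ Conn H v x := fun v hv h => hb.sep (hv.trans h)
  have sa : ∀ v, Conn H w v → ¬ Conn H v a := fun v hv h => sx v hv (h.trans hxa.symm)
  have sc : ∀ v, Conn H w v → ¬ Conn H v c := fun v hv h => sx v hv (h.trans hxc.symm)
  have hF : ∀ v, Conn H w v → χ s(v, c) = 1 → χ s(v, a) = 1 := by
    intro v hv h1
    rcases hS.cross (sa v hv) (Or.inr haP) with h2 | h2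
    · exact h2
    · exfalso
      have h3 : Merge χ H v c := by
        refine add4 hS hH (a := v) (b := c) (c := w) (d := a) (t := 1) (Or.inl rfl) h1
          ?_ hb.cwa ?_ ?_ ?_ ?_ ?_
        · rw [Sym2.eq_swap]; exact hb.cwc
        · rw [Sym2.eq_swap]; exact h2
        · exact fun h => sc v hv (Conn.of_mem h)
        · exact fun h => sc w (Conn.refl _) (Conn.of_mem' h)
        · exact fun h => sa w (Conn.refl _) (Conn.of_mem h)
        · exact fun h => sa v hv (Conn.of_mem' h)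
      exact hM (h3.trans' hv hxc.symm)
  obtain ⟨r, hr1, hr2⟩ := (exists_red hS hH w).1
  have key := flow hS hH (Sp := {v | Conn H w v ∧ χ s(v, c) = -1})
    (Sm := {v | Conn H w v ∧ ((v ∉ P ∧ χ s(v, x) = 1) ∨
      (v ∈ P ∧ ∃ z, s(v, z) ∈ H ∧ χ s(v, z) = -1 ∧ χ s(z, c) = -1))}) ?_ ?_
  · have h4 := key.2 w ⟨Conn.refl _, hb.cwc⟩ r (by rw [Sym2.eq_swap]; exact hr1)
      (by rw [Sym2.eq_swap]; exact hr2)
    obtain ⟨h5, h6⟩ := h4
    have hrP : r ∉ P := hS.notP (by rw [hr2]; decide) hw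
    rcases h6 with ⟨-, h6⟩ | ⟨h6, -⟩
    · exact hM (swap hS hH (Or.inl rfl) hr1 hr2 hb.xa hb.cxa hb.cwa h6 hb.sep)
    · exact hrP h6
  · rintro u ⟨hu, h7⟩ v hv1 hv2
    have hwv : Conn H w v := hu.trans (Conn.of_mem hv1)
    refine ⟨hwv, ?_⟩
    rcases hS.cross (sc v hwv) (Or.inr hcP) with h8 | h8
    · exfalso
      have h9 := hF v hwv h8
      rcases h7 with ⟨-, h7⟩ | ⟨huP, z, hz1, hz2, hz3⟩
      · have h10 : Merge χ H v x := swap hS hH (u := v) (u' := u) (Or.inl rfl)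
          (by rw [Sym2.eq_swap]; exact hv1) (by rw [Sym2.eq_swap]; exact hv2) hb.xa hb.cxa h9 h7
          (sx v hwv)
        exact hM (h10.trans' hwv (Conn.refl _))
      · exact hp ⟨u, z, v, huP, hu, hz1, hz2, hv1, hv2, hz3, h9⟩
    · exact h8
  · rintro u ⟨hu, h7⟩ v hv1 hv2
    have hwv : Conn H w v := hu.trans (Conn.of_mem hv1)
    refine ⟨hwv, ?_⟩
    by_cases hvP : v ∈ P
    · exact Or.inr ⟨hvP, u, by rw [Sym2.eq_swap]; exact hv1, by rw [Sym2.eq_swap]; exact hv2, h7⟩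
    · refine Or.inl ⟨hvP, ?_⟩
      rcases hS.cross (sx v hwv) (Or.inl hvP) with h8 | h8
      · exact h8
      · exfalso
        have h10 : Merge χ H u x := swap hS hH (Or.inr rfl) hv1 hv2 hb.xc hb.cxc h7 h8 (sx u hu)
        exact hM (h10.trans' hu (Conn.refl _))

end Pool.Agent.Work.MP_a5655b_lc
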