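import Pool.Agent.Work.MP_a5655b_lc.Swap
import Pool.Agent.Work.MP_a5655b_lc.Flow

/-!
# Module FindII

The bad configuration with `a, c ∈ P`: there is a vertex `p ∈ P` in the component of `w` with a red
neighbour `v` such that `vx` is red, and a blue neighbour `v'` such that `v'x` is blue.

Proof. `x, w ∉ P` by `Split.notP`. Suppose `Merge χ H w x` fails and there is no such `p`. Let
`Sm = {v | Conn H w v ∧ χ s(v,x) = 1}`,
`Sp = {v | Conn H w v ∧ ((v ∉ P ∧ χ s(v,c) = -1) ∨ (v ∈ P ∧ ∃ z, s(v,z) ∈ H ∧ χ s(v,z) = 1 ∧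
χ s(z,x) = 1))}`. The vertices of the component of `w` are not joined to `x, a, c`.
(1) `v ∈ Sp`, `s(v,v') ∈ H` blue ⟹ `v' ∈ Sm`, i.e. `χ s(v',x) = 1`. Otherwise `χ s(v',x) = -1`
 (`x ∉ P`, `Split.cross`). If `v ∉ P`, `χ s(v,c) = -1`: `swap` with the edges `s(v,v')`, `s(x,c)`,
 `t = -1` gives `Merge χ H v x`, contradiction. If `v ∈ P` with `z`: `p = v`, red neighbour `z`, blue
 neighbour `v'` is a triple as required, contradiction.
(2) `v ∈ Sm`, `s(v,v') ∈ H` red ⟹ `v' ∈ Sp`. If `v' ∈ P`: take `z = v`. If `v' ∉ P`: if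
 `χ s(v',a) = 1`, `swap` with the edges `s(v',v)`, `s(x,a)`, `t = 1` (`χ s(v,x) = 1`) gives
 `Merge χ H v' x`, contradiction; so `χ s(v',a) = -1` (`Split.cross`, `v' ∉ P`). If
 `χ s(v',c) = 1`, `add4` with `v', c, w, a`, `t = 1` (colours `1, -1, 1, -1`, all joining two
 components) gives `Merge χ H v' c`, contradiction. So `χ s(v',c) = -1`, `v' ∈ Sp`.
By `flow`: `w ∈ Sp` (`w ∉ P`, `cwc`); a red neighbour `r` of `w` (`exists_red`) is in `Sm`:
`χ s(r,x) = 1`; `swap` with `s(w,r)`, `s(x,a)`, `t = 1` (`χ s(w,a) = 1`, `χ s(r,x) = 1`) gives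
`Merge χ H w x`, contradiction.
-/

set_option autoImplicit false
set_option linter.unusedSectionVars false

namespace Pool.Agent.Work.MP_a5655b_lc

variable {V : Type} [Fintype V] [DecidableEq V] {χ : Sym2 V → ℤ} {H : Finset (Sym2 V)}
  {P : Set V}

theorem findII (hS : Split χ P) (hH : Factor χ H) {w x a c : V} (hb : Bad χ H w x a c)
    (ha : a ∈ P) (hc : c ∈ P) : Merge χ H w x ∨ ∃ p v v', p ∈ P ∧ Conn H w p ∧
      s(p, v) ∈ H ∧ χ s(p, v) = 1 ∧ s(p, v') ∈ H ∧ χ s(p, v') = -1 ∧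
      χ s(v, x) = 1 ∧ χ s(v', x) = -1 := by
  by_contra hcon
  rw [not_or] at hcon
  obtain ⟨hM, hp⟩ := hcon
  have hxP : x ∉ P := hS.notP (u := a) (by rw [Sym2.eq_swap, hb.cxa]; decide) ha
  have hwP : w ∉ P := hS.notP (u := a) (by rw [Sym2.eq_swap, hb.cwa]; decide) ha
  have hxa : Conn H x a := Conn.of_mem hb.xa
  have hxc : Conn H x c := Conn.of_mem hb.xc
  have sx : ∀ v, Conn H w v → ¬ Conn H v x := fun v hv h => hb.sep (hv.trans h)
  have sa : ∀ v, Conn H w v → ¬ Conn H v a := fun v hv h => sx v hv (h.trans hxa.symm)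
  have sc : ∀ v, Conn H w v → ¬ Conn H v c := fun v hv h => sx v hv (h.trans hxc.symm)
  obtain ⟨r, hr1, hr2⟩ := (exists_red hS hH w).1
  have key := flow hS hH (Sm := {v | Conn H w v ∧ χ s(v, x) = 1})
    (Sp := {v | Conn H w v ∧ ((v ∉ P ∧ χ s(v, c) = -1) ∨
      (v ∈ P ∧ ∃ z, s(v, z) ∈ H ∧ χ s(v, z) = 1 ∧ χ s(z, x) = 1))}) ?_ ?_
  · have h4 := key.2 w ⟨Conn.refl _, Or.inl ⟨hwP, hb.cwc⟩⟩ r (by rw [Sym2.eq_swap]; exact hr1)
      (by rw [Sym2.eq_swap]; exact hr2)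
    obtain ⟨h5, h6⟩ := h4
    exact hM (swap hS hH (Or.inl rfl) hr1 hr2 hb.xa hb.cxa hb.cwa h6 hb.sep)
  · rintro u ⟨hu, h7⟩ v hv1 hv2
    have hwv : Conn H w v := hu.trans (Conn.of_mem hv1)
    refine ⟨hwv, ?_⟩
    by_cases hvP : v ∈ P
    · exact Or.inr ⟨hvP, u, by rw [Sym2.eq_swap]; exact hv1, by rw [Sym2.eq_swap]; exact hv2, h7⟩
    · refine Or.inl ⟨hvP, ?_⟩
      have h8 : χ s(v, a) = -1 := by
        rcases hS.cross (sa v hwv) (Or.inl hvP) with h8 | h8
        · exfalso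
          have h10 : Merge χ H v x := swap hS hH (u := v) (u' := u) (Or.inl rfl)
            (by rw [Sym2.eq_swap]; exact hv1) (by rw [Sym2.eq_swap]; exact hv2) hb.xa hb.cxa h8 h7
            (sx v hwv)
          exact hM (h10.trans' hwv (Conn.refl _))
        · exact h8
      rcases hS.cross (sc v hwv) (Or.inl hvP) with h9 | h9
      · exfalso
        have h3 : Merge χ H v c := by
          refine add4 hS hH (a := v) (b := c) (c := w) (d := a) (t := 1) (Or.inl rfl) h9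
            ?_ hb.cwa ?_ ?_ ?_ ?_ ?_
          · rw [Sym2.eq_swap]; exact hb.cwc
          · rw [Sym2.eq_swap]; exact h8
          · exact fun h => sc v hwv (Conn.of_mem h)
          · exact fun h => sc w (Conn.refl _) (Conn.of_mem' h)
          · exact fun h => sa w (Conn.refl _) (Conn.of_mem h)
          · exact fun h => sa v hwv (Conn.of_mem' h)
        exact hM (h3.trans' hwv hxc.symm)
      · exact h9
  · rintro u ⟨hu, h7⟩ v hv1 hv2
    have hwv : Conn H w v := hu.trans (Conn.of_mem hv1)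
    refine ⟨hwv, ?_⟩
    rcases hS.cross (sx v hwv) (Or.inr hxP) with h8 | h8
    · exact h8
    · exfalso
      rcases h7 with ⟨-, h7⟩ | ⟨huP, z, hz1, hz2, hz3⟩
      · have h10 : Merge χ H u x := swap hS hH (Or.inr rfl) hv1 hv2 hb.xc hb.cxc h7 h8 (sx u hu)
        exact hM (h10.trans' hu (Conn.refl _))
      · exact hp ⟨u, z, v, huP, hu, hz1, hz2, hv1, hv2, hz3, h8⟩

end Pool.Agent.Work.MP_a5655b_lc
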