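import Pool.Agent.Work.MP_a5655b_lc.Defs

/-!
# Module ConnX

Connectivity after an exchange.

Proof of `conn_erase`: induction on the path from `u` to `v`; a step over an edge `≠ s(a,b)` is still
there, a step over `s(a,b)` is replaced by the path from `a` to `b` (or its reverse, `Conn.symm`).

Proof of `conn_exch_mono`: `Conn.mono`; an edge of `H` outside `D` is in `symmDiff H D`, an edge of
`H` in `D` is joined by hypothesis.

Proof of `conn_exch_one`: every vertex `x` on the path from `u` to `v` in `H` satisfies `Conn H u x`.
By `conn_erase` applied to the path, `Conn (H.erase s(a,b)) u v`. Every edge `xz` on that path has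
`Conn H u x`, is in `H` and different from `s(a,b)`, so it is not in `D` by `h`, hence in
`symmDiff H D`. (Induction on `Conn (H.erase s(a,b)) u v`, with the invariant `Conn H u x`.)

Proof of `conn_exch_local`: the same induction on `Conn H u v`.
-/

set_option autoImplicit false
set_option linter.unusedSectionVars false

namespace Pool.Agent.Work.MP_a5655b_lc

variable {V : Type} [Fintype V] [DecidableEq V]

/-- Removing an edge whose ends stay joined. -/
theorem conn_erase {H : Finset (Sym2 V)} {a b : V} (hab : Conn (H.erase s(a, b)) a b) {u v : V}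
    (h : Conn H u v) : Conn (H.erase s(a, b)) u v := by
  refine h.mono fun x y hxy => ?_
  by_cases e : s(x, y) = s(a, b)
  · rw [Sym2.eq_iff] at e
    rcases e with ⟨rfl, rfl⟩ | ⟨rfl, rfl⟩
    · exact hab
    · exact hab.symm
  · exact Conn.of_mem (Finset.mem_erase.2 ⟨e, hxy⟩)

/-- If the ends of all removed edges stay joined, everything stays joined. -/
theorem conn_exch_mono {H D : Finset (Sym2 V)}
    (h : ∀ u v, s(u, v) ∈ H → s(u, v) ∈ D → Conn (symmDiff H D) u v) {x y : V}
    (hxy : Conn H x y) : Conn (symmDiff H D) x y := by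
  refine hxy.mono fun u v huv => ?_
  by_cases hD : s(u, v) ∈ D
  · exact h u v huv hD
  · exact Conn.of_mem (Finset.mem_symmDiff.2 (Or.inl ⟨huv, hD⟩))

/-- A component without removed edges stays connected. -/
theorem conn_exch_local {H D : Finset (Sym2 V)} {u v : V} (huv : Conn H u v)
    (h : ∀ x z, s(x, z) ∈ H → s(x, z) ∈ D → ¬ Conn H u x) : Conn (symmDiff H D) u v := by
  induction huv with
  | refl => exact Conn.refl _
  | tail hab hbc ih =>
    exact ih.trans (Conn.of_mem (Finset.mem_symmDiff.2
      (Or.inl ⟨hbc, fun hD => h _ _ hbc hD hab⟩)))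

/-- A component with one removed edge, which is no bridge, stays connected. -/
theorem conn_exch_one {H D : Finset (Sym2 V)} {a b u v : V} (huv : Conn H u v)
    (hab : Conn (H.erase s(a, b)) a b)
    (h : ∀ x z, s(x, z) ∈ H → s(x, z) ∈ D → Conn H u x → s(x, z) = s(a, b)) :
    Conn (symmDiff H D) u v := by
  have h1 := conn_erase hab huv
  clear huv
  induction h1 with
  | refl => exact Conn.refl _
  | tail hp hbc ih =>
    have h2 := Finset.mem_erase.1 hbc
    refine ih.trans (Conn.of_mem (Finset.mem_symmDiff.2 (Or.inl ⟨h2.2, fun hD => ?_⟩)))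
    exact h2.1 (h _ _ h2.2 hD (Conn.sub (Finset.erase_subset _ _) hp))

end Pool.Agent.Work.MP_a5655b_lc
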