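import Pool.Agent.Work.MP_a5655b_lc.Ex4
import Pool.Agent.Work.MP_a5655b_lc.ConnX

/-!
# Module Rev

The factor obtained by replacing `xa, xc` by `wa, wc` in the configuration `BadX`.

Write `K = cut2 H x a c`, `H' = swap2 H w x a c = K ∪ {wa, wc}`. `w` is not joined in `H` to
`x, a, c`, so `wa, wc ∉ H`. `H' = symmDiff H {s(w,a), s(a,x), s(x,c), s(c,w)}` (`a ≠ c` as the colours
of `xa`, `xc` differ), `rho = 1, -1, 1, -1` (`xa ∈ H` red, `xc ∈ H` blue). `rev_factor`: `factor_ex4`;
covering: `a, c, w` by the new edges, `x` by the edge of `more`.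
`rev_conn`: a path in `H'` that starts in the component of `x` in `K` stays in it: a step over an edge
of `K` does, and a step over `wa` or `wc` would start at `w`, `a` or `c`, which are not joined to
`x` in `K` (`na`, `nc`; for `w`: `K ⊆ H` and `sep`).
`rev_edge`: an edge of `H'` at `p` with `Conn K x p` is not `wa`, `wc` by the same reason.
`rev_bad`: `sep`: `Conn H' x w` would give `Conn K x w`, so `Conn H x w`.
`rev_merge`: let `H''` be a factor that joins what `H'` joins, and `x, w`. An edge of `H` is in `K ⊆ H'`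
or is `xa` or `xc`; `Conn H'' x w` and `wa, wc ∈ H'` give `Conn H'' x a`, `Conn H'' x c`.
-/

set_option autoImplicit false
set_option linter.unusedSectionVars false

namespace Pool.Agent.Work.MP_a5655b_lc

variable {V : Type} [Fintype V] [DecidableEq V] {χ : Sym2 V → ℤ} {H : Finset (Sym2 V)}
  {P : Set V} {w x a c : V}

private theorem nwa (hb : BadX χ H w x a c) : s(w, a) ∉ H := fun h =>
  hb.sep ((Conn.of_mem h).trans (Conn.of_mem' hb.xa))

private theorem nwc (hb : BadX χ H w x a c) : s(w, c) ∉ H := fun h =>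
  hb.sep ((Conn.of_mem h).trans (Conn.of_mem' hb.xc))

private theorem swap_eq (hb : BadX χ H w x a c) :
    swap2 H w x a c = symmDiff H {s(w, a), s(a, x), s(x, c), s(c, w)} := by
  have e1 : s(a, x) = s(x, a) := Sym2.eq_swap
  have e2 : s(c, w) = s(w, c) := Sym2.eq_swap
  ext e
  rw [e1, e2, Finset.mem_symmDiff]
  unfold swap2 cut2
  simp only [Finset.mem_insert, Finset.mem_erase, Finset.mem_singleton]
  constructor
  · rintro (h | h | ⟨h1, h2, h3⟩)
    · right
      exact ⟨Or.inl h, fun hh => nwa hb (h ▸ hh)⟩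
    · right
      exact ⟨Or.inr (Or.inr (Or.inr h)), fun hh => nwc hb (h ▸ hh)⟩
    · left
      refine ⟨h3, ?_⟩
      rintro (h | h | h | h)
      · exact nwa hb (h ▸ h3)
      · exact h2 h
      · exact h1 h
      · exact nwc hb (h ▸ h3)
  · rintro (⟨h1, h2⟩ | ⟨h1, h2⟩)
    · right; right
      exact ⟨fun h => h2 (Or.inr (Or.inr (Or.inl h))), fun h => h2 (Or.inr (Or.inl h)), h1⟩
    · rcases h1 with h | h | h | h
      · exact Or.inl h
      · exact absurd (h ▸ hb.xa) h2
      · exact absurd (h ▸ hb.xc) h2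
      · exact Or.inr (Or.inl h)

private theorem cut_sub : cut2 H x a c ⊆ H :=
  (Finset.erase_subset _ _).trans (Finset.erase_subset _ _)

theorem rev_factor (hS : Split χ P) (hH : Factor χ H) (hb : BadX χ H w x a c) :
    Factor χ (swap2 H w x a c) := by
  obtain ⟨z, hz⟩ := hb.more
  have hzs : s(x, z) ∈ swap2 H w x a c :=
    Finset.mem_insert_of_mem (Finset.mem_insert_of_mem hz)
  have m1 : s(w, a) ∈ swap2 H w x a c := Finset.mem_insert_self _ _
  have m4 : s(w, c) ∈ swap2 H w x a c := Finset.mem_insert_of_mem (Finset.mem_insert_self _ _)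
  have n4 : s(c, w) ∉ H := by rw [Sym2.eq_swap]; exact nwc hb
  rw [swap_eq hb] at hzs m1 m4 ⊢
  refine factor_ex4 hS.diag hH (t := 1) one_ne_zero ?_ ?_ ?_ ?_ ?_
  · unfold rho
    rw [if_neg (nwa hb), hb.cwa]
  · have h2 : s(a, x) ∈ H := by rw [Sym2.eq_swap]; exact hb.xa
    unfold rho
    rw [if_pos h2, Sym2.eq_swap, hb.cxa]
  · unfold rho
    rw [if_pos hb.xc, hb.cxc]
    rfl
  · unfold rho
    rw [if_neg n4, Sym2.eq_swap, hb.cwc]
  · intro e he heH v hve
    simp only [Finset.mem_insert, Finset.mem_singleton] at he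
    rcases he with rfl | rfl | rfl | rfl
    · exact absurd heH (nwa hb)
    · rw [Sym2.mem_iff] at hve
      rcases hve with rfl | rfl
      · exact ⟨_, m1, by simp⟩
      · exact ⟨_, hzs, by simp⟩
    · rw [Sym2.mem_iff] at hve
      rcases hve with rfl | rfl
      · exact ⟨_, hzs, by simp⟩
      · exact ⟨_, m4, by simp⟩
    · exact absurd heH n4

private theorem rev_edge' (hb : BadX χ H w x a c) {p q : V}
    (hp : Conn (cut2 H x a c) x p) (h : s(p, q) ∈ swap2 H w x a c) :
    s(p, q) ∈ cut2 H x a c := by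
  have nw : p ≠ w := by
    rintro rfl
    exact hb.sep (hp.sub cut_sub).symm
  have na : p ≠ a := by
    rintro rfl
    exact hb.na hp
  have nc : p ≠ c := by
    rintro rfl
    exact hb.nc hp
  unfold swap2 at h
  simp only [Finset.mem_insert] at h
  rcases h with h | h | h
  · exfalso
    rw [Sym2.eq_iff] at h
    rcases h with h | h
    · exact nw h.1
    · exact na h.1
  · exfalso
    rw [Sym2.eq_iff] at h
    rcases h with h | h
    · exact nw h.1
    · exact nc h.1
  · exact h

theorem rev_conn (hS : Split χ P) (hH : Factor χ H) (hb : BadX χ H w x a c) {p : V}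
    (h : Conn (swap2 H w x a c) x p) : Conn (cut2 H x a c) x p := by
  induction h with
  | refl => exact Conn.refl _
  | tail _ hbc ih => exact ih.trans (Conn.of_mem (rev_edge' hb ih hbc))

theorem rev_edge (hS : Split χ P) (hH : Factor χ H) (hb : BadX χ H w x a c) {p q : V}
    (hp : Conn (cut2 H x a c) x p) (h : s(p, q) ∈ swap2 H w x a c) :
    s(p, q) ∈ cut2 H x a c :=
  rev_edge' hb hp h

theorem rev_bad (hS : Split χ P) (hH : Factor χ H) (hb : BadX χ H w x a c) :
    Bad χ (swap2 H w x a c) x w a c where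
  xa := Finset.mem_insert_self _ _
  xc := Finset.mem_insert_of_mem (Finset.mem_insert_self _ _)
  cxa := hb.cwa
  cxc := hb.cwc
  cwa := hb.cxa
  cwc := hb.cxc
  sep h := hb.sep ((rev_conn hS hH hb h).sub cut_sub).symm

theorem rev_merge (hS : Split χ P) (hH : Factor χ H) (hb : BadX χ H w x a c)
    (h : Merge χ (swap2 H w x a c) x w) : Merge χ H w x := by
  obtain ⟨K, hF, hm, hxw⟩ := h
  have hwa : Conn K w a := hm _ _ (Conn.of_mem (Finset.mem_insert_self _ _))
  have hwc : Conn K w c :=
    hm _ _ (Conn.of_mem (Finset.mem_insert_of_mem (Finset.mem_insert_self _ _)))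
  refine ⟨K, hF, fun p q hpq => hpq.mono fun y z hyz => ?_, hxw.symm⟩
  by_cases h1 : s(y, z) = s(x, a)
  · rw [Sym2.eq_iff] at h1
    rcases h1 with ⟨rfl, rfl⟩ | ⟨rfl, rfl⟩
    · exact hxw.trans hwa
    · exact (hxw.trans hwa).symm
  by_cases h2 : s(y, z) = s(x, c)
  · rw [Sym2.eq_iff] at h2
    rcases h2 with ⟨rfl, rfl⟩ | ⟨rfl, rfl⟩
    · exact hxw.trans hwc
    · exact (hxw.trans hwc).symm
  refine hm _ _ (Conn.of_mem (Finset.mem_insert_of_mem (Finset.mem_insert_of_mem ?_)))
  exact Finset.mem_erase.2 ⟨h2, Finset.mem_erase.2 ⟨h1, hyz⟩⟩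

end Pool.Agent.Work.MP_a5655b_lc
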