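import Pool.Agent.Work.MP_a5655b_lc.Bad0
import Pool.Agent.Work.MP_a5655b_lc.FindI
import Pool.Agent.Work.MP_a5655b_lc.FindII
import Pool.Agent.Work.MP_a5655b_lc.Rev
import Pool.Agent.Work.MP_a5655b_lc.Ea
import Pool.Agent.Work.MP_a5655b_lc.Eb
import Pool.Agent.Work.MP_a5655b_lc.Ec
import Pool.Agent.Work.MP_a5655b_lc.Ed

/-!
# Module BadAll

The configuration `BadX` always gives a merging.

Proof. `K = cut2 H x a c`, `H' = swap2 H w x a c`.
(0) If `x ∉ P` and `a ∉ P`: `bad0`. If `x ∉ P` and `c ∉ P`: `bad0` for `-χ` (`Split.neg`,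
 `Factor.neg`, `Merge.of_neg`) with `a` and `c` exchanged.
(0') If `w ∉ P` and (`a ∉ P` or `c ∉ P`): the same for `H'` and `(x, w, a, c)` (`rev_factor`,
 `rev_bad`), then `rev_merge`.
(I) `x ∈ P`, `w ∈ P`. `findI` for `(H, w, x)` gives `Merge` or `p, u, u'`; `findI` for `(H', x, w)`
 (`rev_factor`, `rev_bad`) gives `Merge χ H' x w`, so `Merge χ H w x` by `rev_merge`, or `p2, t, t'`
 with `Conn H' x p2`, so `Conn K x p2` (`rev_conn`), and `s(p2,t), s(p2,t') ∈ K` (`rev_edge`).
 `u, u', t, t' ∉ P` (`Split.notP`, as `p, p2 ∈ P`), so `u', t, t' ≠ x`. `Conn H w u` and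
 `Conn K x t`, so `u, p2` and `t, p` are not joined in `H` (`cutL_sep`). If `χ s(u,p2) = 1`: `ex_a` with
 `(u, p2, t')`. If `χ s(t,p) = 1`: `ex_b` with `(t, p, u')`. Otherwise both are `-1`
 (`Split.cross`), and `swap` with the edges `s(p,u)`, `s(p2,t)` of `H`, `t = -1`
 (`χ s(p,t) = -1`, `χ s(u,p2) = -1`) gives `Merge χ H p p2`, so `Merge χ H w x`.
(II) `a ∈ P`, `c ∈ P`. `findII` for `(H, w, x)`: `p, v, v'`; `findII` for `(H', x, w)`: `p2, t, t'` with
 `χ s(t,w) = 1`, `χ s(t',w) = -1`. `v, t ∉ P`. If `χ s(v,p2) = -1`: `ex_c` with `(v, p2, t')`. If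
 `χ s(t,p) = -1`: `ex_d` with `(t, p, v')`. Otherwise both are `1`, and `swap` with the edges
 `s(p,v)`, `s(p2,t)`, `t = 1` gives `Merge χ H p p2`.
The cases are exhaustive: if `x ∉ P`, then (0) unless `a, c ∈ P`, which is (II); if `w ∉ P`, then (0')
unless (II); if `x, w ∈ P`: (I).
-/

set_option autoImplicit false
set_option linter.unusedSectionVars false

namespace Pool.Agent.Work.MP_a5655b_lc

variable {V : Type} [Fintype V] [DecidableEq V] {χ : Sym2 V → ℤ} {H : Finset (Sym2 V)}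
  {P : Set V} {w x a c : V}

private theorem caseI (hS : Split χ P) (hH : Factor χ H) (hb : BadX χ H w x a c)
    (hx : x ∈ P) (hw : w ∈ P) : Merge χ H w x := by
  rcases findI hS hH hb.toBad hx hw with hm | ⟨p, u, u', hpP, hwp, hpu, cpu, hpu', cpu', huc, hua⟩
  · exact hm
  rcases findI hS (rev_factor hS hH hb) (rev_bad hS hH hb) hw hx with hm |
    ⟨p2, t, t', hp2P, hxp, hpt, cpt, hpt', cpt', htc, hta⟩
  · exact rev_merge hS hH hb hm
  have hK := rev_conn hS hH hb hxp
  have e1 := rev_edge hS hH hb hK hpt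
  have e2 := rev_edge hS hH hb hK hpt'
  have hu : u ∉ P := hS.notP (u := p) (by rw [cpu]; decide) hpP
  have ht : t ∉ P := hS.notP (u := p2) (by rw [cpt]; decide) hp2P
  have ht' : t' ∉ P := hS.notP (u := p2) (by rw [cpt']; decide) hp2P
  have hwu : Conn H w u := hwp.trans (Conn.of_mem hpu)
  have hxt : Conn (cut2 H x a c) x t := hK.trans (Conn.of_mem e1)
  have n1 : ¬ Conn H u p2 := cutL_sep hb hwu hK
  have n2 : ¬ Conn H p t := cutL_sep hb hwp hxt
  have n2' : ¬ Conn H t p := fun h => n2 h.symm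
  rcases hS.cross n1 (Or.inl hu) with h1 | h1
  · exact ex_a hS hH hb hwu huc hK h1 e2 cpt' (fun h => ht' (h ▸ hx)) hta
  rcases hS.cross n2' (Or.inl ht) with h2 | h2
  · exact ex_b hS hH hb hxt (fun h => ht (h ▸ hx)) htc hwp h2 hpu' cpu' hua
  have h3 : χ s(p, t) = -1 := by rw [Sym2.eq_swap]; exact h2
  have hm := swap hS hH (t := -1) (Or.inr rfl) hpu cpu (cutL_sub e1) cpt h3 h1
    (cutL_sep hb hwp hK)
  exact hm.trans' hwp (cutL_conn hK).symm

private theorem caseII (hS : Split χ P) (hH : Factor χ H) (hb : BadX χ H w x a c)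
    (ha : a ∈ P) (hc : c ∈ P) : Merge χ H w x := by
  rcases findII hS hH hb.toBad ha hc with hm | ⟨p, v, v', hpP, hwp, hpv, cpv, hpv', cpv', hvx, hvx'⟩
  · exact hm
  rcases findII hS (rev_factor hS hH hb) (rev_bad hS hH hb) ha hc with hm |
    ⟨p2, t, t', hp2P, hxp, hpt, cpt, hpt', cpt', htw, htw'⟩
  · exact rev_merge hS hH hb hm
  have hK := rev_conn hS hH hb hxp
  have e1 := rev_edge hS hH hb hK hpt
  have e2 := rev_edge hS hH hb hK hpt'
  have hv : v ∉ P := hS.notP (u := p) (by rw [cpv]; decide) hpP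
  have ht : t ∉ P := hS.notP (u := p2) (by rw [cpt]; decide) hp2P
  have hwv : Conn H w v := hwp.trans (Conn.of_mem hpv)
  have hxt : Conn (cut2 H x a c) x t := hK.trans (Conn.of_mem e1)
  have n1 : ¬ Conn H v p2 := cutL_sep hb hwv hK
  have n2 : ¬ Conn H p t := cutL_sep hb hwp hxt
  have n2' : ¬ Conn H t p := fun h => n2 h.symm
  rcases hS.cross n1 (Or.inl hv) with h1 | h1
  · rcases hS.cross n2' (Or.inl ht) with h2 | h2
    · have h3 : χ s(p, t) = 1 := by rw [Sym2.eq_swap]; exact h2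
      have hm := swap hS hH (t := 1) (Or.inl rfl) hpv cpv (cutL_sub e1) cpt h3 h1
        (cutL_sep hb hwp hK)
      exact hm.trans' hwp (cutL_conn hK).symm
    · exact ex_d hS hH hb hxt htw hwp h2 hpv' cpv' hvx'
  · exact ex_c hS hH hb hwv hvx hK h1 e2 cpt' htw'

theorem bad_all (hS : Split χ P) (hH : Factor χ H) (hb : BadX χ H w x a c) :
    Merge χ H w x := by
  by_cases hac : a ∈ P ∧ c ∈ P
  · exact caseII hS hH hb hac.1 hac.2
  have hac' : a ∉ P ∨ c ∉ P := by
    by_contra hcon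
    push Not at hcon
    exact hac hcon
  have hneg : Bad (fun e => -χ e) H w x c a :=
    { xa := hb.xc
      xc := hb.xa
      cxa := by rw [hb.cxc]; rfl
      cxc := by rw [hb.cxa]
      cwa := by rw [hb.cwc]; rfl
      cwc := by rw [hb.cwa]
      sep := hb.sep }
  by_cases hx : x ∈ P
  · by_cases hw : w ∈ P
    · exact caseI hS hH hb hx hw
    · have hF := rev_factor hS hH hb
      have hB := rev_bad hS hH hb
      rcases hac' with h | h
      · exact rev_merge hS hH hb (bad0 hS hF hB hw h)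
      · have hneg' : Bad (fun e => -χ e) (swap2 H w x a c) x w c a :=
          { xa := hB.xc
            xc := hB.xa
            cxa := by rw [hB.cxc]; rfl
            cxc := by rw [hB.cxa]
            cwa := by rw [hB.cwc]; rfl
            cwc := by rw [hB.cwa]
            sep := hB.sep }
        exact rev_merge hS hH hb (bad0 hS.neg hF.neg hneg' hw h).of_neg
  · rcases hac' with h | h
    · exact bad0 hS hH hb.toBad hx h
    · exact (bad0 hS.neg hH.neg hneg hx h).of_neg

end Pool.Agent.Work.MP_a5655b_lc
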