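import Pool.Agent.Work.MP_a5655b_lc.BadAll

/-!
# Module BadB

The exchange of `xa, xc` for `wa, wc` in the configuration `Bad`, when there is a second red edge of `H`
at `x`.

Proof. `K = cut2 H x a c`, `H' = symmDiff H {s(w,a), s(a,x), s(x,c), s(c,w)}` (the residual colours are
`1, -1, 1, -1`; `wa`, `wc` join two components, so they are not in `H`). `Deg2 χ H x` gives a second red
edge `s(x,z) ∈ H`, `z ≠ a`; it is in `K` (it is not `xc`, which is blue), so `more` holds. If
`¬ Conn K x a` and `¬ Conn K x c`, we have `BadX χ H w x a c`, and `bad_all` applies.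
Otherwise `Conn K x a` or `Conn K x c`. Covering for `factor_ex4`: `a, c` (and `w`) by the new edges,
`x` by `s(x,z)`, which is in `H` and not in the exchange set. `K ⊆ H'` (an edge of `K` is in `H`, is not
`xa`, `xc`, and is not `wa`, `wc`, which are not in `H`). `a - w - c` are new edges, so `x, a, c` are
joined in `H'`, so `H'` joins what `H` joins (`conn_exch_mono`), and `x ~ a - w`.
-/

set_option autoImplicit false
set_option linter.unusedSectionVars false

namespace Pool.Agent.Work.MP_a5655b_lc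

variable {V : Type} [Fintype V] [DecidableEq V] {χ : Sym2 V → ℤ} {H : Finset (Sym2 V)}
  {P : Set V}

theorem bad_better (hS : Split χ P) (hH : Factor χ H) {w x a c : V} (hb : Bad χ H w x a c)
    (hd : Deg2 χ H x) : Merge χ H w x := by
  obtain ⟨z, hz, hza⟩ := Finset.exists_mem_ne (Nat.lt_of_succ_le hd) a
  have hzH : s(x, z) ∈ H := (Finset.mem_filter.1 hz).2.1
  have hz1 : χ s(x, z) = 1 := (Finset.mem_filter.1 hz).2.2
  have nza : s(x, z) ≠ s(x, a) := fun h => hza (Sym2.congr_right.1 h)
  have nzc : s(x, z) ≠ s(x, c) := by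
    intro h
    rw [h, hb.cxc] at hz1
    exact absurd hz1 (by decide)
  have hzK : s(x, z) ∈ cut2 H x a c :=
    Finset.mem_erase.2 ⟨nzc, Finset.mem_erase.2 ⟨nza, hzH⟩⟩
  by_cases hAC : ¬ Conn (cut2 H x a c) x a ∧ ¬ Conn (cut2 H x a c) x c
  · exact bad_all hS hH ⟨hb, hAC.1, hAC.2, ⟨z, hzK⟩⟩
  have hAC' : Conn (cut2 H x a c) x a ∨ Conn (cut2 H x a c) x c := by
    by_contra h
    push Not at h
    exact hAC h
  have n1 : s(w, a) ∉ H := fun h => hb.sep ((Conn.of_mem h).trans (Conn.of_mem' hb.xa))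
  have n4 : s(c, w) ∉ H := fun h => hb.sep ((Conn.of_mem' h).trans (Conn.of_mem' hb.xc))
  set D : Finset (Sym2 V) := {s(w, a), s(a, x), s(x, c), s(c, w)} with hD
  have m1 : s(w, a) ∈ symmDiff H D :=
    Finset.mem_symmDiff.2 (Or.inr ⟨by rw [hD]; simp, n1⟩)
  have m4 : s(c, w) ∈ symmDiff H D :=
    Finset.mem_symmDiff.2 (Or.inr ⟨by rw [hD]; simp, n4⟩)
  have hK : ∀ e ∈ cut2 H x a c, e ∈ symmDiff H D := by
    intro e he
    obtain ⟨hec, he'⟩ := Finset.mem_erase.1 he
    obtain ⟨hea, heH⟩ := Finset.mem_erase.1 he'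
    refine Finset.mem_symmDiff.2 (Or.inl ⟨heH, fun h => ?_⟩)
    rw [hD] at h
    simp only [Finset.mem_insert, Finset.mem_singleton] at h
    rcases h with h | h | h | h
    · exact n1 (h ▸ heH)
    · exact hea (h.trans Sym2.eq_swap)
    · exact hec h
    · exact n4 (h ▸ heH)
  have hDH : ∀ e ∈ D, e ∈ H → e = s(a, x) ∨ e = s(x, c) := by
    intro e he heH
    rw [hD] at he
    simp only [Finset.mem_insert, Finset.mem_singleton] at he
    rcases he with h | h | h | h
    · exact absurd (h ▸ heH) n1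
    · exact Or.inl h
    · exact Or.inr h
    · exact absurd (h ▸ heH) n4
  have hF : Factor χ (symmDiff H D) := by
    refine factor_ex4 hS.diag hH (t := 1) one_ne_zero ?_ ?_ ?_ ?_ ?_
    · unfold rho
      rw [if_neg n1, hb.cwa]
    · have h2 : s(a, x) ∈ H := by rw [Sym2.eq_swap]; exact hb.xa
      unfold rho
      rw [if_pos h2, Sym2.eq_swap, hb.cxa]
    · unfold rho
      rw [if_pos hb.xc, hb.cxc]
      rfl
    · unfold rho
      rw [if_neg n4, Sym2.eq_swap, hb.cwc]
    · intro e he heH v hve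
      rcases hDH e he heH with h | h
      · rw [h, Sym2.mem_iff] at hve
        rcases hve with rfl | rfl
        · exact ⟨s(w, v), m1, by simp⟩
        · exact ⟨s(v, z), hK _ hzK, by simp⟩
      · rw [h, Sym2.mem_iff] at hve
        rcases hve with rfl | rfl
        · exact ⟨s(v, z), hK _ hzK, by simp⟩
        · exact ⟨s(v, w), m4, by simp⟩
  have hwa : Conn (symmDiff H D) w a := Conn.of_mem m1
  have hwc : Conn (symmDiff H D) w c := Conn.of_mem' m4
  have hwx : Conn (symmDiff H D) w x := by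
    rcases hAC' with h | h
    · exact hwa.trans (Conn.sub (fun e he => hK e he) h).symm
    · exact hwc.trans (Conn.sub (fun e he => hK e he) h).symm
  refine ⟨symmDiff H D, hF, fun p q hpq => conn_exch_mono ?_ hpq, hwx⟩
  intro p q hpH hpD
  rcases hDH _ hpD hpH with h | h
  · rw [Sym2.eq_iff] at h
    rcases h with ⟨rfl, rfl⟩ | ⟨rfl, rfl⟩
    · exact hwa.symm.trans hwx
    · exact hwx.symm.trans hwa
  · rw [Sym2.eq_iff] at h
    rcases h with ⟨rfl, rfl⟩ | ⟨rfl, rfl⟩
    · exact hwx.symm.trans hwc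
    · exact hwc.symm.trans hwx

end Pool.Agent.Work.MP_a5655b_lc
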