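import Pool.Agent.Work.MP_a5655b_lc.TrailDefs
import Pool.Agent.Work.MP_a5655b_lc.StarSum

/-!
# Module CTex

In a balanced set of edges there is a closed alternating trail starting at any vertex that has an
edge.

Proof. Call `(m, f)` a partial trail if `f 0 = v`, `s(f i, f(i+1)) ∈ F` and `χ = (-1)^i` for `i < m`,
and these `m` edges are distinct. Then `m ≤ F.card`. There is one with `m = 1`: a red edge at `v`
(there is an edge at `v`, and the numbers of red and blue edges are equal, `red_eq_blue`). Take one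
with `m` maximal, `z = f m`, `T` the set of its edges. For the vertex `z`,
`(red edges of T at z) - (blue edges of T at z) = ∑_{i<m} (-1)^i ([z = f i] + [z = f (i+1)])
= [z = f 0] - (-1)^m [z = f m] = [z = v] - (-1)^m` (induction on `m`; `f i ≠ f (i+1)`).
* `m` odd: the difference is `≥ 1`, so, as red and blue edges of `F` at `z` are equally many and
  `T ⊆ F`, there is a blue edge `s(z,z') ∈ F`, not in `T`; then `(m+1, f')` with `f' (m+1) = z'`
  contradicts the maximality.
* `m` even and `z ≠ v`: the difference is `-1`, so there is a red edge of `F \ T` at `z`; again a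
  contradiction.
So `m = 2k` with `k ≥ 1` and `f (2k) = v`: a `CT`.
-/

set_option autoImplicit false
set_option linter.unusedSectionVars false

namespace Pool.Agent.Work.MP_a5655b_lc

variable {V : Type} [Fintype V] [DecidableEq V]

/-- The telescoping sum for the balance of an alternating trail. -/
private theorem tele45 {χ : Sym2 V → ℤ} {F : Finset (Sym2 V)} (hl : ∀ v, s(v, v) ∉ F) {m : ℕ}
    {f : ℕ → V} (h : ∀ i < m, s(f i, f (i + 1)) ∈ F ∧ χ s(f i, f (i + 1)) = (-1) ^ i)
    (hinj : ∀ i j, i < m → j < m → s(f i, f (i + 1)) = s(f j, f (j + 1)) → i = j) (z : V) :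
    bal χ ((Finset.range m).image fun i => s(f i, f (i + 1))) z =
      (if z = f 0 then 1 else 0) - (-1) ^ m * (if z = f m then 1 else 0) := by
  unfold bal
  rw [Finset.sum_image]
  · have e1 : ∑ i ∈ Finset.range m, (if z ∈ s(f i, f (i + 1)) then χ s(f i, f (i + 1)) else 0) =
        ∑ i ∈ Finset.range m, ((-1 : ℤ) ^ i * (if z = f i then 1 else 0) -
          (-1) ^ (i + 1) * (if z = f (i + 1) then 1 else 0)) := by
      refine Finset.sum_congr rfl fun i hi => ?_
      rw [Finset.mem_range] at hi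
      obtain ⟨h1, h2⟩ := h i hi
      have hne : f i ≠ f (i + 1) := by
        intro hh
        rw [← hh] at h1
        exact hl _ h1
      rw [h2, pow_succ]
      by_cases h3 : z = f i
      · have h4 : z ≠ f (i + 1) := fun hh => hne (h3.symm.trans hh)
        rw [if_pos (by rw [Sym2.mem_iff]; exact Or.inl h3), if_pos h3, if_neg h4]
        ring
      · by_cases h4 : z = f (i + 1)
        · rw [if_pos (by rw [Sym2.mem_iff]; exact Or.inr h4), if_neg h3, if_pos h4]
          ring
        · rw [if_neg (by rw [Sym2.mem_iff, not_or]; exact ⟨h3, h4⟩), if_neg h3, if_neg h4]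
          ring
    rw [e1, Finset.sum_range_sub' (fun i => (-1 : ℤ) ^ i * (if z = f i then 1 else 0)) m]
    simp
  · intro i hi j hj hij
    rw [Finset.mem_coe, Finset.mem_range] at hi hj
    exact hinj i j hi hj hij

private theorem bal_sdiff45 (χ : Sym2 V → ℤ) {F T : Finset (Sym2 V)} (hT : T ⊆ F) (z : V) :
    bal χ (F \ T) z + bal χ T z = bal χ F z := by
  unfold bal
  exact Finset.sum_sdiff hT

private theorem exists_blue45 {χ : Sym2 V → ℤ} {G : Finset (Sym2 V)}
    (hv : ∀ e ∈ G, χ e = 1 ∨ χ e = -1) {z : V} (h : bal χ G z < 0) :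
    ∃ z', s(z, z') ∈ G ∧ χ s(z, z') = -1 := by
  by_contra hc
  push Not at hc
  have : 0 ≤ bal χ G z := by
    unfold bal
    refine Finset.sum_nonneg fun e he => ?_
    split_ifs with hz
    · obtain ⟨z', rfl⟩ := hz
      rcases hv _ he with h1 | h1
      · rw [h1]
        norm_num
      · exact absurd h1 (hc z' he)
    · exact le_refl _
  omega

private theorem exists_red45 {χ : Sym2 V → ℤ} {G : Finset (Sym2 V)}
    (hv : ∀ e ∈ G, χ e = 1 ∨ χ e = -1) {z : V} (h : 0 < bal χ G z) :
    ∃ z', s(z, z') ∈ G ∧ χ s(z, z') = 1 := by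
  by_contra hc
  push Not at hc
  have : bal χ G z ≤ 0 := by
    unfold bal
    refine Finset.sum_nonpos fun e he => ?_
    split_ifs with hz
    · obtain ⟨z', rfl⟩ := hz
      rcases hv _ he with h1 | h1
      · exact absurd h1 (hc z' he)
      · rw [h1]
        norm_num
    · exact le_refl _
  omega

/-- A partial trail from `v` with `m` edges. -/
private def PT45 (χ : Sym2 V → ℤ) (F : Finset (Sym2 V)) (v : V) (m : ℕ) (f : ℕ → V) : Prop :=
  f 0 = v ∧ (∀ i < m, s(f i, f (i + 1)) ∈ F ∧ χ s(f i, f (i + 1)) = (-1) ^ i) ∧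
    ∀ i j, i < m → j < m → s(f i, f (i + 1)) = s(f j, f (j + 1)) → i = j

private theorem PT_ext45 {χ : Sym2 V → ℤ} {F : Finset (Sym2 V)} {v : V} {m : ℕ} {f : ℕ → V}
    (h : PT45 χ F v m f) {z' : V} (h1 : s(f m, z') ∈ F) (h2 : χ s(f m, z') = (-1) ^ m)
    (h3 : s(f m, z') ∉ (Finset.range m).image fun i => s(f i, f (i + 1))) :
    ∃ f', PT45 χ F v (m + 1) f' := by
  obtain ⟨g0, g1, g2⟩ := h
  let f' : ℕ → V := fun i => if i ≤ m then f i else z'
  have A1 : ∀ i, i ≤ m → f' i = f i := fun i hi => if_pos hi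
  have A2 : f' (m + 1) = z' := if_neg (by omega)
  have hE : ∀ i < m, s(f' i, f' (i + 1)) = s(f i, f (i + 1)) := by
    intro i hi
    rw [A1 i (by omega), A1 (i + 1) (by omega)]
  have hm : s(f' m, f' (m + 1)) = s(f m, z') := by
    rw [A1 m le_rfl, A2]
  have hnew : ∀ i < m, s(f i, f (i + 1)) ≠ s(f m, z') := by
    intro i hi hh
    apply h3
    rw [Finset.mem_image]
    exact ⟨i, Finset.mem_range.2 hi, hh⟩
  refine ⟨f', ?_, ?_, ?_⟩
  · rw [A1 0 (by omega), g0]
  · intro i hi
    by_cases e : i = m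
    · subst e
      rw [hm]
      exact ⟨h1, h2⟩
    · rw [hE i (by omega)]
      exact g1 i (by omega)
  · intro i j hi hj hij
    by_cases e : i = m
    · by_cases e' : j = m
      · rw [e, e']
      · subst e
        rw [hm, hE j (by omega)] at hij
        exact absurd hij.symm (hnew j (by omega))
    · by_cases e' : j = m
      · subst e'
        rw [hm, hE i (by omega)] at hij
        exact absurd hij (hnew i (by omega))
      · rw [hE i (by omega), hE j (by omega)] at hij
        exact g2 i j (by omega) (by omega) hij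

theorem exists_ct {χ : Sym2 V → ℤ} {F : Finset (Sym2 V)} (hl : ∀ v, s(v, v) ∉ F)
    (hv : ∀ e ∈ F, χ e = 1 ∨ χ e = -1) (hb : ∀ v, bal χ F v = 0) {v : V}
    (he : ∃ e ∈ F, v ∈ e) : ∃ (k : ℕ) (f : ℕ → V), CT χ F k f ∧ f 0 = v := by
  classical
  have hbound : ∀ m f, PT45 χ F v m f → m ≤ F.card := by
    intro m f h
    have h1 : ((Finset.range m).image fun i => s(f i, f (i + 1))).card = m := by
      rw [Finset.card_image_of_injOn, Finset.card_range]
      intro i hi j hj hij
      rw [Finset.mem_coe, Finset.mem_range] at hi hj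
      exact h.2.2 i j hi hj hij
    rw [← h1]
    apply Finset.card_le_card
    intro e he
    rw [Finset.mem_image] at he
    obtain ⟨i, hi, rfl⟩ := he
    exact (h.2.1 i (Finset.mem_range.1 hi)).1
  -- a red edge at `v`
  have hred : ∃ z', s(v, z') ∈ F ∧ χ s(v, z') = 1 := by
    obtain ⟨e, heF, hve⟩ := he
    obtain ⟨w, rfl⟩ := hve
    rcases hv _ heF with h1 | h1
    · exact ⟨w, heF, h1⟩
    · have h2 := bal_sdiff45 χ (F := F) (T := {s(v, w)}) (by
        intro e he
        rw [Finset.mem_singleton] at he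
        rw [he]
        exact heF) v
      have h3 : bal χ {s(v, w)} v = -1 := by
        unfold bal
        rw [Finset.sum_singleton, if_pos (Sym2.mem_mk_left v w), h1]
      rw [h3, hb v] at h2
      obtain ⟨z', h4, h5⟩ := exists_red45 (G := F \ {s(v, w)})
        (fun e he => hv e (Finset.mem_sdiff.1 he).1) (z := v) (by omega)
      exact ⟨z', (Finset.mem_sdiff.1 h4).1, h5⟩
  have h1 : ∃ f, PT45 χ F v 1 f := by
    obtain ⟨z', h2, h3⟩ := hred
    refine ⟨fun i => if i = 0 then v else z', rfl, ?_, ?_⟩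
    · intro i hi
      have : i = 0 := by omega
      subst this
      refine ⟨h2, ?_⟩
      rw [pow_zero]
      exact h3
    · intro i j hi hj _
      omega
  let M := Nat.findGreatest (fun m => ∃ f, PT45 χ F v m f) F.card
  obtain ⟨f1, hf1⟩ := h1
  have hM : ∃ f, PT45 χ F v M f :=
    Nat.findGreatest_spec (P := fun m => ∃ f, PT45 χ F v m f) (hbound 1 f1 hf1) ⟨f1, hf1⟩
  have hM1 : 1 ≤ M := Nat.le_findGreatest (hbound 1 f1 hf1) ⟨f1, hf1⟩
  have hmax : ∀ m f, PT45 χ F v m f → m ≤ M := fun m f h =>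
    Nat.le_findGreatest (hbound m f h) ⟨f, h⟩
  obtain ⟨f, hf⟩ := hM
  set T := (Finset.range M).image fun i => s(f i, f (i + 1)) with hT
  have hTF : T ⊆ F := by
    intro e he
    rw [hT, Finset.mem_image] at he
    obtain ⟨i, hi, rfl⟩ := he
    exact (hf.2.1 i (Finset.mem_range.1 hi)).1
  have hbT := tele45 hl hf.2.1 hf.2.2 (f M)
  rw [if_pos rfl, mul_one, ← hT, hf.1] at hbT
  have hsd := bal_sdiff45 χ hTF (f M)
  rw [hb, hbT] at hsd
  have hvG : ∀ e ∈ F \ T, χ e = 1 ∨ χ e = -1 := fun e he => hv e (Finset.mem_sdiff.1 he).1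
  have hno : ¬ ∃ z', s(f M, z') ∈ F \ T ∧ χ s(f M, z') = (-1) ^ M := by
    rintro ⟨z', h2, h3⟩
    rw [Finset.mem_sdiff] at h2
    obtain ⟨f', hf'⟩ := PT_ext45 hf h2.1 h3 h2.2
    have := hmax _ _ hf'
    omega
  rcases Nat.even_or_odd M with hev | hod
  · have hp : (-1 : ℤ) ^ M = 1 := hev.neg_one_pow
    by_cases hz : f M = v
    · obtain ⟨k, hk⟩ := hev
      have hk' : M = 2 * k := by omega
      refine ⟨k, f, ⟨by omega, ?_, ?_, ?_⟩, hf.1⟩
      · rw [← hk', hz, hf.1]
      · intro i hi
        exact hf.2.1 i (by omega)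
      · intro i j hi hj
        exact hf.2.2 i j (by omega) (by omega)
    · exfalso
      rw [if_neg hz, hp] at hsd
      apply hno
      rw [hp]
      exact exists_red45 hvG (by omega)
  · exfalso
    have hp : (-1 : ℤ) ^ M = -1 := hod.neg_one_pow
    rw [hp] at hsd
    apply hno
    rw [hp]
    apply exists_blue45 hvG
    split_ifs at hsd
    · omega
    · omega

end Pool.Agent.Work.MP_a5655b_lc
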