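import Pool.Agent.Work.MP_a5655b_lc.TrailDefs

/-!
# Module CTjoin

Inserting a closed alternating trail into another one.

Proof. If `j` is even let `g' = g`, if `j` is odd let `g' i = g (2k' - i)` for `i ≤ 2k'` (the reversed
trail, whose first edge is blue: its edge number `i` is the edge number `2k' - 1 - i` of `g`, with
colour `(-1)^(2k'-1-i) = -(-1)^i`). In both cases `g' 0 = g' (2k') = f j` and the edge number `i` of
`g'` has colour `(-1)^(j+i)`. Let `h i = f i` for `i ≤ j`, `h i = g' (i - j)` for `j ≤ i ≤ j + 2k'`,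
`h i = f (i - 2k')` for `i ≥ j + 2k'`. The edge number `i` of `h` is the edge `i` of `f` for `i < j`, the
edge `i - j` of `g'` for `j ≤ i < j + 2k'`, and the edge `i - 2k'` of `f` for
`j + 2k' ≤ i < 2k + 2k'`. Colours, closedness and distinctness (the edges of `f` are not in `F`, those
of `g` are) follow.
-/

set_option autoImplicit false
set_option linter.unusedSectionVars false

namespace Pool.Agent.Work.MP_a5655b_lc

variable {V : Type} [Fintype V] [DecidableEq V]

private theorem par45 {a b : ℕ} (h : a % 2 = b % 2) : (-1 : ℤ) ^ a = (-1) ^ b := by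
  rw [neg_one_pow_eq_pow_mod_two (n := a), neg_one_pow_eq_pow_mod_two (n := b), h]

private theorem ct_rot45 {χ : Sym2 V → ℤ} {F : Finset (Sym2 V)} {k : ℕ} {g : ℕ → V}
    (hg : CT χ F k g) (j : ℕ) : ∃ g' : ℕ → V, g' 0 = g 0 ∧ g' (2 * k) = g 0 ∧
      (∀ i < 2 * k, s(g' i, g' (i + 1)) ∈ F ∧ χ s(g' i, g' (i + 1)) = (-1) ^ (j + i)) ∧
      ∀ i i', i < 2 * k → i' < 2 * k → s(g' i, g' (i + 1)) = s(g' i', g' (i' + 1)) → i = i' := by
  obtain ⟨h0, h1, h2, h3⟩ := hg
  by_cases hj : j % 2 = 0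
  · refine ⟨g, rfl, h1, fun i hi => ⟨(h2 i hi).1, ?_⟩, h3⟩
    rw [(h2 i hi).2]
    exact par45 (by omega)
  · have he : ∀ i < 2 * k, s(g (2 * k - i), g (2 * k - (i + 1))) =
        s(g (2 * k - 1 - i), g (2 * k - 1 - i + 1)) := by
      intro i hi
      have e1 : 2 * k - i = 2 * k - 1 - i + 1 := by omega
      have e2 : 2 * k - (i + 1) = 2 * k - 1 - i := by omega
      rw [e1, e2, Sym2.eq_swap]
    refine ⟨fun i => g (2 * k - i), ?_, ?_, ?_, ?_⟩
    · show g (2 * k - 0) = g 0
      rw [Nat.sub_zero, h1]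
    · show g (2 * k - 2 * k) = g 0
      rw [Nat.sub_self]
    · intro i hi
      show s(g (2 * k - i), g (2 * k - (i + 1))) ∈ F ∧
        χ s(g (2 * k - i), g (2 * k - (i + 1))) = (-1) ^ (j + i)
      rw [he i hi]
      refine ⟨(h2 _ (by omega)).1, ?_⟩
      rw [(h2 _ (by omega)).2]
      exact par45 (by omega)
    · intro i i' hi hi' h
      have h4 : s(g (2 * k - i), g (2 * k - (i + 1))) =
        s(g (2 * k - i'), g (2 * k - (i' + 1))) := h
      rw [he i hi, he i' hi'] at h4
      have := h3 _ _ (by omega) (by omega) h4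
      omega

theorem ct_join {χ : Sym2 V → ℤ} {H F : Finset (Sym2 V)} (hFH : F ⊆ H) {k k' : ℕ}
    {f g : ℕ → V} (hf : CT χ H k f) (hdis : ∀ i < 2 * k, s(f i, f (i + 1)) ∉ F)
    (hg : CT χ F k' g) {j : ℕ} (hj : j ≤ 2 * k) (hgj : g 0 = f j) :
    ∃ h : ℕ → V, CT χ H (k + k') h := by
  obtain ⟨f0, f1, f2, f3⟩ := hf
  obtain ⟨g', g0, g1, g2, g3⟩ := ct_rot45 hg j
  have hk' : 0 < k' := hg.1
  rw [hgj] at g0 g1
  let h : ℕ → V := fun i => if i ≤ j then f i else if i ≤ j + 2 * k' then g' (i - j)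
    else f (i - 2 * k')
  have A1 : ∀ i, i ≤ j → h i = f i := fun i hi => if_pos hi
  have A2 : ∀ i, j ≤ i → i ≤ j + 2 * k' → h i = g' (i - j) := by
    intro i hi hi'
    by_cases e : i = j
    · rw [A1 i e.le, e, Nat.sub_self, g0]
    · show (if i ≤ j then f i else if i ≤ j + 2 * k' then g' (i - j)
        else f (i - 2 * k')) = g' (i - j)
      rw [if_neg (by omega), if_pos hi']
  have A3 : ∀ i, j + 2 * k' ≤ i → h i = f (i - 2 * k') := by
    intro i hi
    by_cases e : i = j + 2 * k'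
    · rw [A2 i (by omega) (by omega)]
      have e1 : i - j = 2 * k' := by omega
      have e2 : i - 2 * k' = j := by omega
      rw [e1, e2, g1]
    · show (if i ≤ j then f i else if i ≤ j + 2 * k' then g' (i - j)
        else f (i - 2 * k')) = f (i - 2 * k')
      rw [if_neg (by omega), if_neg (by omega)]
  have C : ∀ i < 2 * (k + k'),
      (∃ a < 2 * k, s(h i, h (i + 1)) = s(f a, f (a + 1)) ∧
        ((i < j ∧ a = i) ∨ (j + 2 * k' ≤ i ∧ a + 2 * k' = i))) ∨
      (∃ b < 2 * k', s(h i, h (i + 1)) = s(g' b, g' (b + 1)) ∧ i = j + b) := by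
    intro i hi
    by_cases h1 : i < j
    · left
      refine ⟨i, by omega, ?_, Or.inl ⟨h1, rfl⟩⟩
      rw [A1 i (by omega), A1 (i + 1) (by omega)]
    · by_cases h2 : j + 2 * k' ≤ i
      · left
        refine ⟨i - 2 * k', by omega, ?_, Or.inr ⟨h2, by omega⟩⟩
        rw [A3 i h2, A3 (i + 1) (by omega)]
        have e : i + 1 - 2 * k' = i - 2 * k' + 1 := by omega
        rw [e]
      · right
        refine ⟨i - j, by omega, ?_, by omega⟩
        rw [A2 i (by omega) (by omega), A2 (i + 1) (by omega) (by omega)]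
        have e : i + 1 - j = i - j + 1 := by omega
        rw [e]
  refine ⟨h, by omega, ?_, ?_, ?_⟩
  · rw [A1 0 (by omega), A3 (2 * (k + k')) (by omega)]
    have e : 2 * (k + k') - 2 * k' = 2 * k := by omega
    rw [e, f1]
  · intro i hi
    rcases C i hi with ⟨a, ha, he, hc⟩ | ⟨b, hb, he, hc⟩
    · rw [he]
      refine ⟨(f2 a ha).1, ?_⟩
      rw [(f2 a ha).2]
      exact par45 (by omega)
    · rw [he]
      refine ⟨hFH (g2 b hb).1, ?_⟩
      rw [(g2 b hb).2, hc]
  · intro i i' hi hi' hh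
    rcases C i hi with ⟨a, ha, he, hc⟩ | ⟨b, hb, he, hc⟩
    · rcases C i' hi' with ⟨a', ha', he', hc'⟩ | ⟨b', hb', he', hc'⟩
      · rw [he, he'] at hh
        have := f3 _ _ ha ha' hh
        omega
      · exfalso
        apply hdis a ha
        rw [← he, hh, he']
        exact (g2 b' hb').1
    · rcases C i' hi' with ⟨a', ha', he', hc'⟩ | ⟨b', hb', he', hc'⟩
      · exfalso
        apply hdis a' ha'
        rw [← he', ← hh, he]
        exact (g2 b hb).1
      · rw [he, he'] at hh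
        have := g3 _ _ hb hb' hh
        omega

end Pool.Agent.Work.MP_a5655b_lc
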