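import Mathlib

/-!
# Supereulerian 2-edge-coloured complete split graphs: definitions

A 2-edge-coloured graph on `V` is given by `χ : Sym2 V → ℤ`, with `χ e = 1` for the red edges,
`χ e = -1` for the blue edges and `χ e = 0` for the pairs that are no edges. Sets of edges are
finsets `H : Finset (Sym2 V)`.
-/

set_option autoImplicit false
set_option linter.unusedSectionVars false

namespace Pool.Agent.Work.MP_a5655b_lc

variable {V : Type} [Fintype V] [DecidableEq V]

/-- `u` and `v` are joined by a path of `H`. -/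
def Conn (H : Finset (Sym2 V)) (u v : V) : Prop :=
  Relation.ReflTransGen (fun x y => s(x, y) ∈ H) u v

/-- The number of red edges minus the number of blue edges of `H` at `v`. -/
def bal (χ : Sym2 V → ℤ) (H : Finset (Sym2 V)) (v : V) : ℤ :=
  ∑ e ∈ H, if v ∈ e then χ e else 0

/-- A complete multipartite graph whose parts are `P` and single vertices. -/
structure Split (χ : Sym2 V → ℤ) (P : Set V) : Prop where
  val : ∀ e, χ e = 1 ∨ χ e = -1 ∨ χ e = 0
  diag : ∀ v, χ s(v, v) = 0
  ind : ∀ u ∈ P, ∀ v ∈ P, χ s(u, v) = 0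
  full : ∀ u v, u ≠ v → ¬ (u ∈ P ∧ v ∈ P) → χ s(u, v) ≠ 0

/-- The edge set of an eulerian factor: every vertex has as many red as blue edges, and at least
one edge (hence at least one of each colour). -/
structure Factor (χ : Sym2 V → ℤ) (H : Finset (Sym2 V)) : Prop where
  edge : ∀ e ∈ H, χ e ≠ 0
  bal : ∀ v, bal χ H v = 0
  cov : ∀ v, ∃ e ∈ H, v ∈ e

/-- There is a factor that joins everything that `H` joins, and joins `u` and `v`. -/
def Merge (χ : Sym2 V → ℤ) (H : Finset (Sym2 V)) (u v : V) : Prop :=
  ∃ H' : Finset (Sym2 V), Factor χ H' ∧ (∀ x y, Conn H x y → Conn H' x y) ∧ Conn H' u v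

/-- There is a factor with fewer components, all of which are unions of components of `H`. -/
def Better (χ : Sym2 V → ℤ) (H : Finset (Sym2 V)) : Prop :=
  ∃ u v, ¬ Conn H u v ∧ Merge χ H u v

/-- The residual colour of an edge: the colour of the edges that are not in `H`, the other colour
for the edges of `H`. -/
def rho (χ : Sym2 V → ℤ) (H : Finset (Sym2 V)) (e : Sym2 V) : ℤ := if e ∈ H then -χ e else χ e

/-- At least two red edges of `H` at `v`. -/
def Deg2 (χ : Sym2 V → ℤ) (H : Finset (Sym2 V)) (v : V) : Prop :=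
  2 ≤ (Finset.univ.filter fun z => s(v, z) ∈ H ∧ χ s(v, z) = 1).card

/-- A state of a residual walk: the present vertex, the residual colour of the last edge, and
whether the last edge is in `H`. -/
abbrev St (V : Type) := V × ℤ × Bool

/-- A step of a residual walk: the residual colours alternate, and two edges of `H` may follow
each other only at a vertex with two red edges of `H`. -/
def Step (χ : Sym2 V → ℤ) (H : Finset (Sym2 V)) (x y : St V) : Prop :=
  χ s(x.1, y.1) ≠ 0 ∧ y.2.1 = -x.2.1 ∧ rho χ H s(x.1, y.1) = y.2.1 ∧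
    (y.2.2 = true ↔ s(x.1, y.1) ∈ H) ∧ (x.2.2 = true → y.2.2 = true → Deg2 χ H x.1)

/-- Residual walks with `n` steps. -/
def Path (χ : Sym2 V → ℤ) (H : Finset (Sym2 V)) : ℕ → St V → St V → Prop
  | 0, x, y => x = y
  | n + 1, x, y => ∃ z, Step χ H x z ∧ Path χ H n z y

/-- There is a closed residual walk with `n + 1` edges, one of which joins two components of `H`
(the edge `uv`; the residual walk goes back from `v` to `u` with `n` steps). -/
def CW (χ : Sym2 V → ℤ) (H : Finset (Sym2 V)) (n : ℕ) : Prop :=
  ∃ u v f, ¬ Conn H u v ∧ χ s(u, v) ≠ 0 ∧ Path χ H n (v, χ s(u, v), false) (u, -χ s(u, v), f)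

/-- A periodic residual walk of period `N` whose first edge joins two components of `H`. -/
structure Walk (χ : Sym2 V → ℤ) (H : Finset (Sym2 V)) (N : ℕ) (y : ℕ → St V) : Prop where
  step : ∀ i, Step χ H (y i) (y (i + 1))
  per : ∀ i, y (i + N) = y i
  cross : ¬ Conn H (y 0).1 (y 1).1

/-- The configuration at a component-minimal factor: `x` has the red edge `xa` and the blue edge
`xc` in `H`, and `w`, in another component, has the red edge `wa` and the blue edge `wc`. -/
structure Bad (χ : Sym2 V → ℤ) (H : Finset (Sym2 V)) (w x a c : V) : Prop where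
  xa : s(x, a) ∈ H
  xc : s(x, c) ∈ H
  cxa : χ s(x, a) = 1
  cxc : χ s(x, c) = -1
  cwa : χ s(w, a) = 1
  cwc : χ s(w, c) = -1
  sep : ¬ Conn H w x

/-- `H` without the edges `xa` and `xc`. -/
def cut2 (H : Finset (Sym2 V)) (x a c : V) : Finset (Sym2 V) := (H.erase s(x, a)).erase s(x, c)

/-- `H` with the edges `xa` and `xc` replaced by `wa` and `wc`. -/
def swap2 (H : Finset (Sym2 V)) (w x a c : V) : Finset (Sym2 V) :=
  insert s(w, a) (insert s(w, c) (cut2 H x a c))

/-- The bad configuration in which the exchange of `xa, xc` for `wa, wc` gives no merging: `x` is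
separated from `a` and `c` by removing `xa` and `xc`. -/
structure BadX (χ : Sym2 V → ℤ) (H : Finset (Sym2 V)) (w x a c : V) : Prop extends
    Bad χ H w x a c where
  na : ¬ Conn (cut2 H x a c) x a
  nc : ¬ Conn (cut2 H x a c) x c
  more : ∃ z, s(x, z) ∈ cut2 H x a c

/-! ### Simple facts -/

section basic

variable {χ : Sym2 V → ℤ} {H H' : Finset (Sym2 V)} {P : Set V} {u v w : V}

theorem Conn.refl (u : V) : Conn H u u := Relation.ReflTransGen.refl

theorem Conn.symm (h : Conn H u v) : Conn H v u := by
  induction h with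
  | refl => exact Conn.refl _
  | tail _ hbc ih =>
    refine Relation.ReflTransGen.head ?_ ih
    rwa [Sym2.eq_swap]

theorem Conn.trans (h : Conn H u v) (h' : Conn H v w) : Conn H u w :=
  Relation.ReflTransGen.trans h h'

theorem Conn.of_mem (h : s(u, v) ∈ H) : Conn H u v := Relation.ReflTransGen.single h

theorem Conn.of_mem' (h : s(u, v) ∈ H) : Conn H v u := (Conn.of_mem h).symm

/-- If all edges of `H` are joined in `H'`, everything that `H` joins is joined in `H'`. -/
theorem Conn.mono (h : ∀ x y, s(x, y) ∈ H → Conn H' x y) (huv : Conn H u v) : Conn H' u v := by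
  induction huv with
  | refl => exact Conn.refl _
  | tail _ hbc ih => exact ih.trans (h _ _ hbc)

theorem Conn.sub (h : H ⊆ H') (huv : Conn H u v) : Conn H' u v :=
  huv.mono fun _ _ hxy => Conn.of_mem (h hxy)

theorem Split.ne (hS : Split χ P) (h : χ s(u, v) ≠ 0) : u ≠ v := by
  rintro rfl
  exact h (hS.diag _)

/-- The edges at a vertex of `P` go to vertices outside `P`. -/
theorem Split.notP (hS : Split χ P) (h : χ s(u, v) ≠ 0) (hu : u ∈ P) : v ∉ P :=
  fun hv => h (hS.ind u hu v hv)

/-- A vertex in another component that is not in `P` is joined to everything. -/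
theorem Split.cross (hS : Split χ P) (hc : ¬ Conn H u v) (h : u ∉ P ∨ v ∉ P) :
    χ s(u, v) = 1 ∨ χ s(u, v) = -1 := by
  have hne : u ≠ v := by
    rintro rfl
    exact hc (Conn.refl _)
  have h0 := hS.full u v hne (fun hh => h.elim (fun h => h hh.1) (fun h => h hh.2))
  rcases hS.val s(u, v) with h1 | h1 | h1
  · exact Or.inl h1
  · exact Or.inr h1
  · exact absurd h1 h0

theorem Split.neg (hS : Split χ P) : Split (fun e => -χ e) P where
  val e := by
    rcases hS.val e with h | h | h
    · right; left; rw [h]
    · left; rw [h]; rfl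
    · right; right; rw [h]; rfl
  diag v := by rw [hS.diag]; rfl
  ind u hu v hv := by rw [hS.ind u hu v hv]; rfl
  full u v huv h := by
    rw [Ne, neg_eq_zero]
    exact hS.full u v huv h

theorem bal_neg (v : V) : bal (fun e => -χ e) H v = -bal χ H v := by
  unfold bal
  rw [← Finset.sum_neg_distrib]
  refine Finset.sum_congr rfl fun e _ => ?_
  split_ifs
  · rfl
  · rfl

theorem Factor.neg (hH : Factor χ H) : Factor (fun e => -χ e) H where
  edge e he := by
    rw [Ne, neg_eq_zero]
    exact hH.edge e he
  bal v := by rw [bal_neg, hH.bal, neg_zero]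
  cov := hH.cov

theorem Factor.of_neg (hH : Factor (fun e => -χ e) H) : Factor χ H := by
  have h := hH.neg
  simpa using h

theorem Merge.of_neg (h : Merge (fun e => -χ e) H u v) : Merge χ H u v := by
  obtain ⟨H', h1, h2, h3⟩ := h
  exact ⟨H', h1.of_neg, h2, h3⟩

theorem Merge.symm (h : Merge χ H u v) : Merge χ H v u := by
  obtain ⟨H', h1, h2, h3⟩ := h
  exact ⟨H', h1, h2, h3.symm⟩

theorem Merge.trans' {a b : V} (h : Merge χ H u v) (ha : Conn H a u) (hb : Conn H v b) :
    Merge χ H a b := by
  obtain ⟨H', h1, h2, h3⟩ := h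
  exact ⟨H', h1, h2, ((h2 _ _ ha).trans h3).trans (h2 _ _ hb)⟩

end basic

end Pool.Agent.Work.MP_a5655b_lc
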