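import Pool.Agent.Work.MP_a5655b_lc.TrailDefs

/-!
# Module EFToF

The edge set of an eulerian factor is balanced.

Proof of `factor_of_eulerian`. Let `ι, m, f` be as in `EulerianFactor`, `F` the set of the edges.
`H := F.toFinset` (classical; `Sym2 V` is finite). The edges of `F` are red or blue, so `chi ≠ 0`.
Covering: `v = f i j`, `j < m i`, is on the edge `s(f i j, f i (j+1))`. Balance at `v`: let `i` be the
unique index of `v`. An edge `s(f i' j, f i' (j+1))` that contains `v` has `i' = i` (its ends are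
vertices of the trail `i'`: `f i' (j+1)` is `f i' (j+1)` with `j + 1 < m i'`, or `f i' 0`). The edges
`e_j = s(f i j, f i (j+1))`, `j < m = m i`, are distinct (`trail`), so
`bal = ∑_{j<m} [v ∈ e_j] χ(e_j) = ∑_{j<m} χ(e_j) ([v = f j] + [v = f (j+1)])`
`= ∑_{j<m} [v = f j] (χ(e_j) + χ(e_(j-1)))` (cyclically, as `f m = f 0`) `= 0`, because consecutive
edges have opposite colours (`alt`, `last`, with `hRB`: an edge of the trail is red iff it is not
blue, so `R.Adj` of `e_j` iff `B.Adj` of `e_(j+1)` gives `χ(e_(j+1)) = -χ(e_j)`).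
(`f j ≠ f (j+1)` since graphs have no loops.) It may be easiest to write the sum over `range m` and to
use `Finset.sum_range_succ'`/`Finset.sum_range_succ` for the cyclic shift.

Proof of `supereulerian_factor`: the single trail (`ι = Unit`) is an eulerian factor: every vertex is
on it.

Proof of `split_chi`: `P = {v | ∃ u ≠ v, part u = part v}`. Two different vertices `u, v` of `P` are in
parts with two vertices, so `part u = part v`, so they are not adjacent and `chi = 0`; if not both
`u, v ∈ P` and `u ≠ v`, then `part u ≠ part v`, so they are adjacent and `chi = 1` or `-1`.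
-/

set_option autoImplicit false
set_option linter.unusedSectionVars false

namespace Pool.Agent.Work.MP_a5655b_lc

variable {V : Type} [Fintype V] [DecidableEq V] {R B : SimpleGraph V}

theorem chi_one_iff {u v : V} : chi R B s(u, v) = 1 ↔ R.Adj u v := by
  unfold chi
  by_cases hR : R.Adj u v
  · have h1 : s(u, v) ∈ R.edgeSet := hR
    rw [if_pos h1]
    exact ⟨fun _ => hR, fun _ => rfl⟩
  · have h1 : s(u, v) ∉ R.edgeSet := hR
    rw [if_neg h1]
    constructor
    · intro h
      split_ifs at h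
      all_goals norm_num at h
    · intro h
      exact absurd h hR

theorem chi_neg_one_iff (hRB : ∀ u v, R.Adj u v → ¬ B.Adj u v) {u v : V} :
    chi R B s(u, v) = -1 ↔ B.Adj u v := by
  unfold chi
  by_cases hR : R.Adj u v
  · have h1 : s(u, v) ∈ R.edgeSet := hR
    rw [if_pos h1]
    constructor
    · intro h
      norm_num at h
    · intro h
      exact absurd h (hRB u v hR)
  · have h1 : s(u, v) ∉ R.edgeSet := hR
    rw [if_neg h1]
    by_cases hB : B.Adj u v
    · have h2 : s(u, v) ∈ B.edgeSet := hB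
      rw [if_pos h2]
      exact ⟨fun _ => hB, fun _ => rfl⟩
    · have h2 : s(u, v) ∉ B.edgeSet := hB
      rw [if_neg h2]
      constructor
      · intro h
        norm_num at h
      · intro h
        exact absurd h hB

private theorem chi_zero45 {u v : V} (h1 : ¬ R.Adj u v) (h2 : ¬ B.Adj u v) :
    chi R B s(u, v) = 0 := by
  unfold chi
  have h3 : s(u, v) ∉ R.edgeSet := h1
  have h4 : s(u, v) ∉ B.edgeSet := h2
  rw [if_neg h3, if_neg h4]

private theorem trail_alt45 (hRB : ∀ u v, R.Adj u v → ¬ B.Adj u v) {a b c d : V}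
    (h1 : R.Adj a b ∨ B.Adj a b) (h2 : R.Adj c d ∨ B.Adj c d) (h : R.Adj a b ↔ B.Adj c d) :
    chi R B s(c, d) = -chi R B s(a, b) := by
  rcases h1 with h1 | h1
  · rw [chi_one_iff.2 h1, (chi_neg_one_iff hRB).2 (h.1 h1)]
  · have h3 : ¬ R.Adj a b := fun hh => hRB _ _ hh h1
    have h4 : ¬ B.Adj c d := fun hh => h3 (h.2 hh)
    have h5 : R.Adj c d := h2.resolve_right h4
    rw [chi_one_iff.2 h5, (chi_neg_one_iff hRB).2 h1]
    norm_num

private theorem trail_bal45 (hRB : ∀ u v, R.Adj u v → ¬ B.Adj u v) {m : ℕ} {f : ℕ → V}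
    (h : IsClosedAltTrail R B m f) (v : V) :
    ∑ j ∈ Finset.range m, (if v ∈ s(f j, f (j + 1)) then chi R B s(f j, f (j + 1)) else 0) = 0 := by
  obtain ⟨n, rfl⟩ : ∃ n, m = n + 1 := ⟨m - 1, by have := h.pos; omega⟩
  have hne : ∀ j < n + 1, f j ≠ f (j + 1) := by
    intro j hj
    rcases h.adj j hj with h1 | h1
    · exact h1.ne
    · exact h1.ne
  have e1 : ∑ j ∈ Finset.range (n + 1),
      (if v ∈ s(f j, f (j + 1)) then chi R B s(f j, f (j + 1)) else 0) =
      ∑ j ∈ Finset.range (n + 1), ((if v = f j then chi R B s(f j, f (j + 1)) else 0) +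
        (if v = f (j + 1) then chi R B s(f j, f (j + 1)) else 0)) := by
    refine Finset.sum_congr rfl fun j hj => ?_
    rw [Finset.mem_range] at hj
    have hj' := hne j hj
    by_cases h1 : v = f j
    · have h2 : v ≠ f (j + 1) := fun hh => hj' (h1.symm.trans hh)
      rw [if_pos (by rw [Sym2.mem_iff]; exact Or.inl h1), if_pos h1, if_neg h2, add_zero]
    · by_cases h2 : v = f (j + 1)
      · rw [if_pos (by rw [Sym2.mem_iff]; exact Or.inr h2), if_neg h1, if_pos h2, zero_add]
      · rw [if_neg (by rw [Sym2.mem_iff, not_or]; exact ⟨h1, h2⟩), if_neg h1, if_neg h2, add_zero]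
  rw [e1, Finset.sum_add_distrib]
  rw [Finset.sum_range_succ' (fun j => if v = f j then chi R B s(f j, f (j + 1)) else 0) n,
    Finset.sum_range_succ (fun j => if v = f (j + 1) then chi R B s(f j, f (j + 1)) else 0) n]
  have e2 : ∑ j ∈ Finset.range n,
      (if v = f (j + 1) then chi R B s(f (j + 1), f (j + 1 + 1)) else 0) =
      -∑ j ∈ Finset.range n, (if v = f (j + 1) then chi R B s(f j, f (j + 1)) else 0) := by
    rw [← Finset.sum_neg_distrib]
    refine Finset.sum_congr rfl fun j hj => ?_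
    rw [Finset.mem_range] at hj
    have e3 := trail_alt45 hRB (h.adj j (by omega)) (h.adj (j + 1) (by omega))
      (h.alt j (by omega))
    rw [e3]
    split_ifs
    · rfl
    · rfl
  have e4 : chi R B s(f 0, f 1) = -chi R B s(f n, f (n + 1)) := by
    have h1 := h.last
    have h2 : n + 1 - 1 = n := rfl
    rw [h2] at h1
    exact trail_alt45 hRB (h.adj n (by omega)) (h.adj 0 (by omega)) h1
  have e5 : (if v = f 0 then chi R B s(f 0, f (0 + 1)) else 0) =
      -(if v = f (n + 1) then chi R B s(f n, f (n + 1)) else 0) := by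
    rw [h.closed]
    rw [h.closed] at e4
    split_ifs
    · exact e4
    · rfl
  rw [e2, e5]
  ring

theorem factor_of_eulerian (hRB : ∀ u v, R.Adj u v → ¬ B.Adj u v) {F : Set (Sym2 V)}
    (hF : EulerianFactor R B F) :
    ∃ H : Finset (Sym2 V), Factor (chi R B) H ∧ ∀ e, e ∈ H ↔ e ∈ F := by
  classical
  obtain ⟨ι, m, f, hf, hcov, rfl⟩ := hF
  set F : Set (Sym2 V) := {e | ∃ i j, j < m i ∧ e = s(f i j, f i (j + 1))} with hF
  have hfin : F.Finite := Set.toFinite F
  refine ⟨hfin.toFinset, ⟨?_, ?_, ?_⟩, fun e => hfin.mem_toFinset⟩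
  · intro e he
    rw [hfin.mem_toFinset] at he
    obtain ⟨i, j, hj, rfl⟩ := he
    rcases (hf i).adj j hj with h1 | h1
    · rw [chi_one_iff.2 h1]
      norm_num
    · rw [(chi_neg_one_iff hRB).2 h1]
      norm_num
  · intro v
    obtain ⟨i, ⟨j0, hj0, hv⟩, hi⟩ := hcov v
    have hsub : (Finset.range (m i)).image (fun j => s(f i j, f i (j + 1))) ⊆ hfin.toFinset := by
      intro e he
      rw [Finset.mem_image] at he
      obtain ⟨j, hj, rfl⟩ := he
      rw [Finset.mem_range] at hj
      rw [hfin.mem_toFinset]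
      exact ⟨i, j, hj, rfl⟩
    unfold bal
    rw [← Finset.sum_subset hsub, Finset.sum_image]
    · exact trail_bal45 hRB (hf i) v
    · intro j hj k hk hjk
      rw [Finset.mem_coe, Finset.mem_range] at hj hk
      exact (hf i).trail j k hj hk hjk
    · intro e he he'
      rw [hfin.mem_toFinset] at he
      obtain ⟨i', j, hj, rfl⟩ := he
      rw [if_neg]
      intro hve
      apply he'
      have hi' : i' = i := by
        apply hi
        rw [Sym2.mem_iff] at hve
        rcases hve with h1 | h1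
        · exact ⟨j, hj, h1.symm⟩
        · by_cases h2 : j + 1 < m i'
          · exact ⟨j + 1, h2, h1.symm⟩
          · have h3 : j + 1 = m i' := by omega
            rw [h3, (hf i').closed] at h1
            exact ⟨0, (hf i').pos, h1.symm⟩
      subst hi'
      rw [Finset.mem_image]
      exact ⟨j, Finset.mem_range.2 hj, rfl⟩
  · intro v
    obtain ⟨i, ⟨j0, hj0, hv⟩, hi⟩ := hcov v
    refine ⟨s(f i j0, f i (j0 + 1)), ?_, ?_⟩
    · rw [hfin.mem_toFinset]
      exact ⟨i, j0, hj0, rfl⟩
    · rw [Sym2.mem_iff]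
      exact Or.inl hv.symm

theorem supereulerian_factor {m : ℕ} {f : ℕ → V} (h : IsClosedAltTrail R B m f)
    (hv : ∀ v, ∃ i < m, f i = v) :
    EulerianFactor R B {e | ∃ j, j < m ∧ e = s(f j, f (j + 1))} := by
  refine ⟨Unit, fun _ => m, fun _ => f, fun _ => h, ?_, ?_⟩
  · intro v
    obtain ⟨i, hi, hiv⟩ := hv v
    exact ⟨(), ⟨i, hi, hiv⟩, fun _ _ => rfl⟩
  · ext e
    constructor
    · rintro ⟨j, hj, he⟩
      exact ⟨(), j, hj, he⟩
    · rintro ⟨_, j, hj, he⟩
      exact ⟨j, hj, he⟩

theorem split_chi (h : OneBigPart R B) : ∃ P : Set V, Split (chi R B) P := by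
  obtain ⟨hRB, part, h1, h2⟩ := h
  have hd : ∀ v, chi R B s(v, v) = 0 := fun v => chi_zero45 (by simp) (by simp)
  refine ⟨{v | ∃ u, u ≠ v ∧ part u = part v}, ⟨?_, hd, ?_, ?_⟩⟩
  · intro e
    unfold chi
    split_ifs
    · exact Or.inl rfl
    · exact Or.inr (Or.inl rfl)
    · exact Or.inr (Or.inr rfl)
  · rintro u ⟨u', hu, hu'⟩ v ⟨v', hv, hv'⟩
    have h3 : part u = part v := by
      rw [← hu', ← hv']
      exact h2 u' u v' v hu hu' hv hv'
    have h4 : ¬ (R.Adj u v ∨ B.Adj u v) := fun hh => (h1 u v).1 hh h3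
    rw [not_or] at h4
    exact chi_zero45 h4.1 h4.2
  · intro u v huv hP
    have h3 : part u ≠ part v := by
      intro hh
      exact hP ⟨⟨v, huv.symm, hh.symm⟩, ⟨u, huv, hh⟩⟩
    rcases (h1 u v).2 h3 with h4 | h4
    · rw [chi_one_iff.2 h4]
      norm_num
    · rw [(chi_neg_one_iff hRB).2 h4]
      norm_num

end Pool.Agent.Work.MP_a5655b_lc
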