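import Pool.Agent.Work.MP_a5655b_lc.CTex
import Pool.Agent.Work.MP_a5655b_lc.CTjoin
import Pool.Agent.Work.MP_a5655b_lc.EFToF

/-!
# Module Euler

Kotzig's theorem: a connected factor is a closed alternating trail through all vertices.

Proof of `exists_full`. By `exists_ct` (with `F = H`) there is a `CT χ H k f`; `2k ≤ H.card` because the
edges are distinct; take one with `k` maximal, `T` the finset of its edges (the image of
`range (2k)`), `F = H \ T`. Every vertex has balance `0` in `T` (telescoping sum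
`∑_{i<2k} (-1)^i ([v = f i] + [v = f(i+1)]) = 0`), so in `F` (`bal χ H = bal χ F + bal χ T`). Suppose
`F` is not empty, `s(p,q) ∈ F`. There is an edge of `F` with an end `v` on the trail: otherwise `p` is
not on the trail, and on a path of `H` from `f 0` to `p` there is an edge `s(x,y)` with `x` on the
trail and `y` not; it is not in `T` (both ends of the edges of `T` are on the trail), so it is in
`F`, contradiction. `exists_ct` for `F` gives `CT χ F k' g` with `g 0 = v = f j`, and `ct_join` a
`CT χ H (k+k') h`, contradiction to the maximality. So `F` is empty.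

Proof of `trail_of_factor`: the `CT` of `exists_full` with `m = 2k`: adjacency and colours by
`chi_one_iff`, `chi_neg_one_iff`; `alt`: `χ = (-1)^i` and `(-1)^(i+1)`; `last`: the last edge has index
`2k-1` (blue, not red), the first edge is red, not blue. Every vertex is on an edge of `H`
(`Factor.cov`), so on the trail.
-/

set_option autoImplicit false
set_option linter.unusedSectionVars false

namespace Pool.Agent.Work.MP_a5655b_lc

variable {V : Type} [Fintype V] [DecidableEq V] {R B : SimpleGraph V}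

/-- The telescoping sum for the balance of an alternating trail. -/
private theorem tele45' {χ : Sym2 V → ℤ} {F : Finset (Sym2 V)} (hl : ∀ v, s(v, v) ∉ F) {m : ℕ}
    {f : ℕ → V} (h : ∀ i < m, s(f i, f (i + 1)) ∈ F ∧ χ s(f i, f (i + 1)) = (-1) ^ i)
    (hinj : ∀ i j, i < m → j < m → s(f i, f (i + 1)) = s(f j, f (j + 1)) → i = j) (z : V) :
    bal χ ((Finset.range m).image fun i => s(f i, f (i + 1))) z =
      (if z = f 0 then 1 else 0) - (-1) ^ m * (if z = f m then 1 else 0) := by
  unfold bal
  rw [Finset.sum_image]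
  · have e1 : ∑ i ∈ Finset.range m, (if z ∈ s(f i, f (i + 1)) then χ s(f i, f (i + 1)) else 0) =
        ∑ i ∈ Finset.range m, ((-1 : ℤ) ^ i * (if z = f i then 1 else 0) -
          (-1) ^ (i + 1) * (if z = f (i + 1) then 1 else 0)) := by
      refine Finset.sum_congr rfl fun i hi => ?_
      rw [Finset.mem_range] at hi
      obtain ⟨h1, h2⟩ := h i hi
      have hne : f i ≠ f (i + 1) := by
        intro hh
        rw [← hh] at h1
        exact hl _ h1
      rw [h2, pow_succ]
      by_cases h3 : z = f i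
      · have h4 : z ≠ f (i + 1) := fun hh => hne (h3.symm.trans hh)
        rw [if_pos (by rw [Sym2.mem_iff]; exact Or.inl h3), if_pos h3, if_neg h4]
        ring
      · by_cases h4 : z = f (i + 1)
        · rw [if_pos (by rw [Sym2.mem_iff]; exact Or.inr h4), if_neg h3, if_pos h4]
          ring
        · rw [if_neg (by rw [Sym2.mem_iff, not_or]; exact ⟨h3, h4⟩), if_neg h3, if_neg h4]
          ring
    rw [e1, Finset.sum_range_sub' (fun i => (-1 : ℤ) ^ i * (if z = f i then 1 else 0)) m]
    simp
  · intro i hi j hj hij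
    rw [Finset.mem_coe, Finset.mem_range] at hi hj
    exact hinj i j hi hj hij

private theorem ct_card45 {χ : Sym2 V → ℤ} {H : Finset (Sym2 V)} {k : ℕ} {f : ℕ → V}
    (h : CT χ H k f) : k ≤ H.card := by
  have h1 : ((Finset.range (2 * k)).image fun i => s(f i, f (i + 1))).card = 2 * k := by
    rw [Finset.card_image_of_injOn, Finset.card_range]
    intro i hi j hj hij
    rw [Finset.mem_coe, Finset.mem_range] at hi hj
    exact h.2.2.2 i j hi hj hij
  have h2 : ((Finset.range (2 * k)).image fun i => s(f i, f (i + 1))).card ≤ H.card := by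
    apply Finset.card_le_card
    intro e he
    rw [Finset.mem_image] at he
    obtain ⟨i, hi, rfl⟩ := he
    exact (h.2.2.1 i (Finset.mem_range.1 hi)).1
  omega

theorem exists_full [Nonempty V] {χ : Sym2 V → ℤ} {H : Finset (Sym2 V)}
    (hl : ∀ v, s(v, v) ∉ H) (hv : ∀ e ∈ H, χ e = 1 ∨ χ e = -1) (hH : Factor χ H)
    (hc : ∀ u v, Conn H u v) : ∃ (k : ℕ) (f : ℕ → V), CT χ H k f ∧
      ∀ e ∈ H, ∃ i < 2 * k, e = s(f i, f (i + 1)) := by
  classical
  obtain ⟨v0⟩ := ‹Nonempty V›
  obtain ⟨k0, f0, hk0, -⟩ := exists_ct hl hv hH.bal (hH.cov v0)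
  let K := Nat.findGreatest (fun k => ∃ f, CT χ H k f) H.card
  have hK : ∃ f, CT χ H K f :=
    Nat.findGreatest_spec (P := fun k => ∃ f, CT χ H k f) (ct_card45 hk0) ⟨f0, hk0⟩
  have hmax : ∀ k f, CT χ H k f → k ≤ K := fun k f h =>
    Nat.le_findGreatest (ct_card45 h) ⟨f, h⟩
  obtain ⟨f, hf⟩ := hK
  refine ⟨K, f, hf, ?_⟩
  set T := (Finset.range (2 * K)).image fun i => s(f i, f (i + 1)) with hT
  have hTm : ∀ e, e ∈ T ↔ ∃ i < 2 * K, e = s(f i, f (i + 1)) := by
    intro e
    rw [hT, Finset.mem_image]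
    constructor
    · rintro ⟨i, hi, rfl⟩
      exact ⟨i, Finset.mem_range.1 hi, rfl⟩
    · rintro ⟨i, hi, rfl⟩
      exact ⟨i, Finset.mem_range.2 hi, rfl⟩
  have hTH : T ⊆ H := by
    intro e he
    obtain ⟨i, hi, rfl⟩ := (hTm e).1 he
    exact (hf.2.2.1 i hi).1
  have hbT : ∀ v, bal χ T v = 0 := by
    intro v
    have h1 := tele45' hl hf.2.2.1 hf.2.2.2 v
    rw [hT, h1, hf.2.1, pow_mul]
    norm_num
  have hbF : ∀ v, bal χ (H \ T) v = 0 := by
    intro v
    have h1 : bal χ (H \ T) v + bal χ T v = bal χ H v := by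
      unfold bal
      exact Finset.sum_sdiff hTH
    rw [hbT, hH.bal, add_zero] at h1
    exact h1
  have hc' := hc
  by_contra hcc
  push Not at hcc
  obtain ⟨e, heH, he⟩ := hcc
  have heT : e ∉ T := by
    intro h
    obtain ⟨i, hi, h1⟩ := (hTm e).1 h
    exact he i hi h1
  have heF : e ∈ H \ T := Finset.mem_sdiff.2 ⟨heH, heT⟩
  -- there is an edge of `F` at a vertex of the trail
  have hon : ∃ j ≤ 2 * K, ∃ e' ∈ H \ T, f j ∈ e' := by
    obtain ⟨p, q⟩ := e
    have key : ∀ x, Conn H (f 0) x → (∃ j ≤ 2 * K, x = f j) ∨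
        ∃ j ≤ 2 * K, ∃ e' ∈ H \ T, f j ∈ e' := by
      intro x hx
      induction hx with
      | refl => exact Or.inl ⟨0, by omega, rfl⟩
      | @tail b c _ hbc ih =>
        rcases ih with ⟨j, hj, hb⟩ | h
        · by_cases h1 : s(b, c) ∈ T
          · left
            obtain ⟨i, hi, h2⟩ := (hTm _).1 h1
            have h3 : c ∈ s(f i, f (i + 1)) := by
              rw [← h2]
              exact Sym2.mem_mk_right b c
            rw [Sym2.mem_iff] at h3
            rcases h3 with h3 | h3
            · exact ⟨i, by omega, h3⟩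
            · exact ⟨i + 1, by omega, h3⟩
          · right
            refine ⟨j, hj, s(b, c), Finset.mem_sdiff.2 ⟨hbc, h1⟩, ?_⟩
            rw [← hb]
            exact Sym2.mem_mk_left b c
        · exact Or.inr h
    rcases key p (hc' (f 0) p) with ⟨j, hj, hp⟩ | h
    · refine ⟨j, hj, _, heF, ?_⟩
      rw [← hp]
      exact Sym2.mem_mk_left p q
    · exact h
  obtain ⟨j, hj, e', he', hje⟩ := hon
  obtain ⟨k', g, hg, hg0⟩ := exists_ct (F := H \ T)
    (fun v h => hl v (Finset.mem_sdiff.1 h).1) (fun e h => hv e (Finset.mem_sdiff.1 h).1) hbF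
    ⟨e', he', hje⟩
  obtain ⟨h', hh'⟩ := ct_join (H := H) (F := H \ T) Finset.sdiff_subset hf (by
    intro i hi h
    exact (Finset.mem_sdiff.1 h).2 ((hTm _).2 ⟨i, hi, rfl⟩)) hg hj hg0
  have h1 := hmax _ _ hh'
  have h2 := hg.1
  omega

theorem trail_of_factor [Nonempty V] (hRB : ∀ u v, R.Adj u v → ¬ B.Adj u v)
    {H : Finset (Sym2 V)} (hH : Factor (chi R B) H) (hc : ∀ u v, Conn H u v) :
    Supereulerian R B := by
  have hd : ∀ v, chi R B s(v, v) = 0 := by
    intro v
    unfold chi
    rw [if_neg, if_neg]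
    · intro h
      exact B.loopless.irrefl v h
    · intro h
      exact R.loopless.irrefl v h
  have hl : ∀ v, s(v, v) ∉ H := fun v h => hH.edge _ h (hd v)
  have hv : ∀ e ∈ H, chi R B e = 1 ∨ chi R B e = -1 := by
    intro e he
    have h1 := hH.edge e he
    unfold chi at h1 ⊢
    split_ifs at h1 ⊢
    · exact Or.inl rfl
    · exact Or.inr rfl
    · exact absurd rfl h1
  obtain ⟨k, f, hf, hcov⟩ := exists_full hl hv hH hc
  obtain ⟨hk, hcl, hadj, hinj⟩ := hf
  have hR : ∀ i < 2 * k, (R.Adj (f i) (f (i + 1)) ↔ i % 2 = 0) := by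
    intro i hi
    rw [← chi_one_iff (R := R) (B := B), (hadj i hi).2]
    rcases Nat.even_or_odd i with he | ho
    · rw [he.neg_one_pow]
      exact ⟨fun _ => Nat.even_iff.1 he, fun _ => rfl⟩
    · rw [ho.neg_one_pow]
      constructor
      · intro h
        norm_num at h
      · intro h
        have := Nat.odd_iff.1 ho
        omega
  have hB : ∀ i < 2 * k, (B.Adj (f i) (f (i + 1)) ↔ i % 2 = 1) := by
    intro i hi
    rw [← chi_neg_one_iff hRB, (hadj i hi).2]
    rcases Nat.even_or_odd i with he | ho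
    · rw [he.neg_one_pow]
      constructor
      · intro h
        norm_num at h
      · intro h
        have := Nat.even_iff.1 he
        omega
    · rw [ho.neg_one_pow]
      exact ⟨fun _ => Nat.odd_iff.1 ho, fun _ => rfl⟩
  refine ⟨2 * k, f, ⟨by omega, hcl, ?_, ?_, ?_, hinj⟩, ?_⟩
  · intro i hi
    rw [hR i hi, hB i hi]
    omega
  · intro i hi
    rw [hR i (by omega)]
    have := hB (i + 1) hi
    rw [show i + 2 = i + 1 + 1 from rfl, this]
    omega
  · have e1 : 2 * k = 2 * k - 1 + 1 := by omega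
    have h1 := hR (2 * k - 1) (by omega)
    rw [← e1] at h1
    have h2 := hB 0 (by omega)
    rw [zero_add] at h2
    rw [h1, h2]
    omega
  · intro v
    obtain ⟨e, he, hve⟩ := hH.cov v
    obtain ⟨i, hi, rfl⟩ := hcov e he
    rw [Sym2.mem_iff] at hve
    rcases hve with h1 | h1
    · exact ⟨i, hi, h1.symm⟩
    · by_cases h2 : i + 1 < 2 * k
      · exact ⟨i + 1, h2, h1.symm⟩
      · refine ⟨0, by omega, ?_⟩
        have h3 : i + 1 = 2 * k := by omega
        rw [h3, hcl] at h1
        exact h1.symm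

end Pool.Agent.Work.MP_a5655b_lc
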