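import Pool.Agent.Work.MP_a5655b_lc.Exch

/-!
# Module Ex4

The exchange along a closed residual walk with four edges.

Proof. All `χ e ≠ 0` for the four edges, because `rho χ H e = ± χ e` is `t` or `-t`, not `0`; so
`a ≠ b`, `b ≠ c`, `c ≠ d`, `d ≠ a` by `hd`. The four edges are pairwise distinct: consecutive ones
have different values of `rho` (`t ≠ -t` because `t ≠ 0`); if `s(a,b) = s(c,d)`, then either `a = c`,
so `s(a,b) = s(b,c)`, which have different `rho`, or `b = c`, impossible; likewise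
`s(b,c) ≠ s(d,a)`. So the sum over the finset `D` is the sum of the four summands. With
`[v ∈ s(p,q)] = [v = p] + [v = q]` for `p ≠ q` it is
`t([v=a]+[v=b]) - t([v=b]+[v=c]) + t([v=c]+[v=d]) - t([v=d]+[v=a]) = 0`. Apply `factor_exch`.

Hint: prove first a lemma `(if v ∈ s(p,q) then r else 0) = (if v = p then r else 0) + (if v = q
then r else 0)` for `p ≠ q`.
-/

set_option autoImplicit false
set_option linter.unusedSectionVars false

namespace Pool.Agent.Work.MP_a5655b_lc

variable {V : Type} [Fintype V] [DecidableEq V]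

private theorem mem_split {p q : V} (hpq : p ≠ q) (v : V) (r : ℤ) :
    (if v ∈ s(p, q) then r else 0) =
      r * ((if v = p then 1 else 0) + (if v = q then 1 else 0)) := by
  by_cases h1 : v = p
  · have h2 : v ≠ q := fun h => hpq (h1.symm.trans h)
    rw [if_pos h1, if_neg h2, if_pos (by rw [h1]; simp)]
    ring
  · by_cases h2 : v = q
    · rw [if_neg h1, if_pos h2, if_pos (by rw [h2]; simp)]
      ring
    · rw [if_neg h1, if_neg h2, if_neg]
      · ring
      · rw [Sym2.mem_iff]
        rintro (h | h)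
        · exact h1 h
        · exact h2 h

private theorem chi_ne {χ : Sym2 V → ℤ} {H : Finset (Sym2 V)} {e : Sym2 V} {r : ℤ}
    (h : rho χ H e = r) (hr : r ≠ 0) : χ e ≠ 0 := by
  intro h0
  unfold rho at h
  rw [h0, neg_zero, ite_self] at h
  exact hr h.symm

private theorem ne_of_chi {χ : Sym2 V → ℤ} (hd : ∀ v, χ s(v, v) = 0) {p q : V}
    (h : χ s(p, q) ≠ 0) : p ≠ q := by
  rintro rfl
  exact h (hd _)

private theorem rho_ne {χ : Sym2 V → ℤ} {H : Finset (Sym2 V)} {e f : Sym2 V} {r s : ℤ}
    (he : rho χ H e = r) (hf : rho χ H f = s) (hrs : r ≠ s) : e ≠ f := by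
  rintro rfl
  exact hrs (he.symm.trans hf)

private theorem dist2 {χ : Sym2 V → ℤ} {H : Finset (Sym2 V)} {p q r z : V} {t : ℤ}
    {t' : ℤ} (h1 : rho χ H s(p, q) = t) (h2 : rho χ H s(q, r) = t') (htt : t ≠ t')
    (hqr : q ≠ r) : s(p, q) ≠ s(r, z) := by
  intro h
  rw [Sym2.eq_iff] at h
  rcases h with ⟨rfl, -⟩ | ⟨-, h⟩
  · rw [Sym2.eq_swap, h1] at h2
    exact htt h2
  · exact hqr h

/-- The exchange along a closed residual walk with four edges. -/
theorem factor_ex4 {χ : Sym2 V → ℤ} {H : Finset (Sym2 V)} (hd : ∀ v, χ s(v, v) = 0)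
    (hH : Factor χ H) {a b c d : V} {t : ℤ} (ht : t ≠ 0) (h1 : rho χ H s(a, b) = t)
    (h2 : rho χ H s(b, c) = -t) (h3 : rho χ H s(c, d) = t) (h4 : rho χ H s(d, a) = -t)
    (hc : ∀ e ∈ ({s(a, b), s(b, c), s(c, d), s(d, a)} : Finset (Sym2 V)), e ∈ H → ∀ v ∈ e,
      ∃ f ∈ symmDiff H {s(a, b), s(b, c), s(c, d), s(d, a)}, v ∈ f) :
    Factor χ (symmDiff H {s(a, b), s(b, c), s(c, d), s(d, a)}) := by
  have ht' : -t ≠ 0 := neg_ne_zero.2 ht
  have htt : t ≠ -t := fun h => ht (by omega)
  have c1 := chi_ne h1 ht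
  have c2 := chi_ne h2 ht'
  have c3 := chi_ne h3 ht
  have c4 := chi_ne h4 ht'
  have ab := ne_of_chi hd c1
  have bc := ne_of_chi hd c2
  have cd := ne_of_chi hd c3
  have da := ne_of_chi hd c4
  have n12 := rho_ne h1 h2 htt
  have n13 : s(a, b) ≠ s(c, d) := dist2 h1 h2 htt bc
  have n14 := rho_ne h1 h4 htt
  have n23 := rho_ne h2 h3 htt.symm
  have n24 : s(b, c) ≠ s(d, a) := dist2 h2 h3 htt.symm cd
  have n34 := rho_ne h3 h4 htt
  refine factor_exch hH ?_ ?_ hc
  · intro e he
    simp only [Finset.mem_insert, Finset.mem_singleton] at he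
    rcases he with rfl | rfl | rfl | rfl
    · exact c1
    · exact c2
    · exact c3
    · exact c4
  · intro v
    rw [Finset.sum_insert (by
        simp only [Finset.mem_insert, Finset.mem_singleton, not_or]
        exact ⟨n12, n13, n14⟩),
      Finset.sum_insert (by
        simp only [Finset.mem_insert, Finset.mem_singleton, not_or]
        exact ⟨n23, n24⟩),
      Finset.sum_insert (by
        simp only [Finset.mem_singleton]
        exact n34), Finset.sum_singleton, mem_split ab, mem_split bc, mem_split cd,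
      mem_split da, h1, h2, h3, h4]
    ring

end Pool.Agent.Work.MP_a5655b_lc
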