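import Pool.Agent.Work.MP_a5655b_lc.Defs

/-!
# Module Exch

Exchanges: the symmetric difference of a factor `H` and a set `D` of edges.

Proof of `bal_symmDiff`. The summand of an edge `e` in `bal χ (symmDiff H D) v` is
`[e ∈ H \ D] + [e ∈ D \ H]` times `[v ∈ e] χ e`. The edges of `D \ H` contribute `+χ e = rho e`, and
replacing `H` by `H \ D` changes the sum by `-χ e = rho e` for every `e ∈ D ∩ H`. (Write all the sums
over `H ∪ D` with `Finset.sum_subset`/indicators, or use `Finset.sum_sdiff`, `Finset.sum_union`.)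

Proof of `factor_exch`. The edges of `symmDiff H D` are edges (`χ e ≠ 0`), the balance is
`0 + 0 = 0` by `bal_symmDiff` and `hb`, and every vertex `v` is covered: take `e ∈ H` with `v ∈ e`;
if `e ∉ D`, then `e ∈ symmDiff H D`, otherwise use `hc`.
-/

set_option autoImplicit false
set_option linter.unusedSectionVars false

namespace Pool.Agent.Work.MP_a5655b_lc

variable {V : Type} [Fintype V] [DecidableEq V]

/-- The balance after an exchange. -/
theorem bal_symmDiff (χ : Sym2 V → ℤ) (H D : Finset (Sym2 V)) (v : V) :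
    bal χ (symmDiff H D) v = bal χ H v + ∑ e ∈ D, if v ∈ e then rho χ H e else 0 := by
  unfold bal
  have e1 : (symmDiff H D) = (H \ D) ∪ (D \ H) := rfl
  rw [e1, Finset.sum_union disjoint_sdiff_sdiff,
    ← Finset.sum_inter_add_sum_sdiff H D (fun e => if v ∈ e then χ e else 0),
    ← Finset.sum_inter_add_sum_sdiff D H (fun e => if v ∈ e then rho χ H e else 0)]
  have e2 : ∑ e ∈ D ∩ H, (if v ∈ e then rho χ H e else 0) =
      -∑ e ∈ H ∩ D, (if v ∈ e then χ e else 0) := by
    rw [Finset.inter_comm D H, ← Finset.sum_neg_distrib]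
    refine Finset.sum_congr rfl fun e he => ?_
    have h1 : e ∈ H := (Finset.mem_inter.1 he).1
    unfold rho
    rw [if_pos h1]
    split_ifs
    · rfl
    · rfl
  have e3 : ∑ e ∈ D \ H, (if v ∈ e then rho χ H e else 0) =
      ∑ e ∈ D \ H, (if v ∈ e then χ e else 0) := by
    refine Finset.sum_congr rfl fun e he => ?_
    have h1 : e ∉ H := (Finset.mem_sdiff.1 he).2
    unfold rho
    rw [if_neg h1]
  rw [e2, e3]
  ring

/-- An exchange that keeps the balance and covers all vertices gives a factor. -/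
theorem factor_exch {χ : Sym2 V → ℤ} {H D : Finset (Sym2 V)} (hH : Factor χ H)
    (hD : ∀ e ∈ D, χ e ≠ 0) (hb : ∀ v, (∑ e ∈ D, if v ∈ e then rho χ H e else 0) = 0)
    (hc : ∀ e ∈ D, e ∈ H → ∀ v ∈ e, ∃ f ∈ symmDiff H D, v ∈ f) : Factor χ (symmDiff H D) := by
  refine ⟨fun e he => ?_, fun v => ?_, fun v => ?_⟩
  · rcases Finset.mem_symmDiff.1 he with h | h
    · exact hH.edge e h.1
    · exact hD e h.1
  · rw [bal_symmDiff, hH.bal, hb, add_zero]
  · obtain ⟨e, he, hv⟩ := hH.cov v
    by_cases h : e ∈ D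
    · exact hc e h he v hv
    · exact ⟨e, Finset.mem_symmDiff.2 (Or.inl ⟨he, h⟩), hv⟩

end Pool.Agent.Work.MP_a5655b_lc
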