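import Pool.Agent.Work.MP_a5655b_lc.Defs

/-!
# Module Per

Elementary facts about residual walks.

* `path_sign`: after `n` steps the sign is multiplied by `(-1)^n` (induction; `Step` flips the sign).
* `path_append`, `path_snoc`: concatenation (induction on the first length).
* `path_unused`: replacing the flag of the start by `false` only removes a condition of the first
  step (the first step uses of the start state the vertex, the sign and, through the last clause,
  the flag; with flag `false` the last clause is void).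
* `walk_path`: induction on `k`.
* `walk_sign_ne`: `rho` of the last edge is the sign, and `rho = ± χ ≠ 0`; for `i = 0` use
  periodicity or that the sign of `y 1` is minus the sign of `y 0`.
* `cw_odd`: the path of `CW χ H n` goes from sign `s` to sign `-s ≠ s` in `n` steps, so
  `(-1)^n = -1`. `n ≠ 1`: the only step would be from `(v, s, false)` to `(u, -s, f)` over the edge
  `vu`, and `rho` of this edge is `χ = s` because it is not in `H` (its ends are not joined), but it
  should be `-s`. So `3 ≤ n`.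
* `cw_walk`: let `(u, v, f)` and the path `z 0 = (v, s, false), ..., z n = (u, -s, f)` be given. Put
  `y 0 = (u, -s, f)` and `y (i+1) = z i` for `i ≤ n` (so `y (n+1) = z n = y 0`), extended with
  period `n + 1`: `y i = z ((i + n) % (n + 1))`. All steps are steps of the path except
  `y 0 → y 1`, i.e. `(u, -s, f) → (v, s, false)`: `χ s(u,v) = s ≠ 0`, the sign flips,
  `rho χ H s(u,v) = s` as `s(u,v) ∉ H`, the flag is `false`.
* `close`: the cross edge is `s(b, a)`, traversed from `b` to `a`: `u := b`, `v := a`; the path from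
  `(a, s, f)` to `(b, s', g)` gives, by `path_unused` (`k ≥ 1` since `k` is odd), a path from
  `(a, s, false)`, and `s' = (-1)^k s = -s` by `path_sign`.
-/

set_option autoImplicit false
set_option linter.unusedSectionVars false

namespace Pool.Agent.Work.MP_a5655b_lc

variable {V : Type} [Fintype V] [DecidableEq V] {χ : Sym2 V → ℤ} {H : Finset (Sym2 V)}

theorem path_sign {n : ℕ} {x y : St V} (h : Path χ H n x y) : y.2.1 = (-1) ^ n * x.2.1 := by
  induction n generalizing x with
  | zero =>
    have h' : x = y := h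
    rw [h']
    ring
  | succ n ih =>
    obtain ⟨z, hs, hp⟩ := h
    rw [ih hp, hs.2.1]
    ring

theorem path_append {m n : ℕ} {x y z : St V} (h : Path χ H m x y) (h' : Path χ H n y z) :
    Path χ H (m + n) x z := by
  induction m generalizing x with
  | zero =>
    have h1 : x = y := h
    rw [h1, Nat.zero_add]
    exact h'
  | succ m ih =>
    obtain ⟨w, hs, hp⟩ := h
    rw [Nat.add_right_comm]
    exact ⟨w, hs, ih hp⟩

theorem path_unused {n : ℕ} {v : V} {s : ℤ} {f : Bool} {y : St V}
    (h : Path χ H (n + 1) (v, s, f) y) : Path χ H (n + 1) (v, s, false) y := by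
  obtain ⟨z, ⟨h1, h2, h3, h4, -⟩, hp⟩ := h
  exact ⟨z, ⟨h1, h2, h3, h4, fun h => absurd h Bool.false_ne_true⟩, hp⟩

theorem walk_path {N : ℕ} {y : ℕ → St V} (hy : Walk χ H N y) (i k : ℕ) :
    Path χ H k (y i) (y (i + k)) := by
  induction k generalizing i with
  | zero => exact rfl
  | succ k ih =>
    refine ⟨y (i + 1), hy.step i, ?_⟩
    have h := ih (i + 1)
    rwa [Nat.add_assoc, Nat.add_comm 1 k] at h

/-- A shifted walk is a walk if its first edge joins two components. -/
theorem walk_shift {N : ℕ} {y : ℕ → St V} (hy : Walk χ H N y) (i : ℕ)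
    (hc : ¬ Conn H (y i).1 (y (i + 1)).1) : Walk χ H N (fun j => y (i + j)) where
  step j := hy.step (i + j)
  per j := by
    rw [← Nat.add_assoc]
    exact hy.per _
  cross := hc

private theorem rho_ne_zero {e : Sym2 V} (h : χ e ≠ 0) : rho χ H e ≠ 0 := by
  unfold rho
  split_ifs
  · exact neg_ne_zero.2 h
  · exact h

theorem walk_sign_ne {N : ℕ} {y : ℕ → St V} (hy : Walk χ H N y) (i : ℕ) : (y i).2.1 ≠ 0 := by
  obtain ⟨h1, h2, h3, -⟩ := hy.step i
  intro h0
  rw [h0, neg_zero] at h2
  rw [h2] at h3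
  exact rho_ne_zero h1 h3

/-- The sign of every state is `1` or `-1`. -/
theorem walk_sign {P : Set V} (hS : Split χ P) {N : ℕ} {y : ℕ → St V} (hy : Walk χ H N y)
    (i : ℕ) : (y i).2.1 = 1 ∨ (y i).2.1 = -1 := by
  obtain ⟨h1, h2, h3, -⟩ := hy.step i
  unfold rho at h3
  rcases hS.val s((y i).1, (y (i + 1)).1) with h | h | h
  · rw [h] at h3
    split_ifs at h3 <;> omega
  · rw [h] at h3
    split_ifs at h3 <;> omega
  · exact absurd h h1

/-- An edge of a walk that joins two components is not in `H`, and its colour is the sign. -/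
theorem walk_cross {N : ℕ} {y : ℕ → St V} (hy : Walk χ H N y) {i : ℕ}
    (hc : ¬ Conn H (y i).1 (y (i + 1)).1) :
    χ s((y i).1, (y (i + 1)).1) = (y (i + 1)).2.1 ∧ (y (i + 1)).2.2 = false := by
  obtain ⟨-, -, h3, h4, -⟩ := hy.step i
  have hn : s((y i).1, (y (i + 1)).1) ∉ H := fun h => hc (Conn.of_mem h)
  constructor
  · unfold rho at h3
    rwa [if_neg hn] at h3
  · rw [← Bool.not_eq_true]
    exact fun h => hn (h4.1 h)

theorem cw_odd {n : ℕ} (h : CW χ H n) : Odd n ∧ 3 ≤ n := by
  obtain ⟨u, v, f, hc, hne, hp⟩ := h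
  have hsg := path_sign hp
  have hodd : Odd n := by
    rcases Nat.even_or_odd n with he | ho
    · exfalso
      rw [he.neg_one_pow, one_mul] at hsg
      have : -χ s(u, v) = χ s(u, v) := hsg
      apply hne
      omega
    · exact ho
  refine ⟨hodd, ?_⟩
  by_contra hlt
  have h1 : n = 1 := by
    obtain ⟨k, hk⟩ := hodd
    omega
  subst h1
  obtain ⟨z, ⟨-, -, h3, -⟩, hz⟩ := hp
  have hz' : z = (u, -χ s(u, v), f) := hz
  rw [hz'] at h3
  have hn : s(v, u) ∉ H := fun h => hc (Conn.of_mem' h)
  have h3' : rho χ H s(v, u) = -χ s(u, v) := h3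
  unfold rho at h3'
  rw [if_neg hn, Sym2.eq_swap] at h3'
  apply hne
  omega

private theorem path_seq {n : ℕ} {x y : St V} (h : Path χ H n x y) :
    ∃ z : ℕ → St V, z 0 = x ∧ z n = y ∧ ∀ i < n, Step χ H (z i) (z (i + 1)) := by
  induction n generalizing x with
  | zero => exact ⟨fun _ => x, rfl, h, fun i hi => absurd hi (Nat.not_lt_zero i)⟩
  | succ n ih =>
    obtain ⟨w, hs, hp⟩ := h
    obtain ⟨z, h0, hn, hst⟩ := ih hp
    refine ⟨fun i => Nat.casesOn i x z, rfl, hn, fun i hi => ?_⟩
    cases i with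
    | zero =>
      change Step χ H x (z 0)
      rw [h0]
      exact hs
    | succ i => exact hst i (by omega)

theorem cw_walk {n : ℕ} (h : CW χ H n) : ∃ y : ℕ → St V, Walk χ H (n + 1) y := by
  obtain ⟨u, v, f, hc, hne, hp⟩ := h
  obtain ⟨z, h0, hn, hst⟩ := path_seq hp
  have hlast : Step χ H (z n) (z 0) := by
    rw [h0, hn]
    have hnH : s(u, v) ∉ H := fun h => hc (Conn.of_mem h)
    refine ⟨hne, (neg_neg _).symm, ?_, ?_, fun _ h => absurd h Bool.false_ne_true⟩
    · change rho χ H s(u, v) = χ s(u, v)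
      unfold rho
      rw [if_neg hnH]
    · exact ⟨fun h => absurd h Bool.false_ne_true, fun h => absurd h hnH⟩
  have m0 : (0 + n) % (n + 1) = n := by
    rw [Nat.zero_add]
    exact Nat.mod_eq_of_lt (Nat.lt_succ_self n)
  have m1 : (0 + 1 + n) % (n + 1) = 0 := by
    rw [Nat.zero_add, Nat.add_comm 1 n]
    exact Nat.mod_self _
  refine ⟨fun i => z ((i + n) % (n + 1)), ⟨fun i => ?_, fun i => ?_, ?_⟩⟩
  · have hr : (i + n) % (n + 1) < n + 1 := Nat.mod_lt _ (Nat.succ_pos n)
    have hs : (i + 1 + n) % (n + 1) = ((i + n) % (n + 1) + 1) % (n + 1) := by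
      rw [Nat.mod_add_mod, Nat.add_right_comm]
    rcases Nat.lt_or_ge ((i + n) % (n + 1)) n with h | h
    · rw [hs, Nat.mod_eq_of_lt (by omega : (i + n) % (n + 1) + 1 < n + 1)]
      exact hst _ h
    · have he : (i + n) % (n + 1) = n := by omega
      rw [hs, he, Nat.mod_self]
      exact hlast
  · rw [Nat.add_right_comm, Nat.add_mod_right]
  · change ¬ Conn H (z ((0 + n) % (n + 1))).1 (z ((0 + 1 + n) % (n + 1))).1
    rw [m0, m1, h0, hn]
    exact hc

/-- Closing a path by an edge that joins two components. -/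
theorem close {k : ℕ} {a b : V} {s s' : ℤ} {f g : Bool} (hk : Odd k)
    (hp : Path χ H k (a, s, f) (b, s', g)) (hs : s ≠ 0) (hc : ¬ Conn H a b)
    (hab : χ s(a, b) = s) : CW χ H k := by
  have hs' : s' = -s := by
    have h := path_sign hp
    rw [hk.neg_one_pow] at h
    have h' : s' = -1 * s := h
    rw [h']
    ring
  obtain ⟨m, rfl⟩ : ∃ m, k = m + 1 := by
    obtain ⟨j, hj⟩ := hk
    exact ⟨2 * j, hj⟩
  have hba : χ s(b, a) = s := by rw [Sym2.eq_swap]; exact hab
  refine ⟨b, a, g, fun h => hc h.symm, by rw [hba]; exact hs, ?_⟩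
  rw [hba, ← hs']
  exact path_unused hp

end Pool.Agent.Work.MP_a5655b_lc
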