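import Pool.Agent.Work.MP_a5655b_lc.BadB
import Pool.Agent.Work.MP_a5655b_lc.Per

/-!
# Module Four

A closed residual walk with four edges through an edge that joins two components gives a better
factor.

Proof. Unfold `CW χ H 3`: vertices `v0 = u`, `v1 = v`, `v2`, `v3`, `s = χ s(v0,v1)` (`= 1` or `-1`),
`s(v0,v1) ∉ H`, and the edges `e1 = v1v2`, `e2 = v2v3`, `e3 = v3v0` with `rho = -s, s, -s` and flags
(`true` iff in `H`); `e1, e2` both in `H` implies `Deg2 χ H v2`; `e2, e3` both in `H` implies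
`Deg2 χ H v3`. `e0 = v0v1` has `rho = s`. Let `D = {e0, e1, e2, e3}` and `H' = symmDiff H D`. `e1, e2,
e3` are not all in `H` (`v0`, `v1` are not joined). Cases:
* none in `H`: `factor_ex4` (nothing to cover), `H ⊆ H'`, and `v0 - v1` in `H'`.
* exactly one in `H`, or `e1, e3 ∈ H` and `e2 ∉ H`: `factor_ex4`: every vertex of a removed edge is on a
  new edge. A component contains at most one removed edge (`e1` and `e3` are in the components of
  `v1` and of `v0`), so `conn_exch_mono` applies by `conn_exch_one` and `no_bridge`. `Better` with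
  `v0, v1`.
* `e1, e2 ∈ H`, `e3 ∉ H`: let `x = v2`, `w = v0`. The colours: `χ e1 = s`, `χ e2 = -s`, `χ e3 = -s`,
  `χ e0 = s`. If `s = 1` put `a = v1`, `c = v3`; if `s = -1` put `a = v3`, `c = v1`. Then
  `Bad χ H w x a c`, and `bad_better` gives `Merge χ H w x`.
* `e2, e3 ∈ H`, `e1 ∉ H`: let `x = v3`, `w = v1`; `χ e2 = -s`, `χ e3 = s`, `χ e1 = -s`, `χ e0 = s`. If
  `s = 1` put `a = v0`, `c = v2`, if `s = -1` put `a = v2`, `c = v0`: `Bad χ H w x a c`, `bad_better`.
-/

set_option autoImplicit false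
set_option linter.unusedSectionVars false

namespace Pool.Agent.Work.MP_a5655b_lc

variable {V : Type} [Fintype V] [DecidableEq V] {χ : Sym2 V → ℤ} {H : Finset (Sym2 V)}
  {P : Set V}

theorem four_better (hS : Split χ P) (hH : Factor χ H) (h : CW χ H 3) : Better χ H := by
  obtain ⟨u, v, f, hc, hne, z1, ⟨-, g1, r1, f1, -⟩, z2, ⟨-, g2, r2, f2, d2⟩, z3,
    ⟨-, g3, r3, f3, d3⟩, hz3⟩ := h
  have hz3' : z3 = (u, -χ s(u, v), f) := hz3
  subst hz3'
  obtain ⟨v2, t1, b1⟩ := z1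
  obtain ⟨v3, t2, b2⟩ := z2
  have hs : χ s(u, v) = 1 ∨ χ s(u, v) = -1 := by
    rcases hS.val s(u, v) with h | h | h
    · exact Or.inl h
    · exact Or.inr h
    · exact absurd h hne
  have g1' : t1 = -χ s(u, v) := g1
  have g2' : t2 = χ s(u, v) := by
    have : t2 = -t1 := g2
    rw [this, g1', neg_neg]
  have r1' : rho χ H s(v, v2) = -χ s(u, v) := by rw [← g1']; exact r1
  have r2' : rho χ H s(v2, v3) = χ s(u, v) := by rw [← g2']; exact r2
  have r3' : rho χ H s(v3, u) = -χ s(u, v) := r3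
  have f1' : b1 = true ↔ s(v, v2) ∈ H := f1
  have f2' : b2 = true ↔ s(v2, v3) ∈ H := f2
  have f3' : f = true ↔ s(v3, u) ∈ H := f3
  have D2 : s(v, v2) ∈ H → s(v2, v3) ∈ H → Deg2 χ H v2 := fun h h' =>
    d2 (f1'.2 h) (f2'.2 h')
  have D3 : s(v2, v3) ∈ H → s(v3, u) ∈ H → Deg2 χ H v3 := fun h h' =>
    d3 (f2'.2 h) (f3'.2 h')
  have hn0 : s(u, v) ∉ H := fun h => hc (Conn.of_mem h)
  have chi_in : ∀ {e : Sym2 V} {r : ℤ}, rho χ H e = r → e ∈ H → χ e = -r := by
    intro e r h he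
    unfold rho at h
    rw [if_pos he] at h
    rw [← h, neg_neg]
  have chi_out : ∀ {e : Sym2 V} {r : ℤ}, rho χ H e = r → e ∉ H → χ e = r := by
    intro e r h he
    unfold rho at h
    rwa [if_neg he] at h
  have hl : ∀ v, s(v, v) ∉ H := fun v hv => hH.edge _ hv (hS.diag v)
  have hv : ∀ e ∈ H, χ e = 1 ∨ χ e = -1 := by
    intro e he
    rcases hS.val e with h | h | h
    · exact Or.inl h
    · exact Or.inr h
    · exact absurd h (hH.edge e he)
  by_cases h12 : s(v, v2) ∈ H ∧ s(v2, v3) ∈ H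
  · obtain ⟨h1, h2⟩ := h12
    have hv2 : Conn H v v2 := Conn.of_mem h1
    have hv3 : Conn H v v3 := hv2.trans (Conn.of_mem h2)
    have h3 : s(v3, u) ∉ H := fun h => hc (hv3.trans (Conn.of_mem h)).symm
    have c1 : χ s(v2, v) = χ s(u, v) := by
      rw [Sym2.eq_swap, chi_in r1' h1, neg_neg]
    have c2 : χ s(v2, v3) = -χ s(u, v) := chi_in r2' h2
    have c3 : χ s(u, v3) = -χ s(u, v) := by
      rw [Sym2.eq_swap]
      exact chi_out r3' h3
    have hsep : ¬ Conn H u v2 := fun h => hc (h.trans hv2.symm)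
    have m1 : s(v2, v) ∈ H := by rw [Sym2.eq_swap]; exact h1
    refine ⟨u, v2, hsep, ?_⟩
    rcases hs with hs | hs
    · refine bad_better hS hH (a := v) (c := v3) ?_ (D2 h1 h2)
      exact ⟨m1, h2, by rw [c1, hs], by rw [c2, hs], hs, by rw [c3, hs], hsep⟩
    · refine bad_better hS hH (a := v3) (c := v) ?_ (D2 h1 h2)
      exact ⟨h2, m1, by rw [c2, hs, neg_neg], by rw [c1, hs], by rw [c3, hs, neg_neg], hs, hsep⟩
  by_cases h23 : s(v2, v3) ∈ H ∧ s(v3, u) ∈ H
  · obtain ⟨h2, h3⟩ := h23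
    have h1 : s(v, v2) ∉ H := fun h => h12 ⟨h, h2⟩
    have hv3 : Conn H v3 u := Conn.of_mem h3
    have c1 : χ s(v, v2) = -χ s(u, v) := chi_out r1' h1
    have c2 : χ s(v3, v2) = -χ s(u, v) := by
      rw [Sym2.eq_swap]
      exact chi_in r2' h2
    have c3 : χ s(v3, u) = χ s(u, v) := by
      rw [chi_in r3' h3, neg_neg]
    have c0 : χ s(v, u) = χ s(u, v) := by rw [Sym2.eq_swap]
    have hsep : ¬ Conn H v v3 := fun h => hc (h.trans hv3).symm
    have m2 : s(v3, v2) ∈ H := by rw [Sym2.eq_swap]; exact h2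
    refine ⟨v, v3, hsep, ?_⟩
    rcases hs with hs | hs
    · refine bad_better hS hH (a := u) (c := v2) ?_ (D3 h2 h3)
      exact ⟨h3, m2, by rw [c3, hs], by rw [c2, hs], by rw [c0, hs], by rw [c1, hs], hsep⟩
    · refine bad_better hS hH (a := v2) (c := u) ?_ (D3 h2 h3)
      exact ⟨m2, h3, by rw [c2, hs, neg_neg], by rw [c3, hs], by rw [c1, hs, neg_neg],
        by rw [c0, hs], hsep⟩
  -- no two consecutive removed edges
  have n12 : s(v, v2) ∈ H → s(v2, v3) ∉ H := fun h h' => h12 ⟨h, h'⟩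
  have n23 : s(v2, v3) ∈ H → s(v3, u) ∉ H := fun h h' => h23 ⟨h, h'⟩
  set D : Finset (Sym2 V) := {s(u, v), s(v, v2), s(v2, v3), s(v3, u)} with hD
  have q0 : s(u, v) ∈ D := by rw [hD]; simp
  have q1 : s(v, v2) ∈ D := by rw [hD]; simp
  have q2 : s(v2, v3) ∈ D := by rw [hD]; simp
  have q3 : s(v3, u) ∈ D := by rw [hD]; simp
  have hnew : ∀ e ∈ D, e ∉ H → e ∈ symmDiff H D := fun e he h =>
    Finset.mem_symmDiff.2 (Or.inr ⟨he, h⟩)
  have hDH : ∀ e ∈ D, e ∈ H → e = s(v, v2) ∨ e = s(v2, v3) ∨ e = s(v3, u) := by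
    intro e he heH
    rw [hD] at he
    simp only [Finset.mem_insert, Finset.mem_singleton] at he
    rcases he with h | h | h | h
    · exact absurd (h ▸ heH) hn0
    · exact Or.inl h
    · exact Or.inr (Or.inl h)
    · exact Or.inr (Or.inr h)
  have hF : Factor χ (symmDiff H D) := by
    refine factor_ex4 hS.diag hH hne ?_ r1' r2' r3' ?_
    · unfold rho
      rw [if_neg hn0]
    · intro e he heH p hp
      rcases hDH e he heH with h | h | h
      · have hh : s(v, v2) ∈ H := h ▸ heH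
        rw [h, Sym2.mem_iff] at hp
        rcases hp with rfl | rfl
        · exact ⟨s(u, p), hnew _ q0 hn0, by simp⟩
        · exact ⟨s(p, v3), hnew _ q2 (n12 hh), by simp⟩
      · have hh : s(v2, v3) ∈ H := h ▸ heH
        rw [h, Sym2.mem_iff] at hp
        rcases hp with rfl | rfl
        · exact ⟨s(v, p), hnew _ q1 (fun h' => n12 h' hh), by simp⟩
        · exact ⟨s(p, u), hnew _ q3 (n23 hh), by simp⟩
      · have hh : s(v3, u) ∈ H := h ▸ heH
        rw [h, Sym2.mem_iff] at hp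
        rcases hp with rfl | rfl
        · exact ⟨s(v2, p), hnew _ q2 (fun h' => n23 h' hh), by simp⟩
        · exact ⟨s(p, v), hnew _ q0 hn0, by simp⟩
  have side1 : ∀ p q, s(v, v2) ∈ H → s(p, q) = s(v, v2) → Conn H p v := by
    intro p q h e
    have : p ∈ s(v, v2) := by rw [← e]; simp
    rw [Sym2.mem_iff] at this
    rcases this with rfl | rfl
    · exact Conn.refl _
    · exact Conn.of_mem' h
  have side3 : ∀ p q, s(v3, u) ∈ H → s(p, q) = s(v3, u) → Conn H p u := by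
    intro p q h e
    have : p ∈ s(v3, u) := by rw [← e]; simp
    rw [Sym2.mem_iff] at this
    rcases this with rfl | rfl
    · exact Conn.of_mem h
    · exact Conn.refl _
  have hmono : ∀ p q, Conn H p q → Conn (symmDiff H D) p q := by
    intro p q hpq
    refine conn_exch_mono ?_ hpq
    intro p q hpH hpD
    refine conn_exch_one (a := p) (b := q) (Conn.of_mem hpH)
      (no_bridge hl hv hpH (fun w _ => hH.bal w)) ?_
    intro y z hyH hyD hpy
    rcases hDH _ hpD hpH with e1 | e1 | e1 <;> rcases hDH _ hyD hyH with e2 | e2 | e2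
    · rw [e1, e2]
    · exact absurd (e2 ▸ hyH) (n12 (e1 ▸ hpH))
    · exfalso
      have hh1 : s(v, v2) ∈ H := e1 ▸ hpH
      have hh3 : s(v3, u) ∈ H := e2 ▸ hyH
      exact hc (((side1 p q hh1 e1).symm.trans hpy).trans (side3 y z hh3 e2)).symm
    · exact absurd (e1 ▸ hpH) (n12 (e2 ▸ hyH))
    · rw [e1, e2]
    · exact absurd (e2 ▸ hyH) (n23 (e1 ▸ hpH))
    · exfalso
      have hh1 : s(v, v2) ∈ H := e2 ▸ hyH
      have hh3 : s(v3, u) ∈ H := e1 ▸ hpH
      exact hc ((side3 p q hh3 e1).symm.trans (hpy.trans (side1 y z hh1 e2)))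
    · exact absurd (e1 ▸ hpH) (n23 (e2 ▸ hyH))
    · rw [e1, e2]
  exact ⟨u, v, hc, symmDiff H D, hF, hmono, Conn.of_mem (hnew _ q0 hn0)⟩

end Pool.Agent.Work.MP_a5655b_lc
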