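import Pool.Agent.Work.MP_a5655b_lc.AlgDefs

/-!
# Module GadA

The adjacency of the auxiliary graph. Its vertices are the half-edges `v * n + a` (for `v, a < n`,
all different and smaller than `n * n`), and `n * n + v` and `n * n + n + v` for `v < n`.

Proofs. Unfold `gad`, `gE`, `el`, `nb`, `pairsOf` (`mem_pairsOf`), use `Blossom.ad_iff`,
`List.mem_append`, `List.mem_map`, `List.mem_filter`, `List.mem_flatMap`, `List.mem_range` and
`adjL_iff`. For `v, a, v', a' < n`: `v * n + a = v' * n + a'` iff `v = v'` and `a = a'`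
(`half_inj`), `v * n + a < n * n` (`half_lt`). In `ad_half` the ends are different
because `v ≠ a` for an edge `va` (first case) and because `a ≠ b` as no pair is red and blue
(second case). An edge `va` gives the pair `(v, a)` of `el` if `v < a` and the pair `(a, v)` if
`a < v`; the deleted pair is `q`.
-/

set_option autoImplicit false

namespace Pool.Agent.Work.MP_a5655b_lc

open Pool.Agent.Work.PolyTime
open Pool.Agent.Work.PolyTime.Blossom (Gr pairsOf coverB Ad)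

theorem adjL_iff' {L : List (ℕ × ℕ)} (u v : ℕ) :
    adjL L u v = true ↔ u ≠ v ∧ ((u, v) ∈ L ∨ (v, u) ∈ L) := by
  simp [adjL, memB_iff]

theorem adjL_iff {n : ℕ} {L : List (ℕ × ℕ)} (u v : Fin n) :
    adjL L u v = true ↔ (gr n L).Adj u v := by
  rw [adjL_iff']
  unfold gr
  simp only [ne_eq, Fin.ext_iff]

theorem half_inj' {n v a v' a' : ℕ} (ha : a < n) (ha' : a' < n)
    (h : v * n + a = v' * n + a') : v = v' ∧ a = a' := by
  have h1 : (v * n + a) / n = v := by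
    rw [Nat.mul_comm, Nat.mul_add_div (by omega), Nat.div_eq_of_lt ha, Nat.add_zero]
  have h2 : (v' * n + a') / n = v' := by
    rw [Nat.mul_comm, Nat.mul_add_div (by omega), Nat.div_eq_of_lt ha', Nat.add_zero]
  have h3 : v = v' := by rw [← h1, ← h2, h]
  subst h3
  exact ⟨rfl, by omega⟩

theorem half_inj {n : ℕ} {v a v' a' : Fin n} (h : (v : ℕ) * n + a = (v' : ℕ) * n + a') :
    v = v' ∧ a = a' := by
  obtain ⟨h1, h2⟩ := half_inj' a.2 a'.2 h
  exact ⟨Fin.ext h1, Fin.ext h2⟩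

theorem half_lt' {n v a : ℕ} (hv : v < n) (ha : a < n) : v * n + a < n * n := by
  calc v * n + a < v * n + n := by omega
    _ = (v + 1) * n := by ring
    _ ≤ n * n := Nat.mul_le_mul_right n hv

theorem half_lt {n : ℕ} (v a : Fin n) : (v : ℕ) * n + a < n * n := half_lt' v.2 a.2

/-- The pairs of the auxiliary graph. -/
theorem mem_gE {n : ℕ} {R B : List (ℕ × ℕ)} {q : ℕ × ℕ} {x y : ℕ} :
    (x, y) ∈ gE (n, R, B) q ↔
      (∃ v a : ℕ, v < n ∧ a < n ∧ v < a ∧ (adjL R v a = true ∨ adjL B v a = true) ∧ (v, a) ≠ q ∧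
        x = v * n + a ∧ y = a * n + v) ∨
      (∃ v a b : ℕ, v < n ∧ a < n ∧ b < n ∧ adjL R v a = true ∧ adjL B v b = true ∧
        x = v * n + a ∧ y = v * n + b) ∨
      (∃ v a : ℕ, v < n ∧ a < n ∧ adjL R v a = true ∧ x = n * n + v ∧ y = v * n + a) ∨
      (∃ v a : ℕ, v < n ∧ a < n ∧ adjL B v a = true ∧ x = n * n + n + v ∧ y = v * n + a) := by
  simp only [gE, List.mem_append, List.mem_map, List.mem_filter, List.mem_flatMap, List.mem_range,
    nb, el, Blossom.mem_pairsOf, Bool.and_eq_true, decide_eq_true_eq, Bool.not_eq_true',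
    decide_eq_false_iff_not, Prod.mk.injEq]
  refine or_congr ?_ (or_congr ?_ (or_congr ?_ ?_))
  · constructor
    · rintro ⟨⟨v, a⟩, ⟨h, hq⟩, rfl, rfl⟩
      rcases h with ⟨⟨h1, h2⟩, h3, h4⟩ | ⟨⟨h1, h2⟩, h3, h4⟩
      · exact ⟨v, a, h1, h2, h3, Or.inl h4, hq, rfl, rfl⟩
      · exact ⟨v, a, h1, h2, h3, Or.inr h4, hq, rfl, rfl⟩
    · rintro ⟨v, a, h1, h2, h3, h4, hq, rfl, rfl⟩
      refine ⟨(v, a), ⟨?_, hq⟩, rfl, rfl⟩
      rcases h4 with h4 | h4
      · exact Or.inl ⟨⟨h1, h2⟩, h3, h4⟩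
      · exact Or.inr ⟨⟨h1, h2⟩, h3, h4⟩
  · constructor
    · rintro ⟨v, hv, a, ⟨ha, ha'⟩, b, ⟨hb, hb'⟩, rfl, rfl⟩
      exact ⟨v, a, b, hv, ha, hb, ha', hb', rfl, rfl⟩
    · rintro ⟨v, a, b, hv, ha, hb, ha', hb', rfl, rfl⟩
      exact ⟨v, hv, a, ⟨ha, ha'⟩, b, ⟨hb, hb'⟩, rfl, rfl⟩
  · constructor
    · rintro ⟨v, hv, a, ⟨ha, ha'⟩, rfl, rfl⟩
      exact ⟨v, a, hv, ha, ha', rfl, rfl⟩
    · rintro ⟨v, a, hv, ha, ha', rfl, rfl⟩
      exact ⟨v, hv, a, ⟨ha, ha'⟩, rfl, rfl⟩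
  · constructor
    · rintro ⟨v, hv, a, ⟨ha, ha'⟩, rfl, rfl⟩
      exact ⟨v, a, hv, ha, ha', rfl, rfl⟩
    · rintro ⟨v, a, hv, ha, ha', rfl, rfl⟩
      exact ⟨v, hv, a, ⟨ha, ha'⟩, rfl, rfl⟩

theorem adjL_comm (L : List (ℕ × ℕ)) (u v : ℕ) : adjL L u v = adjL L v u := by
  rw [Bool.eq_iff_iff, adjL_iff', adjL_iff']
  constructor
  · rintro ⟨h1, h2⟩; exact ⟨h1.symm, h2.symm⟩
  · rintro ⟨h1, h2⟩; exact ⟨h1.symm, h2.symm⟩

theorem ad_gad {n : ℕ} {R B : List (ℕ × ℕ)} {q : ℕ × ℕ} {x y : ℕ} :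
    Ad (gad (n, R, B) q) x y ↔ x < n * n + n + n ∧ y < n * n + n + n ∧ x ≠ y ∧
      ((x, y) ∈ gE (n, R, B) q ∨ (y, x) ∈ gE (n, R, B) q) := by
  rw [Blossom.ad_iff]
  rfl

theorem ad_half {n : ℕ} {R B : List (ℕ × ℕ)}
    (hd : ∀ u v : Fin n, (gr n R).Adj u v → ¬ (gr n B).Adj u v) {q : ℕ × ℕ} (v a : Fin n) (x : ℕ) :
    Ad (gad (n, R, B) q) ((v : ℕ) * n + a) x ↔
      (x = (a : ℕ) * n + v ∧ ((gr n R).Adj v a ∨ (gr n B).Adj v a) ∧
        ¬ (v < a ∧ q = ((v : ℕ), (a : ℕ))) ∧ ¬ (a < v ∧ q = ((a : ℕ), (v : ℕ)))) ∨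
      (∃ b : Fin n, x = (v : ℕ) * n + b ∧ (((gr n R).Adj v a ∧ (gr n B).Adj v b) ∨
        ((gr n B).Adj v a ∧ (gr n R).Adj v b))) ∨
      (x = n * n + v ∧ (gr n R).Adj v a) ∨ (x = n * n + n + v ∧ (gr n B).Adj v a) := by
  have hva := half_lt v a
  have hv := v.2
  have ha := a.2
  rw [ad_gad, mem_gE, mem_gE]
  constructor
  · rintro ⟨-, -, -, h⟩
    rcases h with h | h
    · rcases h with ⟨v', a', h1, h2, h3, h4, h5, h6, h7⟩ | ⟨v', a', b', h1, h2, h3, h4, h5, h6, h7⟩ |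
        ⟨v', a', h1, h2, h3, h4, h5⟩ | ⟨v', a', h1, h2, h3, h4, h5⟩
      · obtain ⟨rfl, rfl⟩ := half_inj' ha h2 h6
        left
        refine ⟨h7, ?_, ?_, ?_⟩
        · rw [← adjL_iff, ← adjL_iff]; exact h4
        · rintro ⟨-, rfl⟩; exact h5 rfl
        · rintro ⟨h8, -⟩; have : (a : ℕ) < v := h8; omega
      · obtain ⟨rfl, rfl⟩ := half_inj' ha h2 h6
        right; left
        refine ⟨⟨b', h3⟩, h7, Or.inl ⟨?_, ?_⟩⟩
        · rw [← adjL_iff]; exact h4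
        · rw [← adjL_iff]; exact h5
      · omega
      · omega
    · rcases h with ⟨v', a', h1, h2, h3, h4, h5, h6, h7⟩ | ⟨v', a', b', h1, h2, h3, h4, h5, h6, h7⟩ |
        ⟨v', a', h1, h2, h3, h4, h5⟩ | ⟨v', a', h1, h2, h3, h4, h5⟩
      · obtain ⟨rfl, rfl⟩ := half_inj' ha h1 h7
        left
        refine ⟨h6, ?_, ?_, ?_⟩
        · rw [← adjL_iff, ← adjL_iff, adjL_comm R, adjL_comm B]; exact h4
        · rintro ⟨h8, -⟩; have : (v : ℕ) < a := h8; omega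
        · rintro ⟨-, rfl⟩; exact h5 rfl
      · obtain ⟨rfl, rfl⟩ := half_inj' ha h3 h7
        right; left
        refine ⟨⟨a', h2⟩, h6, Or.inr ⟨?_, ?_⟩⟩
        · rw [← adjL_iff]; exact h5
        · rw [← adjL_iff]; exact h4
      · obtain ⟨rfl, rfl⟩ := half_inj' ha h2 h5
        right; right; left
        exact ⟨h4, (adjL_iff _ _).1 h3⟩
      · obtain ⟨rfl, rfl⟩ := half_inj' ha h2 h5
        right; right; right
        exact ⟨h4, (adjL_iff _ _).1 h3⟩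
  · rintro (⟨rfl, h1, h2, h3⟩ | ⟨b, rfl, h1⟩ | ⟨rfl, h1⟩ | ⟨rfl, h1⟩)
    · have hne : v ≠ a := by
        rcases h1 with h1 | h1
        · exact h1.ne
        · exact h1.ne
      have hne' : (v : ℕ) ≠ a := fun h => hne (Fin.ext h)
      have hav := half_lt a v
      refine ⟨by omega, by omega, ?_, ?_⟩
      · intro h
        exact hne (half_inj h).1
      · rcases lt_or_gt_of_ne hne' with hlt | hlt
        · left; left
          refine ⟨v, a, hv, ha, hlt, ?_, ?_, rfl, rfl⟩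
          · rw [adjL_iff, adjL_iff]; exact h1
          · intro h; exact h2 ⟨hlt, h.symm⟩
        · right; left
          refine ⟨a, v, ha, hv, hlt, ?_, ?_, rfl, rfl⟩
          · rw [adjL_comm R, adjL_comm B, adjL_iff, adjL_iff]; exact h1
          · intro h; exact h3 ⟨hlt, h.symm⟩
    · have hvb := half_lt v b
      refine ⟨by omega, by omega, ?_, ?_⟩
      · intro h
        obtain ⟨-, rfl⟩ := half_inj h
        rcases h1 with ⟨h1, h2⟩ | ⟨h1, h2⟩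
        · exact hd _ _ h1 h2
        · exact hd _ _ h2 h1
      · rcases h1 with ⟨h1, h2⟩ | ⟨h1, h2⟩
        · left; right; left
          exact ⟨v, a, b, hv, ha, b.2, (adjL_iff _ _).2 h1, (adjL_iff _ _).2 h2, rfl, rfl⟩
        · right; right; left
          exact ⟨v, b, a, hv, b.2, ha, (adjL_iff _ _).2 h2, (adjL_iff _ _).2 h1, rfl, rfl⟩
    · refine ⟨by omega, by omega, by omega, ?_⟩
      right; right; right; left
      exact ⟨v, a, hv, ha, (adjL_iff _ _).2 h1, rfl, rfl⟩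
    · refine ⟨by omega, by omega, by omega, ?_⟩
      right; right; right; right
      exact ⟨v, a, hv, ha, (adjL_iff _ _).2 h1, rfl, rfl⟩

theorem ad_al {n : ℕ} {R B : List (ℕ × ℕ)} {q : ℕ × ℕ} (v : Fin n) (x : ℕ) :
    Ad (gad (n, R, B) q) (n * n + v) x ↔ ∃ a : Fin n, x = (v : ℕ) * n + a ∧
      (gr n R).Adj v a := by
  have hv := v.2
  rw [ad_gad, mem_gE, mem_gE]
  constructor
  · rintro ⟨-, -, -, h⟩
    rcases h with h | h
    · rcases h with ⟨v', a', h1, h2, h3, h4, h5, h6, h7⟩ | ⟨v', a', b', h1, h2, h3, h4, h5, h6, h7⟩ |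
        ⟨v', a', h1, h2, h3, h4, h5⟩ | ⟨v', a', h1, h2, h3, h4, h5⟩
      · have := half_lt' h1 h2; omega
      · have := half_lt' h1 h2; omega
      · have : v' = v := by omega
        subst this
        exact ⟨⟨a', h2⟩, h5, (adjL_iff _ _).1 h3⟩
      · omega
    · rcases h with ⟨v', a', h1, h2, h3, h4, h5, h6, h7⟩ | ⟨v', a', b', h1, h2, h3, h4, h5, h6, h7⟩ |
        ⟨v', a', h1, h2, h3, h4, h5⟩ | ⟨v', a', h1, h2, h3, h4, h5⟩
      · have := half_lt' h2 h1; omega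
      · have := half_lt' h1 h3; omega
      · have := half_lt' h1 h2; omega
      · have := half_lt' h1 h2; omega
  · rintro ⟨a, rfl, h1⟩
    have hva := half_lt v a
    refine ⟨by omega, by omega, by omega, ?_⟩
    left; right; right; left
    exact ⟨v, a, hv, a.2, (adjL_iff _ _).2 h1, rfl, rfl⟩

theorem ad_be {n : ℕ} {R B : List (ℕ × ℕ)} {q : ℕ × ℕ} (v : Fin n) (x : ℕ) :
    Ad (gad (n, R, B) q) (n * n + n + v) x ↔ ∃ a : Fin n, x = (v : ℕ) * n + a ∧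
      (gr n B).Adj v a := by
  have hv := v.2
  rw [ad_gad, mem_gE, mem_gE]
  constructor
  · rintro ⟨-, -, -, h⟩
    rcases h with h | h
    · rcases h with ⟨v', a', h1, h2, h3, h4, h5, h6, h7⟩ | ⟨v', a', b', h1, h2, h3, h4, h5, h6, h7⟩ |
        ⟨v', a', h1, h2, h3, h4, h5⟩ | ⟨v', a', h1, h2, h3, h4, h5⟩
      · have := half_lt' h1 h2; omega
      · have := half_lt' h1 h2; omega
      · omega
      · have : v' = v := by omega
        subst this
        exact ⟨⟨a', h2⟩, h5, (adjL_iff _ _).1 h3⟩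
    · rcases h with ⟨v', a', h1, h2, h3, h4, h5, h6, h7⟩ | ⟨v', a', b', h1, h2, h3, h4, h5, h6, h7⟩ |
        ⟨v', a', h1, h2, h3, h4, h5⟩ | ⟨v', a', h1, h2, h3, h4, h5⟩
      · have := half_lt' h2 h1; omega
      · have := half_lt' h1 h3; omega
      · have := half_lt' h1 h2; omega
      · have := half_lt' h1 h2; omega
  · rintro ⟨a, rfl, h1⟩
    have hva := half_lt v a
    refine ⟨by omega, by omega, by omega, ?_⟩
    left; right; right; right
    exact ⟨v, a, hv, a.2, (adjL_iff _ _).2 h1, rfl, rfl⟩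

theorem mem_req {n : ℕ} {R B : List (ℕ × ℕ)} (x : ℕ) : x ∈ req (n, R, B) ↔
    (∃ v a : Fin n, x = (v : ℕ) * n + a ∧ ((gr n R).Adj v a ∨ (gr n B).Adj v a)) ∨
      (∃ v : Fin n, x = n * n + v) ∨ ∃ v : Fin n, x = n * n + n + v := by
  simp only [req, List.mem_append, List.mem_map, List.mem_filter, List.mem_flatMap, List.mem_range,
    nb, or_assoc]
  refine or_congr ?_ (or_congr ?_ ?_)
  · constructor
    · rintro ⟨v, hv, a, (⟨ha, h⟩ | ⟨ha, h⟩), rfl⟩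
      · exact ⟨⟨v, hv⟩, ⟨a, ha⟩, rfl, Or.inl ((adjL_iff _ _).1 h)⟩
      · exact ⟨⟨v, hv⟩, ⟨a, ha⟩, rfl, Or.inr ((adjL_iff _ _).1 h)⟩
    · rintro ⟨v, a, rfl, (h | h)⟩
      · exact ⟨v, v.2, a, Or.inl ⟨a.2, (adjL_iff _ _).2 h⟩, rfl⟩
      · exact ⟨v, v.2, a, Or.inr ⟨a.2, (adjL_iff _ _).2 h⟩, rfl⟩
  · constructor
    · rintro ⟨v, hv, rfl⟩; exact ⟨⟨v, hv⟩, rfl⟩
    · rintro ⟨v, rfl⟩; exact ⟨v, v.2, rfl⟩
  · constructor
    · rintro ⟨v, hv, rfl⟩; exact ⟨⟨v, hv⟩, rfl⟩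
    · rintro ⟨v, rfl⟩; exact ⟨v, v.2, rfl⟩

end Pool.Agent.Work.MP_a5655b_lc
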