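import Pool.Agent.Work.MP_a5655b_lc.GadA

/-!
# Module GadM

A matching of the auxiliary graph from its values on half-edges. `mu v a` says where the half-edge
`(v, a)` goes: `none` means unmatched.

Proof. Let `T x y` be the relation on `ℕ`: for some `v, a : Fin n`,
`x = v * n + a` and `y = tgt v a`, or `y = v * n + a` and `x = tgt v a`, where `tgt v a` is the number
given by `s v a` (see below). It is easier to write the matching as a function directly:
`m x = tgt (v, a)` if `x = v * n + a < n * n` (with `v = x / n`, `a = x % n`) and `n > 0`;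
`m x = v * n + a₀ v` if `x = n * n + v`, `v < n`; `m x = v * n + b₀ v` if `x = n * n + n + v`, `v < n`; and
`m x = x` otherwise. All claims are checked by cases with the hypotheses.
-/

set_option autoImplicit false

namespace Pool.Agent.Work.MP_a5655b_lc

open Pool.Agent.Work.PolyTime
open Pool.Agent.Work.PolyTime.Blossom (Gr pairsOf coverB Ad)

/-- There is a function on the numbers of the vertices of the auxiliary graph with given values. -/
theorem exists_fun {n : ℕ} (f : Fin n → Fin n → ℕ) (g h : Fin n → ℕ) : ∃ m : ℕ → ℕ,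
    (∀ v a : Fin n, m ((v : ℕ) * n + a) = f v a) ∧ (∀ v : Fin n, m (n * n + v) = g v) ∧
      (∀ v : Fin n, m (n * n + n + v) = h v) ∧ ∀ x, n * n + n + n ≤ x → m x = x := by
  classical
  refine ⟨fun x => if hx : ∃ p : Fin n × Fin n, x = (p.1 : ℕ) * n + p.2 then
      f hx.choose.1 hx.choose.2 else if hx : ∃ v : Fin n, x = n * n + v then g hx.choose else
      if hx : ∃ v : Fin n, x = n * n + n + v then h hx.choose else x, ?_, ?_, ?_, ?_⟩
  · intro v a
    have hx : ∃ p : Fin n × Fin n, (v : ℕ) * n + a = (p.1 : ℕ) * n + p.2 := ⟨(v, a), rfl⟩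
    simp only
    rw [dif_pos hx]
    obtain ⟨h1, h2⟩ := half_inj hx.choose_spec
    rw [← h1, ← h2]
  · intro v
    have h1 : ¬ ∃ p : Fin n × Fin n, n * n + (v : ℕ) = (p.1 : ℕ) * n + p.2 := by
      rintro ⟨p, hp⟩
      have := half_lt p.1 p.2
      omega
    have hx : ∃ w : Fin n, n * n + (v : ℕ) = n * n + w := ⟨v, rfl⟩
    simp only
    rw [dif_neg h1, dif_pos hx]
    have h2 := hx.choose_spec
    have h3 : v = hx.choose := Fin.ext (by omega)
    rw [← h3]
  · intro v
    have h1 : ¬ ∃ p : Fin n × Fin n, n * n + n + (v : ℕ) = (p.1 : ℕ) * n + p.2 := by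
      rintro ⟨p, hp⟩
      have := half_lt p.1 p.2
      omega
    have h0 : ¬ ∃ w : Fin n, n * n + n + (v : ℕ) = n * n + w := by
      rintro ⟨w, hw⟩
      have := w.2
      omega
    have hx : ∃ w : Fin n, n * n + n + (v : ℕ) = n * n + n + w := ⟨v, rfl⟩
    simp only
    rw [dif_neg h1, dif_neg h0, dif_pos hx]
    have h2 := hx.choose_spec
    have h3 : v = hx.choose := Fin.ext (by omega)
    rw [← h3]
  · intro x hx
    simp only
    rw [dif_neg, dif_neg, dif_neg]
    · rintro ⟨w, hw⟩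
      have := w.2
      omega
    · rintro ⟨w, hw⟩
      have := w.2
      omega
    · rintro ⟨p, hp⟩
      have := half_lt p.1 p.2
      omega

/-- Every number is a half-edge, one of the two further kinds of vertices, or too large. -/
theorem cases_num (n x : ℕ) : (∃ v a : Fin n, x = (v : ℕ) * n + a) ∨
    (∃ v : Fin n, x = n * n + v) ∨ (∃ v : Fin n, x = n * n + n + v) ∨ n * n + n + n ≤ x := by
  by_cases h1 : x < n * n
  · left
    have hn : 0 < n := by
      rcases Nat.eq_zero_or_pos n with h | h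
      · subst h; simp at h1
      · exact h
    refine ⟨⟨x / n, (Nat.div_lt_iff_lt_mul hn).2 h1⟩, ⟨x % n, Nat.mod_lt _ hn⟩, ?_⟩
    simp only
    rw [Nat.mul_comm]
    exact (Nat.div_add_mod x n).symm
  · by_cases h2 : x < n * n + n
    · right; left
      exact ⟨⟨x - n * n, by omega⟩, by simp only; omega⟩
    · by_cases h3 : x < n * n + n + n
      · right; right; left
        exact ⟨⟨x - n * n - n, by omega⟩, by simp only; omega⟩
      · right; right; right
        omega

/-- Two finite sets of the same size, not empty: an involution exchanges them. -/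
theorem exists_swap {n : ℕ} {A C : Finset (Fin n)} (hd : Disjoint A C) (hc : A.card = C.card)
    (h0 : A.Nonempty) : ∃ (s : Fin n → Fin n) (a₀ b₀ : Fin n), a₀ ∈ A ∧ b₀ ∈ C ∧ s a₀ = b₀ ∧
      s b₀ = a₀ ∧ (∀ a ∈ A, s a ∈ C ∧ s (s a) = a) ∧ ∀ b ∈ C, s b ∈ A ∧ s (s b) = b := by
  classical
  let e : A ≃ C := Finset.equivOfCardEq hc
  let s : Fin n → Fin n := fun x => if hx : x ∈ A then (e ⟨x, hx⟩ : Fin n) else
    if hx : x ∈ C then (e.symm ⟨x, hx⟩ : Fin n) else x
  have hA : ∀ a (ha : a ∈ A), s a = (e ⟨a, ha⟩ : Fin n) := by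
    intro a ha
    simp only [s, dif_pos ha]
  have hC : ∀ b (hb : b ∈ C), s b = (e.symm ⟨b, hb⟩ : Fin n) := by
    intro b hb
    have hnb : b ∉ A := fun h => Finset.disjoint_left.1 hd h hb
    simp only [s, dif_neg hnb, dif_pos hb]
  have h1 : ∀ a ∈ A, s a ∈ C ∧ s (s a) = a := by
    intro a ha
    have h2 : s a ∈ C := by rw [hA a ha]; exact (e ⟨a, ha⟩).2
    refine ⟨h2, ?_⟩
    rw [hC _ h2]
    have h3 : (⟨s a, h2⟩ : C) = e ⟨a, ha⟩ := Subtype.ext (hA a ha)
    rw [h3, Equiv.symm_apply_apply]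
  have h2 : ∀ b ∈ C, s b ∈ A ∧ s (s b) = b := by
    intro b hb
    have h2 : s b ∈ A := by rw [hC b hb]; exact (e.symm ⟨b, hb⟩).2
    refine ⟨h2, ?_⟩
    rw [hA _ h2]
    have h3 : (⟨s b, h2⟩ : A) = e.symm ⟨b, hb⟩ := Subtype.ext (hC b hb)
    rw [h3, Equiv.apply_symm_apply]
  obtain ⟨a₀, ha₀⟩ := h0
  exact ⟨s, a₀, s a₀, ha₀, (h1 a₀ ha₀).1, rfl, (h1 a₀ ha₀).2, h1, h2⟩

end Pool.Agent.Work.MP_a5655b_lc
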