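import Pool.Agent.Work.MP_a5655b_lc.GadA
import Pool.Agent.Work.MP_a5655b_lc.StarSum

/-!
# Module GadS

If the auxiliary graph has a matching that covers the required vertices, there is a factor.

Proof. By `Blossom.coverB_iff` there is `m` with `IsMat (Ad (gad (n, R, B) q)) m` and `m x ≠ x` for
all required `x` (all of them are `< n * n + n + n`, by `half_lt`). Let `H` be the set of the
edges `s(u, v)` (of either colour) with `m (u * n + v) ≠ v * n + u`; this does not depend on the order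
because `m` is an involution. (`H := univ.filter (fun e => ∃ u v, e = s(u, v) ∧ ...)`, classical.)

Edges are no loops. Fix `v`. Let `A` be the set of the `a` with `va` red and in `H`, and `C` the same
for blue. By `ad_al` and `ad_be`: `m (n * n + v) = v * n + a₀` with `va₀` red, and
`m (n * n + n + v) = v * n + b₀` with `vb₀` blue; as `m (v * n + a₀) = n * n + v ≠ a₀ * n + v`, `a₀ ∈ A`, and
`b₀ ∈ C` in the same way. For `a ∈ A`, `a ≠ a₀`: by `ad_half`, `m (v * n + a)` is `v * n + b` with `vb`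
blue (not the other half, as `va ∈ H`; not `n * n + v`, as `a ≠ a₀` and `m` is injective; not
`n * n + n + v`, as `va` is not blue), and `b ∈ C` because
`m (v * n + b) = v * n + a ≠ b * n + v` (`half_inj` would give `v = b`, but `vb` is an edge), and
`b ≠ b₀` because `m (v * n + b₀) = n * n + n + v`. In the same way back. So `a ↦ b` is a bijection from
`A \ {a₀}` to `C \ {b₀}`, and `card A = card C`, both positive. With `star_sum` the balance at `v` is
`card A - card C = 0` (`chi` is `1` on the red edges and `-1` on the blue edges), and `v` is covered.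

The edge `q = (u, v)`, `u < v`: by `ad_half` its halves are not joined in the auxiliary graph, so
`m (u * n + v) ≠ v * n + u` and `s(u, v) ∈ H`.
-/

set_option autoImplicit false

namespace Pool.Agent.Work.MP_a5655b_lc

open Pool.Agent.Work.PolyTime
open Pool.Agent.Work.PolyTime.Blossom (Gr pairsOf coverB Ad)

theorem gad_sound {n : ℕ} {R B : List (ℕ × ℕ)}
    (hd : ∀ u v : Fin n, (gr n R).Adj u v → ¬ (gr n B).Adj u v) {q : ℕ × ℕ}
    (h : usable (n, R, B) q = true) : ∃ H : Finset (Sym2 (Fin n)),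
      Factor (chi (gr n R) (gr n B)) H ∧ ∀ u v : Fin n, u < v → q = ((u : ℕ), (v : ℕ)) →
        ((gr n R).Adj u v ∨ (gr n B).Adj u v) → s(u, v) ∈ H := by
  classical
  unfold usable at h
  rw [Blossom.coverB_iff] at h
  obtain ⟨m, hm, hreq⟩ := h
  have hreq1 : ∀ v a : Fin n, ((gr n R).Adj v a ∨ (gr n B).Adj v a) →
      m ((v : ℕ) * n + a) ≠ (v : ℕ) * n + a := by
    intro v a hva
    refine hreq _ ((mem_req _).2 (Or.inl ⟨v, a, rfl, hva⟩)) ?_
    have := half_lt v a
    change _ < n * n + n + n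
    omega
  have hreq2 : ∀ v : Fin n, m (n * n + v) ≠ n * n + v := by
    intro v
    refine hreq _ ((mem_req _).2 (Or.inr (Or.inl ⟨v, rfl⟩))) ?_
    have := v.2
    change _ < n * n + n + n
    omega
  have hreq3 : ∀ v : Fin n, m (n * n + n + v) ≠ n * n + n + v := by
    intro v
    refine hreq _ ((mem_req _).2 (Or.inr (Or.inr ⟨v, rfl⟩))) ?_
    have := v.2
    change _ < n * n + n + n
    omega
  have hsy : ∀ u v : Fin n, m ((u : ℕ) * n + v) ≠ (v : ℕ) * n + u →
      m ((v : ℕ) * n + u) ≠ (u : ℕ) * n + v := by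
    intro u v h1 h2
    apply h1
    rw [← h2, hm.invol]
  set H : Finset (Sym2 (Fin n)) := Finset.univ.filter fun e => ∃ u v : Fin n, e = s(u, v) ∧
    ((gr n R).Adj u v ∨ (gr n B).Adj u v) ∧ m ((u : ℕ) * n + v) ≠ (v : ℕ) * n + u with hHdef
  have memH : ∀ u v : Fin n, s(u, v) ∈ H ↔ ((gr n R).Adj u v ∨ (gr n B).Adj u v) ∧
      m ((u : ℕ) * n + v) ≠ (v : ℕ) * n + u := by
    intro u v
    rw [hHdef, Finset.mem_filter]
    constructor
    · rintro ⟨-, a, b, hab, h1, h2⟩
      rw [Sym2.eq_iff] at hab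
      rcases hab with ⟨rfl, rfl⟩ | ⟨rfl, rfl⟩
      · exact ⟨h1, h2⟩
      · exact ⟨h1.imp (fun h => h.symm) (fun h => h.symm), hsy _ _ h2⟩
    · rintro ⟨h1, h2⟩
      exact ⟨Finset.mem_univ _, u, v, rfl, h1, h2⟩
  have chiR : ∀ u v : Fin n, (gr n R).Adj u v → chi (gr n R) (gr n B) s(u, v) = 1 := by
    intro u v h1
    unfold chi
    rw [if_pos ((SimpleGraph.mem_edgeSet _).2 h1)]
  have chiB : ∀ u v : Fin n, (gr n B).Adj u v → chi (gr n R) (gr n B) s(u, v) = -1 := by
    intro u v h1
    unfold chi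
    rw [if_neg, if_pos ((SimpleGraph.mem_edgeSet _).2 h1)]
    rw [SimpleGraph.mem_edgeSet]
    exact fun h2 => hd _ _ h2 h1
  have hl : ∀ v, s(v, v) ∉ H := by
    intro v hv
    rcases ((memH v v).1 hv).1 with h1 | h1
    · exact h1.ne rfl
    · exact h1.ne rfl
  -- the two special half-edges
  have ha₀ : ∀ v : Fin n, ∃ a : Fin n, m (n * n + v) = (v : ℕ) * n + a ∧ (gr n R).Adj v a :=
    fun v => (ad_al v _).1 (hm.adj _ (hreq2 v))
  have hb₀ : ∀ v : Fin n, ∃ b : Fin n, m (n * n + n + v) = (v : ℕ) * n + b ∧ (gr n B).Adj v b :=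
    fun v => (ad_be v _).1 (hm.adj _ (hreq3 v))
  -- the partner of a half-edge
  have part : ∀ v a : Fin n, s(v, a) ∈ H → (gr n R).Adj v a → m (n * n + v) ≠ (v : ℕ) * n + a →
      ∃ b : Fin n, m ((v : ℕ) * n + a) = (v : ℕ) * n + b ∧ (gr n B).Adj v b ∧ s(v, b) ∈ H ∧
        m (n * n + n + v) ≠ (v : ℕ) * n + b := by
    intro v a h1 h2 h3
    have h4 := (memH v a).1 h1
    rcases (ad_half hd v a _).1 (hm.adj _ (hreq1 v a (Or.inl h2))) with h5 | h5 | h5 | h5
    · exact absurd h5.1 h4.2
    · obtain ⟨b, hb, hb'⟩ := h5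
      have hvb : (gr n B).Adj v b := by
        rcases hb' with hb' | hb'
        · exact hb'.2
        · exact absurd hb'.1 (hd _ _ h2)
      have hmb : m ((v : ℕ) * n + b) = (v : ℕ) * n + a := by rw [← hb, hm.invol]
      refine ⟨b, hb, hvb, (memH v b).2 ⟨Or.inr hvb, ?_⟩, ?_⟩
      · rw [hmb]
        intro h6
        exact hvb.ne (half_inj h6).1
      · intro h6
        rw [← h6, hm.invol] at hmb
        have := half_lt v a
        have := v.2
        omega
    · exfalso
      apply h3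
      rw [← h5.1, hm.invol]
    · exact absurd h5.2 (hd _ _ h2)
  have part' : ∀ v b : Fin n, s(v, b) ∈ H → (gr n B).Adj v b →
      m (n * n + n + v) ≠ (v : ℕ) * n + b →
      ∃ a : Fin n, m ((v : ℕ) * n + b) = (v : ℕ) * n + a ∧ (gr n R).Adj v a ∧ s(v, a) ∈ H ∧
        m (n * n + v) ≠ (v : ℕ) * n + a := by
    intro v b h1 h2 h3
    have h4 := (memH v b).1 h1
    rcases (ad_half hd v b _).1 (hm.adj _ (hreq1 v b (Or.inr h2))) with h5 | h5 | h5 | h5
    · exact absurd h5.1 h4.2
    · obtain ⟨a, ha, ha'⟩ := h5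
      have hva : (gr n R).Adj v a := by
        rcases ha' with ha' | ha'
        · exact absurd h2 (hd _ _ ha'.1)
        · exact ha'.2
      have hma : m ((v : ℕ) * n + a) = (v : ℕ) * n + b := by rw [← ha, hm.invol]
      refine ⟨a, ha, hva, (memH v a).2 ⟨Or.inl hva, ?_⟩, ?_⟩
      · rw [hma]
        intro h6
        exact hva.ne (half_inj h6).1
      · intro h6
        rw [← h6, hm.invol] at hma
        have := half_lt v b
        have := v.2
        omega
    · exact absurd h2 (hd _ _ h5.2)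
    · exfalso
      apply h3
      rw [← h5.1, hm.invol]
  have hcard : ∀ v : Fin n, (Finset.univ.filter fun a => s(v, a) ∈ H ∧ (gr n R).Adj v a).card =
      (Finset.univ.filter fun b => s(v, b) ∈ H ∧ (gr n B).Adj v b).card := by
    intro v
    obtain ⟨a₀, ha, ha'⟩ := ha₀ v
    obtain ⟨b₀, hb, hb'⟩ := hb₀ v
    have hma : m ((v : ℕ) * n + a₀) = n * n + v := by rw [← ha, hm.invol]
    have hmb : m ((v : ℕ) * n + b₀) = n * n + n + v := by rw [← hb, hm.invol]
    have haH : s(v, a₀) ∈ H := by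
      refine (memH v a₀).2 ⟨Or.inl ha', ?_⟩
      rw [hma]
      have := half_lt a₀ v
      omega
    have hbH : s(v, b₀) ∈ H := by
      refine (memH v b₀).2 ⟨Or.inr hb', ?_⟩
      rw [hmb]
      have := half_lt b₀ v
      omega
    have hA : a₀ ∈ Finset.univ.filter fun a => s(v, a) ∈ H ∧ (gr n R).Adj v a :=
      Finset.mem_filter.2 ⟨Finset.mem_univ _, haH, ha'⟩
    have hC : b₀ ∈ Finset.univ.filter fun b => s(v, b) ∈ H ∧ (gr n B).Adj v b :=
      Finset.mem_filter.2 ⟨Finset.mem_univ _, hbH, hb'⟩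
    rw [← Finset.card_erase_add_one hA, ← Finset.card_erase_add_one hC]
    congr 1
    let τ : Fin n → Fin n := fun a => if hx : ∃ b : Fin n, m ((v : ℕ) * n + a) = (v : ℕ) * n + b
      then hx.choose else a
    have hτ : ∀ a b : Fin n, m ((v : ℕ) * n + a) = (v : ℕ) * n + b → τ a = b := by
      intro a b hab
      have hx : ∃ b : Fin n, m ((v : ℕ) * n + a) = (v : ℕ) * n + b := ⟨b, hab⟩
      have h1 := hx.choose_spec
      have h2 : τ a = hx.choose := by simp only [τ, dif_pos hx]
      rw [h2]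
      rw [h1] at hab
      exact (half_inj hab).2
    have k1 : ∀ a ∈ (Finset.univ.filter fun a => s(v, a) ∈ H ∧ (gr n R).Adj v a).erase a₀,
        τ a ∈ (Finset.univ.filter fun b => s(v, b) ∈ H ∧ (gr n B).Adj v b).erase b₀ ∧
          τ (τ a) = a := by
      intro a h1
      rw [Finset.mem_erase, Finset.mem_filter] at h1
      obtain ⟨h1, -, h2, h3⟩ := h1
      obtain ⟨b, h4, h5, h6, h7⟩ := part v a h2 h3 (by
        rw [ha]
        intro h8
        exact h1 (half_inj h8).2.symm)
      rw [hτ a b h4]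
      refine ⟨?_, ?_⟩
      · rw [Finset.mem_erase, Finset.mem_filter]
        refine ⟨?_, Finset.mem_univ _, h6, h5⟩
        rintro rfl
        exact h7 hb
      · refine hτ b a ?_
        rw [← h4, hm.invol]
    have k2 : ∀ b ∈ (Finset.univ.filter fun b => s(v, b) ∈ H ∧ (gr n B).Adj v b).erase b₀,
        τ b ∈ (Finset.univ.filter fun a => s(v, a) ∈ H ∧ (gr n R).Adj v a).erase a₀ ∧
          τ (τ b) = b := by
      intro b h1
      rw [Finset.mem_erase, Finset.mem_filter] at h1
      obtain ⟨h1, -, h2, h3⟩ := h1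
      obtain ⟨a, h4, h5, h6, h7⟩ := part' v b h2 h3 (by
        rw [hb]
        intro h8
        exact h1 (half_inj h8).2.symm)
      rw [hτ b a h4]
      refine ⟨?_, ?_⟩
      · rw [Finset.mem_erase, Finset.mem_filter]
        refine ⟨?_, Finset.mem_univ _, h6, h5⟩
        rintro rfl
        exact h7 ha
      · refine hτ a b ?_
        rw [← h4, hm.invol]
    exact Finset.card_nbij' τ τ (fun a ha => (k1 a ha).1) (fun b hb => (k2 b hb).1)
      (fun a ha => (k1 a ha).2) (fun b hb => (k2 b hb).2)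
  refine ⟨H, ⟨?_, ?_, ?_⟩, ?_⟩
  · intro e he
    induction e with | _ u v => ?_
    rcases ((memH u v).1 he).1 with h1 | h1
    · rw [chiR _ _ h1]; decide
    · rw [chiB _ _ h1]; decide
  · intro v
    unfold bal
    rw [star_sum H hl]
    have e1 : ∀ z, (if s(v, z) ∈ H then chi (gr n R) (gr n B) s(v, z) else 0) =
        (if s(v, z) ∈ H ∧ (gr n R).Adj v z then (1 : ℤ) else 0) -
          (if s(v, z) ∈ H ∧ (gr n B).Adj v z then (1 : ℤ) else 0) := by
      intro z
      by_cases h1 : s(v, z) ∈ H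
      · rcases ((memH v z).1 h1).1 with h2 | h2
        · rw [if_pos h1, if_pos ⟨h1, h2⟩, if_neg (fun h3 => hd _ _ h2 h3.2), chiR _ _ h2]
          rfl
        · rw [if_pos h1, if_neg (fun h3 => hd _ _ h3.2 h2), if_pos ⟨h1, h2⟩, chiB _ _ h2]
          rfl
      · rw [if_neg h1, if_neg (fun h2 => h1 h2.1), if_neg (fun h2 => h1 h2.1)]
        rfl
    have c1 : ((Finset.univ.filter fun z => s(v, z) ∈ H ∧ (gr n R).Adj v z).card : ℤ) =
        ∑ z, if s(v, z) ∈ H ∧ (gr n R).Adj v z then (1 : ℤ) else 0 := by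
      rw [Finset.card_filter]
      push_cast
      rfl
    have c2 : ((Finset.univ.filter fun z => s(v, z) ∈ H ∧ (gr n B).Adj v z).card : ℤ) =
        ∑ z, if s(v, z) ∈ H ∧ (gr n B).Adj v z then (1 : ℤ) else 0 := by
      rw [Finset.card_filter]
      push_cast
      rfl
    rw [Finset.sum_congr rfl fun z _ => e1 z, Finset.sum_sub_distrib, ← c1, ← c2, hcard v]
    omega
  · intro v
    obtain ⟨a₀, ha, ha'⟩ := ha₀ v
    have hma : m ((v : ℕ) * n + a₀) = n * n + v := by rw [← ha, hm.invol]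
    refine ⟨s(v, a₀), (memH v a₀).2 ⟨Or.inl ha', ?_⟩, by simp⟩
    rw [hma]
    have := half_lt a₀ v
    omega
  · intro u v huv hq hadj
    refine (memH u v).2 ⟨hadj, ?_⟩
    intro h1
    have h2 := hm.adj _ (hreq1 u v hadj)
    rw [h1] at h2
    have h3 := (ad_half hd u v _).1 h2
    rcases h3 with h3 | h3 | h3 | h3
    · exact h3.2.2.1 ⟨huv, hq⟩
    · obtain ⟨b, hb, -⟩ := h3
      exact huv.ne (half_inj hb).1.symm
    · have := half_lt v u
      omega
    · have := half_lt v u
      omega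

end Pool.Agent.Work.MP_a5655b_lc
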