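import Pool.Agent.Work.MP_a5655b_lc.Per
import Pool.Agent.Work.MP_a5655b_lc.Ex6
import Pool.Agent.Work.MP_a5655b_lc.ConnX

/-!
# Module SixM

The exchange along a closed residual walk with six edges.

Proof. Let `v j = (y j).1`, `T = six y`. By `Step`, `rho χ H s(v j, v (j+1)) = (y (j+1)).2.1`, and
these signs alternate (`t := (y 1).2.1 ≠ 0`, then `-t, t, -t, t, -t`; `y 6 = y 0`), so `factor_ex6`
applies with `a, ..., f = v 0, ..., v 5` once the covering condition is checked: let `g ∈ T` be in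
`H`, `g = s(v j, v (j+1))`, `j < 6`; so `(y (j+1)).2.2 = true`. By `hnc` the edges before and after
`g` in the cyclic order are not in `H` (flags `(y j).2.2`, `(y (j+2)).2.2` are `false`; for `j = 0` use
`y 0 = y 6`), and they are in `T`, so they are in `symmDiff H T`; they contain `v j` and
`v (j+1)` respectively.
So `H' = symmDiff H T` is a factor. By `conn_exch_mono` and `hconn` it joins what `H` joins: an edge
`s(u,v) ∈ H` in `T` is some `s(v j, v (j+1))` with flag `true`, so `{u,v} = {v j, v (j+1)}`. Finally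
`v 0` and `v 1` are not joined in `H` (`hy.cross`), so `s(v 0, v 1) ∉ H` is in `symmDiff H T`:
`Better` with `u = v 0`, `v = v 1`.
-/

set_option autoImplicit false
set_option linter.unusedSectionVars false

namespace Pool.Agent.Work.MP_a5655b_lc

variable {V : Type} [Fintype V] [DecidableEq V] {χ : Sym2 V → ℤ} {H : Finset (Sym2 V)}
  {P : Set V}

/-- The edges of a walk of period 6. -/
def six (y : ℕ → St V) : Finset (Sym2 V) :=
  {s((y 0).1, (y 1).1), s((y 1).1, (y 2).1), s((y 2).1, (y 3).1), s((y 3).1, (y 4).1),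
    s((y 4).1, (y 5).1), s((y 5).1, (y 0).1)}

private theorem edge_mem {y : ℕ → St V} (hper : ∀ i, y (i + 6) = y i) (j : ℕ) :
    s((y j).1, (y (j + 1)).1) ∈ six y := by
  have h6 : y 6 = y 0 := hper 0
  induction j using Nat.strong_induction_on with
  | _ j ih =>
    by_cases hj : j < 6
    · unfold six
      simp only [Finset.mem_insert, Finset.mem_singleton]
      interval_cases j
      · exact Or.inl rfl
      · exact Or.inr (Or.inl rfl)
      · exact Or.inr (Or.inr (Or.inl rfl))
      · exact Or.inr (Or.inr (Or.inr (Or.inl rfl)))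
      · exact Or.inr (Or.inr (Or.inr (Or.inr (Or.inl rfl))))
      · right; right; right; right; right
        change s((y 5).1, (y 6).1) = _
        rw [h6]
    · obtain ⟨k, rfl⟩ : ∃ k, j = k + 6 := ⟨j - 6, by omega⟩
      rw [hper k, show k + 6 + 1 = k + 1 + 6 by omega, hper (k + 1)]
      exact ih k (by omega)

private theorem mem_edge {y : ℕ → St V} (hper : ∀ i, y (i + 6) = y i) {g : Sym2 V}
    (hg : g ∈ six y) : ∃ j < 6, g = s((y j).1, (y (j + 1)).1) := by
  have h6 : y 6 = y 0 := hper 0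
  unfold six at hg
  simp only [Finset.mem_insert, Finset.mem_singleton] at hg
  rcases hg with h | h | h | h | h | h
  · exact ⟨0, by decide, h⟩
  · exact ⟨1, by decide, h⟩
  · exact ⟨2, by decide, h⟩
  · exact ⟨3, by decide, h⟩
  · exact ⟨4, by decide, h⟩
  · refine ⟨5, by decide, ?_⟩
    change g = s((y 5).1, (y 6).1)
    rw [h6]
    exact h

theorem six_merge (hS : Split χ P) (hH : Factor χ H) {y : ℕ → St V} (hy : Walk χ H 6 y)
    (hnc : ∀ i, ¬ ((y (i + 1)).2.2 = true ∧ (y (i + 2)).2.2 = true))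
    (hconn : ∀ i < 6, (y (i + 1)).2.2 = true →
      Conn (symmDiff H (six y)) (y i).1 (y (i + 1)).1) : Better χ H := by
  have h6 : y 6 = y 0 := hy.per 0
  have hflag : ∀ j, (y (j + 1)).2.2 = true ↔ s((y j).1, (y (j + 1)).1) ∈ H := fun j =>
    (hy.step j).2.2.2.1
  have hrho : ∀ j, rho χ H s((y j).1, (y (j + 1)).1) = (y (j + 1)).2.1 := fun j =>
    (hy.step j).2.2.1
  have hsg : ∀ j, (y (j + 1)).2.1 = -(y j).2.1 := fun j => (hy.step j).2.1
  have s2 : (y 2).2.1 = -(y 1).2.1 := hsg 1
  have s3 : (y 3).2.1 = (y 1).2.1 := by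
    have := hsg 2
    rw [s2, neg_neg] at this
    exact this
  have s4 : (y 4).2.1 = -(y 1).2.1 := by
    have := hsg 3
    rw [s3] at this
    exact this
  have s5 : (y 5).2.1 = (y 1).2.1 := by
    have := hsg 4
    rw [s4, neg_neg] at this
    exact this
  have s6 : (y 6).2.1 = -(y 1).2.1 := by
    have := hsg 5
    rw [s5] at this
    exact this
  have hF : Factor χ (symmDiff H (six y)) := by
    refine factor_ex6 hS.diag hH (walk_sign_ne hy 1) (hrho 0) ((hrho 1).trans s2)
      ((hrho 2).trans s3) ((hrho 3).trans s4) ((hrho 4).trans s5) ?_ ?_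
    · have := (hrho 5).trans s6
      rw [h6] at this
      exact this
    · intro g hg hgH v hv
      have hg' : g ∈ six y := hg
      obtain ⟨j, hj, rfl⟩ : ∃ j, 1 ≤ j ∧ g = s((y j).1, (y (j + 1)).1) := by
        obtain ⟨j, hj6, hgj⟩ := mem_edge hy.per hg'
        refine ⟨j + 6, by omega, ?_⟩
        rw [hy.per j, show j + 6 + 1 = j + 1 + 6 by omega, hy.per (j + 1)]
        exact hgj
      obtain ⟨i, rfl⟩ : ∃ i, j = i + 1 := ⟨j - 1, by omega⟩
      have hf : (y (i + 1 + 1)).2.2 = true := (hflag (i + 1)).2 hgH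
      have hf0 : s((y i).1, (y (i + 1)).1) ∉ H := fun h => hnc i ⟨(hflag i).2 h, hf⟩
      have hf2 : s((y (i + 2)).1, (y (i + 3)).1) ∉ H := fun h =>
        hnc (i + 1) ⟨hf, (hflag (i + 2)).2 h⟩
      rw [Sym2.mem_iff] at hv
      rcases hv with rfl | rfl
      · exact ⟨s((y i).1, (y (i + 1)).1),
          Finset.mem_symmDiff.2 (Or.inr ⟨edge_mem hy.per i, hf0⟩), by simp⟩
      · exact ⟨s((y (i + 2)).1, (y (i + 3)).1),
          Finset.mem_symmDiff.2 (Or.inr ⟨edge_mem hy.per (i + 2), hf2⟩), by simp⟩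
  refine ⟨(y 0).1, (y 1).1, hy.cross, symmDiff H (six y), hF,
    fun p q hpq => conn_exch_mono ?_ hpq, ?_⟩
  · intro p q hpH hpD
    obtain ⟨j, hj, hg⟩ := mem_edge hy.per hpD
    have h1 := hconn j hj ((hflag j).2 (hg ▸ hpH))
    rw [Sym2.eq_iff] at hg
    rcases hg with ⟨rfl, rfl⟩ | ⟨rfl, rfl⟩
    · exact h1
    · exact h1.symm
  · exact Conn.of_mem (Finset.mem_symmDiff.2
      (Or.inr ⟨edge_mem hy.per 0, fun h => hy.cross (Conn.of_mem h)⟩))

end Pool.Agent.Work.MP_a5655b_lc
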