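import Pool.Agent.Work.MP_a5655b_lc.Ex4
import Pool.Agent.Work.MP_a5655b_lc.ConnX
import Pool.Agent.Work.MP_a5655b_lc.NoBridge

/-!
# Module Swap

Two simple exchanges between different components.

Proof of `swap`. Let `D = {s(u,u'), s(u',x), s(x,a), s(a,u)}`. `s(u',x), s(a,u)` join two components,
so they are not in `H`. `rho` is `-t, t, -t, t`, so `factor_ex4` (with sign `-t`) applies; covering:
`u, u'` and `x, a` are covered by the edges `s(a,u)`, `s(u',x)` of `D` outside `H`. `H' = symmDiff H D`
joins everything that `H` joins: `conn_exch_mono`, for a removed edge `s(p,q)`, that is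
`{p,q} = {u,u'}` or `{x,a}`: `conn_exch_one` with `no_bridge` (the component of `u` contains only the
removed edge `s(u,u')`, since `s(x,a)` lies in the component of `x`). `u - a` by the new edge, and
`a ~ x` in `H'` as `Conn H a x`. So `Merge χ H u x`.

Proof of `add4`. `D = {s(a,b), s(b,c), s(c,d), s(d,a)}` has no edge in `H`; `rho = χ`; `factor_ex4`;
`H ⊆ symmDiff H D`, and `s(a,b)` is in it.
-/

set_option autoImplicit false
set_option linter.unusedSectionVars false

namespace Pool.Agent.Work.MP_a5655b_lc

variable {V : Type} [Fintype V] [DecidableEq V] {χ : Sym2 V → ℤ} {H : Finset (Sym2 V)}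
  {P : Set V}

/-- Two edges `uu'`, `xa` of `H` of the same colour in different components are replaced by `ua`
and `u'x` of this colour. -/
theorem swap (hS : Split χ P) (hH : Factor χ H) {u u' x a : V} {t : ℤ} (ht : t = 1 ∨ t = -1)
    (h1 : s(u, u') ∈ H) (h1' : χ s(u, u') = t) (h2 : s(x, a) ∈ H) (h2' : χ s(x, a) = t)
    (h3 : χ s(u, a) = t) (h4 : χ s(u', x) = t) (hc : ¬ Conn H u x) : Merge χ H u x := by
  have ht0 : -t ≠ 0 := by
    rcases ht with h | h <;> rw [h] <;> decide
  have hl : ∀ v, s(v, v) ∉ H := fun v hv => hH.edge _ hv (hS.diag v)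
  have hv : ∀ e ∈ H, χ e = 1 ∨ χ e = -1 := by
    intro e he
    rcases hS.val e with h | h | h
    · exact Or.inl h
    · exact Or.inr h
    · exact absurd h (hH.edge e he)
  have n2 : s(u', x) ∉ H := fun h => hc ((Conn.of_mem h1).trans (Conn.of_mem h))
  have n4 : s(a, u) ∉ H := fun h => hc ((Conn.of_mem h2).trans (Conn.of_mem h)).symm
  set D : Finset (Sym2 V) := {s(u, u'), s(u', x), s(x, a), s(a, u)} with hD
  have m2 : s(u', x) ∈ symmDiff H D :=
    Finset.mem_symmDiff.2 (Or.inr ⟨by rw [hD]; simp, n2⟩)
  have m4 : s(a, u) ∈ symmDiff H D :=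
    Finset.mem_symmDiff.2 (Or.inr ⟨by rw [hD]; simp, n4⟩)
  have hDH : ∀ e ∈ D, e ∈ H → e = s(u, u') ∨ e = s(x, a) := by
    intro e he heH
    rw [hD] at he
    simp only [Finset.mem_insert, Finset.mem_singleton] at he
    rcases he with h | h | h | h
    · exact Or.inl h
    · exact absurd (h ▸ heH) n2
    · exact Or.inr h
    · exact absurd (h ▸ heH) n4
  have hF : Factor χ (symmDiff H D) := by
    refine factor_ex4 hS.diag hH ht0 ?_ ?_ ?_ ?_ ?_
    · unfold rho
      rw [if_pos h1, h1']
    · unfold rho
      rw [if_neg n2, h4, neg_neg]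
    · unfold rho
      rw [if_pos h2, h2']
    · unfold rho
      rw [if_neg n4, Sym2.eq_swap, h3, neg_neg]
    · intro e he heH v hve
      rcases hDH e he heH with h | h
      · rw [h, Sym2.mem_iff] at hve
        rcases hve with rfl | rfl
        · exact ⟨s(a, v), m4, by simp⟩
        · exact ⟨s(v, x), m2, by simp⟩
      · rw [h, Sym2.mem_iff] at hve
        rcases hve with rfl | rfl
        · exact ⟨s(u', v), m2, by simp⟩
        · exact ⟨s(v, u), m4, by simp⟩
  have hmono : ∀ p q, Conn H p q → Conn (symmDiff H D) p q := by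
    intro p q hpq
    refine conn_exch_mono ?_ hpq
    intro p q hpH hpD
    refine conn_exch_one (a := p) (b := q) (Conn.of_mem hpH)
      (no_bridge hl hv hpH (fun w _ => hH.bal w)) ?_
    intro y z hyH hyD hpy
    rcases hDH _ hpD hpH with e1 | e1
    · rcases hDH _ hyD hyH with e2 | e2
      · rw [e1, e2]
      · exfalso
        apply hc
        have c1 : Conn H u p := by
          have : p ∈ s(u, u') := by rw [← e1]; simp
          rw [Sym2.mem_iff] at this
          rcases this with rfl | rfl
          · exact Conn.refl _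
          · exact Conn.of_mem h1
        have c2 : Conn H y x := by
          have : y ∈ s(x, a) := by rw [← e2]; simp
          rw [Sym2.mem_iff] at this
          rcases this with rfl | rfl
          · exact Conn.refl _
          · exact Conn.of_mem' h2
        exact (c1.trans hpy).trans c2
    · rcases hDH _ hyD hyH with e2 | e2
      · exfalso
        apply hc
        have c1 : Conn H p x := by
          have : p ∈ s(x, a) := by rw [← e1]; simp
          rw [Sym2.mem_iff] at this
          rcases this with rfl | rfl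
          · exact Conn.refl _
          · exact Conn.of_mem' h2
        have c2 : Conn H u y := by
          have : y ∈ s(u, u') := by rw [← e2]; simp
          rw [Sym2.mem_iff] at this
          rcases this with rfl | rfl
          · exact Conn.refl _
          · exact Conn.of_mem h1
        exact (c2.trans hpy.symm).trans c1
      · rw [e1, e2]
  refine ⟨symmDiff H D, hF, hmono, ?_⟩
  exact (Conn.of_mem' m4).trans (hmono _ _ (Conn.of_mem' h2))

/-- An alternating 4-cycle outside `H` is added. -/
theorem add4 (hS : Split χ P) (hH : Factor χ H) {a b c d : V} {t : ℤ} (ht : t = 1 ∨ t = -1)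
    (h1 : χ s(a, b) = t) (h2 : χ s(b, c) = -t) (h3 : χ s(c, d) = t) (h4 : χ s(d, a) = -t)
    (n1 : s(a, b) ∉ H) (n2 : s(b, c) ∉ H) (n3 : s(c, d) ∉ H) (n4 : s(d, a) ∉ H) :
    Merge χ H a b := by
  have ht0 : t ≠ 0 := by
    rcases ht with h | h <;> rw [h] <;> decide
  set D : Finset (Sym2 V) := {s(a, b), s(b, c), s(c, d), s(d, a)} with hD
  have hDH : ∀ e ∈ D, e ∉ H := by
    intro e he
    rw [hD] at he
    simp only [Finset.mem_insert, Finset.mem_singleton] at he
    rcases he with rfl | rfl | rfl | rfl
    · exact n1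
    · exact n2
    · exact n3
    · exact n4
  have hsub : H ⊆ symmDiff H D := fun e he =>
    Finset.mem_symmDiff.2 (Or.inl ⟨he, fun h => hDH e h he⟩)
  refine ⟨symmDiff H D, ?_, fun x y hxy => hxy.sub hsub, ?_⟩
  · refine factor_ex4 hS.diag hH ht0 ?_ ?_ ?_ ?_ ?_
    · unfold rho
      rw [if_neg n1, h1]
    · unfold rho
      rw [if_neg n2, h2]
    · unfold rho
      rw [if_neg n3, h3]
    · unfold rho
      rw [if_neg n4, h4]
    · intro e he heH
      exact absurd heH (hDH e he)
  · exact Conn.of_mem (Finset.mem_symmDiff.2 (Or.inr ⟨by rw [hD]; simp, n1⟩))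

end Pool.Agent.Work.MP_a5655b_lc
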